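import Mathlib
set_option autoImplicit false

/-! The profile of the Fourier transform of the surface measure of the sphere: the function
`A_k(s) = ∫_0^π cos(s cos φ) sin^k φ dφ`, its differential equation and its asymptotics. -/

namespace Run7.h303.RB

open MeasureTheory Set Real Filter Topology

/-- the profile -/
noncomputable def pA (k : ℕ) (s : ℝ) : ℝ := ∫ φ in (0 : ℝ)..π, cos (s * cos φ) * sin φ ^ k

/-- its derivative -/
noncomputable def pB (k : ℕ) (s : ℝ) : ℝ :=
  ∫ φ in (0 : ℝ)..π, -(sin (s * cos φ) * cos φ) * sin φ ^ k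

/-- its second derivative -/
noncomputable def pC (k : ℕ) (s : ℝ) : ℝ :=
  ∫ φ in (0 : ℝ)..π, -(cos (s * cos φ) * cos φ * cos φ) * sin φ ^ k

lemma pA_deriv (k : ℕ) (s : ℝ) : HasDerivAt (pA k) (pB k s) s := by
  unfold pA pB
  refine (intervalIntegral.hasDerivAt_integral_of_dominated_loc_of_deriv_le
    (F := fun s φ => cos (s * cos φ) * sin φ ^ k)
    (F' := fun s φ => -(sin (s * cos φ) * cos φ) * sin φ ^ k)
    (bound := fun _ => 1) (s := univ) univ_mem ?_ ?_ ?_ ?_ ?_ ?_).2
  · exact Eventually.of_forall fun x => (by fun_prop : Continuous fun φ : ℝ =>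
      cos (x * cos φ) * sin φ ^ k).aestronglyMeasurable
  · exact (by fun_prop : Continuous fun φ : ℝ => cos (s * cos φ) * sin φ ^ k).intervalIntegrable _ _
  · exact (by fun_prop : Continuous fun φ : ℝ =>
      -(sin (s * cos φ) * cos φ) * sin φ ^ k).aestronglyMeasurable
  · refine ae_of_all _ fun φ _ x _ => ?_
    rw [norm_mul, norm_neg, norm_mul, norm_pow]
    have h1 : ‖sin (x * cos φ)‖ ≤ 1 := abs_sin_le_one _
    have h2 : ‖cos φ‖ ≤ 1 := abs_cos_le_one _
    have h3 : ‖sin φ‖ ^ k ≤ 1 := pow_le_one₀ (norm_nonneg _) (abs_sin_le_one _)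
    calc ‖sin (x * cos φ)‖ * ‖cos φ‖ * ‖sin φ‖ ^ k ≤ 1 * 1 * 1 := by gcongr
      _ = 1 := by norm_num
  · exact intervalIntegrable_const
  · refine ae_of_all _ fun φ _ x _ => ?_
    have h1 : HasDerivAt (fun x : ℝ => x * cos φ) (cos φ) x := by
      simpa using (hasDerivAt_id x).mul_const (cos φ)
    have h2 := (h1.cos).mul_const (sin φ ^ k)
    simpa using h2

lemma pB_deriv (k : ℕ) (s : ℝ) : HasDerivAt (pB k) (pC k s) s := by
  unfold pB pC
  refine (intervalIntegral.hasDerivAt_integral_of_dominated_loc_of_deriv_le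
    (F := fun s φ => -(sin (s * cos φ) * cos φ) * sin φ ^ k)
    (F' := fun s φ => -(cos (s * cos φ) * cos φ * cos φ) * sin φ ^ k)
    (bound := fun _ => 1) (s := univ) univ_mem ?_ ?_ ?_ ?_ ?_ ?_).2
  · exact Eventually.of_forall fun x => (by fun_prop : Continuous fun φ : ℝ =>
      -(sin (x * cos φ) * cos φ) * sin φ ^ k).aestronglyMeasurable
  · exact (by fun_prop : Continuous fun φ : ℝ =>
      -(sin (s * cos φ) * cos φ) * sin φ ^ k).intervalIntegrable _ _
  · exact (by fun_prop : Continuous fun φ : ℝ =>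
      -(cos (s * cos φ) * cos φ * cos φ) * sin φ ^ k).aestronglyMeasurable
  · refine ae_of_all _ fun φ _ x _ => ?_
    rw [norm_mul, norm_neg, norm_mul, norm_mul, norm_pow]
    have h1 : ‖cos (x * cos φ)‖ ≤ 1 := abs_cos_le_one _
    have h2 : ‖cos φ‖ ≤ 1 := abs_cos_le_one _
    have h3 : ‖sin φ‖ ^ k ≤ 1 := pow_le_one₀ (norm_nonneg _) (abs_sin_le_one _)
    calc ‖cos (x * cos φ)‖ * ‖cos φ‖ * ‖cos φ‖ * ‖sin φ‖ ^ k ≤ 1 * 1 * 1 * 1 := by gcongr
      _ = 1 := by norm_num
  · exact intervalIntegrable_const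
  · refine ae_of_all _ fun φ _ x _ => ?_
    have h1 : HasDerivAt (fun x : ℝ => x * cos φ) (cos φ) x := by
      simpa using (hasDerivAt_id x).mul_const (cos φ)
    have h2 := (((h1.sin).mul_const (cos φ)).neg).mul_const (sin φ ^ k)
    simpa using h2

/-- the differential equation -/
lemma p_ode (k : ℕ) (s : ℝ) : s * (pC k s + pA k s) = -((k : ℝ) + 1) * pB k s := by
  have h1 : ∀ φ : ℝ, HasDerivAt (fun φ => sin (s * cos φ) * sin φ ^ (k + 1))
      ((cos (s * cos φ) * (s * -sin φ)) * sin φ ^ (k + 1) +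
        sin (s * cos φ) * (((k + 1 : ℕ) : ℝ) * sin φ ^ k * cos φ)) φ := by
    intro φ
    have h2 : HasDerivAt (fun φ : ℝ => s * cos φ) (s * -sin φ) φ :=
      (hasDerivAt_cos φ).const_mul s
    have h3 := (h2.sin).fun_mul ((hasDerivAt_sin φ).fun_pow (k + 1))
    simpa using h3
  have h2 := intervalIntegral.integral_eq_sub_of_hasDerivAt (a := 0) (b := π)
    (fun φ _ => h1 φ) ((by fun_prop : Continuous fun φ : ℝ =>
      (cos (s * cos φ) * (s * -sin φ)) * sin φ ^ (k + 1) +
        sin (s * cos φ) * (((k + 1 : ℕ) : ℝ) * sin φ ^ k * cos φ)).intervalIntegrable _ _)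
  simp only [sin_pi, sin_zero, ne_eq, Nat.add_eq_zero_iff, one_ne_zero, and_false,
    not_false_eq_true, zero_pow, mul_zero, sub_zero] at h2
  unfold pA pB pC
  rw [← intervalIntegral.integral_add
    ((by fun_prop : Continuous fun φ : ℝ =>
      -(cos (s * cos φ) * cos φ * cos φ) * sin φ ^ k).intervalIntegrable _ _)
    ((by fun_prop : Continuous fun φ : ℝ => cos (s * cos φ) * sin φ ^ k).intervalIntegrable _ _),
    ← intervalIntegral.integral_const_mul, ← intervalIntegral.integral_const_mul,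
    ← sub_eq_zero, ← intervalIntegral.integral_sub
    ((by fun_prop : Continuous fun φ : ℝ => s * (-(cos (s * cos φ) * cos φ * cos φ) * sin φ ^ k +
      cos (s * cos φ) * sin φ ^ k)).intervalIntegrable _ _)
    ((by fun_prop : Continuous fun φ : ℝ =>
      -((k : ℝ) + 1) * (-(sin (s * cos φ) * cos φ) * sin φ ^ k)).intervalIntegrable _ _)]
  rw [← neg_eq_zero, ← intervalIntegral.integral_neg]
  refine Eq.trans ?_ h2
  apply intervalIntegral.integral_congr
  intro φ _
  simp only
  have h4 := sin_sq_add_cos_sq φ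
  push_cast
  have h5 : cos φ * cos φ = 1 - sin φ ^ 2 := by linarith [sq (cos φ)]
  linear_combination (s * cos (s * cos φ) * sin φ ^ k) * h5

/-- the exponent `(k + 1) / 2` -/
noncomputable def pe (k : ℕ) : ℝ := ((k : ℝ) + 1) / 2

/-- the normalised profile -/
noncomputable def pW (k : ℕ) (s : ℝ) : ℝ := s ^ pe k * pA k s

/-- its derivative -/
noncomputable def pV (k : ℕ) (s : ℝ) : ℝ := pe k * s ^ (pe k - 1) * pA k s + s ^ pe k * pB k s

lemma pW_deriv (k : ℕ) {s : ℝ} (hs : 0 < s) : HasDerivAt (pW k) (pV k s) s := by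
  unfold pW pV
  exact (hasDerivAt_rpow_const (Or.inl hs.ne')).mul (pA_deriv k s)

lemma pV_deriv (k : ℕ) {s : ℝ} (hs : 0 < s) :
    HasDerivAt (pV k) (-(1 - pe k * (pe k - 1) / s ^ 2) * pW k s) s := by
  have h1 : HasDerivAt (pV k)
      ((pe k * ((pe k - 1) * s ^ (pe k - 1 - 1)) * pA k s + pe k * s ^ (pe k - 1) * pB k s) +
        (pe k * s ^ (pe k - 1) * pB k s + s ^ pe k * pC k s)) s := by
    unfold pV
    exact ((((hasDerivAt_rpow_const (Or.inl hs.ne')).const_mul (pe k)).mul (pA_deriv k s))).add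
      ((hasDerivAt_rpow_const (Or.inl hs.ne')).mul (pB_deriv k s))
  refine h1.congr_deriv ?_
  have h2 : s ^ (pe k - 1) = s ^ pe k / s := by
    rw [rpow_sub_one hs.ne']
  have h3 : s ^ (pe k - 1 - 1) = s ^ pe k / s / s := by
    rw [rpow_sub_one hs.ne', rpow_sub_one hs.ne']
  have h4 := p_ode k s
  have h5 : pC k s = -((k : ℝ) + 1) * pB k s / s - pA k s := by
    field_simp
    linarith
  rw [h2, h3, h5]
  unfold pW pe
  field_simp
  ring

/-- the energy -/
noncomputable def pE (k : ℕ) (s : ℝ) : ℝ := pV k s ^ 2 + pW k s ^ 2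

lemma pE_bound (k : ℕ) : ∃ C : ℝ, 0 ≤ C ∧ ∀ s : ℝ, 1 ≤ s → |pW k s| ≤ C ∧ |pV k s| ≤ C := by
  set c : ℝ := |pe k * (pe k - 1)| with hc
  have hE : ∀ s : ℝ, 0 < s → HasDerivAt (pE k)
      (2 * pV k s * (pe k * (pe k - 1) / s ^ 2 * pW k s)) s := by
    intro s hs
    have h1 : HasDerivAt (pE k) (2 * pV k s * (-(1 - pe k * (pe k - 1) / s ^ 2) * pW k s) +
        2 * pW k s * pV k s) s := by
      unfold pE
      have h2 := ((pV_deriv k hs).fun_pow 2).fun_add ((pW_deriv k hs).fun_pow 2)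
      simpa using h2
    refine h1.congr_deriv ?_
    ring
  set G : ℝ → ℝ := fun s => pE k s * exp (c / s) with hG
  have hGd : ∀ s : ℝ, 0 < s → HasDerivAt G
      (2 * pV k s * (pe k * (pe k - 1) / s ^ 2 * pW k s) * exp (c / s) +
        pE k s * (exp (c / s) * (-c / s ^ 2))) s := by
    intro s hs
    have h1 : HasDerivAt (fun s : ℝ => c / s) (-c / s ^ 2) s := by
      have h2 := (hasDerivAt_inv hs.ne').const_mul c
      have h3 : (fun s : ℝ => c / s) = fun s => c * s⁻¹ := by
        ext s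
        rw [div_eq_mul_inv]
      rw [h3]
      refine h2.congr_deriv ?_
      ring
    exact (hE s hs).mul h1.exp
  have hanti : AntitoneOn G (Ici 1) := by
    apply antitoneOn_of_deriv_nonpos (convex_Ici 1)
    · intro s hs
      exact (hGd s (by linarith [show (1 : ℝ) ≤ s from hs])).continuousAt.continuousWithinAt
    · intro s hs
      rw [interior_Ici] at hs
      exact (hGd s (by linarith [show (1 : ℝ) < s from hs])).differentiableAt.differentiableWithinAt
    · intro s hs
      rw [interior_Ici] at hs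
      have hs0 : 0 < s := by linarith [show (1 : ℝ) < s from hs]
      rw [(hGd s hs0).deriv]
      have h1 : 2 * pV k s * (pe k * (pe k - 1) / s ^ 2 * pW k s) ≤ pE k s * (c / s ^ 2) := by
        have h2 : 2 * |pV k s| * |pW k s| ≤ pE k s := by
          unfold pE
          have := sq_nonneg (|pV k s| - |pW k s|)
          rw [← sq_abs (pV k s), ← sq_abs (pW k s)]
          linarith
        calc 2 * pV k s * (pe k * (pe k - 1) / s ^ 2 * pW k s)
            ≤ |2 * pV k s * (pe k * (pe k - 1) / s ^ 2 * pW k s)| := le_abs_self _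
          _ = 2 * |pV k s| * |pW k s| * (c / s ^ 2) := by
              rw [abs_mul, abs_mul, abs_mul, abs_div, ← hc, abs_of_pos (two_pos : (0 : ℝ) < 2),
                abs_of_pos (by positivity : 0 < s ^ 2)]
              ring
          _ ≤ pE k s * (c / s ^ 2) := by
              gcongr
      have h3 : (2 * pV k s * (pe k * (pe k - 1) / s ^ 2 * pW k s) - pE k s * (c / s ^ 2)) *
          exp (c / s) ≤ 0 :=
        mul_nonpos_of_nonpos_of_nonneg (by linarith) (exp_pos _).le
      calc 2 * pV k s * (pe k * (pe k - 1) / s ^ 2 * pW k s) * exp (c / s) +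
            pE k s * (exp (c / s) * (-c / s ^ 2))
          = (2 * pV k s * (pe k * (pe k - 1) / s ^ 2 * pW k s) - pE k s * (c / s ^ 2)) *
              exp (c / s) := by ring
        _ ≤ 0 := h3
  have hc0 : 0 ≤ c := abs_nonneg _
  have h0 : ∀ s : ℝ, 1 ≤ s → pE k s ≤ G 1 := by
    intro s hs
    have h1 := hanti (mem_Ici.2 (le_refl (1 : ℝ))) (mem_Ici.2 hs) hs
    have h2 : pE k s ≤ G s := by
      have h3 : 1 ≤ exp (c / s) := one_le_exp (by positivity)
      have h4 : 0 ≤ pE k s := by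
        unfold pE
        positivity
      calc pE k s = pE k s * 1 := (mul_one _).symm
        _ ≤ pE k s * exp (c / s) := by gcongr
    exact h2.trans h1
  refine ⟨√(G 1), sqrt_nonneg _, ?_⟩
  intro s hs
  have h1 := h0 s hs
  unfold pE at h1
  constructor
  · rw [← sqrt_sq_eq_abs]
    apply sqrt_le_sqrt
    nlinarith [sq_nonneg (pV k s)]
  · rw [← sqrt_sq_eq_abs]
    apply sqrt_le_sqrt
    nlinarith [sq_nonneg (pW k s)]

lemma pW_cont (k : ℕ) : ContinuousOn (pW k) (Ioi 0) := fun s hs =>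
  (pW_deriv k hs).continuousAt.continuousWithinAt

end Run7.h303.RB
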