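import Mathlib
import Pool.Agent.TH277.HT.D
import Pool.Agent.Run7.h303.RB.A
set_option autoImplicit false
set_option linter.unusedSectionVars false

/-! The asymptotics of the profile and the reduction of the radial extension operator to the one
dimensional one. -/

namespace Run7.h303.RB

open MeasureTheory Set Filter Topology
open scoped ENNReal NNReal
open Pool.Agent.TH277.HT (ch E1 Adm tr)

/-- the amplitudes -/
noncomputable def bf (σ : ℝ) (k : ℕ) (s : ℝ) : ℂ :=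
  (1 / 2) * Complex.exp (-(σ * Complex.I) * (s : ℂ)) *
    ((pW k s : ℂ) - σ * Complex.I * (pV k s : ℂ))

/-- the derivatives of the amplitudes -/
noncomputable def bf' (σ : ℝ) (k : ℕ) (s : ℝ) : ℂ :=
  -(σ * Complex.I / 2) * Complex.exp (-(σ * Complex.I) * (s : ℂ)) *
    ((pe k * (pe k - 1) / s ^ 2 * pW k s : ℝ) : ℂ)

lemma expn (σ s : ℝ) : ‖Complex.exp (-(σ * Complex.I) * (s : ℂ))‖ = 1 := by
  rw [show -((σ : ℂ) * Complex.I) * (s : ℂ) = ((-(σ * s) : ℝ) : ℂ) * Complex.I by push_cast; ring]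
  exact Complex.norm_exp_ofReal_mul_I _

lemma bf_sum (k : ℕ) (s : ℝ) :
    (pW k s : ℂ) = bf 1 k s * Complex.exp (s * Complex.I) +
      bf (-1) k s * Complex.exp (-(s * Complex.I)) := by
  unfold bf
  have h1 : Complex.exp (-(((1 : ℝ) : ℂ) * Complex.I) * (s : ℂ)) * Complex.exp (s * Complex.I) =
      1 := by
    rw [← Complex.exp_add, show -(((1 : ℝ) : ℂ) * Complex.I) * (s : ℂ) + s * Complex.I = 0 by
      push_cast; ring, Complex.exp_zero]
  have h2 : Complex.exp (-((((-1) : ℝ) : ℂ) * Complex.I) * (s : ℂ)) *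
      Complex.exp (-(s * Complex.I)) = 1 := by
    rw [← Complex.exp_add, show -((((-1) : ℝ) : ℂ) * Complex.I) * (s : ℂ) + -(s * Complex.I) = 0 by
      push_cast; ring, Complex.exp_zero]
  calc (pW k s : ℂ) = (1 / 2) * (((pW k s : ℂ) - ((1 : ℝ) : ℂ) * Complex.I * (pV k s : ℂ))) * 1 +
      (1 / 2) * (((pW k s : ℂ) - (((-1) : ℝ) : ℂ) * Complex.I * (pV k s : ℂ))) * 1 := by
        push_cast
        ring
    _ = _ := by
        linear_combination (-(1 / 2) * (((pW k s : ℂ) - ((1 : ℝ) : ℂ) * Complex.I * (pV k s : ℂ)))) *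
          h1 + (-(1 / 2) * (((pW k s : ℂ) - (((-1) : ℝ) : ℂ) * Complex.I * (pV k s : ℂ)))) * h2

lemma bf_deriv {σ : ℝ} (hσ : σ ^ 2 = 1) (k : ℕ) {s : ℝ} (hs : 0 < s) :
    HasDerivAt (bf σ k) (bf' σ k s) s := by
  have h1 : HasDerivAt (fun s : ℝ => Complex.exp (-(σ * Complex.I) * (s : ℂ)))
      (Complex.exp (-(σ * Complex.I) * (s : ℂ)) * (-(σ * Complex.I))) s := by
    have h2 : HasDerivAt (fun s : ℝ => -(σ * Complex.I) * (s : ℂ)) (-(σ * Complex.I)) s := by
      simpa using (Complex.ofRealCLM.hasDerivAt (x := s)).const_mul (-(σ * Complex.I))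
    exact h2.cexp
  have h3 : HasDerivAt (fun s : ℝ => (pW k s : ℂ) - σ * Complex.I * (pV k s : ℂ))
      ((pV k s : ℂ) - σ * Complex.I * ((-(1 - pe k * (pe k - 1) / s ^ 2) * pW k s : ℝ) : ℂ)) s :=
    ((pW_deriv k hs).ofReal_comp).sub (((pV_deriv k hs).ofReal_comp).const_mul _)
  have h4 := (h1.const_mul (1 / 2 : ℂ)).mul h3
  refine h4.congr_deriv ?_
  unfold bf'
  have hσ2 : (σ : ℂ) ^ 2 = 1 := by exact_mod_cast hσ
  have hI : Complex.I ^ 2 = -1 := Complex.I_sq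
  push_cast
  generalize Complex.exp (-(σ * Complex.I) * (s : ℂ)) = e
  generalize (pW k s : ℂ) = w
  generalize (pV k s : ℂ) = v
  generalize ((pe k : ℂ) * ((pe k : ℂ) - 1) / (s : ℂ) ^ 2) = c
  linear_combination (1 / 2 * e * v) * hσ2 * (Complex.I ^ 2) + (1 / 2 * e * v) * hI

lemma bf_cont {σ : ℝ} (hσ : σ ^ 2 = 1) (k : ℕ) : ContinuousOn (bf σ k) (Ioi 0) := fun s hs =>
  (bf_deriv hσ k hs).continuousAt.continuousWithinAt

lemma bf'_cont (σ : ℝ) (k : ℕ) : ContinuousOn (bf' σ k) (Ioi 0) := by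
  unfold bf'
  apply ContinuousOn.mul
  · fun_prop
  · apply Complex.continuous_ofReal.comp_continuousOn
    apply ContinuousOn.mul _ (pW_cont k)
    apply ContinuousOn.div continuousOn_const (by fun_prop)
    intro s hs
    have : 0 < s := hs
    positivity

/-- the amplitude in the radial variable -/
noncomputable def be (σ : ℝ) (k : ℕ) (r ρ : ℝ) : ℂ :=
  (((2 * Real.pi * r) ^ (-pe k) * ρ ^ pe k : ℝ) : ℂ) * bf σ k (2 * Real.pi * r * ρ)

/-- its derivative -/
noncomputable def be' (σ : ℝ) (k : ℕ) (r ρ : ℝ) : ℂ :=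
  (((2 * Real.pi * r) ^ (-pe k) * (pe k * ρ ^ (pe k - 1)) : ℝ) : ℂ) *
      bf σ k (2 * Real.pi * r * ρ) +
    (((2 * Real.pi * r) ^ (-pe k) * ρ ^ pe k : ℝ) : ℂ) *
      (((2 * Real.pi * r : ℝ) : ℂ) * bf' σ k (2 * Real.pi * r * ρ))

lemma be_deriv {σ : ℝ} (hσ : σ ^ 2 = 1) (k : ℕ) {r ρ : ℝ} (hr : 0 < r) (hρ : 0 < ρ) :
    HasDerivAt (be σ k r) (be' σ k r ρ) ρ := by
  have hp := Real.pi_pos
  have h1 : HasDerivAt (fun ρ : ℝ => (((2 * Real.pi * r) ^ (-pe k) * ρ ^ pe k : ℝ) : ℂ))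
      ((((2 * Real.pi * r) ^ (-pe k) * (pe k * ρ ^ (pe k - 1)) : ℝ) : ℂ)) ρ :=
    ((Real.hasDerivAt_rpow_const (Or.inl hρ.ne')).const_mul _).ofReal_comp
  have h2 : HasDerivAt (fun ρ : ℝ => 2 * Real.pi * r * ρ) (2 * Real.pi * r) ρ := by
    simpa using (hasDerivAt_id ρ).const_mul (2 * Real.pi * r)
  have h3 : HasDerivAt (fun ρ : ℝ => bf σ k (2 * Real.pi * r * ρ))
      (((2 * Real.pi * r : ℝ) : ℂ) * bf' σ k (2 * Real.pi * r * ρ)) ρ := by
    have h4 := HasDerivAt.scomp ρ (bf_deriv hσ k (s := 2 * Real.pi * r * ρ) (by positivity)) h2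
    refine h4.congr_deriv ?_
    rw [Complex.real_smul]
  exact h1.mul h3

lemma be'_cont {σ : ℝ} (hσ : σ ^ 2 = 1) (k : ℕ) {r : ℝ} (hr : 0 < r) :
    ContinuousOn (be' σ k r) (Ioi 0) := by
  have hp := Real.pi_pos
  have hm : MapsTo (fun ρ : ℝ => 2 * Real.pi * r * ρ) (Ioi 0) (Ioi 0) := by
    intro ρ hρ
    have : 0 < ρ := hρ
    exact mem_Ioi.2 (by positivity)
  have hc : Continuous fun ρ : ℝ => 2 * Real.pi * r * ρ := by fun_prop
  unfold be'
  apply ContinuousOn.add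
  · apply ContinuousOn.mul
    · apply Complex.continuous_ofReal.comp_continuousOn
      apply ContinuousOn.mul continuousOn_const
      apply ContinuousOn.mul continuousOn_const
      exact fun ρ hρ => (Real.continuousAt_rpow_const _ _ (Or.inl
        (ne_of_gt (show (0 : ℝ) < ρ from hρ)))).continuousWithinAt
    · exact (bf_cont hσ k).comp hc.continuousOn hm
  · apply ContinuousOn.mul
    · apply Complex.continuous_ofReal.comp_continuousOn
      apply ContinuousOn.mul continuousOn_const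
      exact fun ρ hρ => (Real.continuousAt_rpow_const _ _ (Or.inl
        (ne_of_gt (show (0 : ℝ) < ρ from hρ)))).continuousWithinAt
    · exact continuousOn_const.mul ((bf'_cont σ k).comp hc.continuousOn hm)

lemma be_bound (k : ℕ) : ∃ C : ℝ, 0 ≤ C ∧ ∀ σ : ℝ, σ ^ 2 = 1 → ∀ r : ℝ, 1 ≤ r →
    ∀ ρ ∈ Icc (1 / 2 : ℝ) 1, ‖be σ k r ρ‖ ≤ C * r ^ (-pe k) ∧ ‖be' σ k r ρ‖ ≤ C * r ^ (-pe k) := by
  obtain ⟨C, hC0, hC⟩ := pE_bound k
  have hp := Real.pi_gt_three
  have hpe : 0 < pe k := by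
    unfold pe
    positivity
  have hpe2 : 1 / 2 ≤ pe k := by
    unfold pe
    have : (0 : ℝ) ≤ k := Nat.cast_nonneg k
    linarith
  set c : ℝ := |pe k * (pe k - 1)| with hc
  have hc0 : 0 ≤ c := abs_nonneg _
  refine ⟨pe k * 2 * C + c * C + C, by positivity, ?_⟩
  intro σ hσ r hr ρ hρ
  have hr0 : 0 < r := by linarith
  have hρ0 : 0 < ρ := by linarith [hρ.1]
  have hs : 1 ≤ 2 * Real.pi * r * ρ := by
    have h1 : 1 ≤ 2 * ρ := by linarith [hρ.1]
    calc (1 : ℝ) = 1 * 1 * 1 := by norm_num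
      _ ≤ Real.pi * r * (2 * ρ) := by gcongr; linarith
      _ = 2 * Real.pi * r * ρ := by ring
  have hσn : ‖(σ : ℂ)‖ = 1 := by
    rw [Complex.norm_real]
    have h1 : ‖σ‖ ^ 2 = 1 := by
      rw [Real.norm_eq_abs, sq_abs]
      exact hσ
    have h2 := norm_nonneg σ
    nlinarith
  have hb1 : ‖bf σ k (2 * Real.pi * r * ρ)‖ ≤ C := by
    unfold bf
    rw [norm_mul, norm_mul, expn]
    have h1 := hC _ hs
    have h2 : ‖(pW k (2 * Real.pi * r * ρ) : ℂ) -
        σ * Complex.I * (pV k (2 * Real.pi * r * ρ) : ℂ)‖ ≤ C + C := by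
      refine (norm_sub_le _ _).trans ?_
      rw [norm_mul, norm_mul, hσn, Complex.norm_I, Complex.norm_real, Complex.norm_real]
      have h3 := h1.1
      have h4 := h1.2
      rw [Real.norm_eq_abs, Real.norm_eq_abs]
      linarith
    have h3 : ‖(1 / 2 : ℂ)‖ = 1 / 2 := by
      rw [norm_div]
      simp
    rw [h3]
    linarith
  have hb2 : ‖((2 * Real.pi * r : ℝ) : ℂ) * bf' σ k (2 * Real.pi * r * ρ)‖ ≤ c * C := by
    unfold bf'
    have h1 := hC _ hs
    have e1 : ‖((2 * Real.pi * r : ℝ) : ℂ)‖ = 2 * Real.pi * r := by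
      rw [Complex.norm_real, Real.norm_of_nonneg (by positivity)]
    have e2 : ‖((pe k * (pe k - 1) / (2 * Real.pi * r * ρ) ^ 2 *
        pW k (2 * Real.pi * r * ρ) : ℝ) : ℂ)‖ = c / (2 * Real.pi * r * ρ) ^ 2 *
          |pW k (2 * Real.pi * r * ρ)| := by
      rw [Complex.norm_real, Real.norm_eq_abs, abs_mul, abs_div, ← hc,
        abs_of_pos (by positivity : 0 < (2 * Real.pi * r * ρ) ^ 2)]
    rw [norm_mul, e1, norm_mul, e2, norm_mul, expn, norm_neg, norm_div, norm_mul, hσn,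
      Complex.norm_I]
    have h2 : ‖(2 : ℂ)‖ = 2 := by simp
    rw [h2]
    have h3 : 2 * Real.pi * r / (2 * Real.pi * r * ρ) ^ 2 ≤ 2 := by
      rw [div_le_iff₀ (by positivity)]
      calc 2 * Real.pi * r = 1 * (2 * Real.pi * r) := (one_mul _).symm
        _ ≤ (2 * Real.pi * r * ρ) * (2 * Real.pi * r) := by gcongr
        _ = (2 * Real.pi * r * ρ) * (2 * Real.pi * r) * 1 := (mul_one _).symm
        _ ≤ (2 * Real.pi * r * ρ) * (2 * Real.pi * r) * (2 * ρ) := by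
            gcongr
            linarith [hρ.1]
        _ = 2 * (2 * Real.pi * r * ρ) ^ 2 := by ring
    calc 2 * Real.pi * r * (1 * 1 / 2 * 1 * (c / (2 * Real.pi * r * ρ) ^ 2 *
          |pW k (2 * Real.pi * r * ρ)|))
        = (2 * Real.pi * r / (2 * Real.pi * r * ρ) ^ 2) / 2 * (c *
          |pW k (2 * Real.pi * r * ρ)|) := by ring
      _ ≤ 2 / 2 * (c * C) := by
          gcongr
          exact h1.1
      _ = c * C := by ring
  have hA : (2 * Real.pi * r) ^ (-pe k) ≤ r ^ (-pe k) := by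
    apply Real.rpow_le_rpow_of_nonpos hr0
    · calc r = 1 * r := (one_mul r).symm
        _ ≤ 2 * Real.pi * r := by gcongr; linarith
    · linarith
  have hA0 : 0 ≤ (2 * Real.pi * r) ^ (-pe k) := by positivity
  have hB : ρ ^ pe k ≤ 1 := Real.rpow_le_one hρ0.le hρ.2 hpe.le
  have hB0 : 0 ≤ ρ ^ pe k := by positivity
  have hD : ρ ^ (pe k - 1) ≤ 2 := by
    calc ρ ^ (pe k - 1) ≤ ρ ^ (-1 : ℝ) := by
          apply Real.rpow_le_rpow_of_exponent_ge hρ0 hρ.2
          linarith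
      _ = ρ⁻¹ := Real.rpow_neg_one ρ
      _ ≤ 2 := by
          rw [inv_le_comm₀ hρ0 two_pos]
          linarith [hρ.1]
  have hD0 : 0 ≤ ρ ^ (pe k - 1) := by positivity
  have hrp : 0 ≤ r ^ (-pe k) := by positivity
  constructor
  · unfold be
    rw [norm_mul, Complex.norm_real, Real.norm_of_nonneg (by positivity)]
    calc (2 * Real.pi * r) ^ (-pe k) * ρ ^ pe k * ‖bf σ k (2 * Real.pi * r * ρ)‖
        ≤ r ^ (-pe k) * 1 * C := by gcongr
      _ ≤ (pe k * 2 * C + c * C + C) * r ^ (-pe k) := by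
          have h1 : 0 ≤ (pe k * 2 * C + c * C) * r ^ (-pe k) := by positivity
          linarith
  · unfold be'
    refine (norm_add_le _ _).trans ?_
    rw [norm_mul, norm_mul (((2 * Real.pi * r) ^ (-pe k) * ρ ^ pe k : ℝ) : ℂ), Complex.norm_real,
      Complex.norm_real, Real.norm_of_nonneg (by positivity), Real.norm_of_nonneg (by positivity)]
    calc (2 * Real.pi * r) ^ (-pe k) * (pe k * ρ ^ (pe k - 1)) *
          ‖bf σ k (2 * Real.pi * r * ρ)‖ +
          (2 * Real.pi * r) ^ (-pe k) * ρ ^ pe k *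
          ‖((2 * Real.pi * r : ℝ) : ℂ) * bf' σ k (2 * Real.pi * r * ρ)‖
        ≤ r ^ (-pe k) * (pe k * 2) * C + r ^ (-pe k) * 1 * (c * C) := by gcongr
      _ ≤ (pe k * 2 * C + c * C + C) * r ^ (-pe k) := by
          have h1 : 0 ≤ C * r ^ (-pe k) := by positivity
          linarith

/-- the decomposition of the profile -/
lemma be_sum (k : ℕ) {r ρ : ℝ} (hr : 0 < r) (hρ : 0 < ρ) :
    ((ρ ^ (k + 1) * pA k (2 * Real.pi * r * ρ) : ℝ) : ℂ) =
      be 1 k r ρ * ch (r * ρ) + be (-1) k r ρ * ch (-(r * ρ)) := by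
  have hp := Real.pi_pos
  have hs : 0 < 2 * Real.pi * r * ρ := by positivity
  have h1 : ρ ^ (k + 1) * pA k (2 * Real.pi * r * ρ) =
      (2 * Real.pi * r) ^ (-pe k) * ρ ^ pe k * pW k (2 * Real.pi * r * ρ) := by
    unfold pW
    have h2 : (2 * Real.pi * r * ρ) ^ pe k = (2 * Real.pi * r) ^ pe k * ρ ^ pe k :=
      Real.mul_rpow (by positivity) hρ.le
    have h3 : (2 * Real.pi * r) ^ (-pe k) * (2 * Real.pi * r) ^ pe k = 1 := by
      rw [← Real.rpow_add (by positivity), neg_add_cancel, Real.rpow_zero]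
    have h4 : ρ ^ pe k * ρ ^ pe k = ρ ^ (k + 1) := by
      rw [← Real.rpow_add hρ, ← Real.rpow_natCast]
      congr 1
      unfold pe
      push_cast
      ring
    rw [h2]
    calc ρ ^ (k + 1) * pA k (2 * Real.pi * r * ρ) = 1 * ρ ^ (k + 1) * pA k (2 * Real.pi * r * ρ) := by
          rw [one_mul]
      _ = _ := by
          rw [← h3, ← h4]
          ring
  rw [h1]
  unfold be
  have h5 := bf_sum k (2 * Real.pi * r * ρ)
  have e1 : ch (r * ρ) = Complex.exp (((2 * Real.pi * r * ρ : ℝ) : ℂ) * Complex.I) := by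
    unfold ch
    congr 1
    push_cast
    ring
  have e2 : ch (-(r * ρ)) = Complex.exp (-(((2 * Real.pi * r * ρ : ℝ) : ℂ) * Complex.I)) := by
    unfold ch
    congr 1
    push_cast
    ring
  rw [e1, e2, Complex.ofReal_mul, h5]
  ring

end Run7.h303.RB
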