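import Mathlib
import Pool.Agent.Run7.h303.RB.A2
set_option autoImplicit false
set_option linter.unusedSectionVars false

/-! Summation by parts against the amplitude. -/

namespace Run7.h303.RB

open MeasureTheory Set Filter Topology
open scoped ENNReal NNReal
open Pool.Agent.TH277.HT (ch E1 Adm tr)

/-- the interval `[1/2, 1]` -/
def JJ : Set ℝ := Icc (1 / 2 : ℝ) 1

lemma JJ_meas : MeasurableSet JJ := measurableSet_Icc

instance : IsFiniteMeasure (volume.restrict JJ) := ⟨by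
  rw [Measure.restrict_apply_univ, JJ, Real.volume_Icc]
  exact ENNReal.ofReal_lt_top⟩

lemma parts {H : Type} [NormedAddCommGroup H] [NormedSpace ℂ H] [CompleteSpace H] (β β' : ℝ → ℂ)
    (K : ℝ) (hK : 0 ≤ K)
    (hd : ∀ ρ ∈ JJ, HasDerivAt β (β' ρ) ρ) (hc : ContinuousOn β' JJ) (hb : ∀ ρ ∈ JJ, ‖β ρ‖ ≤ K)
    (hb' : ∀ ρ ∈ JJ, ‖β' ρ‖ ≤ K) (G : ℝ → H) (hG : StronglyMeasurable G) (hG1 : ∀ u, ‖G u‖ ≤ 1) :
    ‖∫ ρ in JJ, β ρ • G ρ‖ₑ ≤ ENNReal.ofReal K * (‖∫ ρ in JJ, G ρ‖ₑ +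
      ∫⁻ s in JJ, ‖∫ ρ in JJ, (Iio s).indicator G ρ‖ₑ) := by
  have h1mem : (1 : ℝ) ∈ JJ := ⟨by norm_num, le_refl _⟩
  -- the representation of β
  have key : ∀ ρ ∈ JJ, β ρ = β 1 - ∫ s in JJ, (Ioi ρ).indicator β' s := by
    intro ρ hρ
    have hsub : uIcc ρ 1 ⊆ JJ := by
      rw [uIcc_of_le hρ.2]
      exact Icc_subset_Icc_left hρ.1
    have h1 : ∫ s in ρ..1, β' s = β 1 - β ρ := by
      apply intervalIntegral.integral_eq_sub_of_hasDerivAt
      · intro s hs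
        exact hd s (hsub hs)
      · exact (hc.mono hsub).intervalIntegrable
    rw [intervalIntegral.integral_of_le hρ.2] at h1
    rw [setIntegral_indicator measurableSet_Ioi]
    have h2 : JJ ∩ Ioi ρ = Ioc ρ 1 := by
      ext s
      simp only [JJ, mem_inter_iff, mem_Icc, mem_Ioi, mem_Ioc]
      constructor
      · rintro ⟨⟨_, h⟩, h'⟩
        exact ⟨h', h⟩
      · rintro ⟨h, h'⟩
        exact ⟨⟨hρ.1.trans h.le, h'⟩, h⟩
    rw [h2, h1]
    ring
  have hGi : Integrable G (volume.restrict JJ) :=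
    Integrable.of_bound hG.aestronglyMeasurable 1 (ae_of_all _ hG1)
  have hβm : AEStronglyMeasurable β' (volume.restrict JJ) :=
    hc.aestronglyMeasurable JJ_meas
  -- the double integrand
  set Φ : ℝ × ℝ → H := ({p : ℝ × ℝ | p.1 < p.2}).indicator fun p => β' p.2 • G p.1 with hΦ
  have hset : MeasurableSet {p : ℝ × ℝ | p.1 < p.2} := measurableSet_lt measurable_fst measurable_snd
  have hΦm : AEStronglyMeasurable Φ ((volume.restrict JJ).prod (volume.restrict JJ)) := by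
    apply AEStronglyMeasurable.indicator _ hset
    exact hβm.comp_snd.smul (hG.comp_measurable measurable_fst).aestronglyMeasurable
  have hae : ∀ᵐ p : ℝ × ℝ ∂((volume.restrict JJ).prod (volume.restrict JJ)), p.1 ∈ JJ ∧ p.2 ∈ JJ := by
    rw [Measure.prod_restrict]
    refine (ae_restrict_iff' (JJ_meas.prod JJ_meas)).2 (ae_of_all _ fun p hp => hp)
  have hΦb : ∀ᵐ p : ℝ × ℝ ∂((volume.restrict JJ).prod (volume.restrict JJ)), ‖Φ p‖ ≤ K := by
    filter_upwards [hae] with p hp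
    rw [hΦ]
    by_cases h : p ∈ {p : ℝ × ℝ | p.1 < p.2}
    · rw [indicator_of_mem h, norm_smul]
      calc ‖β' p.2‖ * ‖G p.1‖ ≤ K * 1 := by
            gcongr
            · exact hb' _ hp.2
            · exact hG1 _
        _ = K := mul_one K
    · rw [indicator_of_notMem h, norm_zero]
      exact hK
  have hΦi : Integrable Φ ((volume.restrict JJ).prod (volume.restrict JJ)) :=
    Integrable.of_bound hΦm K hΦb
  have e1 : ∫ ρ in JJ, β ρ • G ρ = β 1 • (∫ ρ in JJ, G ρ) - ∫ ρ in JJ, ∫ s in JJ, Φ (ρ, s) := by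
    have h2 : ∀ ρ ∈ JJ, β ρ • G ρ = β 1 • G ρ - ∫ s in JJ, Φ (ρ, s) := by
      intro ρ hρ
      rw [key ρ hρ, sub_smul, ← integral_smul_const]
      congr 1
      apply integral_congr_ae
      refine ae_of_all _ fun s => ?_
      simp only [hΦ]
      by_cases h : ρ < s
      · rw [indicator_of_mem (show s ∈ Ioi ρ from h),
          indicator_of_mem (show (ρ, s) ∈ {p : ℝ × ℝ | p.1 < p.2} from h)]
      · rw [indicator_of_notMem (show s ∉ Ioi ρ from h),
          indicator_of_notMem (show (ρ, s) ∉ {p : ℝ × ℝ | p.1 < p.2} from h), zero_smul]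
    have h3 : Integrable (fun ρ => β 1 • G ρ) (volume.restrict JJ) := hGi.smul _
    rw [setIntegral_congr_fun JJ_meas h2, integral_sub h3 hΦi.integral_prod_left,
      integral_smul]
  have e2 : ∫ ρ in JJ, ∫ s in JJ, Φ (ρ, s) =
      ∫ s in JJ, β' s • ∫ ρ in JJ, (Iio s).indicator G ρ := by
    rw [integral_integral_swap (f := fun ρ s => Φ (ρ, s)) hΦi]
    apply integral_congr_ae
    refine ae_of_all _ fun s => ?_
    simp only [hΦ]
    rw [← integral_smul]
    apply integral_congr_ae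
    refine ae_of_all _ fun ρ => ?_
    simp only
    by_cases h : ρ < s
    · rw [indicator_of_mem (show ρ ∈ Iio s from h),
        indicator_of_mem (show (ρ, s) ∈ {p : ℝ × ℝ | p.1 < p.2} from h)]
    · rw [indicator_of_notMem (show ρ ∉ Iio s from h),
        indicator_of_notMem (show (ρ, s) ∉ {p : ℝ × ℝ | p.1 < p.2} from h), smul_zero]
  rw [e1, e2]
  have hKe : ∀ z : ℂ, ‖z‖ ≤ K → ‖z‖ₑ ≤ ENNReal.ofReal K := by
    intro z hz
    rw [← ofReal_norm]
    exact ENNReal.ofReal_le_ofReal hz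
  calc ‖β 1 • (∫ ρ in JJ, G ρ) - ∫ s in JJ, β' s • ∫ ρ in JJ, (Iio s).indicator G ρ‖ₑ
      ≤ ‖β 1 • (∫ ρ in JJ, G ρ)‖ₑ + ‖∫ s in JJ, β' s • ∫ ρ in JJ, (Iio s).indicator G ρ‖ₑ :=
        enorm_sub_le
    _ ≤ ENNReal.ofReal K * ‖∫ ρ in JJ, G ρ‖ₑ +
          ∫⁻ s in JJ, ‖β' s • ∫ ρ in JJ, (Iio s).indicator G ρ‖ₑ := by
        gcongr
        · rw [enorm_smul]
          gcongr
          exact hKe _ (hb 1 h1mem)
        · exact enorm_integral_le_lintegral_enorm _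
    _ ≤ ENNReal.ofReal K * ‖∫ ρ in JJ, G ρ‖ₑ +
          ∫⁻ s in JJ, ENNReal.ofReal K * ‖∫ ρ in JJ, (Iio s).indicator G ρ‖ₑ := by
        refine add_le_add le_rfl ?_
        apply setLIntegral_mono' JJ_meas
        intro s hs
        rw [enorm_smul]
        gcongr
        exact hKe _ (hb' s hs)
    _ = _ := by
        rw [lintegral_const_mul' _ _ ENNReal.ofReal_ne_top, mul_add]

variable {H : Type} [NormedAddCommGroup H] [InnerProductSpace ℂ H] [CompleteSpace H]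

/-- functions supported in `[1/2,1]` -/
def SJ (a : ℝ → H) : Prop := ∀ u, u ∉ JJ → a u = 0

/-- the cut off -/
noncomputable def cut (a : ℝ → H) (s : ℝ) : ℝ → H := (Iio s).indicator a

lemma cut_adm {a : ℝ → H} (ha : Adm a) (s : ℝ) : Adm (cut a s) := by
  refine ⟨ha.meas.indicator measurableSet_Iio, fun u => ?_⟩
  unfold cut
  by_cases h : u ∈ Iio s
  · rw [indicator_of_mem h]
    exact ha.bd u
  · rw [indicator_of_notMem h, norm_zero]
    exact zero_le_one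

lemma cut_SJ {a : ℝ → H} (ha : SJ a) (s : ℝ) : SJ (cut a s) := by
  intro u hu
  unfold cut
  by_cases h : u ∈ Iio s
  · rw [indicator_of_mem h]
    exact ha u hu
  · rw [indicator_of_notMem h]

lemma E1_SJ {a : ℝ → H} (ha : SJ a) (x t : ℝ) :
    E1 a x t = ∫ u in JJ, ch (u * x + u ^ 2 * t) • a u := by
  have h1 : ∀ u, u ∉ JJ → ch (u * x + u ^ 2 * t) • a u = 0 := by
    intro u hu
    rw [ha u hu, smul_zero]
  have h2 : ∀ u, u ∉ Icc (-1 : ℝ) 1 → ch (u * x + u ^ 2 * t) • a u = 0 := by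
    intro u hu
    apply h1
    intro h
    exact hu ⟨by linarith [h.1], h.2⟩
  unfold E1
  rw [setIntegral_eq_integral_of_forall_compl_eq_zero h1,
    setIntegral_eq_integral_of_forall_compl_eq_zero h2]

/-- the radial extension operator, in polar coordinates -/
noncomputable def FF (k : ℕ) (a : ℝ → H) (r t : ℝ) : H :=
  ∫ ρ in Ioi (0 : ℝ), ((ρ ^ (k + 1) * pA k (2 * Real.pi * r * ρ) : ℝ) : ℂ) • (ch (ρ ^ 2 * t) • a ρ)

lemma FF_SJ (k : ℕ) {a : ℝ → H} (ha : SJ a) (r t : ℝ) : FF k a r t = ∫ ρ in JJ,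
    ((ρ ^ (k + 1) * pA k (2 * Real.pi * r * ρ) : ℝ) : ℂ) • (ch (ρ ^ 2 * t) • a ρ) := by
  have h1 : ∀ ρ, ρ ∉ JJ →
      ((ρ ^ (k + 1) * pA k (2 * Real.pi * r * ρ) : ℝ) : ℂ) • (ch (ρ ^ 2 * t) • a ρ) = 0 := by
    intro u hu
    rw [ha u hu, smul_zero, smul_zero]
  have h2 : ∀ ρ, ρ ∉ Ioi (0 : ℝ) →
      ((ρ ^ (k + 1) * pA k (2 * Real.pi * r * ρ) : ℝ) : ℂ) • (ch (ρ ^ 2 * t) • a ρ) = 0 := by
    intro u hu
    apply h1
    intro h
    exact hu (mem_Ioi.2 (by linarith [h.1]))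
  unfold FF
  rw [setIntegral_eq_integral_of_forall_compl_eq_zero h1,
    setIntegral_eq_integral_of_forall_compl_eq_zero h2]

/-- the two dimensional quantity dominating the radial extension operator -/
noncomputable def DD (a : ℝ → H) (r t : ℝ) : ℝ≥0∞ :=
  (‖E1 a r t‖ₑ + ∫⁻ s in JJ, ‖E1 (cut a s) r t‖ₑ) +
    (‖E1 a (-r) t‖ₑ + ∫⁻ s in JJ, ‖E1 (cut a s) (-r) t‖ₑ)

lemma FF_le (k : ℕ) : ∃ C : ℝ, 0 ≤ C ∧ ∀ (H : Type) [NormedAddCommGroup H] [InnerProductSpace ℂ H]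
    [CompleteSpace H] (a : ℝ → H), Adm a → SJ a → ∀ r t : ℝ, 1 ≤ r →
      ‖FF k a r t‖ₑ ≤ ENNReal.ofReal (C * r ^ (-pe k)) * DD a r t := by
  obtain ⟨C, hC0, hC⟩ := be_bound k
  refine ⟨C, hC0, ?_⟩
  intro H _ _ _ a ha hs r t hr
  have hr0 : 0 < r := by linarith
  rw [FF_SJ k hs]
  -- the pieces
  have h1 : ∀ σ : ℝ, σ ^ 2 = 1 → ‖∫ ρ in JJ, be σ k r ρ • (ch (ρ * (σ * r) + ρ ^ 2 * t) • a ρ)‖ₑ ≤
      ENNReal.ofReal (C * r ^ (-pe k)) * (‖E1 a (σ * r) t‖ₑ +
        ∫⁻ s in JJ, ‖E1 (cut a s) (σ * r) t‖ₑ) := by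
    intro σ hσ
    have hm : StronglyMeasurable fun ρ : ℝ => ch (ρ * (σ * r) + ρ ^ 2 * t) • a ρ := by
      apply StronglyMeasurable.smul
      · have h2 : Continuous fun u : ℝ => ch (u * (σ * r) + u ^ 2 * t) :=
          Pool.Agent.TH277.HT.ch_cont.comp (by fun_prop)
        exact h2.stronglyMeasurable
      · exact ha.meas
    have h2 := parts (be σ k r) (be' σ k r) (C * r ^ (-pe k)) (by positivity)
      (fun ρ hρ => be_deriv hσ k hr0 (by linarith [hρ.1]))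
      ((be'_cont hσ k hr0).mono fun ρ hρ => mem_Ioi.2 (by linarith [hρ.1]))
      (fun ρ hρ => (hC σ hσ r hr ρ hρ).1) (fun ρ hρ => (hC σ hσ r hr ρ hρ).2)
      (fun ρ : ℝ => ch (ρ * (σ * r) + ρ ^ 2 * t) • a ρ) hm
      (fun u => by
        rw [norm_smul, Pool.Agent.TH277.HT.ch_norm, one_mul]
        exact ha.bd u)
    refine h2.trans (le_of_eq ?_)
    rw [← E1_SJ hs]
    congr 2
    apply lintegral_congr
    intro s
    congr 1
    rw [E1_SJ (cut_SJ hs s)]
    apply integral_congr_ae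
    refine ae_of_all _ fun ρ => ?_
    simp only [cut]
    by_cases h : ρ ∈ Iio s
    · rw [indicator_of_mem h, indicator_of_mem h]
    · rw [indicator_of_notMem h, indicator_of_notMem h, smul_zero]
  have hint : ∀ σ : ℝ, σ ^ 2 = 1 → IntegrableOn
      (fun ρ => be σ k r ρ • (ch (ρ * (σ * r) + ρ ^ 2 * t) • a ρ)) JJ := by
    intro σ hσ
    apply Integrable.of_bound (C := C * r ^ (-pe k))
    · apply AEStronglyMeasurable.smul
      · apply ContinuousOn.aestronglyMeasurable _ JJ_meas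
        intro ρ hρ
        exact (be_deriv hσ k hr0 (by linarith [hρ.1])).continuousAt.continuousWithinAt
      · apply StronglyMeasurable.aestronglyMeasurable
        apply StronglyMeasurable.smul
        · have h2 : Continuous fun u : ℝ => ch (u * (σ * r) + u ^ 2 * t) :=
            Pool.Agent.TH277.HT.ch_cont.comp (by fun_prop)
          exact h2.stronglyMeasurable
        · exact ha.meas
    · refine (ae_restrict_iff' JJ_meas).2 (ae_of_all _ fun ρ hρ => ?_)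
      rw [norm_smul, norm_smul, Pool.Agent.TH277.HT.ch_norm, one_mul]
      calc ‖be σ k r ρ‖ * ‖a ρ‖ ≤ C * r ^ (-pe k) * 1 := by
            gcongr
            · exact (hC σ hσ r hr ρ hρ).1
            · exact ha.bd ρ
        _ = _ := mul_one _
  have h3 : ∫ ρ in JJ, ((ρ ^ (k + 1) * pA k (2 * Real.pi * r * ρ) : ℝ) : ℂ) •
      (ch (ρ ^ 2 * t) • a ρ) =
      (∫ ρ in JJ, be 1 k r ρ • (ch (ρ * (1 * r) + ρ ^ 2 * t) • a ρ)) +
        ∫ ρ in JJ, be (-1) k r ρ • (ch (ρ * (-1 * r) + ρ ^ 2 * t) • a ρ) := by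
    rw [← integral_add (hint 1 (by norm_num)) (hint (-1) (by norm_num))]
    apply setIntegral_congr_fun JJ_meas
    intro ρ hρ
    simp only
    rw [be_sum k hr0 (by linarith [hρ.1])]
    have e1 : ch (ρ * (1 * r) + ρ ^ 2 * t) = ch (r * ρ) * ch (ρ ^ 2 * t) := by
      rw [← Pool.Agent.TH277.HT.ch_add]
      congr 1
      ring
    have e2 : ch (ρ * (-1 * r) + ρ ^ 2 * t) = ch (-(r * ρ)) * ch (ρ ^ 2 * t) := by
      rw [← Pool.Agent.TH277.HT.ch_add]
      congr 1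
      ring
    rw [e1, e2, smul_smul, smul_smul, smul_smul, ← add_smul]
    congr 1
    ring
  rw [h3]
  refine (enorm_add_le _ _).trans ?_
  have h4 := h1 1 (by norm_num)
  have h5 := h1 (-1) (by norm_num)
  rw [one_mul] at h4
  rw [neg_one_mul] at h5
  unfold DD
  rw [mul_add]
  have e3 : ∀ ρ : ℝ, ρ * (1 * r) = ρ * r := fun ρ => by rw [one_mul]
  have e4 : ∀ ρ : ℝ, ρ * (-1 * r) = ρ * (-r) := fun ρ => by rw [neg_one_mul]
  simp only [e3, e4]
  exact add_le_add h4 h5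

end Run7.h303.RB
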