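import Mathlib
import Pool.Agent.Run7.h303.RB.A3
set_option autoImplicit false
set_option linter.unusedSectionVars false

/-! Plancherel's theorem in time, and elementary inequalities for lower integrals. -/

namespace Run7.h303.RB

open MeasureTheory Set Filter Topology
open scoped ENNReal NNReal
open Pool.Agent.TH277.HT (ch E1 Adm tr planch1 ch_norm ch_cont)

variable {H : Type} [NormedAddCommGroup H] [InnerProductSpace ℂ H] [CompleteSpace H]

/-- Plancherel's theorem in time. -/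
lemma time_planch (ψ : ℝ → H) (K : ℝ) (hK : 0 ≤ K) (hm : StronglyMeasurable ψ)
    (hb : ∀ u, ‖ψ u‖ ≤ K) (h0 : SJ ψ) :
    ∫⁻ t : ℝ, ‖∫ ρ in JJ, ch (ρ ^ 2 * t) • ψ ρ‖ₑ ^ 2 ≤ ENNReal.ofReal (K ^ 2) := by
  set φ : ℝ → H := fun τ => ((1 / (2 * √τ) : ℝ) : ℂ) • (Ioi (0 : ℝ)).indicator
    (fun τ => ψ (√τ)) τ with hφ
  have hφ0 : ∀ τ, τ ∉ Icc (1 / 4 : ℝ) 1 → φ τ = 0 := by
    intro τ hτ
    rw [hφ]
    by_cases h : 0 < τ
    · simp only [indicator_of_mem (show τ ∈ Ioi (0 : ℝ) from h)]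
      rw [h0, smul_zero]
      intro h2
      apply hτ
      have h3 : √τ ^ 2 = τ := Real.sq_sqrt h.le
      have h4 : 1 / 2 ≤ √τ := h2.1
      have h5 : √τ ≤ 1 := h2.2
      constructor
      · nlinarith
      · nlinarith [Real.sqrt_nonneg τ]
    · simp only [indicator_of_notMem (show τ ∉ Ioi (0 : ℝ) from h), smul_zero]
  have hφb : ∀ τ, ‖φ τ‖ ≤ K := by
    intro τ
    by_cases h : τ ∈ Icc (1 / 4 : ℝ) 1
    · have h1 : 0 < τ := by linarith [h.1]
      have h2 : 1 / 2 ≤ √τ := by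
        rw [Real.le_sqrt (by norm_num) h1.le]
        linarith [h.1]
      rw [hφ]
      simp only [indicator_of_mem (show τ ∈ Ioi (0 : ℝ) from h1)]
      rw [norm_smul, Complex.norm_real, Real.norm_of_nonneg (by positivity)]
      calc 1 / (2 * √τ) * ‖ψ (√τ)‖ ≤ 1 * K := by
            gcongr
            · rw [div_le_iff₀ (by linarith)]
              linarith
            · exact hb _
        _ = K := one_mul K
    · rw [hφ0 τ h, norm_zero]
      exact hK
  have hφm : StronglyMeasurable φ := by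
    apply StronglyMeasurable.smul
    · have h1 : Measurable fun τ : ℝ => ((1 / (2 * √τ) : ℝ) : ℂ) := by fun_prop
      exact h1.stronglyMeasurable
    · apply StronglyMeasurable.indicator _ measurableSet_Ioi
      exact hm.comp_measurable (by fun_prop : Measurable fun τ : ℝ => √τ)
  have hφ1 : ∀ u, u ∉ Icc (-1 : ℝ) 1 → φ u = 0 := by
    intro u hu
    apply hφ0
    intro h
    exact hu ⟨by linarith [h.1], h.2⟩
  -- the change of variables
  have h1 : ∀ t : ℝ, ∫ ρ in JJ, ch (ρ ^ 2 * t) • ψ ρ = ∫ τ : ℝ, ch (τ * t) • φ τ := by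
    intro t
    have e1 : ∫ ρ in JJ, ch (ρ ^ 2 * t) • ψ ρ = ∫ ρ in Ioi (0 : ℝ), ch (ρ ^ 2 * t) • ψ ρ := by
      have z1 : ∀ ρ, ρ ∉ JJ → ch (ρ ^ 2 * t) • ψ ρ = 0 := fun ρ hρ => by rw [h0 ρ hρ, smul_zero]
      have z2 : ∀ ρ, ρ ∉ Ioi (0 : ℝ) → ch (ρ ^ 2 * t) • ψ ρ = 0 := fun ρ hρ => z1 ρ fun h =>
        hρ (mem_Ioi.2 (by linarith [h.1]))
      rw [setIntegral_eq_integral_of_forall_compl_eq_zero z1,
        setIntegral_eq_integral_of_forall_compl_eq_zero z2]
    have e2 : ∫ τ : ℝ, ch (τ * t) • φ τ = ∫ τ in Ioi (0 : ℝ), ch (τ * t) • φ τ := by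
      symm
      apply setIntegral_eq_integral_of_forall_compl_eq_zero
      intro τ hτ
      rw [hφ0 τ, smul_zero]
      intro h
      exact hτ (mem_Ioi.2 (by linarith [h.1]))
    rw [e1, e2, ← integral_comp_rpow_Ioi_of_pos (g := fun τ => ch (τ * t) • φ τ) two_pos]
    apply setIntegral_congr_fun measurableSet_Ioi
    intro ρ hρ
    have hρ0 : (0 : ℝ) < ρ := hρ
    have h2 : ρ ^ (2 : ℝ) = ρ ^ 2 := Real.rpow_two ρ
    have h3 : ρ ^ ((2 : ℝ) - 1) = ρ := by
      norm_num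
    simp only [h2, h3, hφ]
    have h4 : 0 < ρ ^ 2 := by positivity
    rw [indicator_of_mem (show ρ ^ 2 ∈ Ioi (0 : ℝ) from h4), Real.sqrt_sq hρ0.le,
      smul_comm (ch (ρ ^ 2 * t)), ← Complex.coe_smul, smul_smul]
    have h5 : (((2 * ρ : ℝ) : ℂ)) * (((1 / (2 * ρ) : ℝ) : ℂ)) = 1 := by
      rw [← Complex.ofReal_mul, mul_one_div_cancel (by positivity), Complex.ofReal_one]
    rw [h5, one_smul]
  simp only [h1]
  have h2 : ∀ t : ℝ, ∫ τ : ℝ, ch (τ * t) • φ τ = (fun x : ℝ => ∫ u : ℝ, ch (u * x) • φ u) t :=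
    fun t => rfl
  rw [planch1 φ (Pool.Agent.TH277.HT.bdd_int hφm K hφb hφ1)
    (Pool.Agent.TH277.HT.bdd_L2 hφm K hφb hφ1)]
  calc ∫⁻ u, ‖φ u‖ₑ ^ 2 ≤ ∫⁻ u, (Icc (1 / 4 : ℝ) 1).indicator (fun _ => ENNReal.ofReal (K ^ 2)) u := by
        apply lintegral_mono
        intro u
        simp only
        by_cases h : u ∈ Icc (1 / 4 : ℝ) 1
        · rw [indicator_of_mem h, ENNReal.ofReal_pow hK, ← ofReal_norm]
          gcongr
          exact hφb u
        · rw [indicator_of_notMem h, hφ0 u h, enorm_zero]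
          simp
    _ = ENNReal.ofReal (K ^ 2) * ENNReal.ofReal (1 - 1 / 4) := by
        rw [lintegral_indicator measurableSet_Icc, setLIntegral_const, Real.volume_Icc]
    _ ≤ ENNReal.ofReal (K ^ 2) * 1 := by
        gcongr
        rw [ENNReal.ofReal_le_one]
        norm_num
    _ = ENNReal.ofReal (K ^ 2) := mul_one _

lemma E1_time {a : ℝ → H} (ha : Adm a) (hs : SJ a) (x : ℝ) :
    ∫⁻ t : ℝ, ‖E1 a x t‖ₑ ^ 2 ≤ 1 := by
  have hm : StronglyMeasurable fun u : ℝ => ch (u * x) • a u := by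
    apply StronglyMeasurable.smul
    · have h2 : Continuous fun u : ℝ => ch (u * x) := ch_cont.comp (by fun_prop)
      exact h2.stronglyMeasurable
    · exact ha.meas
  have h1 := time_planch (fun u : ℝ => ch (u * x) • a u) 1 zero_le_one hm
    (fun u => by
      rw [norm_smul, ch_norm, one_mul]
      exact ha.bd u)
    (fun u hu => by
      simp only
      rw [hs u hu, smul_zero])
  rw [one_pow, ENNReal.ofReal_one] at h1
  refine le_trans (le_of_eq ?_) h1
  apply lintegral_congr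
  intro t
  rw [E1_SJ hs]
  congr 2
  apply integral_congr_ae
  refine ae_of_all _ fun u => ?_
  simp only
  rw [smul_smul, ← Pool.Agent.TH277.HT.ch_add]
  congr 2
  ring

lemma pA_cont (k : ℕ) : Continuous (pA k) :=
  continuous_iff_continuousAt.2 fun s => (pA_deriv k s).continuousAt

lemma pA_le (k : ℕ) (s : ℝ) : |pA k s| ≤ 4 := by
  unfold pA
  have h1 : ‖∫ φ in (0 : ℝ)..Real.pi, Real.cos (s * Real.cos φ) * Real.sin φ ^ k‖ ≤
      1 * |Real.pi - 0| := by
    apply intervalIntegral.norm_integral_le_of_norm_le_const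
    intro φ _
    rw [norm_mul, norm_pow]
    calc ‖Real.cos (s * Real.cos φ)‖ * ‖Real.sin φ‖ ^ k ≤ 1 * 1 := by
          gcongr
          · exact Real.abs_cos_le_one _
          · exact pow_le_one₀ (norm_nonneg _) (Real.abs_sin_le_one _)
      _ = 1 := one_mul 1
  rw [Real.norm_eq_abs, sub_zero, abs_of_pos Real.pi_pos, one_mul] at h1
  exact h1.trans Real.pi_le_four

lemma FF_amp (k : ℕ) {a : ℝ → H} (ha : Adm a) (hs : SJ a) (r u : ℝ) :
    ‖((u ^ (k + 1) * pA k (2 * Real.pi * r * u) : ℝ) : ℂ) • a u‖ ≤ 4 := by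
  by_cases h : u ∈ JJ
  · have h0 : 0 ≤ u := by linarith [h.1]
    rw [norm_smul, Complex.norm_real, norm_mul, norm_pow, Real.norm_of_nonneg h0]
    calc u ^ (k + 1) * ‖pA k (2 * Real.pi * r * u)‖ * ‖a u‖ ≤ 1 * 4 * 1 := by
          gcongr
          · exact pow_le_one₀ h0 h.2
          · exact pA_le _ _
          · exact ha.bd u
      _ = 4 := by norm_num
  · rw [hs u h, smul_zero, norm_zero]
    norm_num

lemma FF_time (k : ℕ) {a : ℝ → H} (ha : Adm a) (hs : SJ a) (r : ℝ) :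
    ∫⁻ t : ℝ, ‖FF k a r t‖ₑ ^ 2 ≤ 16 := by
  have hm : StronglyMeasurable fun u : ℝ =>
      ((u ^ (k + 1) * pA k (2 * Real.pi * r * u) : ℝ) : ℂ) • a u := by
    apply StronglyMeasurable.smul _ ha.meas
    have h2 : Continuous fun u : ℝ => ((u ^ (k + 1) * pA k (2 * Real.pi * r * u) : ℝ) : ℂ) := by
      have := pA_cont k
      fun_prop
    exact h2.stronglyMeasurable
  have h1 := time_planch (fun u : ℝ => ((u ^ (k + 1) * pA k (2 * Real.pi * r * u) : ℝ) : ℂ) • a u) 4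
    (by norm_num) hm (fun u => FF_amp k ha hs r u)
    (fun u hu => by
      simp only
      rw [hs u hu, smul_zero])
  have h2 : ENNReal.ofReal (4 ^ 2) = 16 := by
    norm_num
  rw [h2] at h1
  refine le_trans (le_of_eq ?_) h1
  apply lintegral_congr
  intro t
  rw [FF_SJ k hs]
  congr 2
  apply integral_congr_ae
  refine ae_of_all _ fun u => ?_
  simp only
  rw [smul_comm]

lemma FF_bd (k : ℕ) {a : ℝ → H} (ha : Adm a) (hs : SJ a) (r t : ℝ) : ‖FF k a r t‖ₑ ≤ 4 := by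
  have h1 : ‖FF k a r t‖ ≤ 4 * (volume JJ).toReal := by
    rw [FF_SJ k hs]
    apply norm_setIntegral_le_of_norm_le_const
    · rw [JJ, Real.volume_Icc]
      exact ENNReal.ofReal_lt_top
    · intro u _
      rw [smul_comm, norm_smul, ch_norm, one_mul]
      exact FF_amp k ha hs r u
  have h2 : (volume JJ).toReal = 1 / 2 := by
    rw [JJ, Real.volume_Icc, ENNReal.toReal_ofReal (by norm_num)]
    norm_num
  rw [h2] at h1
  rw [← ofReal_norm]
  calc ENNReal.ofReal ‖FF k a r t‖ ≤ ENNReal.ofReal 4 := by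
        apply ENNReal.ofReal_le_ofReal
        linarith
    _ = 4 := by norm_num

/-- Jensen's inequality -/
lemma jensen {Ω : Type*} [MeasurableSpace Ω] {μ : Measure Ω} (hμ : μ univ ≤ 1) {p : ℝ} (hp : 1 ≤ p)
    {f : Ω → ℝ≥0∞} (hf : AEMeasurable f μ) : (∫⁻ x, f x ∂μ) ^ p ≤ ∫⁻ x, f x ^ p ∂μ := by
  have hp0 : 0 < p := by linarith
  have h1 : ∫⁻ x, (f x ^ p) ^ (1 / p) * (1 : ℝ≥0∞) ^ (1 - 1 / p) ∂μ ≤
      (∫⁻ x, f x ^ p ∂μ) ^ (1 / p) * (∫⁻ _, 1 ∂μ) ^ (1 - 1 / p) := by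
    apply ENNReal.lintegral_mul_norm_pow_le (hf.pow_const p) aemeasurable_const
      (by positivity) _ (by ring)
    rw [sub_nonneg, div_le_one hp0]
    exact hp
  have h2 : ∀ x, (f x ^ p) ^ (1 / p) * (1 : ℝ≥0∞) ^ (1 - 1 / p) = f x := by
    intro x
    rw [ENNReal.one_rpow, mul_one, ← ENNReal.rpow_mul, mul_one_div_cancel hp0.ne',
      ENNReal.rpow_one]
  simp only [h2] at h1
  calc (∫⁻ x, f x ∂μ) ^ p ≤ ((∫⁻ x, f x ^ p ∂μ) ^ (1 / p) * (∫⁻ _, 1 ∂μ) ^ (1 - 1 / p)) ^ p := by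
        gcongr
    _ ≤ ((∫⁻ x, f x ^ p ∂μ) ^ (1 / p) * 1) ^ p := by
        gcongr
        calc (∫⁻ _, (1 : ℝ≥0∞) ∂μ) ^ (1 - 1 / p) ≤ (1 : ℝ≥0∞) ^ (1 - 1 / p) := by
              apply ENNReal.rpow_le_rpow
              · rw [lintegral_one]
                exact hμ
              · rw [sub_nonneg, div_le_one hp0]
                exact hp
          _ = 1 := ENNReal.one_rpow _
    _ = ∫⁻ x, f x ^ p ∂μ := by
        rw [mul_one, ← ENNReal.rpow_mul, one_div_mul_cancel hp0.ne', ENNReal.rpow_one]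

lemma young (x y : ℝ≥0∞) {α β : ℝ} (hα : 0 ≤ α) (hβ : 0 ≤ β) (h : α + β = 1) :
    x ^ α * y ^ β ≤ x + y := by
  calc x ^ α * y ^ β ≤ (x + y) ^ α * (x + y) ^ β := by
        gcongr
        · exact le_self_add
        · exact le_add_self
    _ = x + y := by
        rw [← ENNReal.rpow_add_of_nonneg _ _ hα hβ, h, ENNReal.rpow_one]

end Run7.h303.RB
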