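import Mathlib
import Pool.Agent.Run7.h303.RB.B1
set_option autoImplicit false
set_option linter.unusedSectionVars false

/-! The weighted mixed norm estimate for the one dimensional extension operator. -/

namespace Run7.h303.RB

open MeasureTheory Set Filter Topology
open scoped ENNReal NNReal
open Pool.Agent.TH277.HT (ch E1 Adm tr planch1 ch_norm ch_cont)

/-- The `L^P` bound, `P > 4`. -/
lemma zyg4 (P : ℝ) (hP : 4 < P) : ∃ C : ℝ≥0, ∀ (H : Type) [NormedAddCommGroup H]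
    [InnerProductSpace ℂ H] [CompleteSpace H] (a : ℝ → H), Adm a →
    ∫⁻ t : ℝ, ∫⁻ x : ℝ, ‖E1 a x t‖ₑ ^ P ≤ C := by
  obtain ⟨C, hC⟩ := Pool.Agent.TH277.HT.zyg (P / 2) (by linarith)
  refine ⟨C, ?_⟩
  intro H _ _ _ a ha
  have h0 := hC H a ha
  rw [Measure.volume_eq_prod, lintegral_prod_symm] at h0
  · refine le_trans (le_of_eq ?_) h0
    apply lintegral_congr
    intro t
    apply lintegral_congr
    intro x
    rw [← ofReal_norm, ENNReal.ofReal_rpow_of_nonneg (norm_nonneg _) (by linarith)]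
    congr 1
    rw [← Real.rpow_natCast, ← Real.rpow_mul (norm_nonneg _)]
    congr 1
    push_cast
    ring
  · have h1 : Measurable fun p : ℝ × ℝ => ‖E1 a p.1 p.2‖ ^ 2 :=
      (Pool.Agent.TH277.HT.E1_meas ha).norm.measurable.pow_const 2
    exact (h1.pow_const _).ennreal_ofReal.aemeasurable

/-- the weighted Hölder inequality -/
lemma holder3 {μ : Measure ℝ} (X w : ℝ → ℝ≥0∞) (hX : Measurable X) (hw : Measurable w)
    {q P θ₀ θ₂ κ : ℝ} (h0 : 0 ≤ θ₀) (h2 : 0 ≤ θ₂) (hκ : 0 ≤ κ) (hsum : θ₀ + θ₂ + κ = 1)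
    (hP : 0 ≤ P) (hq : 2 * θ₀ + 2 * θ₂ + P * κ = q) :
    ∫⁻ r, w r ^ θ₂ * X r ^ q ∂μ ≤
      (∫⁻ r, X r ^ 2 ∂μ) ^ θ₀ * (∫⁻ r, w r * X r ^ 2 ∂μ) ^ θ₂ * (∫⁻ r, X r ^ P ∂μ) ^ κ := by
  have h1 := ENNReal.lintegral_prod_norm_pow_le (μ := μ) (Finset.univ : Finset (Fin 3))
    (f := ![fun r => X r ^ 2, fun r => w r * X r ^ 2, fun r => X r ^ P])
    (by
      intro i _
      fin_cases i
      · exact (hX.pow_const 2).aemeasurable
      · exact (hw.mul (hX.pow_const 2)).aemeasurable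
      · exact (hX.pow_const P).aemeasurable)
    (p := ![θ₀, θ₂, κ]) (by simp [Fin.sum_univ_three, hsum])
    (by
      intro i _
      fin_cases i
      · exact h0
      · exact h2
      · exact hκ)
  simp only [Fin.prod_univ_three, Matrix.cons_val_zero, Matrix.cons_val_one,
    Matrix.cons_val] at h1
  refine le_trans (le_of_eq ?_) h1
  apply lintegral_congr
  intro r
  rw [ENNReal.mul_rpow_of_nonneg _ _ h2, ← ENNReal.rpow_natCast, ← ENNReal.rpow_mul,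
    ← ENNReal.rpow_mul, ← ENNReal.rpow_mul]
  have e : X r ^ q = X r ^ (((2 : ℕ) : ℝ) * θ₀) * X r ^ (((2 : ℕ) : ℝ) * θ₂) * X r ^ (P * κ) := by
    rw [← ENNReal.rpow_add_of_nonneg _ _ (by positivity) (by positivity),
      ← ENNReal.rpow_add_of_nonneg _ _ (by positivity) (by positivity), ← hq]
    push_cast
    rfl
  rw [e]
  ring

/-- the weighted bound at a fixed sign -/
theorem wt (n k : ℕ) (hk : k + 2 ≤ n) (q : ℝ) (hq : 2 * ((n : ℝ) + 1) / n < q) :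
    ∃ C : ℝ≥0, ∀ (H : Type) [NormedAddCommGroup H] [InnerProductSpace ℂ H] [CompleteSpace H]
    (a : ℝ → H), Adm a → SJ a → ∀ σ : ℝ, (σ = 1 ∨ σ = -1) →
    ∫⁻ t : ℝ, (∫⁻ r in Ioi (1 : ℝ), ENNReal.ofReal (r ^ (-(((k : ℝ) + 1) * (q / 2 - 1)))) *
      ‖E1 a (σ * r) t‖ₑ ^ q) ^ ((n : ℝ) / ((k : ℝ) + 2)) ≤ C := by
  set m : ℝ := (k : ℝ) + 2 with hm
  have hk0 : (0 : ℝ) ≤ k := Nat.cast_nonneg k
  have hm2 : 2 ≤ m := by linarith
  have hmn : m ≤ n := by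
    rw [hm]
    exact_mod_cast hk
  have hn0 : (0 : ℝ) < n := by linarith
  set b : ℝ := q / 2 - 1 with hb
  have hb1 : 1 / n < b := by
    rw [div_lt_iff₀ hn0] at hq
    rw [div_lt_iff₀ hn0, hb]
    linarith
  have hb0 : 0 < b := lt_trans (by positivity) hb1
  -- the choice of κ
  have hex : ∃ κ : ℝ, 0 < κ ∧ m / n - (m - 1) * b < κ ∧ κ < b ∧ κ < m / n := by
    have h1 : m / n - (m - 1) * b < b := by
      have h2 : m / n = m * (1 / n) := by ring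
      have h3 : m * (1 / n) < m * b := by gcongr
      linarith
    have h4 : m / n - (m - 1) * b < m / n := by
      have : 0 < (m - 1) * b := mul_pos (by linarith) hb0
      linarith
    have h5 : (0 : ℝ) < m / n := by positivity
    have h6 : max 0 (m / n - (m - 1) * b) < min b (m / n) := by
      rw [max_lt_iff, lt_min_iff, lt_min_iff]
      exact ⟨⟨hb0, h5⟩, ⟨h1, h4⟩⟩
    obtain ⟨κ, hκ1, hκ2⟩ := exists_between h6
    rw [max_lt_iff] at hκ1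
    rw [lt_min_iff] at hκ2
    exact ⟨κ, hκ1.1, hκ1.2, hκ2.1, hκ2.2⟩
  obtain ⟨κ, hκ0, hκ1, hκ2, hκ3⟩ := hex
  set P : ℝ := 2 + (q - 2) / κ with hP
  have hq2 : q - 2 = 2 * b := by rw [hb]; ring
  have hP4 : 4 < P := by
    have : 2 < (q - 2) / κ := by
      rw [lt_div_iff₀ hκ0, hq2]
      linarith
    linarith
  set θ₂ : ℝ := m / n - κ with hθ₂
  have hθ₂0 : 0 < θ₂ := by rw [hθ₂]; linarith
  set w₁ : ℝ := (m - 1) * b / θ₂ with hw₁
  have hw₁1 : 1 < w₁ := by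
    rw [hw₁, lt_div_iff₀ hθ₂0, hθ₂]
    linarith
  set θ₀ : ℝ := 1 - m / n with hθ₀
  have hθ₀0 : 0 ≤ θ₀ := by
    rw [hθ₀, sub_nonneg, div_le_one hn0]
    exact hmn
  set s : ℝ := n / m with hs
  have hm0 : 0 < m := by linarith
  have hs0 : 0 < s := by positivity
  have hs1 : s * (m / n) = 1 := by
    rw [hs]
    field_simp
  obtain ⟨C, hC⟩ := zyg4 P hP4
  refine ⟨2 ^ (θ₀ * s) * (Real.toNNReal (1 / (w₁ - 1)) + C), ?_⟩
  intro H _ _ _ a ha hsj σ hσ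
  have hσ0 : σ ≠ 0 := by rcases hσ with h | h <;> rw [h] <;> norm_num
  have hσm : Measurable fun p : ℝ × ℝ => ‖E1 a (σ * p.1) p.2‖ₑ := by
    have h1 := (Pool.Agent.TH277.HT.E1_meas ha).enorm
    exact h1.comp (by fun_prop : Measurable fun p : ℝ × ℝ => ((σ * p.1, p.2) : ℝ × ℝ))
  have hXm : ∀ t, Measurable fun r : ℝ => ‖E1 a (σ * r) t‖ₑ := fun t =>
    hσm.comp (by fun_prop : Measurable fun r : ℝ => ((r, t) : ℝ × ℝ))
  -- the change of sign
  have hsign : ∀ (F : ℝ → ℝ≥0∞), ∫⁻ r, F (σ * r) = ∫⁻ r, F r := by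
    intro F
    rw [Pool.Agent.TH277.HT.lint_mul σ hσ0 F]
    rcases hσ with h | h <;> rw [h] <;> norm_num
  set W : ℝ → ℝ≥0∞ := fun r => ENNReal.ofReal (r ^ (-w₁)) with hW
  have hWm : Measurable W := by
    have h1 : Measurable fun r : ℝ => r := measurable_id
    exact (h1.pow_const _).ennreal_ofReal
  -- Hölder's inequality
  have h1 : ∀ t : ℝ, (∫⁻ r in Ioi (1 : ℝ), ENNReal.ofReal (r ^ (-(((k : ℝ) + 1) * b))) *
      ‖E1 a (σ * r) t‖ₑ ^ q) ^ s ≤ 2 ^ (θ₀ * s) *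
        ((∫⁻ r in Ioi (1 : ℝ), W r * ‖E1 a (σ * r) t‖ₑ ^ 2) + ∫⁻ x, ‖E1 a x t‖ₑ ^ P) := by
    intro t
    have h2 : ∫⁻ r in Ioi (1 : ℝ), ENNReal.ofReal (r ^ (-(((k : ℝ) + 1) * b))) *
        ‖E1 a (σ * r) t‖ₑ ^ q = ∫⁻ r in Ioi (1 : ℝ), W r ^ θ₂ * ‖E1 a (σ * r) t‖ₑ ^ q := by
      apply setLIntegral_congr_fun measurableSet_Ioi
      intro r hr
      have hr0 : (0 : ℝ) < r := lt_trans zero_lt_one hr
      simp only [hW]
      rw [ENNReal.ofReal_rpow_of_pos (by positivity), ← Real.rpow_mul hr0.le]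
      congr 3
      rw [hw₁]
      field_simp
      rw [hm]
      ring
    have h3 := holder3 (μ := volume.restrict (Ioi (1 : ℝ))) (fun r => ‖E1 a (σ * r) t‖ₑ) W (hXm t) hWm
      hθ₀0 hθ₂0.le hκ0.le (by rw [hθ₀, hθ₂]; ring) (by linarith : 0 ≤ P) (q := q)
      (by
        rw [hθ₀, hθ₂, hP]
        field_simp
        ring)
    rw [h2]
    calc (∫⁻ r in Ioi (1 : ℝ), W r ^ θ₂ * ‖E1 a (σ * r) t‖ₑ ^ q) ^ s
        ≤ ((∫⁻ r in Ioi (1 : ℝ), ‖E1 a (σ * r) t‖ₑ ^ 2) ^ θ₀ *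
            (∫⁻ r in Ioi (1 : ℝ), W r * ‖E1 a (σ * r) t‖ₑ ^ 2) ^ θ₂ *
            (∫⁻ r in Ioi (1 : ℝ), ‖E1 a (σ * r) t‖ₑ ^ P) ^ κ) ^ s := by gcongr
      _ ≤ ((2 : ℝ≥0∞) ^ θ₀ *
            (∫⁻ r in Ioi (1 : ℝ), W r * ‖E1 a (σ * r) t‖ₑ ^ 2) ^ θ₂ *
            (∫⁻ x, ‖E1 a x t‖ₑ ^ P) ^ κ) ^ s := by
          have g1 : ∫⁻ r in Ioi (1 : ℝ), ‖E1 a (σ * r) t‖ₑ ^ 2 ≤ 2 := by
            refine (setLIntegral_le_lintegral _ _).trans ?_
            rw [hsign fun r => ‖E1 a r t‖ₑ ^ 2]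
            exact Pool.Agent.TH277.HT.E1_planch ha t
          have g2 : ∫⁻ r in Ioi (1 : ℝ), ‖E1 a (σ * r) t‖ₑ ^ P ≤ ∫⁻ x, ‖E1 a x t‖ₑ ^ P := by
            refine (setLIntegral_le_lintegral _ _).trans ?_
            rw [hsign fun r => ‖E1 a r t‖ₑ ^ P]
          gcongr
      _ = 2 ^ (θ₀ * s) * ((∫⁻ r in Ioi (1 : ℝ), W r * ‖E1 a (σ * r) t‖ₑ ^ 2) ^ (θ₂ * s) *
            (∫⁻ x, ‖E1 a x t‖ₑ ^ P) ^ (κ * s)) := by
          rw [ENNReal.mul_rpow_of_nonneg _ _ hs0.le, ENNReal.mul_rpow_of_nonneg _ _ hs0.le,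
            ← ENNReal.rpow_mul, ← ENNReal.rpow_mul, ← ENNReal.rpow_mul, mul_assoc]
      _ ≤ _ := by
          gcongr
          apply young _ _ (by positivity) (by positivity)
          rw [← add_mul, hθ₂, sub_add_cancel, mul_comm]
          exact hs1
  calc ∫⁻ t : ℝ, (∫⁻ r in Ioi (1 : ℝ), ENNReal.ofReal (r ^ (-(((k : ℝ) + 1) * b))) *
        ‖E1 a (σ * r) t‖ₑ ^ q) ^ s
      ≤ ∫⁻ t : ℝ, 2 ^ (θ₀ * s) *
        ((∫⁻ r in Ioi (1 : ℝ), W r * ‖E1 a (σ * r) t‖ₑ ^ 2) + ∫⁻ x, ‖E1 a x t‖ₑ ^ P) :=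
        lintegral_mono h1
    _ = 2 ^ (θ₀ * s) * ((∫⁻ t : ℝ, ∫⁻ r in Ioi (1 : ℝ), W r * ‖E1 a (σ * r) t‖ₑ ^ 2) +
          ∫⁻ t : ℝ, ∫⁻ x, ‖E1 a x t‖ₑ ^ P) := by
        rw [lintegral_const_mul' _ _ (ENNReal.rpow_ne_top_of_nonneg (by positivity) (by norm_num)),
          lintegral_add_right]
        have h2 := (Pool.Agent.TH277.HT.E1_meas ha).enorm.pow_const P
        exact Measurable.lintegral_prod_left' (f := fun p : ℝ × ℝ => ‖E1 a p.1 p.2‖ₑ ^ P) h2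
    _ ≤ 2 ^ (θ₀ * s) * (ENNReal.ofReal (1 / (w₁ - 1)) + C) := by
        gcongr
        · rw [lintegral_lintegral_swap]
          · calc ∫⁻ r in Ioi (1 : ℝ), ∫⁻ t : ℝ, W r * ‖E1 a (σ * r) t‖ₑ ^ 2
                = ∫⁻ r in Ioi (1 : ℝ), W r * ∫⁻ t : ℝ, ‖E1 a (σ * r) t‖ₑ ^ 2 := by
                  apply lintegral_congr
                  intro r
                  rw [lintegral_const_mul' _ _ ENNReal.ofReal_ne_top]
              _ ≤ ∫⁻ r in Ioi (1 : ℝ), W r * 1 := by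
                  gcongr with r
                  exact E1_time ha hsj _
              _ = ∫⁻ r in Ioi (1 : ℝ), ENNReal.ofReal (r ^ (-(1 + (w₁ - 1)))) := by
                  apply lintegral_congr
                  intro r
                  rw [mul_one, hW]
                  simp only
                  congr 3
                  ring
              _ ≤ ENNReal.ofReal (1 / (w₁ - 1)) := by
                  rw [Pool.Agent.TH277.HT.rpow_int (by linarith) zero_lt_one, Real.one_rpow]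
          · apply Measurable.aemeasurable
            simp only [Function.uncurry_def]
            exact (hWm.comp measurable_snd).mul
              ((hσm.comp (by fun_prop : Measurable fun p : ℝ × ℝ => ((p.2, p.1) : ℝ × ℝ))).pow_const 2)
        · exact hC H a ha
    _ = _ := by
        push_cast
        rw [ENNReal.coe_rpow_of_nonneg _ (by positivity)]
        rfl

end Run7.h303.RB
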