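import Mathlib
import Pool.Agent.Run7.h303.RB.B2
set_option autoImplicit false
set_option linter.unusedSectionVars false

/-! The mixed norm estimate for the radial extension operator on functions supported in an
annulus. -/

namespace Run7.h303.RB

open MeasureTheory Set Filter Topology
open scoped ENNReal NNReal
open Pool.Agent.TH277.HT (ch E1 Adm tr planch1 ch_norm ch_cont)

/-- the mixed norm functional -/
noncomputable def NN (w : ℝ → ℝ≥0∞) (q s : ℝ) (Y : ℝ → ℝ → ℝ≥0∞) : ℝ≥0∞ :=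
  ∫⁻ t : ℝ, (∫⁻ r in Ioi (1 : ℝ), w r * Y r t ^ q) ^ s

lemma NN_mono {w : ℝ → ℝ≥0∞} {q s : ℝ} (hq : 0 ≤ q) (hs : 0 ≤ s) {Y Z : ℝ → ℝ → ℝ≥0∞}
    (h : ∀ r t, Y r t ≤ Z r t) : NN w q s Y ≤ NN w q s Z := by
  unfold NN
  gcongr with t r
  exact h r t

lemma in_meas {w : ℝ → ℝ≥0∞} (hw : Measurable w) {q : ℝ} {Y : ℝ → ℝ → ℝ≥0∞}
    (hY : Measurable fun p : ℝ × ℝ => Y p.1 p.2) :
    Measurable fun t : ℝ => ∫⁻ r in Ioi (1 : ℝ), w r * Y r t ^ q :=
  Measurable.lintegral_prod_left' (f := fun p : ℝ × ℝ => w p.1 * Y p.1 p.2 ^ q)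
    ((hw.comp measurable_fst).mul (hY.pow_const q))

lemma NN_add {w : ℝ → ℝ≥0∞} (hw : Measurable w) {q s : ℝ} (hq : 1 ≤ q) (hs : 1 ≤ s)
    {Y Z : ℝ → ℝ → ℝ≥0∞} (hY : Measurable fun p : ℝ × ℝ => Y p.1 p.2)
    (hZ : Measurable fun p : ℝ × ℝ => Z p.1 p.2) :
    NN w q s (fun r t => Y r t + Z r t) ≤
      2 ^ ((q - 1) * s) * 2 ^ (s - 1) * (NN w q s Y + NN w q s Z) := by
  have hq1 : 0 ≤ q - 1 := by linarith
  have hs1 : 0 ≤ s - 1 := by linarith
  have hs0 : 0 ≤ s := by linarith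
  have h1 : ∀ t : ℝ, ∫⁻ r in Ioi (1 : ℝ), w r * (Y r t + Z r t) ^ q ≤ 2 ^ (q - 1) *
      ((∫⁻ r in Ioi (1 : ℝ), w r * Y r t ^ q) + ∫⁻ r in Ioi (1 : ℝ), w r * Z r t ^ q) := by
    intro t
    have hYt : Measurable fun r : ℝ => w r * Y r t ^ q :=
      hw.mul ((hY.comp (by fun_prop : Measurable fun r : ℝ => ((r, t) : ℝ × ℝ))).pow_const q)
    rw [← lintegral_add_left hYt, ← lintegral_const_mul' _ _
      (ENNReal.rpow_ne_top_of_nonneg hq1 (by norm_num))]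
    apply lintegral_mono
    intro r
    simp only
    calc w r * (Y r t + Z r t) ^ q ≤ w r * (2 ^ (q - 1) * (Y r t ^ q + Z r t ^ q)) := by
          gcongr
          exact ENNReal.rpow_add_le_mul_rpow_add_rpow _ _ hq
      _ = 2 ^ (q - 1) * (w r * Y r t ^ q + w r * Z r t ^ q) := by ring
  unfold NN
  calc ∫⁻ t : ℝ, (∫⁻ r in Ioi (1 : ℝ), w r * (Y r t + Z r t) ^ q) ^ s
      ≤ ∫⁻ t : ℝ, 2 ^ ((q - 1) * s) * 2 ^ (s - 1) *
          ((∫⁻ r in Ioi (1 : ℝ), w r * Y r t ^ q) ^ s +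
            (∫⁻ r in Ioi (1 : ℝ), w r * Z r t ^ q) ^ s) := by
        gcongr with t
        calc (∫⁻ r in Ioi (1 : ℝ), w r * (Y r t + Z r t) ^ q) ^ s
            ≤ (2 ^ (q - 1) * ((∫⁻ r in Ioi (1 : ℝ), w r * Y r t ^ q) +
                ∫⁻ r in Ioi (1 : ℝ), w r * Z r t ^ q)) ^ s := by
              gcongr
              exact h1 t
          _ = 2 ^ ((q - 1) * s) * ((∫⁻ r in Ioi (1 : ℝ), w r * Y r t ^ q) +
                ∫⁻ r in Ioi (1 : ℝ), w r * Z r t ^ q) ^ s := by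
              rw [ENNReal.mul_rpow_of_nonneg _ _ hs0, ← ENNReal.rpow_mul]
          _ ≤ _ := by
              rw [mul_assoc]
              gcongr
              exact ENNReal.rpow_add_le_mul_rpow_add_rpow _ _ hs
    _ = _ := by
        rw [lintegral_const_mul' _ _ (ENNReal.mul_ne_top
          (ENNReal.rpow_ne_top_of_nonneg (by positivity) (by norm_num))
          (ENNReal.rpow_ne_top_of_nonneg hs1 (by norm_num))),
          lintegral_add_left ((in_meas hw hY).pow_const s)]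

lemma JJ_univ : (volume.restrict JJ) univ ≤ 1 := by
  rw [Measure.restrict_apply_univ, JJ, Real.volume_Icc, ENNReal.ofReal_le_one]
  norm_num

lemma NN_int {w : ℝ → ℝ≥0∞} (hw : Measurable w) {q s : ℝ} (hq : 1 ≤ q) (hs : 1 ≤ s)
    {Y : ℝ → ℝ → ℝ → ℝ≥0∞} (hY : Measurable fun p : ℝ × ℝ × ℝ => Y p.1 p.2.1 p.2.2)
    (C : ℝ≥0∞) (hC : ∀ u, NN w q s (Y u) ≤ C) :
    NN w q s (fun r t => ∫⁻ u in JJ, Y u r t) ≤ C := by
  have hs0 : 0 ≤ s := by linarith
  have hYrt : ∀ r t, Measurable fun u => Y u r t := fun r t =>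
    hY.comp (by fun_prop : Measurable fun u : ℝ => ((u, r, t) : ℝ × ℝ × ℝ))
  have hW : Measurable fun p : ℝ × ℝ × ℝ => w p.2.1 * Y p.1 p.2.1 p.2.2 ^ q :=
    (hw.comp (by fun_prop : Measurable fun p : ℝ × ℝ × ℝ => p.2.1)).mul (hY.pow_const q)
  have h1 : ∀ t : ℝ, ∫⁻ r in Ioi (1 : ℝ), w r * (∫⁻ u in JJ, Y u r t) ^ q ≤
      ∫⁻ u in JJ, ∫⁻ r in Ioi (1 : ℝ), w r * Y u r t ^ q := by
    intro t
    rw [lintegral_lintegral_swap]
    · gcongr with r
      rw [lintegral_const_mul _ ((hYrt r t).pow_const q)]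
      gcongr
      exact jensen JJ_univ hq (hYrt r t).aemeasurable
    · apply Measurable.aemeasurable
      exact hW.comp (by fun_prop : Measurable fun p : ℝ × ℝ => ((p.1, p.2, t) : ℝ × ℝ × ℝ))
  have hm2 : Measurable fun p : ℝ × ℝ => ∫⁻ r in Ioi (1 : ℝ), w r * Y p.1 r p.2 ^ q := by
    exact Measurable.lintegral_prod_right' (f := fun p : (ℝ × ℝ) × ℝ => w p.2 * Y p.1.1 p.2 p.1.2 ^ q)
      (hW.comp (by fun_prop : Measurable fun p : (ℝ × ℝ) × ℝ => ((p.1.1, p.2, p.1.2) : ℝ × ℝ × ℝ)))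
  unfold NN
  calc ∫⁻ t : ℝ, (∫⁻ r in Ioi (1 : ℝ), w r * (∫⁻ u in JJ, Y u r t) ^ q) ^ s
      ≤ ∫⁻ t : ℝ, ∫⁻ u in JJ, (∫⁻ r in Ioi (1 : ℝ), w r * Y u r t ^ q) ^ s := by
        apply lintegral_mono
        intro t
        simp only
        calc (∫⁻ r in Ioi (1 : ℝ), w r * (∫⁻ u in JJ, Y u r t) ^ q) ^ s
            ≤ (∫⁻ u in JJ, ∫⁻ r in Ioi (1 : ℝ), w r * Y u r t ^ q) ^ s :=
              ENNReal.rpow_le_rpow (h1 t) hs0
          _ ≤ _ := by
              apply jensen JJ_univ hs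
              exact (hm2.comp (by fun_prop :
                Measurable fun u : ℝ => ((u, t) : ℝ × ℝ))).aemeasurable
    _ = ∫⁻ u in JJ, ∫⁻ t : ℝ, (∫⁻ r in Ioi (1 : ℝ), w r * Y u r t ^ q) ^ s := by
        rw [lintegral_lintegral_swap]
        exact ((hm2.comp (by fun_prop :
          Measurable fun p : ℝ × ℝ => ((p.2, p.1) : ℝ × ℝ))).pow_const s).aemeasurable
    _ ≤ ∫⁻ _ in JJ, C := by
        gcongr with u
        exact hC u
    _ ≤ C := by
        rw [lintegral_const]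
        calc C * (volume.restrict JJ) univ ≤ C * 1 := by
              gcongr
              exact JJ_univ
          _ = C := mul_one C

variable {H : Type} [NormedAddCommGroup H] [InnerProductSpace ℂ H] [CompleteSpace H]

lemma cut_meas {a : ℝ → H} (ha : Adm a) (σ : ℝ) :
    Measurable fun p : ℝ × ℝ × ℝ => ‖E1 (cut a p.1) (σ * p.2.1) p.2.2‖ₑ := by
  have h1 : StronglyMeasurable (Function.uncurry fun (p : ℝ × ℝ × ℝ) (u : ℝ) =>
      ch (u * (σ * p.2.1) + u ^ 2 * p.2.2) • tr (cut a p.1) u) := by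
    refine StronglyMeasurable.smul
      (f := fun q : (ℝ × ℝ × ℝ) × ℝ => ch (q.2 * (σ * q.1.2.1) + q.2 ^ 2 * q.1.2.2))
      (g := fun q : (ℝ × ℝ × ℝ) × ℝ => tr (cut a q.1.1) q.2) ?_ ?_
    · exact (ch_cont.comp (by fun_prop : Continuous fun q : (ℝ × ℝ × ℝ) × ℝ =>
        q.2 * (σ * q.1.2.1) + q.2 ^ 2 * q.1.2.2)).stronglyMeasurable
    · have h2 : (fun q : (ℝ × ℝ × ℝ) × ℝ => tr (cut a q.1.1) q.2) =
          ({q : (ℝ × ℝ × ℝ) × ℝ | q.2 < q.1.1}).indicator fun q => tr a q.2 := by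
        ext q
        unfold tr cut
        by_cases h : q.2 < q.1.1
        · rw [indicator_of_mem (show q ∈ {q : (ℝ × ℝ × ℝ) × ℝ | q.2 < q.1.1} from h)]
          by_cases h' : q.2 ∈ Icc (-1 : ℝ) 1
          · rw [indicator_of_mem h', indicator_of_mem h', indicator_of_mem (show q.2 ∈ Iio q.1.1 from h)]
          · rw [indicator_of_notMem h', indicator_of_notMem h']
        · rw [indicator_of_notMem (show q ∉ {q : (ℝ × ℝ × ℝ) × ℝ | q.2 < q.1.1} from h)]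
          by_cases h' : q.2 ∈ Icc (-1 : ℝ) 1
          · rw [indicator_of_mem h', indicator_of_notMem (show q.2 ∉ Iio q.1.1 from h)]
          · rw [indicator_of_notMem h']
      rw [h2]
      apply StronglyMeasurable.indicator
      · exact (Pool.Agent.TH277.HT.tr_meas ha).comp_measurable measurable_snd
      · exact measurableSet_lt measurable_snd (by fun_prop)
  have h3 := (h1.integral_prod_right (ν := (volume : Measure ℝ))).enorm
  have h4 : (fun p : ℝ × ℝ × ℝ => ‖E1 (cut a p.1) (σ * p.2.1) p.2.2‖ₑ) = fun p : ℝ × ℝ × ℝ =>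
      ‖∫ u, ch (u * (σ * p.2.1) + u ^ 2 * p.2.2) • tr (cut a p.1) u‖ₑ := by
    ext p
    rw [Pool.Agent.TH277.HT.E1_eq]
  rw [h4]
  exact h3

lemma E1s_meas {a : ℝ → H} (ha : Adm a) (σ : ℝ) :
    Measurable fun p : ℝ × ℝ => ‖E1 a (σ * p.1) p.2‖ₑ :=
  (Pool.Agent.TH277.HT.E1_meas ha).enorm.comp
    (by fun_prop : Measurable fun p : ℝ × ℝ => ((σ * p.1, p.2) : ℝ × ℝ))

/-- the far part -/
theorem FF_far (n k : ℕ) (hk : k + 2 ≤ n) (q : ℝ) (hq : 2 * ((n : ℝ) + 1) / n < q) :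
    ∃ C : ℝ≥0, ∀ (H : Type) [NormedAddCommGroup H] [InnerProductSpace ℂ H] [CompleteSpace H]
    (a : ℝ → H), Adm a → SJ a →
    ∫⁻ t : ℝ, (∫⁻ r in Ioi (1 : ℝ), ENNReal.ofReal (r ^ (k + 1)) *
      ‖FF k a r t‖ₑ ^ q) ^ ((n : ℝ) / ((k : ℝ) + 2)) ≤ C := by
  obtain ⟨C₁, hC₁0, hC₁⟩ := FF_le k
  obtain ⟨C₂, hC₂⟩ := wt n k hk q hq
  have hk0 : (0 : ℝ) ≤ k := Nat.cast_nonneg k
  have hkn : (k : ℝ) + 2 ≤ n := by exact_mod_cast hk
  have hn0 : (0 : ℝ) < n := by linarith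
  have hq2 : 2 < q := by
    rw [div_lt_iff₀ hn0] at hq
    by_contra h
    have h1 : q * n ≤ 2 * n := by gcongr; exact not_lt.1 h
    linarith
  have hq1 : 1 ≤ q := by linarith
  have hq0 : 0 ≤ q := by linarith
  set s : ℝ := n / ((k : ℝ) + 2) with hs
  have hs1 : 1 ≤ s := by
    rw [hs, one_le_div (by linarith)]
    exact hkn
  have hs0 : 0 ≤ s := by linarith
  set w : ℝ → ℝ≥0∞ := fun r => ENNReal.ofReal (r ^ (-(((k : ℝ) + 1) * (q / 2 - 1)))) with hw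
  have hwm : Measurable w := by
    have h1 : Measurable fun r : ℝ => r := measurable_id
    exact (h1.pow_const _).ennreal_ofReal
  set K : ℝ≥0∞ := 2 ^ ((q - 1) * s) * 2 ^ (s - 1) with hK
  have hKt : K ≠ ⊤ := ENNReal.mul_ne_top
    (ENNReal.rpow_ne_top_of_nonneg (mul_nonneg (by linarith) hs0) (by norm_num))
    (ENNReal.rpow_ne_top_of_nonneg (by linarith) (by norm_num))
  set K₂ : ℝ≥0∞ := ENNReal.ofReal (C₁ ^ q) ^ s with hK₂
  have hK₂t : K₂ ≠ ⊤ := ENNReal.rpow_ne_top_of_nonneg hs0 ENNReal.ofReal_ne_top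
  refine ⟨(K₂ * (K * (K * (C₂ + C₂) + K * (C₂ + C₂)))).toNNReal, ?_⟩
  have hfin : K₂ * (K * (K * (C₂ + C₂) + K * (C₂ + C₂))) ≠ ⊤ := by
    refine ENNReal.mul_ne_top hK₂t (ENNReal.mul_ne_top hKt (ENNReal.add_ne_top.2 ⟨?_, ?_⟩)) <;>
    exact ENNReal.mul_ne_top hKt (ENNReal.add_ne_top.2 ⟨ENNReal.coe_ne_top, ENNReal.coe_ne_top⟩)
  rw [ENNReal.coe_toNNReal hfin]
  intro H _ _ _ a ha hsj
  have hE : ∀ (b : ℝ → H), Adm b → SJ b → ∀ σ : ℝ, (σ = 1 ∨ σ = -1) →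
      NN w q s (fun r t => ‖E1 b (σ * r) t‖ₑ) ≤ C₂ := fun b hb hbs σ hσ =>
    hC₂ H b hb hbs σ hσ
  -- the half of DD
  have hhalf : ∀ σ : ℝ, (σ = 1 ∨ σ = -1) →
      NN w q s (fun r t => ‖E1 a (σ * r) t‖ₑ + ∫⁻ u in JJ, ‖E1 (cut a u) (σ * r) t‖ₑ) ≤
        K * (C₂ + C₂) := by
    intro σ hσ
    refine (NN_add hwm hq1 hs1 (E1s_meas ha σ)
      (Measurable.lintegral_prod_left' (f := fun p : ℝ × (ℝ × ℝ) =>
        ‖E1 (cut a p.1) (σ * p.2.1) p.2.2‖ₑ) (cut_meas ha σ))).trans ?_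
    rw [← hK]
    gcongr
    · exact hE a ha hsj σ hσ
    · exact NN_int hwm hq1 hs1 (cut_meas ha σ) C₂ fun u => hE _ (cut_adm ha u) (cut_SJ hsj u) σ hσ
  have hDD : NN w q s (fun r t => DD a r t) ≤ K * (K * (C₂ + C₂) + K * (C₂ + C₂)) := by
    have e1 : (fun r t => DD a r t) = fun r t =>
        (‖E1 a (1 * r) t‖ₑ + ∫⁻ u in JJ, ‖E1 (cut a u) (1 * r) t‖ₑ) +
        (‖E1 a (-1 * r) t‖ₑ + ∫⁻ u in JJ, ‖E1 (cut a u) (-1 * r) t‖ₑ) := by
      ext r t
      simp only [one_mul, neg_one_mul]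
      rfl
    rw [e1]
    have hm : ∀ σ : ℝ, Measurable fun p : ℝ × ℝ =>
        ‖E1 a (σ * p.1) p.2‖ₑ + ∫⁻ u in JJ, ‖E1 (cut a u) (σ * p.1) p.2‖ₑ := fun σ =>
      (E1s_meas ha σ).add (Measurable.lintegral_prod_left' (f := fun p : ℝ × (ℝ × ℝ) =>
        ‖E1 (cut a p.1) (σ * p.2.1) p.2.2‖ₑ) (cut_meas ha σ))
    refine (NN_add hwm hq1 hs1 (hm 1) (hm (-1))).trans ?_
    rw [← hK]
    gcongr
    · exact hhalf 1 (Or.inl rfl)
    · exact hhalf (-1) (Or.inr rfl)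
  calc ∫⁻ t : ℝ, (∫⁻ r in Ioi (1 : ℝ), ENNReal.ofReal (r ^ (k + 1)) * ‖FF k a r t‖ₑ ^ q) ^ s
      ≤ ∫⁻ t : ℝ, (∫⁻ r in Ioi (1 : ℝ), ENNReal.ofReal (C₁ ^ q) * (w r * DD a r t ^ q)) ^ s := by
        gcongr ∫⁻ t : ℝ, ?_ ^ s with t
        apply setLIntegral_mono' measurableSet_Ioi
        intro r hr
        have hr1 : (1 : ℝ) < r := hr
        have hr0 : (0 : ℝ) < r := by linarith
        calc ENNReal.ofReal (r ^ (k + 1)) * ‖FF k a r t‖ₑ ^ q
            ≤ ENNReal.ofReal (r ^ (k + 1)) *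
                (ENNReal.ofReal (C₁ * r ^ (-pe k)) * DD a r t) ^ q := by
              gcongr
              exact hC₁ H a ha hsj r t hr1.le
          _ = ENNReal.ofReal (C₁ ^ q) * (w r * DD a r t ^ q) := by
              rw [ENNReal.mul_rpow_of_nonneg _ _ hq0, ENNReal.ofReal_rpow_of_nonneg (by positivity) hq0,
                Real.mul_rpow hC₁0 (by positivity), ← Real.rpow_mul hr0.le,
                ENNReal.ofReal_mul (by positivity)]
              have e2 : w r = ENNReal.ofReal (r ^ (k + 1)) * ENNReal.ofReal (r ^ (-pe k * q)) := by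
                rw [← ENNReal.ofReal_mul (by positivity), hw]
                simp only
                congr 1
                rw [← Real.rpow_natCast, ← Real.rpow_add hr0]
                congr 1
                unfold pe
                push_cast
                ring
              rw [e2]
              ring
    _ = K₂ * NN w q s (fun r t => DD a r t) := by
        unfold NN
        rw [← lintegral_const_mul' _ _ hK₂t]
        apply lintegral_congr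
        intro t
        rw [lintegral_const_mul' _ _ ENNReal.ofReal_ne_top, ENNReal.mul_rpow_of_nonneg _ _ hs0]
    _ ≤ _ := by gcongr

lemma FF_meas (k : ℕ) {a : ℝ → H} (ha : Adm a) :
    StronglyMeasurable fun p : ℝ × ℝ => FF k a p.1 p.2 := by
  have h1 : StronglyMeasurable (Function.uncurry fun (p : ℝ × ℝ) (ρ : ℝ) =>
      ((ρ ^ (k + 1) * pA k (2 * Real.pi * p.1 * ρ) : ℝ) : ℂ) • (ch (ρ ^ 2 * p.2) • a ρ)) := by
    refine StronglyMeasurable.smul
      (f := fun q : (ℝ × ℝ) × ℝ => ((q.2 ^ (k + 1) * pA k (2 * Real.pi * q.1.1 * q.2) : ℝ) : ℂ))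
      (g := fun q : (ℝ × ℝ) × ℝ => ch (q.2 ^ 2 * q.1.2) • a q.2) ?_ ?_
    · have h2 := pA_cont k
      have h3 : Continuous fun q : (ℝ × ℝ) × ℝ =>
          ((q.2 ^ (k + 1) * pA k (2 * Real.pi * q.1.1 * q.2) : ℝ) : ℂ) := by fun_prop
      exact h3.stronglyMeasurable
    · refine StronglyMeasurable.smul (f := fun q : (ℝ × ℝ) × ℝ => ch (q.2 ^ 2 * q.1.2))
        (g := fun q : (ℝ × ℝ) × ℝ => a q.2) ?_ ?_
      · exact (ch_cont.comp (by fun_prop : Continuous fun q : (ℝ × ℝ) × ℝ =>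
          q.2 ^ 2 * q.1.2)).stronglyMeasurable
      · exact ha.meas.comp_measurable measurable_snd
  exact h1.integral_prod_right (ν := (volume : Measure ℝ).restrict (Ioi 0))

/-- the annulus estimate -/
theorem FF_all (n k : ℕ) (hk : k + 2 ≤ n) (q : ℝ) (hq : 2 * ((n : ℝ) + 1) / n < q) :
    ∃ C : ℝ≥0, ∀ (H : Type) [NormedAddCommGroup H] [InnerProductSpace ℂ H] [CompleteSpace H]
    (a : ℝ → H), Adm a → SJ a →
    ∫⁻ t : ℝ, (∫⁻ r in Ioi (0 : ℝ), ENNReal.ofReal (r ^ (k + 1)) *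
      ‖FF k a r t‖ₑ ^ q) ^ ((n : ℝ) / ((k : ℝ) + 2)) ≤ C := by
  obtain ⟨C₁, hC₁⟩ := FF_far n k hk q hq
  have hk0 : (0 : ℝ) ≤ k := Nat.cast_nonneg k
  have hkn : (k : ℝ) + 2 ≤ n := by exact_mod_cast hk
  have hn0 : (0 : ℝ) < n := by linarith
  have hq2 : 2 < q := by
    rw [div_lt_iff₀ hn0] at hq
    by_contra h
    have h1 : q * n ≤ 2 * n := by gcongr; exact not_lt.1 h
    linarith
  set s : ℝ := n / ((k : ℝ) + 2) with hs
  have hs1 : 1 ≤ s := by
    rw [hs, one_le_div (by linarith)]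
    exact hkn
  have hs0 : 0 ≤ s := by linarith
  set L : ℝ≥0∞ := 4 ^ (q - 2) with hL
  have hLt : L ≠ ⊤ := ENNReal.rpow_ne_top_of_nonneg (by linarith) (by norm_num)
  set C₂ : ℝ≥0∞ := L ^ s * (16 ^ (s - 1) * 16) with hC₂
  have hC₂t : C₂ ≠ ⊤ := ENNReal.mul_ne_top (ENNReal.rpow_ne_top_of_nonneg hs0 hLt)
    (ENNReal.mul_ne_top (ENNReal.rpow_ne_top_of_nonneg (by linarith) (by norm_num)) (by norm_num))
  refine ⟨(2 ^ (s - 1) * (C₂ + C₁)).toNNReal, ?_⟩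
  have hfin : 2 ^ (s - 1) * (C₂ + C₁) ≠ ⊤ := ENNReal.mul_ne_top
    (ENNReal.rpow_ne_top_of_nonneg (by linarith) (by norm_num))
    (ENNReal.add_ne_top.2 ⟨hC₂t, ENNReal.coe_ne_top⟩)
  rw [ENNReal.coe_toNNReal hfin]
  intro H _ _ _ a ha hsj
  have hm2 : Measurable fun p : ℝ × ℝ => ‖FF k a p.1 p.2‖ₑ := (FF_meas k ha).enorm
  -- near part
  have hnear : ∫⁻ t : ℝ, (∫⁻ r in Ioc (0 : ℝ) 1, ENNReal.ofReal (r ^ (k + 1)) *
      ‖FF k a r t‖ₑ ^ q) ^ s ≤ C₂ := by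
    set U : ℝ → ℝ≥0∞ := fun t => ∫⁻ r in Ioc (0 : ℝ) 1, ‖FF k a r t‖ₑ ^ 2 with hU
    have hU16 : ∀ t, U t ≤ 16 := by
      intro t
      calc U t ≤ ∫⁻ _ in Ioc (0 : ℝ) 1, 16 := by
            rw [hU]
            simp only
            gcongr with r
            calc ‖FF k a r t‖ₑ ^ 2 ≤ 4 ^ 2 := by
                  gcongr
                  exact FF_bd k ha hsj r t
              _ = 16 := by norm_num
        _ = 16 := by
            rw [setLIntegral_const, Real.volume_Ioc]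
            norm_num
    have h1 : ∀ t, (∫⁻ r in Ioc (0 : ℝ) 1, ENNReal.ofReal (r ^ (k + 1)) *
        ‖FF k a r t‖ₑ ^ q) ^ s ≤ L ^ s * (16 ^ (s - 1) * U t) := by
      intro t
      have h2 : ∫⁻ r in Ioc (0 : ℝ) 1, ENNReal.ofReal (r ^ (k + 1)) * ‖FF k a r t‖ₑ ^ q ≤
          L * U t := by
        rw [hU]
        simp only
        rw [← lintegral_const_mul' _ _ hLt]
        apply setLIntegral_mono' measurableSet_Ioc
        intro r hr
        calc ENNReal.ofReal (r ^ (k + 1)) * ‖FF k a r t‖ₑ ^ q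
            ≤ 1 * (‖FF k a r t‖ₑ ^ (q - 2) * ‖FF k a r t‖ₑ ^ 2) := by
              gcongr
              · rw [ENNReal.ofReal_le_one]
                exact pow_le_one₀ hr.1.le hr.2
              · rw [← ENNReal.rpow_natCast, ← ENNReal.rpow_add_of_nonneg _ _ (by linarith)
                  (by norm_num)]
                apply le_of_eq
                congr 1
                push_cast
                ring
          _ ≤ L * ‖FF k a r t‖ₑ ^ 2 := by
              rw [one_mul]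
              gcongr
              rw [hL]
              gcongr
              exact FF_bd k ha hsj r t
      calc (∫⁻ r in Ioc (0 : ℝ) 1, ENNReal.ofReal (r ^ (k + 1)) * ‖FF k a r t‖ₑ ^ q) ^ s
          ≤ (L * U t) ^ s := by gcongr
        _ = L ^ s * (U t ^ (s - 1) * U t) := by
            rw [ENNReal.mul_rpow_of_nonneg _ _ hs0]
            congr 1
            conv_lhs => rw [show s = (s - 1) + 1 by ring,
              ENNReal.rpow_add_of_nonneg _ _ (by linarith) zero_le_one, ENNReal.rpow_one]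
        _ ≤ L ^ s * (16 ^ (s - 1) * U t) := by
            gcongr
            exact hU16 t
    calc ∫⁻ t : ℝ, (∫⁻ r in Ioc (0 : ℝ) 1, ENNReal.ofReal (r ^ (k + 1)) * ‖FF k a r t‖ₑ ^ q) ^ s
        ≤ ∫⁻ t : ℝ, L ^ s * (16 ^ (s - 1) * U t) := lintegral_mono h1
      _ = L ^ s * (16 ^ (s - 1) * ∫⁻ t : ℝ, U t) := by
          rw [lintegral_const_mul' _ _ (ENNReal.rpow_ne_top_of_nonneg hs0 hLt),
            lintegral_const_mul' _ _ (ENNReal.rpow_ne_top_of_nonneg (by linarith) (by norm_num))]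
      _ ≤ L ^ s * (16 ^ (s - 1) * 16) := by
          gcongr
          rw [hU]
          simp only
          rw [lintegral_lintegral_swap]
          · calc ∫⁻ r in Ioc (0 : ℝ) 1, ∫⁻ t : ℝ, ‖FF k a r t‖ₑ ^ 2
                ≤ ∫⁻ _ in Ioc (0 : ℝ) 1, 16 := by
                  gcongr with r
                  exact FF_time k ha hsj r
              _ = 16 := by
                  rw [setLIntegral_const, Real.volume_Ioc]
                  norm_num
          · exact ((hm2.comp (by fun_prop :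
              Measurable fun p : ℝ × ℝ => ((p.2, p.1) : ℝ × ℝ))).pow_const 2).aemeasurable
  have hmt : Measurable fun t : ℝ => (∫⁻ r in Ioc (0 : ℝ) 1, ENNReal.ofReal (r ^ (k + 1)) *
      ‖FF k a r t‖ₑ ^ q) ^ s := by
    apply Measurable.pow_const
    refine Measurable.lintegral_prod_left' (f := fun p : ℝ × ℝ =>
      ENNReal.ofReal (p.1 ^ (k + 1)) * ‖FF k a p.1 p.2‖ₑ ^ q) ?_
    exact ((by fun_prop : Measurable fun p : ℝ × ℝ => p.1 ^ (k + 1)).ennreal_ofReal).mul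
      (hm2.pow_const q)
  calc ∫⁻ t : ℝ, (∫⁻ r in Ioi (0 : ℝ), ENNReal.ofReal (r ^ (k + 1)) * ‖FF k a r t‖ₑ ^ q) ^ s
      ≤ ∫⁻ t : ℝ, 2 ^ (s - 1) *
          ((∫⁻ r in Ioc (0 : ℝ) 1, ENNReal.ofReal (r ^ (k + 1)) * ‖FF k a r t‖ₑ ^ q) ^ s +
          (∫⁻ r in Ioi (1 : ℝ), ENNReal.ofReal (r ^ (k + 1)) * ‖FF k a r t‖ₑ ^ q) ^ s) := by
        gcongr with t
        refine le_trans ?_ (ENNReal.rpow_add_le_mul_rpow_add_rpow _ _ hs1)
        gcongr
        rw [← Ioc_union_Ioi_eq_Ioi (show (0 : ℝ) ≤ 1 by norm_num)]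
        exact lintegral_union_le _ _ _
    _ = 2 ^ (s - 1) * ((∫⁻ t : ℝ, (∫⁻ r in Ioc (0 : ℝ) 1, ENNReal.ofReal (r ^ (k + 1)) *
          ‖FF k a r t‖ₑ ^ q) ^ s) + ∫⁻ t : ℝ, (∫⁻ r in Ioi (1 : ℝ),
          ENNReal.ofReal (r ^ (k + 1)) * ‖FF k a r t‖ₑ ^ q) ^ s) := by
        rw [lintegral_const_mul' _ _ (ENNReal.rpow_ne_top_of_nonneg (by linarith) (by norm_num)),
          lintegral_add_left hmt]
    _ ≤ _ := by
        gcongr
        exact hC₁ H a ha hsj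

end Run7.h303.RB
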