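import Mathlib
import Pool.Agent.Run7.h303.RB.B3
set_option autoImplicit false
set_option linter.unusedSectionVars false

/-! The extension operator on radial functions in polar coordinates. -/

namespace Run7.h303.RB

open MeasureTheory Set Filter Topology Module
open scoped ENNReal NNReal RealInnerProductSpace
open Pool.Agent.TH277.HT (ch E1 Adm tr planch1 ch_norm ch_cont)

/-- the Euclidean space -/
abbrev VV (m : ℕ) := EuclideanSpace ℝ (Fin m)

/-- the product space -/
abbrev WW (k : ℕ) := WithLp 2 (ℝ × VV (k + 1))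

lemma WW_finrank (k : ℕ) : finrank ℝ (WW k) = k + 2 := by
  have h1 : finrank ℝ (WW k) = finrank ℝ (ℝ × VV (k + 1)) :=
    (WithLp.linearEquiv 2 ℝ (ℝ × VV (k + 1))).finrank_eq
  rw [h1, finrank_prod, finrank_self, finrank_euclideanSpace, Fintype.card_fin]
  omega

lemma exists_iso (k : ℕ) (E : Type) [NormedAddCommGroup E] [InnerProductSpace ℝ E]
    [FiniteDimensional ℝ E] (h : finrank ℝ E = k + 2) (x : E) :
    ∃ Ψ : WW k ≃ₗᵢ[ℝ] E, Ψ (WithLp.toLp 2 (‖x‖, 0)) = x := by
  obtain ⟨Ψ₀⟩ : Nonempty (WW k ≃ₗᵢ[ℝ] E) :=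
    ⟨(((stdOrthonormalBasis ℝ (WW k)).reindex (finCongr (WW_finrank k))).repr).trans
      (((stdOrthonormalBasis ℝ E).reindex (finCongr h)).repr).symm⟩
  set y : E := Ψ₀ (WithLp.toLp 2 (‖x‖, 0)) with hy
  have hn : ‖y‖ = ‖x‖ := by
    rw [hy, LinearIsometryEquiv.norm_map, WithLp.prod_norm_eq_of_L2]
    simp
  refine ⟨Ψ₀.trans (Submodule.reflection (Submodule.span ℝ {y - x})ᗮ), ?_⟩
  rw [LinearIsometryEquiv.trans_apply, ← hy]
  exact Submodule.reflection_sub hn

variable {H : Type} [NormedAddCommGroup H] [InnerProductSpace ℂ H] [CompleteSpace H]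

/-- the extension operator on an Euclidean space -/
noncomputable def EM {E : Type} [NormedAddCommGroup E] [InnerProductSpace ℝ E]
    [MeasureSpace E] (g : E → H) (x : E) (t : ℝ) : H :=
  ∫ η, ch (⟪η, x⟫ + ‖η‖ ^ 2 * t) • g η

/-- bounded functions supported in `[0,1]` -/
structure Rad (a : ℝ → H) : Prop where
  adm : Adm a
  supp : ∀ ρ, 1 < ρ → a ρ = 0

lemma pA_ch (k : ℕ) (y : ℝ) : ∫ φ in Ioo (0 : ℝ) Real.pi, ch (y * Real.cos φ) * (Real.sin φ ^ k : ℝ) =
    ((pA k (2 * Real.pi * y) : ℝ) : ℂ) := by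
  rw [← integral_Ioc_eq_integral_Ioo, ← intervalIntegral.integral_of_le Real.pi_pos.le]
  have h1 : ∀ φ : ℝ, ch (y * Real.cos φ) * (Real.sin φ ^ k : ℝ) =
      ((Real.cos (2 * Real.pi * y * Real.cos φ) * Real.sin φ ^ k : ℝ) : ℂ) +
        ((Real.sin (2 * Real.pi * y * Real.cos φ) * Real.sin φ ^ k : ℝ) : ℂ) * Complex.I := by
    intro φ
    have h2 : ch (y * Real.cos φ) = Complex.exp (((2 * Real.pi * y * Real.cos φ : ℝ) : ℂ) *
        Complex.I) := by
      unfold ch
      congr 1
      push_cast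
      ring
    rw [h2, Complex.exp_mul_I, ← Complex.ofReal_cos, ← Complex.ofReal_sin]
    push_cast
    ring
  simp only [h1]
  have hc1 : Continuous fun φ : ℝ =>
      ((Real.cos (2 * Real.pi * y * Real.cos φ) * Real.sin φ ^ k : ℝ) : ℂ) := by fun_prop
  have hc2 : Continuous fun φ : ℝ =>
      ((Real.sin (2 * Real.pi * y * Real.cos φ) * Real.sin φ ^ k : ℝ) : ℂ) * Complex.I := by
    fun_prop
  rw [intervalIntegral.integral_add (hc1.intervalIntegrable _ _) (hc2.intervalIntegrable _ _),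
    intervalIntegral.integral_mul_const, intervalIntegral.integral_ofReal,
    intervalIntegral.integral_ofReal]
  have h3 : ∫ φ in (0 : ℝ)..Real.pi, Real.sin (2 * Real.pi * y * Real.cos φ) * Real.sin φ ^ k = 0 := by
    have h4 := intervalIntegral.integral_comp_sub_left (a := 0) (b := Real.pi)
      (fun φ => Real.sin (2 * Real.pi * y * Real.cos φ) * Real.sin φ ^ k) Real.pi
    simp only [Real.cos_pi_sub, Real.sin_pi_sub, sub_zero, sub_self, mul_neg, Real.sin_neg,
      neg_mul, intervalIntegral.integral_neg] at h4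
    linarith
  rw [h3]
  unfold pA
  simp

/-- the function of two variables -/
noncomputable def ff (a : ℝ → H) (r t : ℝ) (u w : ℝ) : H :=
  ch (u * r + (u ^ 2 + w ^ 2) * t) • a (√(u ^ 2 + w ^ 2))

lemma rad_integrable {E : Type} [NormedAddCommGroup E] [InnerProductSpace ℝ E]
    [FiniteDimensional ℝ E] [MeasurableSpace E] [BorelSpace E] {a : ℝ → H} (ha : Rad a)
    (x : E) (t : ℝ) : Integrable fun η : E => ch (⟪η, x⟫ + ‖η‖ ^ 2 * t) • a ‖η‖ := by
  have hm : StronglyMeasurable fun η : E => ch (⟪η, x⟫ + ‖η‖ ^ 2 * t) • a ‖η‖ := by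
    apply StronglyMeasurable.smul
    · have h2 : Continuous fun η : E => ch (⟪η, x⟫ + ‖η‖ ^ 2 * t) := ch_cont.comp (by fun_prop)
      exact h2.stronglyMeasurable
    · exact ha.adm.meas.comp_measurable measurable_norm
  have h1 : IntegrableOn (fun η : E => ch (⟪η, x⟫ + ‖η‖ ^ 2 * t) • a ‖η‖)
      (Metric.closedBall (0 : E) 1) := by
    apply IntegrableOn.of_bound _ hm.aestronglyMeasurable 1
    · refine ae_of_all _ fun η => ?_
      rw [norm_smul, ch_norm, one_mul]
      exact ha.adm.bd _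
    · exact measure_closedBall_lt_top
  rwa [integrableOn_iff_integrable_of_support_subset] at h1
  intro η hη
  by_contra hc
  apply hη
  rw [mem_closedBall_zero_iff, not_le] at hc
  simp only
  rw [ha.supp _ hc, smul_zero]

lemma ff_integrable {a : ℝ → H} (ha : Rad a) (r t : ℝ) (k : ℕ) :
    Integrable fun p : ℝ × ℝ => (Ioi (0 : ℝ)).indicator (fun w => w ^ k • ff a r t p.1 w) p.2 := by
  have hm : StronglyMeasurable fun p : ℝ × ℝ =>
      (Ioi (0 : ℝ)).indicator (fun w => w ^ k • ff a r t p.1 w) p.2 := by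
    have h1 : (fun p : ℝ × ℝ => (Ioi (0 : ℝ)).indicator (fun w => w ^ k • ff a r t p.1 w) p.2) =
        ({p : ℝ × ℝ | 0 < p.2}).indicator fun p => p.2 ^ k • ff a r t p.1 p.2 := by
      ext p
      by_cases h : 0 < p.2
      · rw [indicator_of_mem (show p.2 ∈ Ioi (0 : ℝ) from h),
          indicator_of_mem (show p ∈ {p : ℝ × ℝ | 0 < p.2} from h)]
      · rw [indicator_of_notMem (show p.2 ∉ Ioi (0 : ℝ) from h),
          indicator_of_notMem (show p ∉ {p : ℝ × ℝ | 0 < p.2} from h)]
    rw [h1]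
    apply StronglyMeasurable.indicator _ (measurableSet_lt measurable_const measurable_snd)
    have hff : StronglyMeasurable fun p : ℝ × ℝ => ff a r t p.1 p.2 := by
      unfold ff
      apply StronglyMeasurable.smul
      · exact (ch_cont.comp (by fun_prop : Continuous fun p : ℝ × ℝ =>
          p.1 * r + (p.1 ^ 2 + p.2 ^ 2) * t)).stronglyMeasurable
      · exact ha.adm.meas.comp_measurable (by fun_prop)
    exact ((by fun_prop : Continuous fun p : ℝ × ℝ => p.2 ^ k).stronglyMeasurable).smul hff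
  have hb : IntegrableOn (fun p : ℝ × ℝ =>
      (Ioi (0 : ℝ)).indicator (fun w => w ^ k • ff a r t p.1 w) p.2)
      (Icc (-1 : ℝ) 1 ×ˢ Icc (-1 : ℝ) 1) := by
    rw [Measure.volume_eq_prod]
    apply IntegrableOn.of_bound _ hm.aestronglyMeasurable 1
    · refine (ae_restrict_iff' (measurableSet_Icc.prod measurableSet_Icc)).2
        (ae_of_all _ fun p hp => ?_)
      by_cases h : p.2 ∈ Ioi (0 : ℝ)
      · rw [indicator_of_mem h, norm_smul, norm_pow]
        unfold ff
        rw [norm_smul, ch_norm, one_mul]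
        calc ‖p.2‖ ^ k * ‖a (√(p.1 ^ 2 + p.2 ^ 2))‖ ≤ 1 * 1 := by
              gcongr
              · apply pow_le_one₀ (norm_nonneg _)
                exact abs_le.2 hp.2
              · exact ha.adm.bd _
          _ = 1 := one_mul 1
      · rw [indicator_of_notMem h, norm_zero]
        exact zero_le_one
    · rw [Measure.prod_prod, Real.volume_Icc]
      exact ENNReal.mul_lt_top ENNReal.ofReal_lt_top ENNReal.ofReal_lt_top
  rwa [integrableOn_iff_integrable_of_support_subset] at hb
  intro p hp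
  by_contra hc
  apply hp
  simp only
  have h1 : ff a r t p.1 p.2 = 0 := by
    unfold ff
    rw [ha.supp, smul_zero]
    rw [Real.lt_sqrt zero_le_one]
    by_contra h2
    apply hc
    constructor
    · refine abs_le.1 ?_
      apply abs_le_one_iff_mul_self_le_one.2
      nlinarith [sq_nonneg p.2]
    · refine abs_le.1 ?_
      apply abs_le_one_iff_mul_self_le_one.2
      nlinarith [sq_nonneg p.1]
  by_cases h : p.2 ∈ Ioi (0 : ℝ)
  · rw [indicator_of_mem h, h1, smul_zero]
  · rw [indicator_of_notMem h]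

/-- the dimensional constant -/
noncomputable def cc (k : ℕ) : ℝ :=
  (((k + 1 : ℕ) : ℝ)) * (volume : Measure (VV (k + 1))).real (Metric.ball 0 1)

/-- cylindrical coordinates -/
lemma cyl (k : ℕ) (E : Type) [NormedAddCommGroup E] [InnerProductSpace ℝ E]
    [FiniteDimensional ℝ E] [MeasurableSpace E] [BorelSpace E] (h : finrank ℝ E = k + 2)
    {a : ℝ → H} (ha : Rad a) (x : E) (t : ℝ) :
    EM (fun η => a ‖η‖) x t = cc k • ∫ p : ℝ × ℝ,
      (Ioi (0 : ℝ)).indicator (fun w => w ^ k • ff a ‖x‖ t p.1 w) p.2 := by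
  obtain ⟨Ψ, hΨ⟩ := exists_iso k E h x
  -- pass to the product
  have hmp : MeasurePreserving (fun p : ℝ × VV (k + 1) => Ψ (WithLp.toLp 2 p)) :=
    Ψ.measurePreserving.comp (WithLp.volume_preserving_toLp ℝ (VV (k + 1)))
  have hemb : MeasurableEmbedding (fun p : ℝ × VV (k + 1) => Ψ (WithLp.toLp 2 p)) :=
    (Ψ.toHomeomorph.measurableEmbedding).comp
      (MeasurableEquiv.toLp 2 (ℝ × VV (k + 1))).measurableEmbedding
  have hval : ∀ p : ℝ × VV (k + 1), ch (⟪Ψ (WithLp.toLp 2 p), x⟫ +
      ‖Ψ (WithLp.toLp 2 p)‖ ^ 2 * t) • a ‖Ψ (WithLp.toLp 2 p)‖ = ff a ‖x‖ t p.1 ‖p.2‖ := by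
    intro p
    have e1 : ‖Ψ (WithLp.toLp 2 p)‖ ^ 2 = p.1 ^ 2 + ‖p.2‖ ^ 2 := by
      rw [LinearIsometryEquiv.norm_map, WithLp.prod_norm_sq_eq_of_L2]
      simp
    have e2 : ‖Ψ (WithLp.toLp 2 p)‖ = √(p.1 ^ 2 + ‖p.2‖ ^ 2) := by
      rw [← e1, Real.sqrt_sq (norm_nonneg _)]
    have e3 : ⟪Ψ (WithLp.toLp 2 p), x⟫ = p.1 * ‖x‖ := by
      conv_lhs => rw [← hΨ]
      rw [LinearIsometryEquiv.inner_map_map, WithLp.prod_inner_apply]
      simp [mul_comm]
    unfold ff
    rw [e3, e1, e2]
  have hint := (hmp.integrable_comp_emb hemb).2 (rad_integrable ha x t)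
  have hint2 : Integrable fun p : ℝ × VV (k + 1) => ff a ‖x‖ t p.1 ‖p.2‖ := by
    refine hint.congr (ae_of_all _ fun p => ?_)
    simp only [Function.comp]
    exact hval p
  unfold EM
  rw [← hmp.integral_comp hemb]
  simp only [hval]
  rw [Measure.volume_eq_prod, integral_prod _ hint2]
  have h2 : ∀ u : ℝ, ∫ y : VV (k + 1), ff a ‖x‖ t u ‖y‖ =
      cc k • ∫ w in Ioi (0 : ℝ), w ^ k • ff a ‖x‖ t u w := by
    intro u
    rw [integral_fun_norm_addHaar volume (fun w => ff a ‖x‖ t u w), finrank_euclideanSpace,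
      Fintype.card_fin, cc, mul_smul, Nat.cast_smul_eq_nsmul]
    rfl
  simp only [h2]
  rw [integral_smul]
  congr 1
  have h3 := ff_integrable ha ‖x‖ t k
  rw [Measure.volume_eq_prod] at h3 ⊢
  rw [integral_prod _ h3]
  apply integral_congr_ae
  refine ae_of_all _ fun u => ?_
  simp only
  rw [integral_indicator measurableSet_Ioi]

/-- polar coordinates -/
lemma pol (k : ℕ) {a : ℝ → H} (ha : Rad a) (r t : ℝ) :
    ∫ p : ℝ × ℝ, (Ioi (0 : ℝ)).indicator (fun w => w ^ k • ff a r t p.1 w) p.2 = FF k a r t := by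
  have hint := ff_integrable ha r t k
  rw [← integral_comp_polarCoord_symm]
  -- the integrand in polar coordinates
  set Φ : ℝ × ℝ → H := fun p => (((p.1 ^ (k + 1) : ℝ) : ℂ) *
    (ch (r * p.1 * Real.cos p.2) * (Real.sin p.2 ^ k : ℝ))) • (ch (p.1 ^ 2 * t) • a p.1) with hΦ
  have htar : polarCoord.target = Ioi (0 : ℝ) ×ˢ Ioo (-Real.pi) Real.pi := rfl
  have h1 : ∫ p in polarCoord.target, p.1 • (Ioi (0 : ℝ)).indicator
      (fun w => w ^ k • ff a r t (polarCoord.symm p).1 w) (polarCoord.symm p).2 =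
      ∫ p in Ioi (0 : ℝ) ×ˢ Ioo (0 : ℝ) Real.pi, Φ p := by
    have hsub : Ioi (0 : ℝ) ×ˢ Ioo (0 : ℝ) Real.pi ⊆ polarCoord.target := by
      rw [htar]
      apply Set.prod_mono le_rfl
      apply Ioo_subset_Ioo_left
      linarith [Real.pi_pos]
    rw [setIntegral_eq_of_subset_of_forall_diff_eq_zero
      (polarCoord.open_target.measurableSet) hsub]
    · apply setIntegral_congr_fun (measurableSet_Ioi.prod measurableSet_Ioo)
      intro p hp
      have hp1 : 0 < p.1 := hp.1
      have hsin : 0 < Real.sin p.2 := Real.sin_pos_of_pos_of_lt_pi hp.2.1 hp.2.2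
      have hpos : 0 < p.1 * Real.sin p.2 := by positivity
      simp only [polarCoord_symm_apply]
      rw [indicator_of_mem (show p.1 * Real.sin p.2 ∈ Ioi (0 : ℝ) from hpos)]
      have e1 : (p.1 * Real.cos p.2) ^ 2 + (p.1 * Real.sin p.2) ^ 2 = p.1 ^ 2 := by
        have := Real.sin_sq_add_cos_sq p.2
        calc (p.1 * Real.cos p.2) ^ 2 + (p.1 * Real.sin p.2) ^ 2 =
            p.1 ^ 2 * (Real.sin p.2 ^ 2 + Real.cos p.2 ^ 2) := by ring
          _ = p.1 ^ 2 := by rw [this, mul_one]
      unfold ff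
      rw [e1, Real.sqrt_sq hp1.le, hΦ, smul_smul]
      simp only
      rw [Pool.Agent.TH277.HT.ch_add, show p.1 * Real.cos p.2 * r = r * p.1 * Real.cos p.2 by ring,
        ← Complex.coe_smul, smul_smul, smul_smul]
      congr 1
      push_cast
      ring
    · intro p hp
      have hp1 : p ∈ polarCoord.target := hp.1
      rw [htar] at hp1
      have hp1' : 0 < p.1 := hp1.1
      simp only [polarCoord_symm_apply]
      rw [indicator_of_notMem, smul_zero]
      intro h
      have hpos : 0 < p.1 * Real.sin p.2 := h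
      have hsin : 0 < Real.sin p.2 := by
        by_contra h'
        have := mul_nonpos_of_nonneg_of_nonpos hp1'.le (not_lt.1 h')
        linarith
      apply hp.2
      refine ⟨hp1.1, ?_, hp1.2.2⟩
      by_contra h2
      have h3 : Real.sin p.2 ≤ 0 :=
        Real.sin_nonpos_of_nonpos_of_neg_pi_le (not_lt.1 h2) hp1.2.1.le
      linarith
  rw [h1]
  have hint2 : IntegrableOn Φ (Ioi (0 : ℝ) ×ˢ Ioo (0 : ℝ) Real.pi) := by
    have hm : StronglyMeasurable Φ := by
      rw [hΦ]
      apply StronglyMeasurable.smul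
      · apply Continuous.stronglyMeasurable
        have := ch_cont
        fun_prop
      · apply StronglyMeasurable.smul
        · apply Continuous.stronglyMeasurable
          have := ch_cont
          fun_prop
        · exact ha.adm.meas.comp_measurable measurable_fst
    have hb : IntegrableOn Φ (Icc (0 : ℝ) 1 ×ˢ Icc (0 : ℝ) Real.pi) := by
      rw [Measure.volume_eq_prod]
      apply IntegrableOn.of_bound _ hm.aestronglyMeasurable 1
      · refine (ae_restrict_iff' (measurableSet_Icc.prod measurableSet_Icc)).2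
          (ae_of_all _ fun p hp => ?_)
        rw [hΦ]
        simp only
        rw [norm_smul, norm_smul, norm_mul, norm_mul, ch_norm, ch_norm, Complex.norm_real,
          Complex.norm_real, norm_pow, norm_pow, one_mul, one_mul]
        calc ‖p.1‖ ^ (k + 1) * ‖Real.sin p.2‖ ^ k * ‖a p.1‖ ≤ 1 * 1 * 1 := by
              gcongr
              · apply pow_le_one₀ (norm_nonneg _)
                rw [Real.norm_of_nonneg hp.1.1]
                exact hp.1.2
              · exact pow_le_one₀ (norm_nonneg _) (Real.abs_sin_le_one _)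
              · exact ha.adm.bd _
          _ = 1 := by norm_num
      · rw [Measure.prod_prod, Real.volume_Icc, Real.volume_Icc]
        exact ENNReal.mul_lt_top ENNReal.ofReal_lt_top ENNReal.ofReal_lt_top
    have hb2 : IntegrableOn Φ ((Ioi (0 : ℝ) ×ˢ Ioo (0 : ℝ) Real.pi) ∩
        (Icc (0 : ℝ) 1 ×ˢ Icc (0 : ℝ) Real.pi)) := hb.mono_set inter_subset_right
    rw [← integrable_indicator_iff (measurableSet_Ioi.prod measurableSet_Ioo)]
    rw [← integrable_indicator_iff ((measurableSet_Ioi.prod measurableSet_Ioo).inter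
      (measurableSet_Icc.prod measurableSet_Icc))] at hb2
    refine hb2.congr (ae_of_all _ fun p => ?_)
    by_cases h : p ∈ Ioi (0 : ℝ) ×ˢ Ioo (0 : ℝ) Real.pi
    · rw [indicator_of_mem h]
      by_cases h' : p ∈ Icc (0 : ℝ) 1 ×ˢ Icc (0 : ℝ) Real.pi
      · rw [indicator_of_mem (mem_inter h h')]
      · rw [indicator_of_notMem (fun hh => h' hh.2), hΦ]
        simp only
        rw [ha.supp, smul_zero, smul_zero]
        by_contra h2
        exact h' ⟨⟨le_of_lt h.1, not_lt.1 h2⟩, ⟨h.2.1.le, h.2.2.le⟩⟩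
    · rw [indicator_of_notMem h, indicator_of_notMem (fun hh => h hh.1)]
  rw [Measure.volume_eq_prod] at hint2 ⊢
  rw [setIntegral_prod _ hint2]
  unfold FF
  apply setIntegral_congr_fun measurableSet_Ioi
  intro ρ hρ
  simp only [hΦ]
  rw [integral_smul_const]
  congr 1
  rw [integral_const_mul, pA_ch k (r * ρ)]
  push_cast
  congr 2
  ring_nf

/-- the extension operator on radial functions -/
theorem EM_rad (k : ℕ) (E : Type) [NormedAddCommGroup E] [InnerProductSpace ℝ E]
    [FiniteDimensional ℝ E] [MeasurableSpace E] [BorelSpace E] (h : finrank ℝ E = k + 2)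
    {a : ℝ → H} (ha : Rad a) (x : E) (t : ℝ) :
    EM (fun η => a ‖η‖) x t = cc k • FF k a ‖x‖ t := by
  rw [cyl k E h ha x t, pol k ha]

end Run7.h303.RB
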