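import Mathlib
import Pool.Agent.Run7.h303.RB.C1
set_option autoImplicit false
set_option linter.unusedSectionVars false

/-! The mixed norm estimate for the extension operator on all radial functions. -/

namespace Run7.h303.RB

open MeasureTheory Set Filter Topology Module
open scoped ENNReal NNReal RealInnerProductSpace
open Pool.Agent.TH277.HT (ch E1 Adm tr planch1 ch_norm ch_cont lint_mul)

variable {H : Type} [NormedAddCommGroup H] [InnerProductSpace ℂ H] [CompleteSpace H]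

lemma SJ.rad {a : ℝ → H} (ha : Adm a) (hs : SJ a) : Rad a :=
  ⟨ha, fun ρ hρ => hs ρ fun h => absurd h.2 (not_le.2 hρ)⟩

/-- the mixed norm in the radial variable -/
noncomputable def TT (k : ℕ) (q s : ℝ) (a : ℝ → H) : ℝ≥0∞ :=
  ∫⁻ t : ℝ, (∫⁻ r in Ioi (0 : ℝ), ENNReal.ofReal (r ^ (k + 1)) * ‖FF k a r t‖ₑ ^ q) ^ s

lemma Rad.comp {a : ℝ → H} (ha : Rad a) : Rad (fun ρ => (Iio (1 : ℝ)).indicator
    (fun ρ => a (ρ / 2)) ρ) := by
  refine ⟨⟨?_, ?_⟩, ?_⟩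
  · exact (ha.adm.meas.comp_measurable (by fun_prop)).indicator measurableSet_Iio
  · intro u
    by_cases h : u ∈ Iio (1 : ℝ)
    · rw [indicator_of_mem h]
      exact ha.adm.bd _
    · rw [indicator_of_notMem h, norm_zero]
      exact zero_le_one
  · intro ρ hρ
    exact indicator_of_notMem (fun h => absurd (mem_Iio.1 h) (not_lt.2 hρ.le)) _

lemma Rad.ind {a : ℝ → H} (ha : Rad a) {s : Set ℝ} (hs : MeasurableSet s) :
    Rad (s.indicator a) := by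
  refine ⟨⟨ha.adm.meas.indicator hs, fun u => ?_⟩, fun ρ hρ => ?_⟩
  · by_cases h : u ∈ s
    · rw [indicator_of_mem h]
      exact ha.adm.bd _
    · rw [indicator_of_notMem h, norm_zero]
      exact zero_le_one
  · by_cases h : ρ ∈ s
    · rw [indicator_of_mem h]
      exact ha.supp ρ hρ
    · exact indicator_of_notMem h _

/-- the integrand of `FF` -/
noncomputable def fi (k : ℕ) (a : ℝ → H) (r t ρ : ℝ) : H :=
  ((ρ ^ (k + 1) * pA k (2 * Real.pi * r * ρ) : ℝ) : ℂ) • (ch (ρ ^ 2 * t) • a ρ)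

lemma fi_meas (k : ℕ) {a : ℝ → H} (ha : Adm a) (r t : ℝ) :
    StronglyMeasurable fun ρ => fi k a r t ρ := by
  unfold fi
  apply StronglyMeasurable.smul
  · have h2 := pA_cont k
    have h3 : Continuous fun ρ : ℝ =>
        ((ρ ^ (k + 1) * pA k (2 * Real.pi * r * ρ) : ℝ) : ℂ) := by fun_prop
    exact h3.stronglyMeasurable
  · apply StronglyMeasurable.smul
    · exact (ch_cont.comp (by fun_prop : Continuous fun ρ : ℝ => ρ ^ 2 * t)).stronglyMeasurable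
    · exact ha.meas

lemma fi_le (k : ℕ) {a : ℝ → H} (ha : Rad a) (r t : ℝ) {ρ : ℝ} (hρ : 0 < ρ) :
    ‖fi k a r t ρ‖ ≤ (Ioc (0 : ℝ) 1).indicator (fun _ => 4) ρ := by
  unfold fi
  by_cases h : ρ ∈ Ioc (0 : ℝ) 1
  · rw [indicator_of_mem h, norm_smul, norm_smul, ch_norm, one_mul, Complex.norm_real, norm_mul,
      norm_pow, Real.norm_of_nonneg hρ.le]
    calc ρ ^ (k + 1) * ‖pA k (2 * Real.pi * r * ρ)‖ * ‖a ρ‖ ≤ 1 * 4 * 1 := by
          gcongr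
          · exact pow_le_one₀ hρ.le h.2
          · exact pA_le _ _
          · exact ha.adm.bd _
      _ = 4 := by norm_num
  · rw [indicator_of_notMem h, ha.supp ρ, smul_zero, smul_zero, norm_zero]
    by_contra h'
    exact h ⟨hρ, not_lt.1 h'⟩

lemma ind4_int : Integrable ((Ioc (0 : ℝ) 1).indicator (fun _ => (4 : ℝ)))
    (volume.restrict (Ioi (0 : ℝ))) := by
  apply Integrable.restrict
  rw [integrable_indicator_iff measurableSet_Ioc]
  exact integrableOn_const (by simp)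

lemma fi_int (k : ℕ) {a : ℝ → H} (ha : Rad a) (r t : ℝ) :
    IntegrableOn (fun ρ => fi k a r t ρ) (Ioi 0) := by
  refine ind4_int.mono' (fi_meas k ha.adm r t).aestronglyMeasurable ?_
  exact (ae_restrict_iff' measurableSet_Ioi).2 (ae_of_all _ fun ρ hρ => fi_le k ha r t hρ)

lemma FF_fi (k : ℕ) (a : ℝ → H) (r t : ℝ) : FF k a r t = ∫ ρ in Ioi (0 : ℝ), fi k a r t ρ := rfl

lemma FF_add (k : ℕ) {a b : ℝ → H} (ha : Rad a) (hb : Rad b) (r t : ℝ) :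
    FF k (fun ρ => a ρ + b ρ) r t = FF k a r t + FF k b r t := by
  rw [FF_fi, FF_fi, FF_fi, ← integral_add (fi_int k ha r t) (fi_int k hb r t)]
  apply integral_congr_ae
  refine ae_of_all _ fun ρ => ?_
  simp only [fi, smul_add]

/-- the scaling -/
lemma FF_scale (k : ℕ) {a b : ℝ → H} (h : ∀ ρ, 0 < ρ → a ρ = b (2 * ρ)) (r t : ℝ) :
    FF k a r t = (((2 : ℝ)⁻¹ ^ (k + 2) : ℝ) : ℂ) • FF k b (r / 2) (t / 4) := by
  have h1 := integral_comp_mul_left_Ioi (fun ρ => (((2 : ℝ)⁻¹ ^ (k + 1) : ℝ) : ℂ) •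
    fi k b (r / 2) (t / 4) ρ) 0 two_pos
  rw [mul_zero] at h1
  have h2 : FF k a r t = ∫ x in Ioi (0 : ℝ), (((2 : ℝ)⁻¹ ^ (k + 1) : ℝ) : ℂ) •
      fi k b (r / 2) (t / 4) (2 * x) := by
    rw [FF_fi]
    apply setIntegral_congr_fun measurableSet_Ioi
    intro ρ hρ
    simp only [fi]
    rw [h ρ hρ]
    have e1 : 2 * Real.pi * (r / 2) * (2 * ρ) = 2 * Real.pi * r * ρ := by ring
    have e2 : (2 * ρ) ^ 2 * (t / 4) = ρ ^ 2 * t := by ring
    have e3 : (((2 : ℝ)⁻¹ ^ (k + 1) : ℝ) : ℂ) *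
        (((2 * ρ) ^ (k + 1) * pA k (2 * Real.pi * r * ρ) : ℝ) : ℂ) =
        ((ρ ^ (k + 1) * pA k (2 * Real.pi * r * ρ) : ℝ) : ℂ) := by
      rw [← Complex.ofReal_mul]
      congr 1
      rw [← mul_assoc, ← mul_pow, ← mul_assoc, inv_mul_cancel₀ two_ne_zero, one_mul]
    conv_rhs => rw [e1, e2, smul_smul, e3]
  rw [h2, h1, integral_smul, FF_fi, ← Complex.coe_smul, smul_smul]
  congr 1
  push_cast
  ring

lemma TT_scale (k : ℕ) {q s : ℝ} (hq : 0 ≤ q) (hs : 0 ≤ s) {a b : ℝ → H}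
    (h : ∀ ρ, 0 < ρ → a ρ = b (2 * ρ)) :
    TT k q s a = ENNReal.ofReal (((2 : ℝ)⁻¹ ^ (((k : ℝ) + 2) * (q - 1))) ^ s * 4) * TT k q s b := by
  -- the inner integral
  have h1 : ∀ t : ℝ, ∫⁻ r in Ioi (0 : ℝ), ENNReal.ofReal (r ^ (k + 1)) * ‖FF k a r t‖ₑ ^ q =
      ENNReal.ofReal ((2 : ℝ)⁻¹ ^ (((k : ℝ) + 2) * (q - 1))) *
        ∫⁻ r in Ioi (0 : ℝ), ENNReal.ofReal (r ^ (k + 1)) * ‖FF k b r (t / 4)‖ₑ ^ q := by
    intro t
    set G : ℝ → ℝ≥0∞ := (Ioi (0 : ℝ)).indicator fun r =>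
      ENNReal.ofReal (r ^ (k + 1)) * ‖FF k b r (t / 4)‖ₑ ^ q with hG
    have h2 := lint_mul (2 : ℝ)⁻¹ (by norm_num) G
    rw [inv_inv, abs_of_pos two_pos] at h2
    rw [← lintegral_indicator measurableSet_Ioi, ← lintegral_indicator measurableSet_Ioi, ← hG]
    have h3 : ∀ r : ℝ, (Ioi (0 : ℝ)).indicator (fun r => ENNReal.ofReal (r ^ (k + 1)) *
        ‖FF k a r t‖ₑ ^ q) r = ENNReal.ofReal ((2 : ℝ) ^ (k + 1) * ((2 : ℝ)⁻¹ ^ (k + 2)) ^ q) *
          G (2⁻¹ * r) := by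
      intro r
      by_cases hr : 0 < r
      · have hr2 : 0 < 2⁻¹ * r := by positivity
        rw [indicator_of_mem (show r ∈ Ioi (0 : ℝ) from hr), hG,
          indicator_of_mem (show 2⁻¹ * r ∈ Ioi (0 : ℝ) from hr2), FF_scale k h, enorm_smul,
          ENNReal.mul_rpow_of_nonneg _ _ hq]
        have e1 : ‖(((2 : ℝ)⁻¹ ^ (k + 2) : ℝ) : ℂ)‖ₑ ^ q =
            ENNReal.ofReal (((2 : ℝ)⁻¹ ^ (k + 2)) ^ q) := by
          rw [← ofReal_norm, Complex.norm_real, Real.norm_of_nonneg (by positivity),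
            ENNReal.ofReal_rpow_of_nonneg (by positivity) hq]
        rw [e1, show r / 2 = 2⁻¹ * r by ring, ← mul_assoc, ← mul_assoc,
          ← ENNReal.ofReal_mul (by positivity), ← ENNReal.ofReal_mul (by positivity)]
        congr 2
        have e4 : (2 : ℝ) ^ (k + 1) * (2⁻¹ * r) ^ (k + 1) = r ^ (k + 1) := by
          rw [← mul_pow, ← mul_assoc, mul_inv_cancel₀ two_ne_zero, one_mul]
        rw [← e4]
        ring
      · rw [indicator_of_notMem (show r ∉ Ioi (0 : ℝ) from hr), hG, indicator_of_notMem, mul_zero]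
        intro h'
        apply hr
        have : 0 < 2⁻¹ * r := h'
        linarith
    simp only [h3]
    rw [lintegral_const_mul' _ _ ENNReal.ofReal_ne_top, h2, ← mul_assoc,
      ← ENNReal.ofReal_mul (by positivity)]
    congr 2
    have e2 : (2 : ℝ) ^ (k + 1) * ((2 : ℝ)⁻¹ ^ (k + 2)) ^ q * 2 =
        (2 : ℝ) ^ (k + 2) * ((2 : ℝ)⁻¹ ^ (k + 2)) ^ q := by ring
    rw [e2, ← Real.rpow_natCast ((2 : ℝ)⁻¹), ← Real.rpow_natCast (2 : ℝ), ← Real.rpow_mul (by norm_num),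
      Real.inv_rpow (by norm_num), Real.inv_rpow (by norm_num), ← Real.rpow_neg (by norm_num),
      ← Real.rpow_neg (by norm_num), ← Real.rpow_add (by norm_num)]
    congr 1
    push_cast
    ring
  unfold TT
  simp only [h1]
  have h4 : ∀ t : ℝ, (ENNReal.ofReal ((2 : ℝ)⁻¹ ^ (((k : ℝ) + 2) * (q - 1))) *
        ∫⁻ r in Ioi (0 : ℝ), ENNReal.ofReal (r ^ (k + 1)) * ‖FF k b r (t / 4)‖ₑ ^ q) ^ s =
      ENNReal.ofReal (((2 : ℝ)⁻¹ ^ (((k : ℝ) + 2) * (q - 1))) ^ s) *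
        (fun t => (∫⁻ r in Ioi (0 : ℝ), ENNReal.ofReal (r ^ (k + 1)) *
          ‖FF k b r t‖ₑ ^ q) ^ s) (4⁻¹ * t) := by
    intro t
    rw [ENNReal.mul_rpow_of_nonneg _ _ hs, ENNReal.ofReal_rpow_of_nonneg (by positivity) hs]
    simp only
    rw [show t / 4 = 4⁻¹ * t by ring]
  simp only [h4]
  rw [lintegral_const_mul' _ _ ENNReal.ofReal_ne_top,
    lint_mul (4 : ℝ)⁻¹ (by norm_num) (fun t => (∫⁻ r in Ioi (0 : ℝ), ENNReal.ofReal (r ^ (k + 1)) *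
          ‖FF k b r t‖ₑ ^ q) ^ s), inv_inv, abs_of_pos (by norm_num : (0 : ℝ) < 4), ← mul_assoc,
    ← ENNReal.ofReal_mul (by positivity)]

lemma TT_add (k : ℕ) {q s : ℝ} (hq : 1 ≤ q) (hs : 1 ≤ s) {a b c : ℝ → H} (ha : Rad a) (hb : Rad b)
    (h : ∀ ρ, c ρ = a ρ + b ρ) :
    TT k q s c ≤ 2 ^ ((q - 1) * s) * 2 ^ (s - 1) * (TT k q s a + TT k q s b) := by
  have hq1 : 0 ≤ q - 1 := by linarith
  have hs1 : 0 ≤ s - 1 := by linarith
  have hs0 : 0 ≤ s := by linarith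
  have hma : Measurable fun p : ℝ × ℝ => ENNReal.ofReal (p.1 ^ (k + 1)) * ‖FF k a p.1 p.2‖ₑ ^ q :=
    ((by fun_prop : Measurable fun p : ℝ × ℝ => p.1 ^ (k + 1)).ennreal_ofReal).mul
      ((FF_meas k ha.adm).enorm.pow_const q)
  have h1 : ∀ t : ℝ, ∫⁻ r in Ioi (0 : ℝ), ENNReal.ofReal (r ^ (k + 1)) * ‖FF k c r t‖ₑ ^ q ≤
      2 ^ (q - 1) * ((∫⁻ r in Ioi (0 : ℝ), ENNReal.ofReal (r ^ (k + 1)) * ‖FF k a r t‖ₑ ^ q) +
        ∫⁻ r in Ioi (0 : ℝ), ENNReal.ofReal (r ^ (k + 1)) * ‖FF k b r t‖ₑ ^ q) := by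
    intro t
    have hYt : Measurable fun r : ℝ => ENNReal.ofReal (r ^ (k + 1)) * ‖FF k a r t‖ₑ ^ q :=
      hma.comp (by fun_prop : Measurable fun r : ℝ => ((r, t) : ℝ × ℝ))
    rw [← lintegral_add_left hYt, ← lintegral_const_mul' _ _
      (ENNReal.rpow_ne_top_of_nonneg hq1 (by norm_num))]
    apply lintegral_mono
    intro r
    simp only
    have e1 : FF k c r t = FF k a r t + FF k b r t := by
      rw [← FF_add k ha hb]
      congr 1
      ext ρ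
      exact h ρ
    calc ENNReal.ofReal (r ^ (k + 1)) * ‖FF k c r t‖ₑ ^ q
        ≤ ENNReal.ofReal (r ^ (k + 1)) * (‖FF k a r t‖ₑ + ‖FF k b r t‖ₑ) ^ q := by
          gcongr
          rw [e1]
          exact enorm_add_le _ _
      _ ≤ ENNReal.ofReal (r ^ (k + 1)) *
            (2 ^ (q - 1) * (‖FF k a r t‖ₑ ^ q + ‖FF k b r t‖ₑ ^ q)) := by
          gcongr
          exact ENNReal.rpow_add_le_mul_rpow_add_rpow _ _ hq
      _ = _ := by ring
  unfold TT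
  calc ∫⁻ t : ℝ, (∫⁻ r in Ioi (0 : ℝ), ENNReal.ofReal (r ^ (k + 1)) * ‖FF k c r t‖ₑ ^ q) ^ s
      ≤ ∫⁻ t : ℝ, 2 ^ ((q - 1) * s) * 2 ^ (s - 1) *
          ((∫⁻ r in Ioi (0 : ℝ), ENNReal.ofReal (r ^ (k + 1)) * ‖FF k a r t‖ₑ ^ q) ^ s +
            (∫⁻ r in Ioi (0 : ℝ), ENNReal.ofReal (r ^ (k + 1)) * ‖FF k b r t‖ₑ ^ q) ^ s) := by
        apply lintegral_mono
        intro t
        simp only
        calc (∫⁻ r in Ioi (0 : ℝ), ENNReal.ofReal (r ^ (k + 1)) * ‖FF k c r t‖ₑ ^ q) ^ s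
            ≤ (2 ^ (q - 1) *
              ((∫⁻ r in Ioi (0 : ℝ), ENNReal.ofReal (r ^ (k + 1)) * ‖FF k a r t‖ₑ ^ q) +
              ∫⁻ r in Ioi (0 : ℝ), ENNReal.ofReal (r ^ (k + 1)) * ‖FF k b r t‖ₑ ^ q)) ^ s :=
              ENNReal.rpow_le_rpow (h1 t) hs0
          _ = 2 ^ ((q - 1) * s) *
              ((∫⁻ r in Ioi (0 : ℝ), ENNReal.ofReal (r ^ (k + 1)) * ‖FF k a r t‖ₑ ^ q) +
              ∫⁻ r in Ioi (0 : ℝ), ENNReal.ofReal (r ^ (k + 1)) * ‖FF k b r t‖ₑ ^ q) ^ s := by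
              rw [ENNReal.mul_rpow_of_nonneg _ _ hs0, ← ENNReal.rpow_mul]
          _ ≤ _ := by
              rw [mul_assoc]
              gcongr
              exact ENNReal.rpow_add_le_mul_rpow_add_rpow _ _ hs
    _ = _ := by
        rw [lintegral_const_mul' _ _ (ENNReal.mul_ne_top
          (ENNReal.rpow_ne_top_of_nonneg (by positivity) (by norm_num))
          (ENNReal.rpow_ne_top_of_nonneg hs1 (by norm_num))),
          lintegral_add_left]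
        exact (Measurable.lintegral_prod_left' (f := fun p : ℝ × ℝ =>
          ENNReal.ofReal (p.1 ^ (k + 1)) * ‖FF k a p.1 p.2‖ₑ ^ q) hma).pow_const s

end Run7.h303.RB
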