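import Mathlib
import Pool.Agent.Run7.h303.RB.C2
set_option autoImplicit false
set_option linter.unusedSectionVars false

/-! The mixed norm estimate for the extension operator on all radial functions: induction on
scales, and the passage to the Euclidean space. -/

namespace Run7.h303.RB

open MeasureTheory Set Filter Topology Module
open scoped ENNReal NNReal RealInnerProductSpace
open Pool.Agent.TH277.HT (ch E1 Adm tr planch1 ch_norm ch_cont lint_mul)

/-- the bound for functions vanishing near zero -/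
theorem TT_trunc (n k : ℕ) (hk : k + 2 ≤ n) (q : ℝ) (hq : 2 * ((n : ℝ) + 1) / n < q) :
    ∃ C : ℝ≥0, ∀ (L : ℕ) (H : Type) [NormedAddCommGroup H] [InnerProductSpace ℂ H]
    [CompleteSpace H] (a : ℝ → H), Rad a → (∀ ρ, 0 < ρ → ρ < (2 : ℝ)⁻¹ ^ L → a ρ = 0) →
    TT k q ((n : ℝ) / ((k : ℝ) + 2)) a ≤ C := by
  obtain ⟨C₀, hC₀⟩ := FF_all n k hk q hq
  have hk0 : (0 : ℝ) ≤ k := Nat.cast_nonneg k
  have hkn : (k : ℝ) + 2 ≤ n := by exact_mod_cast hk
  have hn0 : (0 : ℝ) < n := by linarith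
  have hqn : 2 * ((n : ℝ) + 1) < q * n := by
    rwa [div_lt_iff₀ hn0] at hq
  have hq2 : 2 < q := by
    by_contra h
    have h1 : q * n ≤ 2 * n := by gcongr; exact not_lt.1 h
    linarith
  set s : ℝ := n / ((k : ℝ) + 2) with hs
  have hs1 : 1 ≤ s := by
    rw [hs, one_le_div (by linarith)]
    exact hkn
  have hs0 : 0 ≤ s := by linarith
  have hsk : ((k : ℝ) + 2) * s = n := by
    rw [hs]
    field_simp
  have hs2 : s ≤ n / 2 := by
    rw [hs]
    gcongr
    linarith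
  -- the contraction factor
  set θ : ℝ := (2 : ℝ) ^ ((q - 1) * s) * 2 ^ (s - 1) *
    (((2 : ℝ)⁻¹ ^ (((k : ℝ) + 2) * (q - 1))) ^ s * 4) with hθ
  have hθ0 : 0 < θ := by positivity
  have hθ1 : θ < 1 := by
    have e1 : θ = (2 : ℝ) ^ (q * s + 1 - n * (q - 1)) := by
      rw [hθ, Real.inv_rpow (by norm_num), Real.inv_rpow (by positivity),
        ← Real.rpow_neg (by positivity), ← Real.rpow_mul (by norm_num),
        show (4 : ℝ) = (2 : ℝ) ^ (2 : ℝ) by norm_num, ← Real.rpow_add (by norm_num),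
        ← Real.rpow_add (by norm_num), ← Real.rpow_add (by norm_num)]
      congr 1
      have e2 : ((k : ℝ) + 2) * (q - 1) * -s = -(n * (q - 1)) := by
        rw [← hsk]
        ring
      rw [e2]
      ring
    rw [e1]
    apply Real.rpow_lt_one_of_one_lt_of_neg (by norm_num)
    have h1 : q * s ≤ q * (n / 2) := by gcongr
    linarith
  set A : ℝ≥0 := Real.toNNReal ((2 : ℝ) ^ ((q - 1) * s) * 2 ^ (s - 1)) with hA
  set C : ℝ≥0 := (A * C₀) * Real.toNNReal (1 / (1 - θ)) with hC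
  have hAe : (2 : ℝ≥0∞) ^ ((q - 1) * s) * 2 ^ (s - 1) = (A : ℝ≥0∞) := by
    rw [hA]
    show _ = ENNReal.ofReal _
    rw [ENNReal.ofReal_mul (by positivity), ← ENNReal.ofReal_rpow_of_pos two_pos,
      ← ENNReal.ofReal_rpow_of_pos two_pos]
    norm_num
  have hCeq : (A * C₀ : ℝ≥0) + Real.toNNReal θ * C = C := by
    rw [← NNReal.coe_inj]
    have h1 : 0 < 1 - θ := by linarith
    rw [hC]
    simp only [NNReal.coe_add, NNReal.coe_mul]
    have h6 : 0 ≤ 1 / (1 - θ) := by positivity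
    rw [Real.coe_toNNReal θ hθ0.le, Real.coe_toNNReal (1 / (1 - θ)) h6]
    generalize (A : ℝ) = A'
    field_simp
    ring
  have hC₀C : (C₀ : ℝ≥0∞) ≤ C := by
    have h2 : (1 : ℝ) ≤ (2 : ℝ) ^ ((q - 1) * s) * 2 ^ (s - 1) := by
      have h3 : (1 : ℝ) ≤ (2 : ℝ) ^ ((q - 1) * s) :=
        Real.one_le_rpow (by norm_num) (mul_nonneg (by linarith) hs0)
      have h4 : (1 : ℝ) ≤ (2 : ℝ) ^ (s - 1) := Real.one_le_rpow (by norm_num) (by linarith)
      calc (1 : ℝ) = 1 * 1 := by norm_num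
        _ ≤ _ := by gcongr
    have h1 : (1 : ℝ≥0) ≤ A := by
      rw [hA, ← Real.toNNReal_one]
      exact Real.toNNReal_le_toNNReal h2
    have h5 : C₀ ≤ C := by
      calc C₀ = 1 * C₀ := (one_mul _).symm
        _ ≤ A * C₀ := by gcongr
        _ ≤ (A * C₀ : ℝ≥0) + Real.toNNReal θ * C := le_self_add
        _ = C := hCeq
    exact_mod_cast h5
  refine ⟨C, ?_⟩
  intro L
  induction L with
  | zero =>
    intro H _ _ _ a ha h0
    -- the function vanishes off the point one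
    have hsj : SJ ((Ici (1 : ℝ)).indicator a) := by
      intro u hu
      by_cases h : u ∈ Ici (1 : ℝ)
      · rw [indicator_of_mem h]
        apply ha.supp
        by_contra h'
        exact hu ⟨by linarith [show (1 : ℝ) ≤ u from h], not_lt.1 h'⟩
      · exact indicator_of_notMem h _
    have h1 := hC₀ H _ (ha.ind measurableSet_Ici).adm hsj
    refine le_trans (le_of_eq ?_) (h1.trans hC₀C)
    unfold TT
    apply lintegral_congr
    intro t
    congr 1
    apply lintegral_congr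
    intro r
    congr 3
    rw [FF_fi, FF_fi]
    apply setIntegral_congr_fun measurableSet_Ioi
    intro ρ hρ
    simp only [fi]
    by_cases h : ρ ∈ Ici (1 : ℝ)
    · rw [indicator_of_mem h]
    · rw [indicator_of_notMem h, h0 ρ hρ (by
        rw [pow_zero]
        exact not_le.1 h)]
  | succ L ih =>
    intro H _ _ _ a ha h0
    set a₀ : ℝ → H := (Ici (1 / 2 : ℝ)).indicator a with ha₀
    set a₁ : ℝ → H := (Iio (1 / 2 : ℝ)).indicator a with ha₁
    set b : ℝ → H := fun ρ => (Iio (1 : ℝ)).indicator (fun ρ => a (ρ / 2)) ρ with hb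
    have hsum : ∀ ρ, a ρ = a₀ ρ + a₁ ρ := by
      intro ρ
      by_cases h : (1 / 2 : ℝ) ≤ ρ
      · rw [ha₀, ha₁, indicator_of_mem (show ρ ∈ Ici (1 / 2 : ℝ) from h),
          indicator_of_notMem (show ρ ∉ Iio (1 / 2 : ℝ) from not_lt.2 h), add_zero]
      · rw [ha₀, ha₁, indicator_of_notMem (show ρ ∉ Ici (1 / 2 : ℝ) from h),
          indicator_of_mem (show ρ ∈ Iio (1 / 2 : ℝ) from not_le.1 h), zero_add]
    have hsj : SJ a₀ := by
      intro u hu
      by_cases h : u ∈ Ici (1 / 2 : ℝ)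
      · rw [ha₀, indicator_of_mem h]
        apply ha.supp
        by_contra h'
        exact hu ⟨h, not_lt.1 h'⟩
      · exact indicator_of_notMem h _
    have h1 : TT k q s a₀ ≤ C₀ := hC₀ H a₀ (ha.ind measurableSet_Ici).adm hsj
    have hab : ∀ ρ, 0 < ρ → a₁ ρ = b (2 * ρ) := by
      intro ρ _
      by_cases h : ρ < 1 / 2
      · rw [ha₁, hb, indicator_of_mem (show ρ ∈ Iio (1 / 2 : ℝ) from h)]
        simp only
        rw [indicator_of_mem (show 2 * ρ ∈ Iio (1 : ℝ) from by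
          show 2 * ρ < 1
          linarith)]
        congr 1
        ring
      · rw [ha₁, hb, indicator_of_notMem (show ρ ∉ Iio (1 / 2 : ℝ) from h)]
        simp only
        rw [indicator_of_notMem (show 2 * ρ ∉ Iio (1 : ℝ) from by
          show ¬ 2 * ρ < 1
          linarith)]
    have h2 : TT k q s b ≤ C := by
      apply ih H b ha.comp
      intro ρ hρ hρL
      rw [hb]
      simp only
      by_cases h : ρ ∈ Iio (1 : ℝ)
      · rw [indicator_of_mem h]
        apply h0 _ (by positivity)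
        rw [pow_succ]
        linarith
      · exact indicator_of_notMem h _
    have h3 := TT_scale k (by linarith : 0 ≤ q) hs0 hab
    have h4 := TT_add k (by linarith : 1 ≤ q) hs1 (ha.ind (measurableSet_Ici (a := (1 / 2 : ℝ))))
      (ha.ind (measurableSet_Iio (a := (1 / 2 : ℝ)))) hsum
    calc TT k q s a ≤ A * (TT k q s a₀ + TT k q s a₁) := by
          rw [← hAe]
          exact h4
      _ ≤ A * (C₀ + ENNReal.ofReal (((2 : ℝ)⁻¹ ^ (((k : ℝ) + 2) * (q - 1))) ^ s * 4) * C) := by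
          rw [h3]
          gcongr
      _ = ((A * C₀ : ℝ≥0) + Real.toNNReal θ * C : ℝ≥0) := by
          rw [mul_add, ← mul_assoc]
          have e3 : (A : ℝ≥0∞) * ENNReal.ofReal (((2 : ℝ)⁻¹ ^ (((k : ℝ) + 2) * (q - 1))) ^ s * 4) =
              ENNReal.ofReal θ := by
            rw [hθ, ENNReal.ofReal_mul (p := (2 : ℝ) ^ ((q - 1) * s) * 2 ^ (s - 1)) (by positivity)]
            rfl
          rw [e3]
          push_cast
          rfl
      _ = C := by rw [hCeq]

/-- Fatou's lemma for the mixed norm -/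
lemma TT_fatou {H : Type} [NormedAddCommGroup H] [InnerProductSpace ℂ H] [CompleteSpace H]
    (k : ℕ) {q s : ℝ} (hq : 0 < q) (hs : 0 < s) (a : ℝ → H) (b : ℕ → ℝ → H)
    (hb : ∀ L, Adm (b L))
    (hlim : ∀ r t, Tendsto (fun L => FF k (b L) r t) atTop (𝓝 (FF k a r t)))
    (C : ℝ≥0∞) (hC : ∀ L, TT k q s (b L) ≤ C) : TT k q s a ≤ C := by
  have hm : ∀ L, Measurable fun p : ℝ × ℝ =>
      ENNReal.ofReal (p.1 ^ (k + 1)) * ‖FF k (b L) p.1 p.2‖ₑ ^ q := fun L =>
    ((by fun_prop : Measurable fun p : ℝ × ℝ => p.1 ^ (k + 1)).ennreal_ofReal).mul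
      ((FF_meas k (hb L)).enorm.pow_const q)
  -- the inner integral
  have h1 : ∀ t : ℝ, ∫⁻ r in Ioi (0 : ℝ), ENNReal.ofReal (r ^ (k + 1)) * ‖FF k a r t‖ₑ ^ q ≤
      liminf (fun L => ∫⁻ r in Ioi (0 : ℝ), ENNReal.ofReal (r ^ (k + 1)) *
        ‖FF k (b L) r t‖ₑ ^ q) atTop := by
    intro t
    refine le_trans (le_of_eq ?_) (lintegral_liminf_le fun L => ?_)
    · apply lintegral_congr
      intro r
      symm
      apply Tendsto.liminf_eq
      apply ENNReal.Tendsto.const_mul _ (Or.inr ENNReal.ofReal_ne_top)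
      exact ((ENNReal.continuous_rpow_const (y := q)).tendsto _).comp
        ((continuous_enorm.tendsto _).comp (hlim r t))
    · exact (hm L).comp (by fun_prop : Measurable fun r : ℝ => ((r, t) : ℝ × ℝ))
  have h2 : ∀ t : ℝ, (∫⁻ r in Ioi (0 : ℝ), ENNReal.ofReal (r ^ (k + 1)) * ‖FF k a r t‖ₑ ^ q) ^ s ≤
      liminf (fun L => (∫⁻ r in Ioi (0 : ℝ), ENNReal.ofReal (r ^ (k + 1)) *
        ‖FF k (b L) r t‖ₑ ^ q) ^ s) atTop := by
    intro t
    refine (ENNReal.rpow_le_rpow (h1 t) hs.le).trans (le_of_eq ?_)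
    have h3 := (ENNReal.orderIsoRpow s hs).liminf_apply (f := (atTop : Filter ℕ))
      (u := fun L => ∫⁻ r in Ioi (0 : ℝ), ENNReal.ofReal (r ^ (k + 1)) * ‖FF k (b L) r t‖ₑ ^ q)
    simpa using h3
  calc TT k q s a ≤ ∫⁻ t : ℝ, liminf (fun L => (∫⁻ r in Ioi (0 : ℝ), ENNReal.ofReal (r ^ (k + 1)) *
        ‖FF k (b L) r t‖ₑ ^ q) ^ s) atTop := lintegral_mono h2
    _ ≤ liminf (fun L => TT k q s (b L)) atTop := by
        unfold TT
        apply lintegral_liminf_le
        intro L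
        exact (Measurable.lintegral_prod_left' (f := fun p : ℝ × ℝ =>
          ENNReal.ofReal (p.1 ^ (k + 1)) * ‖FF k (b L) p.1 p.2‖ₑ ^ q) (hm L)).pow_const s
    _ ≤ C := by
        refine (liminf_le_liminf (v := fun _ => C) (Eventually.of_forall hC)).trans ?_
        rw [liminf_const]

/-- the bound for all radial functions -/
theorem TT_all (n k : ℕ) (hk : k + 2 ≤ n) (q : ℝ) (hq : 2 * ((n : ℝ) + 1) / n < q) :
    ∃ C : ℝ≥0, ∀ (H : Type) [NormedAddCommGroup H] [InnerProductSpace ℂ H]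
    [CompleteSpace H] (a : ℝ → H), Rad a → TT k q ((n : ℝ) / ((k : ℝ) + 2)) a ≤ C := by
  obtain ⟨C, hC⟩ := TT_trunc n k hk q hq
  refine ⟨C, ?_⟩
  intro H _ _ _ a ha
  have hk0 : (0 : ℝ) ≤ k := Nat.cast_nonneg k
  have hkn : (k : ℝ) + 2 ≤ n := by exact_mod_cast hk
  have hn0 : (0 : ℝ) < n := by linarith
  have hq0 : 0 < q := lt_trans (by positivity) hq
  set b : ℕ → ℝ → H := fun L => (Ici ((2 : ℝ)⁻¹ ^ L)).indicator a with hb
  have hbr : ∀ L, Rad (b L) := fun L => ha.ind measurableSet_Ici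
  apply TT_fatou k hq0 (by positivity) a b (fun L => (hbr L).adm) _ _
    (fun L => hC L H (b L) (hbr L) fun ρ _ hρ =>
      indicator_of_notMem (show ρ ∉ Ici ((2 : ℝ)⁻¹ ^ L) from not_le.2 hρ) _)
  intro r t
  simp only [FF_fi]
  apply tendsto_integral_of_dominated_convergence
    ((Ioc (0 : ℝ) 1).indicator (fun _ => (4 : ℝ)))
  · intro L
    exact (fi_meas k (hbr L).adm r t).aestronglyMeasurable
  · exact ind4_int
  · intro L
    exact (ae_restrict_iff' measurableSet_Ioi).2 (ae_of_all _ fun ρ hρ => fi_le k (hbr L) r t hρ)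
  · refine (ae_restrict_iff' measurableSet_Ioi).2 (ae_of_all _ fun ρ hρ => ?_)
    apply tendsto_const_nhds.congr'
    have h1 : Tendsto (fun L : ℕ => (2 : ℝ)⁻¹ ^ L) atTop (𝓝 0) :=
      tendsto_pow_atTop_nhds_zero_of_lt_one (by norm_num) (by norm_num)
    filter_upwards [h1.eventually (gt_mem_nhds (show (0 : ℝ) < ρ from hρ))] with L hL
    simp only [fi, hb]
    rw [indicator_of_mem (show ρ ∈ Ici ((2 : ℝ)⁻¹ ^ L) from le_of_lt hL)]

/-- the integral of a radial function -/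
lemma lint_rad (k : ℕ) (f : ℝ → ℝ≥0∞) (hf : Measurable f) :
    ∫⁻ x : VV (k + 2), f ‖x‖ = (volume : Measure (VV (k + 2))).toSphere univ *
      ∫⁻ r in Ioi (0 : ℝ), ENNReal.ofReal (r ^ (k + 1)) * f r := by
  have hdim : finrank ℝ (VV (k + 2)) - 1 = k + 1 := by
    rw [finrank_euclideanSpace, Fintype.card_fin]
    omega
  have h1 := (volume : Measure (VV (k + 2))).measurePreserving_homeomorphUnitSphereProd
  rw [hdim] at h1
  calc ∫⁻ x : VV (k + 2), f ‖x‖
      = ∫⁻ x : ({(0 : VV (k + 2))}ᶜ : Set (VV (k + 2))), f ‖x.1‖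
          ∂((volume : Measure (VV (k + 2))).comap (↑)) := by
        rw [lintegral_subtype_comap (measurableSet_singleton _).compl fun x : VV (k + 2) => f ‖x‖,
          restrict_compl_singleton]
    _ = ∫⁻ p, f p.2 ∂((volume : Measure (VV (k + 2))).toSphere.prod (.volumeIoiPow (k + 1))) := by
        rw [← h1.lintegral_comp_emb (Homeomorph.measurableEmbedding _)]
        simp
    _ = (volume : Measure (VV (k + 2))).toSphere univ *
          ∫⁻ x : Ioi (0 : ℝ), f x ∂(.volumeIoiPow (k + 1)) := by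
        rw [lintegral_prod _ (by fun_prop)]
        simp only [lintegral_const]
        rw [mul_comm]
    _ = _ := by
        congr 1
        rw [Measure.volumeIoiPow, lintegral_withDensity_eq_lintegral_mul _ (by fun_prop)
          (by fun_prop)]
        simp only [Pi.mul_apply]
        rw [lintegral_subtype_comap measurableSet_Ioi
          fun r => ENNReal.ofReal (r ^ (k + 1)) * f r]

/-- The mixed norm estimate on the Euclidean space, for radial functions about any centre. -/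
theorem block (n k : ℕ) (hk : k + 2 ≤ n) (q : ℝ) (hq : 2 * ((n : ℝ) + 1) / n < q) :
    ∃ C : ℝ≥0, ∀ (H : Type) [NormedAddCommGroup H] [InnerProductSpace ℂ H]
    [CompleteSpace H] (a : ℝ → H) (c : VV (k + 2)), Rad a →
    ∫⁻ t : ℝ, (∫⁻ x : VV (k + 2), ‖EM (fun η => a ‖η - c‖) x t‖ₑ ^ q) ^
      ((n : ℝ) / ((k : ℝ) + 2)) ≤ C := by
  obtain ⟨C, hC⟩ := TT_all n k hk q hq
  have hk0 : (0 : ℝ) ≤ k := Nat.cast_nonneg k
  have hkn : (k : ℝ) + 2 ≤ n := by exact_mod_cast hk
  have hn0 : (0 : ℝ) < n := by linarith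
  have hq0 : 0 < q := lt_trans (by positivity) hq
  set s : ℝ := n / ((k : ℝ) + 2) with hs
  have hs0 : 0 ≤ s := by positivity
  set S : ℝ≥0∞ := (volume : Measure (VV (k + 2))).toSphere univ with hS
  have hSt : S ≠ ⊤ := measure_ne_top _ _
  set K : ℝ≥0∞ := (‖cc k‖ₑ ^ q * S) ^ s with hK
  have hKt : K ≠ ⊤ := ENNReal.rpow_ne_top_of_nonneg hs0
    (ENNReal.mul_ne_top (ENNReal.rpow_ne_top_of_nonneg hq0.le enorm_ne_top) hSt)
  refine ⟨(K * C).toNNReal, ?_⟩
  rw [ENNReal.coe_toNNReal (ENNReal.mul_ne_top hKt ENNReal.coe_ne_top)]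
  intro H _ _ _ a c ha
  -- the Galilean transformation
  have hgal : ∀ (x : VV (k + 2)) (t : ℝ), ‖EM (fun η => a ‖η - c‖) x t‖ₑ =
      ‖EM (fun η : VV (k + 2) => a ‖η‖) (x + (2 * t) • c) t‖ₑ := by
    intro x t
    have e1 : EM (fun η => a ‖η - c‖) x t = ch (⟪c, x⟫ + ‖c‖ ^ 2 * t) •
        EM (fun η : VV (k + 2) => a ‖η‖) (x + (2 * t) • c) t := by
      unfold EM
      rw [← integral_smul, ← integral_add_right_eq_self
        (fun η : VV (k + 2) => ch (⟪η, x⟫ + ‖η‖ ^ 2 * t) • a ‖η - c‖) c]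
      apply integral_congr_ae
      refine ae_of_all _ fun ζ => ?_
      simp only
      rw [add_sub_cancel_right, smul_smul, ← Pool.Agent.TH277.HT.ch_add]
      congr 2
      rw [inner_add_left, inner_add_right, inner_smul_right, norm_add_sq_real]
      ring
    rw [e1, enorm_smul, Pool.Agent.TH277.HT.ch_enorm, one_mul]
  have h1 : ∀ t : ℝ, ∫⁻ x : VV (k + 2), ‖EM (fun η => a ‖η - c‖) x t‖ₑ ^ q =
      ‖cc k‖ₑ ^ q * S * ∫⁻ r in Ioi (0 : ℝ), ENNReal.ofReal (r ^ (k + 1)) * ‖FF k a r t‖ₑ ^ q := by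
    intro t
    simp only [hgal]
    rw [lintegral_add_right_eq_self
      (fun x : VV (k + 2) => ‖EM (fun η : VV (k + 2) => a ‖η‖) x t‖ₑ ^ q) ((2 * t) • c)]
    have h2 : ∀ x : VV (k + 2), ‖EM (fun η : VV (k + 2) => a ‖η‖) x t‖ₑ ^ q =
        ‖cc k‖ₑ ^ q * (fun r => ‖FF k a r t‖ₑ ^ q) ‖x‖ := by
      intro x
      rw [EM_rad k (VV (k + 2)) (by rw [finrank_euclideanSpace, Fintype.card_fin]) ha x t,
        enorm_smul, ENNReal.mul_rpow_of_nonneg _ _ hq0.le]
    simp only [h2]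
    have h3 : Measurable fun r : ℝ => ‖FF k a r t‖ₑ ^ q :=
      ((FF_meas k ha.adm).enorm.comp
        (by fun_prop : Measurable fun r : ℝ => ((r, t) : ℝ × ℝ))).pow_const q
    rw [lintegral_const_mul' _ _ (ENNReal.rpow_ne_top_of_nonneg hq0.le enorm_ne_top),
      lint_rad k (fun r => ‖FF k a r t‖ₑ ^ q) h3, ← hS, mul_assoc]
  simp only [h1]
  calc ∫⁻ t : ℝ, (‖cc k‖ₑ ^ q * S *
        ∫⁻ r in Ioi (0 : ℝ), ENNReal.ofReal (r ^ (k + 1)) * ‖FF k a r t‖ₑ ^ q) ^ s
      = K * TT k q s a := by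
        unfold TT
        rw [← lintegral_const_mul' _ _ hKt]
        apply lintegral_congr
        intro t
        rw [ENNReal.mul_rpow_of_nonneg _ _ hs0]
    _ ≤ K * C := by
        gcongr
        exact hC H a ha

end Run7.h303.RB
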