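import Mathlib
import Pool.Agent.Run7.h303.RB.C3
set_option autoImplicit false
set_option linter.unusedSectionVars false

/-! Fubini's theorem for blocks of coordinates. -/

namespace Run7.h303.RB

open MeasureTheory Set Filter Topology Module
open scoped ENNReal NNReal RealInnerProductSpace
open Pool.Agent.TH277.HT (ch E1 Adm tr planch1 ch_norm ch_cont lint_mul)

/-- a block of coordinates -/
abbrev Bl {n N : ℕ} (β : Fin n → Fin N) (κ : Fin N) := {j : Fin n // β j = κ}

/-- splitting the coordinates into blocks -/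
def blEquiv {n N : ℕ} (β : Fin n → Fin N) :
    (Fin n → ℝ) ≃ᵐ ((κ : Fin N) → Bl β κ → ℝ) where
  toFun ξ κ j := ξ j.1
  invFun z i := z (β i) ⟨i, rfl⟩
  left_inv ξ := rfl
  right_inv z := by
    ext κ ⟨j, hj⟩
    subst hj
    rfl
  measurable_toFun := by
    refine measurable_pi_iff.2 fun κ => measurable_pi_iff.2 fun j => ?_
    exact measurable_pi_apply _
  measurable_invFun := by
    refine measurable_pi_iff.2 fun i => ?_
    exact (measurable_pi_apply (⟨i, rfl⟩ : Bl β (β i))).comp (measurable_pi_apply (β i))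

lemma blEquiv_mp {n N : ℕ} (β : Fin n → Fin N) : MeasurePreserving (blEquiv β) := by
  have h1 : MeasurePreserving (blEquiv β).symm := by
    refine ⟨(blEquiv β).symm.measurable, ?_⟩
    symm
    rw [volume_pi]
    apply Measure.pi_eq
    intro s hs
    rw [Measure.map_apply (blEquiv β).symm.measurable (MeasurableSet.univ_pi hs)]
    have h2 : (blEquiv β).symm ⁻¹' (univ.pi s) =
        univ.pi fun κ => univ.pi fun j : Bl β κ => s j.1 := by
      ext z
      simp only [mem_preimage, Set.mem_pi, mem_univ, true_implies]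
      constructor
      · intro h κ j
        obtain ⟨j, rfl⟩ := j
        exact h j
      · intro h i
        exact h (β i) ⟨i, rfl⟩
    rw [h2, volume_pi, Measure.pi_pi]
    simp only [volume_pi, Measure.pi_pi]
    exact Fintype.prod_fiberwise β fun i => volume (s i)
  exact h1.symm

lemma ps_zero {N : ℕ} (α : Fin (N + 1) → Type) [∀ κ, MeasureSpace (α κ)]
    (p : α 0 × ((i : Fin N) → α ((0 : Fin (N + 1)).succAbove i))) :
    (MeasurableEquiv.piFinSuccAbove α 0).symm p 0 = p.1 :=
  Fin.insertNth_apply_same (α := α) 0 p.1 p.2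

lemma ps_succ {N : ℕ} (α : Fin (N + 1) → Type) [∀ κ, MeasureSpace (α κ)]
    (p : α 0 × ((i : Fin N) → α ((0 : Fin (N + 1)).succAbove i))) (x : Fin N) :
    (MeasurableEquiv.piFinSuccAbove α 0).symm p ((0 : Fin (N + 1)).succAbove x) = p.2 x :=
  Fin.insertNth_apply_succAbove (α := α) 0 p.1 p.2 x

/-- Fubini for products over the blocks. -/
lemma lint_pi' {N : ℕ} (α : Fin N → Type) [∀ κ, MeasureSpace (α κ)]
    [∀ κ, SigmaFinite (volume : Measure (α κ))] (f : (κ : Fin N) → α κ → ℝ≥0∞)
    (hf : ∀ i, Measurable (f i)) :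
    ∫⁻ x : (κ : Fin N) → α κ, ∏ i, f i (x i) = ∏ i, ∫⁻ u, f i u := by
  induction N with
  | zero =>
    rw [volume_pi]
    simp
  | succ N ih =>
    have h1 := (measurePreserving_piFinSuccAbove (fun κ : Fin (N + 1) =>
      (volume : Measure (α κ))) 0).symm
    rw [volume_pi, ← h1.lintegral_comp_emb (MeasurableEquiv.measurableEmbedding _)]
    have h2 : ∀ p : α 0 × ((i : Fin N) → α ((0 : Fin (N + 1)).succAbove i)),
        ∏ i, f i ((MeasurableEquiv.piFinSuccAbove α 0).symm p i) =
          f 0 p.1 * ∏ i, f ((0 : Fin (N + 1)).succAbove i) (p.2 i) := by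
      intro p
      rw [Fin.prod_univ_succAbove _ 0, ps_zero]
      simp only [ps_succ]
    simp only [h2]
    have hm : Measurable fun r : (i : Fin N) → α ((0 : Fin (N + 1)).succAbove i) =>
        ∏ i, f ((0 : Fin (N + 1)).succAbove i) (r i) :=
      Finset.measurable_prod _ fun i _ => (hf _).comp (measurable_pi_apply i)
    rw [lintegral_prod_mul (hf 0).aemeasurable hm.aemeasurable, Fin.prod_univ_succAbove _ 0]
    congr 1
    rw [← volume_pi]
    exact ih (fun i => α ((0 : Fin (N + 1)).succAbove i))
      (fun i => f ((0 : Fin (N + 1)).succAbove i)) fun i => hf _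

variable {H : Type} [NormedAddCommGroup H] [InnerProductSpace ℂ H] [CompleteSpace H]

/-- Fubini for multilinear forms. -/
lemma mult_int' {N : ℕ} (α : Fin N → Type) [∀ κ, MeasureSpace (α κ)]
    [∀ κ, SigmaFinite (volume : Measure (α κ))]
    (M : ContinuousMultilinearMap ℂ (fun _ : Fin N => H) ℂ)
    (φ : (κ : Fin N) → α κ → H) (hm : ∀ i, StronglyMeasurable (φ i)) (hi : ∀ i, Integrable (φ i)) :
    ∫ ξ : (κ : Fin N) → α κ, M (fun j => φ j (ξ j)) = M (fun j => ∫ u, φ j u) := by
  induction N with
  | zero =>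
    have h1 : ∀ ξ : (κ : Fin 0) → α κ, M (fun j => φ j (ξ j)) = M (fun j => ∫ u, φ j u) := by
      intro ξ
      congr 1
      ext j
      exact j.elim0
    simp only [h1]
    rw [volume_pi]
    simp [measureReal_def]
  | succ N ih =>
    have h1 := (measurePreserving_piFinSuccAbove (fun κ : Fin (N + 1) =>
      (volume : Measure (α κ))) 0).symm
    have hint : Integrable fun ξ : (κ : Fin (N + 1)) → α κ => M (fun j => φ j (ξ j)) := by
      have h3 : Integrable (fun ξ : (κ : Fin (N + 1)) → α κ => ‖M‖ * ∏ j, ‖φ j (ξ j)‖) := by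
        apply Integrable.const_mul
        exact Integrable.fintype_prod_dep (f := fun j u => ‖φ j u‖) fun j => (hi j).norm
      refine h3.mono' ?_ (ae_of_all _ fun ξ => M.le_opNorm _)
      apply StronglyMeasurable.aestronglyMeasurable
      apply M.cont.comp_stronglyMeasurable
      exact Pool.Agent.TH277.HT.tuple_meas
        (fun (j : Fin (N + 1)) (ξ : (κ : Fin (N + 1)) → α κ) => φ j (ξ j)) fun j =>
        (hm j).comp_measurable (measurable_pi_apply j)
    rw [volume_pi] at hint ⊢
    rw [← h1.integral_comp']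
    have hint2 := (h1.integrable_comp_emb (MeasurableEquiv.measurableEmbedding _)).2 hint
    have h2 : ∀ p : α 0 × ((i : Fin N) → α ((0 : Fin (N + 1)).succAbove i)),
        M (fun j => φ j ((MeasurableEquiv.piFinSuccAbove α 0).symm p j)) =
          M.curryLeft (φ 0 p.1) (fun j => φ ((0 : Fin (N + 1)).succAbove j) (p.2 j)) := by
      intro p
      rw [ContinuousMultilinearMap.curryLeft_apply]
      congr 1
      ext j
      refine Fin.cases ?_ (fun j => ?_) j
      · rw [ps_zero, Fin.cons_zero]
      · rw [Fin.cons_succ]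
        exact congrArg (φ j.succ) (ps_succ α p j)
    have hint3 : Integrable (fun p : α 0 × ((i : Fin N) → α ((0 : Fin (N + 1)).succAbove i)) =>
        M.curryLeft (φ 0 p.1) (fun j => φ ((0 : Fin (N + 1)).succAbove j) (p.2 j)))
        ((volume : Measure (α 0)).prod (Measure.pi fun _ => volume)) := by
      refine hint2.congr (ae_of_all _ fun p => ?_)
      simp only [Function.comp]
      rw [h2 p]
    simp only [h2]
    rw [integral_prod_symm _ hint3]
    have h4 : ∀ r : (i : Fin N) → α ((0 : Fin (N + 1)).succAbove i),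
        ∫ u, M.curryLeft (φ 0 u) (fun j => φ ((0 : Fin (N + 1)).succAbove j) (r j)) =
        M.curryLeft (∫ u, φ 0 u) (fun j => φ ((0 : Fin (N + 1)).succAbove j) (r j)) := by
      intro r
      exact ((ContinuousMultilinearMap.apply ℂ (fun _ : Fin N => H) ℂ
        (fun j => φ ((0 : Fin (N + 1)).succAbove j) (r j))).comp M.curryLeft).integral_comp_comm (hi 0)
    simp only [h4]
    rw [← volume_pi, ih (fun i => α ((0 : Fin (N + 1)).succAbove i)) (M.curryLeft (∫ u, φ 0 u))
      (fun j => φ ((0 : Fin (N + 1)).succAbove j)) (fun i => hm _) fun i => hi _,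
      ContinuousMultilinearMap.curryLeft_apply]
    congr 1
    ext j
    refine Fin.cases ?_ (fun j => ?_) j
    · rw [Fin.cons_zero]
    · rw [Fin.cons_succ]
      rfl

end Run7.h303.RB
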