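import Mathlib
import Pool.Agent.Run7.h303.RB.D1
set_option autoImplicit false
set_option linter.unusedSectionVars false

/-! The estimates for the single blocks of coordinates and the product of the blocks. -/

namespace Run7.h303.RB

open MeasureTheory Set Filter Topology Module
open scoped ENNReal NNReal RealInnerProductSpace
open Pool.Agent.TH277.HT (ch E1 Adm tr planch1 ch_norm ch_cont lint_mul ch_add ch_sum)

section

variable {H : Type} [NormedAddCommGroup H] [InnerProductSpace ℂ H] [CompleteSpace H]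

/-- the extension operator on a block of coordinates -/
noncomputable def Eb {ι : Type} [Fintype ι] (g : (ι → ℝ) → H) (y : ι → ℝ) (t : ℝ) : H :=
  ∫ η : ι → ℝ, ch (∑ j, η j * y j + (∑ j, η j ^ 2) * t) • g η

lemma Eb_meas {ι : Type} [Fintype ι] {g : (ι → ℝ) → H} (hg : StronglyMeasurable g) :
    StronglyMeasurable fun p : (ι → ℝ) × ℝ => Eb g p.1 p.2 := by
  have h1 : StronglyMeasurable (Function.uncurry fun (p : (ι → ℝ) × ℝ) (η : ι → ℝ) =>
      ch (∑ j, η j * p.1 j + (∑ j, η j ^ 2) * p.2) • g η) := by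
    refine StronglyMeasurable.smul (f := fun q : ((ι → ℝ) × ℝ) × (ι → ℝ) =>
      ch (∑ j, q.2 j * q.1.1 j + (∑ j, q.2 j ^ 2) * q.1.2))
      (g := fun q : ((ι → ℝ) × ℝ) × (ι → ℝ) => g q.2) ?_ ?_
    · exact (ch_cont.comp (by fun_prop : Continuous fun q : ((ι → ℝ) × ℝ) × (ι → ℝ) =>
        ∑ j, q.2 j * q.1.1 j + (∑ j, q.2 j ^ 2) * q.1.2)).stronglyMeasurable
    · exact hg.comp_measurable measurable_snd
  exact h1.integral_prod_right (ν := (volume : Measure (ι → ℝ)))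

/-- passing from a block of coordinates to the Euclidean space -/
noncomputable def toV {ι : Type} [Fintype ι] {m : ℕ} (e : ι ≃ Fin m) (y : ι → ℝ) : VV m :=
  WithLp.toLp 2 fun i => y (e.symm i)

lemma toV_mp {ι : Type} [Fintype ι] {m : ℕ} (e : ι ≃ Fin m) :
    MeasurePreserving (toV e) ∧ MeasurableEmbedding (toV e) := by
  have h1 : toV e = (MeasurableEquiv.toLp 2 (Fin m → ℝ)) ∘
      (MeasurableEquiv.arrowCongr' e (MeasurableEquiv.refl ℝ)) := by
    ext y i
    rfl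
  rw [h1]
  constructor
  · exact (PiLp.volume_preserving_toLp (Fin m)).comp
      (volume_preserving_arrowCongr' e (MeasurableEquiv.refl ℝ) (MeasurePreserving.id _))
  · exact (MeasurableEquiv.measurableEmbedding _).comp (MeasurableEquiv.measurableEmbedding _)

lemma toV_inner {ι : Type} [Fintype ι] {m : ℕ} (e : ι ≃ Fin m) (x y : ι → ℝ) :
    ⟪toV e x, toV e y⟫ = ∑ j, x j * y j := by
  rw [PiLp.inner_apply]
  simp only [toV, RCLike.inner_apply, conj_trivial]
  rw [← Equiv.sum_comp e.symm]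
  exact Finset.sum_congr rfl fun i _ => mul_comm _ _

lemma toV_norm {ι : Type} [Fintype ι] {m : ℕ} (e : ι ≃ Fin m) (x : ι → ℝ) :
    ‖toV e x‖ ^ 2 = ∑ j, x j ^ 2 := by
  rw [← real_inner_self_eq_norm_sq, toV_inner]
  exact Finset.sum_congr rfl fun i _ => (sq _).symm

lemma toV_sub {ι : Type} [Fintype ι] {m : ℕ} (e : ι ≃ Fin m) (x c : ι → ℝ) :
    ‖toV e x - toV e c‖ = √(∑ j, (x j - c j) ^ 2) := by
  have h1 : toV e x - toV e c = toV e (fun j => x j - c j) := by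
    ext i
    rfl
  rw [h1, ← toV_norm, Real.sqrt_sq (norm_nonneg _)]

end

/-- The estimate for a block of at least two coordinates. -/
lemma block_iota (n k : ℕ) (hk : k + 2 ≤ n) (q : ℝ) (hq : 2 * ((n : ℝ) + 1) / n < q) :
    ∃ C : ℝ≥0, ∀ (ι : Type) [Fintype ι], Fintype.card ι = k + 2 →
    ∀ (H : Type) [NormedAddCommGroup H] [InnerProductSpace ℂ H] [CompleteSpace H] (a : ℝ → H)
      (c : ι → ℝ), Rad a →
    ∫⁻ t : ℝ, (∫⁻ y : ι → ℝ, ‖Eb (fun η => a (√(∑ j, (η j - c j) ^ 2))) y t‖ₑ ^ q) ^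
      ((n : ℝ) / Fintype.card ι) ≤ C := by
  obtain ⟨C, hC⟩ := block n k hk q hq
  refine ⟨C, ?_⟩
  intro ι _ hι H _ _ _ a c ha
  set e : ι ≃ Fin (k + 2) := Fintype.equivFinOfCardEq hι with he
  obtain ⟨hmp, hemb⟩ := toV_mp e
  have h1 : ∀ (y : ι → ℝ) (t : ℝ), Eb (fun η => a (√(∑ j, (η j - c j) ^ 2))) y t =
      EM (fun η => a ‖η - toV e c‖) (toV e y) t := by
    intro y t
    unfold Eb EM
    rw [← hmp.integral_comp hemb]
    apply integral_congr_ae
    refine ae_of_all _ fun η => ?_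
    simp only
    rw [toV_inner, toV_norm, toV_sub]
  have h2 : ((n : ℝ) / Fintype.card ι) = (n : ℝ) / ((k : ℝ) + 2) := by
    rw [hι]
    push_cast
    rfl
  rw [h2]
  refine le_trans (le_of_eq ?_) (hC H a (toV e c) ha)
  apply lintegral_congr
  intro t
  congr 1
  simp only [h1]
  exact hmp.lintegral_comp_emb hemb fun x => ‖EM (fun η => a ‖η - toV e c‖) x t‖ₑ ^ q

/-- The estimate for a block of one coordinate. -/
lemma block_one (n : ℕ) (hn : 2 ≤ n) (q : ℝ) (hq : 2 * ((n : ℝ) + 1) / n < q) :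
    ∃ C : ℝ≥0, ∀ (ι : Type) [Fintype ι] (j₀ : ι), (∀ i, i = j₀) →
    ∀ (H : Type) [NormedAddCommGroup H] [InnerProductSpace ℂ H] [CompleteSpace H] (a : ℝ → H),
      Adm a →
    ∫⁻ t : ℝ, (∫⁻ y : ι → ℝ, ‖Eb (fun η => tr a (η j₀)) y t‖ₑ ^ q) ^
      ((n : ℝ) / Fintype.card ι) ≤ C := by
  obtain ⟨C, hC⟩ := Pool.Agent.TH277.HT.mix n hn q hq
  refine ⟨C, ?_⟩
  intro ι inst j₀ hj H _ _ _ a ha
  letI : Unique ι := ⟨⟨j₀⟩, hj⟩
  have hF : inst = Unique.fintype := Subsingleton.elim _ _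
  subst hF
  have hmp := volume_preserving_funUnique ι ℝ
  have hemb := (MeasurableEquiv.funUnique ι ℝ).measurableEmbedding
  have hap : ∀ y : ι → ℝ, MeasurableEquiv.funUnique ι ℝ y = y j₀ := fun y => rfl
  have hsum : ∀ f : ι → ℝ, ∑ j, f j = f j₀ := fun f => Fintype.sum_unique f
  have h1 : ∀ (y : ι → ℝ) (t : ℝ), Eb (fun η => tr a (η j₀)) y t =
      E1 a (MeasurableEquiv.funUnique ι ℝ y) t := by
    intro y t
    rw [Pool.Agent.TH277.HT.E1_eq, ← hmp.integral_comp hemb]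
    unfold Eb
    apply integral_congr_ae
    refine ae_of_all _ fun η => ?_
    simp only [hap, hsum]
  have hcard : Fintype.card ι = 1 := Fintype.card_unique
  have h2 : ((n : ℝ) / Fintype.card ι) = (n : ℝ) := by
    rw [hcard]
    simp
  rw [h2]
  refine le_trans (le_of_eq ?_) (hC H a ha)
  apply lintegral_congr
  intro t
  congr 1
  simp only [h1]
  exact hmp.lintegral_comp_emb hemb fun x => ‖E1 a x t‖ₑ ^ q

variable {H : Type} [NormedAddCommGroup H] [InnerProductSpace ℂ H] [CompleteSpace H]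

lemma Eb_def {ι : Type} [Fintype ι] (g : (ι → ℝ) → H) (y : ι → ℝ) (t : ℝ) :
    Eb g y t = ∫ η : ι → ℝ, ch (∑ j, η j * y j + (∑ j, η j ^ 2) * t) • g η := rfl

attribute [local irreducible] Eb

/-- The product of the blocks. -/
theorem blocks {n N : ℕ} (hn : 0 < n) (β : Fin n → Fin N) (hβ : Function.Surjective β) (q : ℝ)
    (hq : 0 < q) (C : ℝ≥0) (M : ContinuousMultilinearMap ℂ (fun _ : Fin N => H) ℂ)
    (hM : ∀ x, ‖M x‖ ≤ ∏ κ, ‖x κ‖) (g : (κ : Fin N) → (Bl β κ → ℝ) → H)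
    (hm : ∀ κ, StronglyMeasurable (g κ)) (hi : ∀ κ, Integrable (g κ))
    (hg : ∀ κ, ∫⁻ t : ℝ, (∫⁻ y : Bl β κ → ℝ, ‖Eb (g κ) y t‖ₑ ^ q) ^
      ((n : ℝ) / Fintype.card (Bl β κ)) ≤ C) :
    ∫⁻ y : (Fin n → ℝ) × ℝ, ‖∫ ξ : Fin n → ℝ, ch (∑ j, ξ j * y.1 j + (∑ j, ξ j ^ 2) * y.2) *
      M (fun κ => g κ fun j => ξ j.1)‖ₑ ^ q ≤ C := by
  have hmp := blEquiv_mp β
  have hemb := (blEquiv β).measurableEmbedding
  have hap : ∀ ξ : Fin n → ℝ, ∀ κ, blEquiv β ξ κ = fun j : Bl β κ => ξ j.1 := fun ξ κ => rfl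
  -- the extension operator
  have h1 : ∀ y : (Fin n → ℝ) × ℝ,
      ∫ ξ : Fin n → ℝ, ch (∑ j, ξ j * y.1 j + (∑ j, ξ j ^ 2) * y.2) *
        M (fun κ => g κ fun j => ξ j.1) = M (fun κ => Eb (g κ) (blEquiv β y.1 κ) y.2) := by
    intro y
    have e1 : ∀ ξ : Fin n → ℝ, ch (∑ j, ξ j * y.1 j + (∑ j, ξ j ^ 2) * y.2) *
        M (fun κ => g κ fun j => ξ j.1) =
        (fun z : (κ : Fin N) → Bl β κ → ℝ => M (fun κ => ch (∑ j, z κ j * y.1 j.1 +
          (∑ j, z κ j ^ 2) * y.2) • g κ (z κ))) (blEquiv β ξ) := by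
      intro ξ
      simp only
      rw [ContinuousMultilinearMap.map_smul_univ, smul_eq_mul, ← ch_sum]
      congr 2
      rw [Finset.sum_add_distrib, ← Finset.sum_mul]
      congr 1
      · exact (Fintype.sum_fiberwise β fun j => ξ j * y.1 j).symm
      · congr 1
        exact (Fintype.sum_fiberwise β fun j => ξ j ^ 2).symm
    simp only [e1]
    rw [hmp.integral_comp hemb (fun z : (κ : Fin N) → Bl β κ → ℝ => M (fun κ =>
      ch (∑ j, z κ j * y.1 j.1 + (∑ j, z κ j ^ 2) * y.2) • g κ (z κ)))]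
    have hphase : ∀ κ, Continuous fun η : Bl β κ → ℝ =>
        ch (∑ j, η j * y.1 j.1 + (∑ j, η j ^ 2) * y.2) := fun κ => ch_cont.comp (by fun_prop)
    refine (mult_int' (fun κ => Bl β κ → ℝ) M (fun κ η => ch (∑ j, η j * y.1 j.1 +
      (∑ j, η j ^ 2) * y.2) • g κ η) ?_ ?_).trans ?_
    · intro κ
      exact (hphase κ).stronglyMeasurable.smul (hm κ)
    · intro κ
      refine (hi κ).norm.mono' ((hphase κ).stronglyMeasurable.smul (hm κ)).aestronglyMeasurable
        (ae_of_all _ fun η => ?_)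
      rw [norm_smul, ch_norm, one_mul]
    · congr 1
      ext κ
      exact (Eb_def _ _ _).symm
  simp only [h1]
  -- the time slices
  obtain ⟨F, hF⟩ : ∃ F : (κ : Fin N) → ((Bl β κ → ℝ) × ℝ) → ℝ≥0∞,
      ∀ κ p, F κ p = ‖Eb (g κ) p.1 p.2‖ₑ ^ q := ⟨_, fun _ _ => rfl⟩
  have hFm : ∀ κ, Measurable (F κ) := by
    intro κ
    have e1 : F κ = fun p => ‖Eb (g κ) p.1 p.2‖ₑ ^ q := funext (hF κ)
    rw [e1]
    exact (Eb_meas (hm κ)).enorm.pow_const q
  have hFg : ∀ κ, ∫⁻ t : ℝ, (∫⁻ y : Bl β κ → ℝ, F κ (y, t)) ^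
      ((n : ℝ) / Fintype.card (Bl β κ)) ≤ C := by
    intro κ
    simp only [hF]
    exact hg κ
  set Mt : (κ : Fin N) → ℝ → ℝ≥0∞ := fun κ t => ∫⁻ y : Bl β κ → ℝ, F κ (y, t) with hMt
  have hMtm : ∀ κ, Measurable (Mt κ) := fun κ => Measurable.lintegral_prod_left' (hFm κ)
  have h2 : ∀ y : (Fin n → ℝ) × ℝ, ‖M (fun κ => Eb (g κ) (blEquiv β y.1 κ) y.2)‖ₑ ^ q ≤
      ∏ κ, F κ (blEquiv β y.1 κ, y.2) := by
    intro y
    simp only [hF]
    rw [ENNReal.prod_rpow_of_nonneg hq.le]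
    gcongr
    rw [← ofReal_norm]
    refine (ENNReal.ofReal_le_ofReal (hM _)).trans (le_of_eq ?_)
    rw [ENNReal.ofReal_prod_of_nonneg fun i _ => norm_nonneg _]
    exact Finset.prod_congr rfl fun κ _ => ofReal_norm _
  have hmeasP : Measurable fun y : (Fin n → ℝ) × ℝ =>
      ∏ κ, F κ (blEquiv β y.1 κ, y.2) := by
    apply Finset.measurable_prod
    intro κ _
    have e1 : Measurable fun y : (Fin n → ℝ) × ℝ =>
        ((blEquiv β y.1 κ, y.2) : (Bl β κ → ℝ) × ℝ) := by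
      apply Measurable.prodMk _ measurable_snd
      exact (measurable_pi_apply κ).comp ((blEquiv β).measurable.comp measurable_fst)
    exact (hFm κ).comp e1
  have hcard : ∀ κ, 0 < Fintype.card (Bl β κ) := by
    intro κ
    obtain ⟨j, hj⟩ := hβ κ
    exact Fintype.card_pos_iff.2 ⟨⟨j, hj⟩⟩
  have hn0 : (0 : ℝ) < n := by exact_mod_cast hn
  have hsum : ∑ κ, ((Fintype.card (Bl β κ) : ℝ)) / n = 1 := by
    rw [← Finset.sum_div, div_eq_one_iff_eq hn0.ne']
    have e1 : ∑ κ, Fintype.card (Bl β κ) = n := by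
      have e2 := Fintype.sum_fiberwise β fun _ : Fin n => (1 : ℕ)
      simp only [Finset.sum_const, Finset.card_univ, smul_eq_mul, mul_one, Fintype.card_fin] at e2
      exact e2
    exact_mod_cast e1
  calc ∫⁻ y : (Fin n → ℝ) × ℝ, ‖M (fun κ => Eb (g κ) (blEquiv β y.1 κ) y.2)‖ₑ ^ q
      ≤ ∫⁻ y : (Fin n → ℝ) × ℝ, ∏ κ, F κ (blEquiv β y.1 κ, y.2) := lintegral_mono h2
    _ = ∫⁻ t : ℝ, ∫⁻ x : Fin n → ℝ, ∏ κ, F κ (blEquiv β x κ, t) := by
        rw [Measure.volume_eq_prod, lintegral_prod_symm _ hmeasP.aemeasurable]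
    _ = ∫⁻ t : ℝ, ∏ κ, Mt κ t := by
        apply lintegral_congr
        intro t
        rw [hmp.lintegral_comp_emb hemb (fun z : (κ : Fin N) → Bl β κ → ℝ => ∏ κ, F κ (z κ, t))]
        exact lint_pi' (fun κ => Bl β κ → ℝ) (fun κ y => F κ (y, t)) fun κ =>
          (hFm κ).comp (by fun_prop : Measurable fun y : Bl β κ → ℝ => ((y, t) : (Bl β κ → ℝ) × ℝ))
    _ = ∫⁻ t : ℝ, ∏ κ, (Mt κ t ^ ((n : ℝ) / Fintype.card (Bl β κ))) ^
          ((Fintype.card (Bl β κ) : ℝ) / n) := by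
        apply lintegral_congr
        intro t
        refine Finset.prod_congr rfl fun κ _ => ?_
        rw [← ENNReal.rpow_mul]
        have : (0 : ℝ) < Fintype.card (Bl β κ) := by exact_mod_cast hcard κ
        rw [show (n : ℝ) / Fintype.card (Bl β κ) * ((Fintype.card (Bl β κ) : ℝ) / n) = 1 by
          field_simp, ENNReal.rpow_one]
    _ ≤ ∏ κ, (∫⁻ t : ℝ, Mt κ t ^ ((n : ℝ) / Fintype.card (Bl β κ))) ^
          ((Fintype.card (Bl β κ) : ℝ) / n) := by
        apply ENNReal.lintegral_prod_norm_pow_le Finset.univ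
        · intro κ _
          exact ((hMtm κ).pow_const _).aemeasurable
        · exact hsum
        · intro κ _
          positivity
    _ ≤ ∏ κ, (C : ℝ≥0∞) ^ ((Fintype.card (Bl β κ) : ℝ) / n) := by
        apply Finset.prod_le_prod'
        intro κ _
        exact ENNReal.rpow_le_rpow (hFg κ) (by positivity)
    _ = C := by
        have e3 : ∀ s : Finset (Fin N), ∏ κ ∈ s, (C : ℝ≥0∞) ^ ((Fintype.card (Bl β κ) : ℝ) / n) =
            (C : ℝ≥0∞) ^ (∑ κ ∈ s, (Fintype.card (Bl β κ) : ℝ) / n) := by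
          intro s
          classical
          induction s using Finset.induction with
          | empty => simp
          | insert i s hi ih =>
            rw [Finset.prod_insert hi, Finset.sum_insert hi, ih,
              ENNReal.rpow_add_of_nonneg _ _ (by positivity)
                (Finset.sum_nonneg fun i _ => by positivity)]
        rw [e3, hsum, ENNReal.rpow_one]

end Run7.h303.RB
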