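import Mathlib
import Pool.Agent.Run7.h303.RB.D2
set_option autoImplicit false
set_option linter.unusedSectionVars false

/-! Block radial functions on the cube, and superpositions. -/

namespace Run7.h303.RB

open MeasureTheory Set Filter Topology Module
open scoped ENNReal NNReal RealInnerProductSpace
open Pool.Agent.TH277.HT (ch E1 Adm tr planch1 ch_norm ch_cont lint_mul ch_add ch_sum)

/-- functions of the only coordinate of a block -/
def Single {n N : ℕ} {H : Type} [NormedAddCommGroup H] (β : Fin n → Fin N) (k : Fin N)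
    (g : (Fin n → ℝ) → H) : Prop :=
  ∃ j, (∀ i, β i = k ↔ i = j) ∧ ∃ b : ℝ → H, StronglyMeasurable b ∧
    (∀ u ∈ Icc (-1 : ℝ) 1, ‖b u‖ ≤ 1) ∧ ∀ ξ, g ξ = b (ξ j)

/-- radial functions of the coordinates of a block -/
def Radial {n N : ℕ} {H : Type} [NormedAddCommGroup H] (β : Fin n → Fin N) (k : Fin N)
    (g : (Fin n → ℝ) → H) : Prop :=
  ∃ (c : Fin n → ℝ) (R : ℝ) (a : ℝ → H), StronglyMeasurable a ∧ (∀ ρ, ‖a ρ‖ ≤ 1) ∧
    (∀ ρ, R < ρ → a ρ = 0) ∧ (∀ j, β j = k → |c j| + R ≤ 1) ∧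
    ∀ ξ, g ξ = a (√(∑ j with β j = k, (ξ j - c j) ^ 2))

section

variable {H : Type} [NormedAddCommGroup H] [InnerProductSpace ℂ H] [CompleteSpace H]

lemma Single.meas {n N : ℕ} {β : Fin n → Fin N} {k : Fin N} {g : (Fin n → ℝ) → H}
    (h : Single β k g) : StronglyMeasurable g := by
  obtain ⟨j, _, b, hb, _, hg⟩ := h
  have : g = fun ξ => b (ξ j) := funext hg
  rw [this]
  exact hb.comp_measurable (measurable_pi_apply j)

lemma Radial.meas {n N : ℕ} {β : Fin n → Fin N} {k : Fin N} {g : (Fin n → ℝ) → H}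
    (h : Radial β k g) : StronglyMeasurable g := by
  obtain ⟨c, R, a, ha, _, _, _, hg⟩ := h
  have : g = fun ξ => a (√(∑ j with β j = k, (ξ j - c j) ^ 2)) := funext hg
  rw [this]
  exact ha.comp_measurable (by fun_prop)

lemma Single.bd {n N : ℕ} {β : Fin n → Fin N} {k : Fin N} {g : (Fin n → ℝ) → H}
    (h : Single β k g) {ξ : Fin n → ℝ} (hξ : ξ ∈ Icc (-1 : Fin n → ℝ) 1) : ‖g ξ‖ ≤ 1 := by
  obtain ⟨j, _, b, _, hb, hg⟩ := h
  rw [hg]
  exact hb _ ⟨hξ.1 j, hξ.2 j⟩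

lemma Radial.bd {n N : ℕ} {β : Fin n → Fin N} {k : Fin N} {g : (Fin n → ℝ) → H}
    (h : Radial β k g) {ξ : Fin n → ℝ} : ‖g ξ‖ ≤ 1 := by
  obtain ⟨c, R, a, _, hb, _, _, hg⟩ := h
  rw [hg]
  exact hb _

lemma Radial.single {n N : ℕ} {β : Fin n → Fin N} {k : Fin N} {g : (Fin n → ℝ) → H}
    (h : Radial β k g) (hc : Fintype.card (Bl β k) = 1) : Single β k g := by
  obtain ⟨c, R, a, ha, hb, _, _, hg⟩ := h
  obtain ⟨⟨j, hj⟩, hu⟩ := Fintype.card_eq_one_iff.1 hc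
  have h1 : ∀ i, β i = k ↔ i = j := by
    intro i
    constructor
    · intro hi
      have := hu ⟨i, hi⟩
      exact congrArg Subtype.val this
    · rintro rfl
      exact hj
  refine ⟨j, h1, fun u => a (√((u - c j) ^ 2)), ?_, fun u _ => hb _, fun ξ => ?_⟩
  · exact ha.comp_measurable (by fun_prop)
  · rw [hg]
    congr 2
    have h2 : (Finset.univ.filter fun i => β i = k) = {j} := by
      ext i
      simp [h1 i]
    rw [h2, Finset.sum_singleton]

end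

/-- the data of a block -/
lemma block_data (n : ℕ) (hn : 2 ≤ n) (q : ℝ) (hq : 2 * ((n : ℝ) + 1) / n < q) :
    ∃ C : ℝ≥0, ∀ (N : ℕ) (β : Fin n → Fin N) (κ : Fin N) (_ : 0 < Fintype.card (Bl β κ))
    (H : Type) [NormedAddCommGroup H] [InnerProductSpace ℂ H] [CompleteSpace H]
    (g : (Fin n → ℝ) → H), (Single β κ g ∨ Radial β κ g) →
    ∃ b : (Bl β κ → ℝ) → H, StronglyMeasurable b ∧ Integrable b ∧
      (∫⁻ t : ℝ, (∫⁻ y : Bl β κ → ℝ, ‖Eb b y t‖ₑ ^ q) ^ ((n : ℝ) / Fintype.card (Bl β κ)) ≤ C) ∧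
      (∀ ξ ∈ Icc (-1 : Fin n → ℝ) 1, g ξ = b fun j => ξ j.1) ∧
      (∀ ξ : Fin n → ℝ, (∃ j, β j = κ ∧ ξ j ∉ Icc (-1 : ℝ) 1) → (b fun j => ξ j.1) = 0) := by
  obtain ⟨C₁, hC₁⟩ := block_one n hn q hq
  have hex : ∀ k : ℕ, ∃ C : ℝ≥0, k + 2 ≤ n → ∀ (ι : Type) [Fintype ι], Fintype.card ι = k + 2 →
      ∀ (H : Type) [NormedAddCommGroup H] [InnerProductSpace ℂ H] [CompleteSpace H] (a : ℝ → H)
        (c : ι → ℝ), Rad a →
      ∫⁻ t : ℝ, (∫⁻ y : ι → ℝ, ‖Eb (fun η => a (√(∑ j, (η j - c j) ^ 2))) y t‖ₑ ^ q) ^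
        ((n : ℝ) / Fintype.card ι) ≤ C := by
    intro k
    by_cases hk : k + 2 ≤ n
    · obtain ⟨C, hC⟩ := block_iota n k hk q hq
      exact ⟨C, fun _ => hC⟩
    · exact ⟨0, fun h => absurd h hk⟩
  choose C₂ hC₂ using hex
  refine ⟨C₁ + ∑ k ∈ Finset.range n, C₂ k, ?_⟩
  intro N β κ hcard H _ _ _ g hg
  -- integrability
  have hint : ∀ b : (Bl β κ → ℝ) → H, StronglyMeasurable b → (∀ η, ‖b η‖ ≤ 1) →
      (∀ η, (∃ j, η j ∉ Icc (-1 : ℝ) 1) → b η = 0) → Integrable b := by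
    intro b hb hb1 hb0
    have h1 : IntegrableOn b (Icc (-1 : Bl β κ → ℝ) 1) := by
      apply IntegrableOn.of_bound _ hb.aestronglyMeasurable 1 (ae_of_all _ hb1)
      exact isCompact_Icc.measure_lt_top
    rwa [integrableOn_iff_integrable_of_support_subset] at h1
    intro η hη
    by_contra hc
    apply hη
    apply hb0
    by_contra h2
    push Not at h2
    exact hc ⟨fun j => (h2 j).1, fun j => (h2 j).2⟩
  have hsingle : Single β κ g → ∃ b : (Bl β κ → ℝ) → H, StronglyMeasurable b ∧ Integrable b ∧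
      (∫⁻ t : ℝ, (∫⁻ y : Bl β κ → ℝ, ‖Eb b y t‖ₑ ^ q) ^ ((n : ℝ) / Fintype.card (Bl β κ)) ≤
        (C₁ + ∑ k ∈ Finset.range n, C₂ k : ℝ≥0)) ∧
      (∀ ξ ∈ Icc (-1 : Fin n → ℝ) 1, g ξ = b fun j => ξ j.1) ∧
      (∀ ξ : Fin n → ℝ, (∃ j, β j = κ ∧ ξ j ∉ Icc (-1 : ℝ) 1) → (b fun j => ξ j.1) = 0) := by
    rintro ⟨j, hj, b, hbm, hb1, hgb⟩
    set b' : ℝ → H := (Icc (-1 : ℝ) 1).indicator b with hb'
    have hadm : Adm b' := by
      refine ⟨hbm.indicator measurableSet_Icc, fun u => ?_⟩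
      by_cases h : u ∈ Icc (-1 : ℝ) 1
      · rw [hb', indicator_of_mem h]
        exact hb1 u h
      · rw [hb', indicator_of_notMem h, norm_zero]
        exact zero_le_one
    set j₀ : Bl β κ := ⟨j, (hj j).2 rfl⟩ with hj₀
    have huniq : ∀ i : Bl β κ, i = j₀ := fun i => Subtype.ext ((hj i.1).1 i.2)
    have hmeas : StronglyMeasurable fun η : Bl β κ → ℝ => tr b' (η j₀) :=
      (Pool.Agent.TH277.HT.tr_meas hadm).comp_measurable (measurable_pi_apply j₀)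
    have hzero : ∀ η : Bl β κ → ℝ, (∃ i, η i ∉ Icc (-1 : ℝ) 1) → tr b' (η j₀) = 0 := by
      rintro η ⟨i, hi⟩
      rw [huniq i] at hi
      exact Pool.Agent.TH277.HT.tr_zero b' hi
    refine ⟨fun η => tr b' (η j₀), hmeas, hint _ hmeas
      (fun η => Pool.Agent.TH277.HT.tr_bd hadm _) hzero, ?_, ?_, ?_⟩
    · refine (hC₁ (Bl β κ) j₀ huniq H b' hadm).trans ?_
      exact_mod_cast le_self_add
    · intro ξ hξ
      have h1 : ξ j ∈ Icc (-1 : ℝ) 1 := ⟨hξ.1 j, hξ.2 j⟩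
      simp only [tr, hj₀]
      rw [indicator_of_mem h1, hb', indicator_of_mem h1, hgb]
    · rintro ξ ⟨i, hi, hξi⟩
      exact hzero (fun j => ξ j.1) ⟨⟨i, hi⟩, hξi⟩
  rcases hg with hg | hg
  · exact hsingle hg
  · by_cases hc1 : Fintype.card (Bl β κ) = 1
    · exact hsingle (hg.single hc1)
    · obtain ⟨c, R, a, ham, ha1, haR, hcR, hga⟩ := hg
      obtain ⟨⟨j₁, hj₁⟩⟩ := Fintype.card_pos_iff.1 hcard
      have hR1 : R ≤ 1 := by linarith [hcR j₁ hj₁, abs_nonneg (c j₁)]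
      have hrad : Rad a := ⟨⟨ham, ha1⟩, fun ρ hρ => haR ρ (by linarith)⟩
      set k : ℕ := Fintype.card (Bl β κ) - 2 with hk
      have hk2 : Fintype.card (Bl β κ) = k + 2 := by omega
      have hcn : Fintype.card (Bl β κ) ≤ n := by
        have := Fintype.card_subtype_le (fun j : Fin n => β j = κ)
        rwa [Fintype.card_fin] at this
      have hkn : k + 2 ≤ n := by omega
      have hmeas : StronglyMeasurable fun η : Bl β κ → ℝ => a (√(∑ j, (η j - c j.1) ^ 2)) :=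
        ham.comp_measurable (by fun_prop)
      have hzero : ∀ η : Bl β κ → ℝ, (∃ i, η i ∉ Icc (-1 : ℝ) 1) →
          a (√(∑ j, (η j - c j.1) ^ 2)) = 0 := by
        rintro η ⟨i, hi⟩
        apply haR
        have h1 : R < |η i - c i.1| := by
          have h2 := hcR i.1 i.2
          have h3 : 1 < |η i| := by
            by_contra h4
            exact hi (abs_le.1 (not_lt.1 h4))
          have h5 : |η i| ≤ |η i - c i.1| + |c i.1| := by
            calc |η i| = |(η i - c i.1) + c i.1| := by ring_nf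
              _ ≤ _ := abs_add_le _ _
          linarith
        refine lt_of_lt_of_le h1 (Real.le_sqrt_of_sq_le ?_)
        rw [sq_abs]
        exact Finset.single_le_sum (f := fun j : Bl β κ => (η j - c j.1) ^ 2)
          (fun j _ => sq_nonneg _) (Finset.mem_univ i)
      refine ⟨fun η => a (√(∑ j, (η j - c j.1) ^ 2)), hmeas, hint _ hmeas (fun η => ha1 _) hzero,
        ?_, ?_, ?_⟩
      · refine (hC₂ k hkn (Bl β κ) hk2 H a (fun j => c j.1) hrad).trans ?_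
        have h1 : C₂ k ≤ ∑ k ∈ Finset.range n, C₂ k :=
          Finset.single_le_sum (fun _ _ => bot_le) (Finset.mem_range.2 (by omega))
        exact_mod_cast h1.trans le_add_self
      · intro ξ _
        rw [hga]
        congr 2
        exact Finset.sum_subtype (Finset.univ.filter fun j => β j = κ) (by simp)
          (fun j => (ξ j - c j) ^ 2)
      · rintro ξ ⟨i, hi, hξi⟩
        exact hzero (fun j => ξ j.1) ⟨⟨i, hi⟩, hξi⟩

/-- the extension operator of the truncated paraboloid -/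
noncomputable def ext {n : ℕ} (f : (Fin n → ℝ) → ℂ) (y : (Fin n → ℝ) × ℝ) : ℂ :=
  ∫ ξ in Icc (-1 : Fin n → ℝ) 1, ch (∑ j, ξ j * y.1 j + (∑ j, ξ j ^ 2) * y.2) * f ξ

/-- multilinear forms of block functions -/
def Blocks (n : ℕ) (f : (Fin n → ℝ) → ℂ) : Prop :=
  ∃ (N : ℕ) (β : Fin n → Fin N) (H : Type) (_ : NormedAddCommGroup H) (_ : InnerProductSpace ℂ H)
    (_ : CompleteSpace H) (M : ContinuousMultilinearMap ℂ (fun _ : Fin N => H) ℂ)
    (g : Fin N → (Fin n → ℝ) → H), Function.Surjective β ∧ (∀ x, ‖M x‖ ≤ ∏ k, ‖x k‖) ∧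
    (∀ k, Single β k (g k) ∨ Radial β k (g k)) ∧ ∀ ξ, f ξ = M fun k => g k ξ

lemma Blocks.meas {n : ℕ} {f : (Fin n → ℝ) → ℂ} (h : Blocks n f) : StronglyMeasurable f := by
  obtain ⟨N, β, H, _, _, _, M, g, _, _, hg, hf⟩ := h
  have h1 : f = fun ξ => M fun k => g k ξ := funext hf
  rw [h1]
  apply M.cont.comp_stronglyMeasurable
  exact Pool.Agent.TH277.HT.tuple_meas g fun k => (hg k).elim Single.meas Radial.meas

lemma Blocks.bd {n : ℕ} {f : (Fin n → ℝ) → ℂ} (h : Blocks n f) {ξ : Fin n → ℝ}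
    (hξ : ξ ∈ Icc (-1 : Fin n → ℝ) 1) : ‖f ξ‖ ≤ 1 := by
  obtain ⟨N, β, H, _, _, _, M, g, _, hM, hg, hf⟩ := h
  rw [hf]
  refine (hM _).trans ?_
  apply Finset.prod_le_one fun k _ => norm_nonneg _
  intro k _
  exact (hg k).elim (fun h => h.bd hξ) (fun h => h.bd)

theorem main (n : ℕ) (hn : 2 ≤ n) (q : ℝ) (hq : 2 * ((n : ℝ) + 1) / n < q) :
    ∃ C : ℝ≥0, ∀ f : (Fin n → ℝ) → ℂ, Blocks n f →
      ∫⁻ y : (Fin n → ℝ) × ℝ, ‖ext f y‖ₑ ^ q ≤ C := by
  obtain ⟨C, hC⟩ := block_data n hn q hq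
  refine ⟨C, ?_⟩
  rintro f ⟨N, β, H, _, _, _, M, g, hβ, hM, hg, hf⟩
  have hcard : ∀ κ, 0 < Fintype.card (Bl β κ) := by
    intro κ
    obtain ⟨j, hj⟩ := hβ κ
    exact Fintype.card_pos_iff.2 ⟨⟨j, hj⟩⟩
  choose b hbm hbi hbC hbg hb0 using fun κ => hC N β κ (hcard κ) H (g κ) (hg κ)
  have hn0 : 0 < n := by omega
  have hq0 : 0 < q := lt_trans (by positivity) hq
  refine le_trans (le_of_eq ?_) (blocks hn0 β hβ q hq0 C M hM b hbm hbi hbC)
  apply lintegral_congr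
  intro y
  congr 2
  unfold ext
  rw [← integral_indicator measurableSet_Icc]
  apply integral_congr_ae
  refine ae_of_all _ fun ξ => ?_
  simp only
  by_cases h : ξ ∈ Icc (-1 : Fin n → ℝ) 1
  · rw [indicator_of_mem h, hf]
    congr 2
    ext κ
    exact hbg κ ξ h
  · rw [indicator_of_notMem h]
    have h2 : ∃ j, ξ j ∉ Icc (-1 : ℝ) 1 := by
      by_contra hc
      push Not at hc
      exact h ⟨fun j => (hc j).1, fun j => (hc j).2⟩
    obtain ⟨j, hj⟩ := h2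
    rw [M.map_coord_zero (β j) (hb0 (β j) ξ ⟨j, rfl, hj⟩), mul_zero]

lemma ext_meas {n : ℕ} {f : (Fin n → ℝ) → ℂ} (hf : StronglyMeasurable f) :
    StronglyMeasurable fun y : (Fin n → ℝ) × ℝ => ext f y := by
  have h1 : StronglyMeasurable (Function.uncurry fun (p : (Fin n → ℝ) × ℝ) (η : Fin n → ℝ) =>
      ch (∑ j, η j * p.1 j + (∑ j, η j ^ 2) * p.2) * f η) := by
    refine StronglyMeasurable.mul (f := fun q : ((Fin n → ℝ) × ℝ) × (Fin n → ℝ) =>
      ch (∑ j, q.2 j * q.1.1 j + (∑ j, q.2 j ^ 2) * q.1.2))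
      (g := fun q : ((Fin n → ℝ) × ℝ) × (Fin n → ℝ) => f q.2) ?_ ?_
    · exact (ch_cont.comp (by fun_prop : Continuous fun q : ((Fin n → ℝ) × ℝ) × (Fin n → ℝ) =>
        ∑ j, q.2 j * q.1.1 j + (∑ j, q.2 j ^ 2) * q.1.2)).stronglyMeasurable
    · exact hf.comp_measurable measurable_snd
  exact h1.integral_prod_right (ν := (volume : Measure (Fin n → ℝ)).restrict (Icc (-1) 1))

/-- superpositions -/
theorem super (n : ℕ) (hn : 2 ≤ n) (q : ℝ) (hq : 2 * ((n : ℝ) + 1) / n < q) :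
    ∃ C : ℝ≥0, ∀ (l : ℕ → ℂ) (z : ℕ → (Fin n → ℝ) × ℝ) (f : ℕ → (Fin n → ℝ) → ℂ),
      ∑' i, ‖l i‖ₑ ≤ 1 → (∀ i, Blocks n (f i)) →
      ∫⁻ y : (Fin n → ℝ) × ℝ, ‖ext (fun ξ => ∑' i, l i *
        (ch (∑ j, ξ j * (z i).1 j + (∑ j, ξ j ^ 2) * (z i).2) * f i ξ)) y‖ₑ ^ q ≤ C := by
  obtain ⟨C, hC⟩ := main n hn q hq
  refine ⟨C, ?_⟩
  intro l z f hl hf
  have hn0 : (0 : ℝ) < n := by
    have : (2 : ℝ) ≤ n := by exact_mod_cast hn
    linarith
  have hq0 : 0 < q := lt_trans (by positivity) hq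
  have hq1 : 1 ≤ q := by
    rw [div_lt_iff₀ hn0] at hq
    by_contra h
    have h1 : q * n ≤ 1 * n := by gcongr; exact (not_le.1 h).le
    linarith
  -- the sum of the extensions
  have hvol : (volume : Measure (Fin n → ℝ)) (Icc (-1 : Fin n → ℝ) 1) < ⊤ :=
    isCompact_Icc.measure_lt_top
  have h1 : ∀ y : (Fin n → ℝ) × ℝ, ext (fun ξ => ∑' i, l i *
      (ch (∑ j, ξ j * (z i).1 j + (∑ j, ξ j ^ 2) * (z i).2) * f i ξ)) y =
        ∑' i, l i * ext (f i) (y + z i) := by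
    intro y
    have e1 : ∀ ξ : Fin n → ℝ, ch (∑ j, ξ j * y.1 j + (∑ j, ξ j ^ 2) * y.2) * (∑' i, l i *
        (ch (∑ j, ξ j * (z i).1 j + (∑ j, ξ j ^ 2) * (z i).2) * f i ξ)) =
        ∑' i, l i * (ch (∑ j, ξ j * (y + z i).1 j + (∑ j, ξ j ^ 2) * (y + z i).2) * f i ξ) := by
      intro ξ
      rw [← tsum_mul_left]
      apply tsum_congr
      intro i
      have e2 : ∑ j, ξ j * (y + z i).1 j + (∑ j, ξ j ^ 2) * (y + z i).2 =
          (∑ j, ξ j * y.1 j + (∑ j, ξ j ^ 2) * y.2) +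
            (∑ j, ξ j * (z i).1 j + (∑ j, ξ j ^ 2) * (z i).2) := by
        simp only [Prod.fst_add, Prod.snd_add, Pi.add_apply, mul_add, Finset.sum_add_distrib]
        ring
      rw [e2, ch_add (∑ j, ξ j * y.1 j + (∑ j, ξ j ^ 2) * y.2)]
      ring
    unfold ext
    simp only [e1]
    rw [integral_tsum]
    · apply tsum_congr
      intro i
      rw [integral_const_mul]
    · intro i
      apply StronglyMeasurable.aestronglyMeasurable
      apply StronglyMeasurable.const_mul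
      exact ((ch_cont.comp (by fun_prop : Continuous fun ξ : Fin n → ℝ =>
        ∑ j, ξ j * (y + z i).1 j + (∑ j, ξ j ^ 2) * (y + z i).2)).stronglyMeasurable).mul
          (hf i).meas
    · have e3 : ∀ i, ∫⁻ ξ in Icc (-1 : Fin n → ℝ) 1, ‖l i * (ch (∑ j, ξ j * (y + z i).1 j +
          (∑ j, ξ j ^ 2) * (y + z i).2) * f i ξ)‖ₑ ≤ ‖l i‖ₑ * volume (Icc (-1 : Fin n → ℝ) 1) := by
        intro i
        rw [← setLIntegral_const]
        apply setLIntegral_mono' measurableSet_Icc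
        intro ξ hξ
        rw [enorm_mul, enorm_mul, Pool.Agent.TH277.HT.ch_enorm, one_mul]
        calc ‖l i‖ₑ * ‖f i ξ‖ₑ ≤ ‖l i‖ₑ * 1 := by
              gcongr
              rw [← ofReal_norm, ENNReal.ofReal_le_one]
              exact (hf i).bd hξ
          _ = ‖l i‖ₑ := mul_one _
      refine ne_top_of_le_ne_top ?_ (ENNReal.tsum_le_tsum e3)
      rw [ENNReal.tsum_mul_right]
      exact ENNReal.mul_ne_top (ne_top_of_le_ne_top ENNReal.one_ne_top hl) hvol.ne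
  simp only [h1]
  -- Jensen's inequality
  set μ : Measure ℕ := Measure.sum fun i => ‖l i‖ₑ • Measure.dirac i with hμ
  have hμi : ∀ X : ℕ → ℝ≥0∞, ∫⁻ i, X i ∂μ = ∑' i, ‖l i‖ₑ * X i := by
    intro X
    rw [hμ, lintegral_sum_measure]
    apply tsum_congr
    intro i
    rw [lintegral_smul_measure, lintegral_dirac, smul_eq_mul]
  have hμ1 : μ univ ≤ 1 := by
    rw [← lintegral_one, hμi]
    simpa using hl
  have h2 : ∀ y : (Fin n → ℝ) × ℝ, ‖∑' i, l i * ext (f i) (y + z i)‖ₑ ^ q ≤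
      ∑' i, ‖l i‖ₑ * ‖ext (f i) (y + z i)‖ₑ ^ q := by
    intro y
    calc ‖∑' i, l i * ext (f i) (y + z i)‖ₑ ^ q
        ≤ (∑' i, ‖l i‖ₑ * ‖ext (f i) (y + z i)‖ₑ) ^ q := by
          gcongr
          refine enorm_tsum_le_tsum_enorm.trans (le_of_eq ?_)
          apply tsum_congr
          intro i
          rw [enorm_mul]
      _ ≤ _ := by
          rw [← hμi, ← hμi]
          exact jensen hμ1 hq1 (measurable_of_countable _).aemeasurable
  have hmeas : ∀ i, Measurable fun y : (Fin n → ℝ) × ℝ => ‖ext (f i) (y + z i)‖ₑ ^ q := by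
    intro i
    exact (((ext_meas (hf i).meas).enorm).comp (by fun_prop : Measurable
      fun y : (Fin n → ℝ) × ℝ => y + z i)).pow_const q
  haveI : (volume : Measure ((Fin n → ℝ) × ℝ)).IsAddHaarMeasure :=
    Measure.prod.instIsAddHaarMeasure _ _
  calc ∫⁻ y : (Fin n → ℝ) × ℝ, ‖∑' i, l i * ext (f i) (y + z i)‖ₑ ^ q
      ≤ ∫⁻ y : (Fin n → ℝ) × ℝ, ∑' i, ‖l i‖ₑ * ‖ext (f i) (y + z i)‖ₑ ^ q := lintegral_mono h2
    _ = ∑' i, ‖l i‖ₑ * ∫⁻ y : (Fin n → ℝ) × ℝ, ‖ext (f i) (y + z i)‖ₑ ^ q := by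
        rw [lintegral_tsum fun i => ((hmeas i).const_mul _).aemeasurable]
        apply tsum_congr
        intro i
        rw [lintegral_const_mul _ (hmeas i)]
    _ ≤ ∑' i, ‖l i‖ₑ * C := by
        apply ENNReal.tsum_le_tsum
        intro i
        gcongr
        rw [lintegral_add_right_eq_self (fun y : (Fin n → ℝ) × ℝ => ‖ext (f i) y‖ₑ ^ q) (z i)]
        exact hC (f i) (hf i)
    _ ≤ C := by
        rw [ENNReal.tsum_mul_right]
        calc (∑' i, ‖l i‖ₑ) * (C : ℝ≥0∞) ≤ 1 * C := by gcongr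
          _ = C := one_mul _

end Run7.h303.RB
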