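import Mathlib
import Pool.Agent.Run7.h303.RB.C3
set_option autoImplicit false
set_option linter.unusedSectionVars false

/-! The estimates for radial functions with a real dimension parameter: the same proofs as in the
files B2, B3, C3. -/

namespace Run7.h303.RB

open MeasureTheory Set Filter Topology Module
open scoped ENNReal NNReal RealInnerProductSpace
open Pool.Agent.TH277.HT (ch E1 Adm tr planch1 ch_norm ch_cont lint_mul)

variable {H : Type} [NormedAddCommGroup H] [InnerProductSpace ℂ H] [CompleteSpace H]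

/-- the weighted bound at a fixed sign -/
theorem wtR (n : ℝ) (k : ℕ) (hk : (k : ℝ) + 2 ≤ n) (q : ℝ) (hq : 2 * (n + 1) / n < q) :
    ∃ C : ℝ≥0, ∀ (H : Type) [NormedAddCommGroup H] [InnerProductSpace ℂ H] [CompleteSpace H]
    (a : ℝ → H), Adm a → SJ a → ∀ σ : ℝ, (σ = 1 ∨ σ = -1) →
    ∫⁻ t : ℝ, (∫⁻ r in Ioi (1 : ℝ), ENNReal.ofReal (r ^ (-(((k : ℝ) + 1) * (q / 2 - 1)))) *
      ‖E1 a (σ * r) t‖ₑ ^ q) ^ (n / ((k : ℝ) + 2)) ≤ C := by
  set m : ℝ := (k : ℝ) + 2 with hm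
  have hk0 : (0 : ℝ) ≤ k := Nat.cast_nonneg k
  have hm2 : 2 ≤ m := by linarith
  have hmn : m ≤ n := by
    rw [hm]
    exact hk
  have hn0 : (0 : ℝ) < n := by linarith
  set b : ℝ := q / 2 - 1 with hb
  have hb1 : 1 / n < b := by
    rw [div_lt_iff₀ hn0] at hq
    rw [div_lt_iff₀ hn0, hb]
    linarith
  have hb0 : 0 < b := lt_trans (by positivity) hb1
  -- the choice of κ
  have hex : ∃ κ : ℝ, 0 < κ ∧ m / n - (m - 1) * b < κ ∧ κ < b ∧ κ < m / n := by
    have h1 : m / n - (m - 1) * b < b := by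
      have h2 : m / n = m * (1 / n) := by ring
      have h3 : m * (1 / n) < m * b := by gcongr
      linarith
    have h4 : m / n - (m - 1) * b < m / n := by
      have : 0 < (m - 1) * b := mul_pos (by linarith) hb0
      linarith
    have h5 : (0 : ℝ) < m / n := by positivity
    have h6 : max 0 (m / n - (m - 1) * b) < min b (m / n) := by
      rw [max_lt_iff, lt_min_iff, lt_min_iff]
      exact ⟨⟨hb0, h5⟩, ⟨h1, h4⟩⟩
    obtain ⟨κ, hκ1, hκ2⟩ := exists_between h6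
    rw [max_lt_iff] at hκ1
    rw [lt_min_iff] at hκ2
    exact ⟨κ, hκ1.1, hκ1.2, hκ2.1, hκ2.2⟩
  obtain ⟨κ, hκ0, hκ1, hκ2, hκ3⟩ := hex
  set P : ℝ := 2 + (q - 2) / κ with hP
  have hq2 : q - 2 = 2 * b := by rw [hb]; ring
  have hP4 : 4 < P := by
    have : 2 < (q - 2) / κ := by
      rw [lt_div_iff₀ hκ0, hq2]
      linarith
    linarith
  set θ₂ : ℝ := m / n - κ with hθ₂
  have hθ₂0 : 0 < θ₂ := by rw [hθ₂]; linarith
  set w₁ : ℝ := (m - 1) * b / θ₂ with hw₁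
  have hw₁1 : 1 < w₁ := by
    rw [hw₁, lt_div_iff₀ hθ₂0, hθ₂]
    linarith
  set θ₀ : ℝ := 1 - m / n with hθ₀
  have hθ₀0 : 0 ≤ θ₀ := by
    rw [hθ₀, sub_nonneg, div_le_one hn0]
    exact hmn
  set s : ℝ := n / m with hs
  have hm0 : 0 < m := by linarith
  have hs0 : 0 < s := by positivity
  have hs1 : s * (m / n) = 1 := by
    rw [hs]
    field_simp
  obtain ⟨C, hC⟩ := zyg4 P hP4
  refine ⟨2 ^ (θ₀ * s) * (Real.toNNReal (1 / (w₁ - 1)) + C), ?_⟩
  intro H _ _ _ a ha hsj σ hσ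
  have hσ0 : σ ≠ 0 := by rcases hσ with h | h <;> rw [h] <;> norm_num
  have hσm : Measurable fun p : ℝ × ℝ => ‖E1 a (σ * p.1) p.2‖ₑ := by
    have h1 := (Pool.Agent.TH277.HT.E1_meas ha).enorm
    exact h1.comp (by fun_prop : Measurable fun p : ℝ × ℝ => ((σ * p.1, p.2) : ℝ × ℝ))
  have hXm : ∀ t, Measurable fun r : ℝ => ‖E1 a (σ * r) t‖ₑ := fun t =>
    hσm.comp (by fun_prop : Measurable fun r : ℝ => ((r, t) : ℝ × ℝ))
  -- the change of sign
  have hsign : ∀ (F : ℝ → ℝ≥0∞), ∫⁻ r, F (σ * r) = ∫⁻ r, F r := by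
    intro F
    rw [Pool.Agent.TH277.HT.lint_mul σ hσ0 F]
    rcases hσ with h | h <;> rw [h] <;> norm_num
  set W : ℝ → ℝ≥0∞ := fun r => ENNReal.ofReal (r ^ (-w₁)) with hW
  have hWm : Measurable W := by
    have h1 : Measurable fun r : ℝ => r := measurable_id
    exact (h1.pow_const _).ennreal_ofReal
  -- Hölder's inequality
  have h1 : ∀ t : ℝ, (∫⁻ r in Ioi (1 : ℝ), ENNReal.ofReal (r ^ (-(((k : ℝ) + 1) * b))) *
      ‖E1 a (σ * r) t‖ₑ ^ q) ^ s ≤ 2 ^ (θ₀ * s) *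
        ((∫⁻ r in Ioi (1 : ℝ), W r * ‖E1 a (σ * r) t‖ₑ ^ 2) + ∫⁻ x, ‖E1 a x t‖ₑ ^ P) := by
    intro t
    have h2 : ∫⁻ r in Ioi (1 : ℝ), ENNReal.ofReal (r ^ (-(((k : ℝ) + 1) * b))) *
        ‖E1 a (σ * r) t‖ₑ ^ q = ∫⁻ r in Ioi (1 : ℝ), W r ^ θ₂ * ‖E1 a (σ * r) t‖ₑ ^ q := by
      apply setLIntegral_congr_fun measurableSet_Ioi
      intro r hr
      have hr0 : (0 : ℝ) < r := lt_trans zero_lt_one hr
      simp only [hW]
      rw [ENNReal.ofReal_rpow_of_pos (by positivity), ← Real.rpow_mul hr0.le]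
      congr 3
      rw [hw₁]
      field_simp
      rw [hm]
      ring
    have h3 := holder3 (μ := volume.restrict (Ioi (1 : ℝ))) (fun r => ‖E1 a (σ * r) t‖ₑ) W (hXm t) hWm
      hθ₀0 hθ₂0.le hκ0.le (by rw [hθ₀, hθ₂]; ring) (by linarith : 0 ≤ P) (q := q)
      (by
        rw [hθ₀, hθ₂, hP]
        field_simp
        ring)
    rw [h2]
    calc (∫⁻ r in Ioi (1 : ℝ), W r ^ θ₂ * ‖E1 a (σ * r) t‖ₑ ^ q) ^ s
        ≤ ((∫⁻ r in Ioi (1 : ℝ), ‖E1 a (σ * r) t‖ₑ ^ 2) ^ θ₀ *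
            (∫⁻ r in Ioi (1 : ℝ), W r * ‖E1 a (σ * r) t‖ₑ ^ 2) ^ θ₂ *
            (∫⁻ r in Ioi (1 : ℝ), ‖E1 a (σ * r) t‖ₑ ^ P) ^ κ) ^ s := by gcongr
      _ ≤ ((2 : ℝ≥0∞) ^ θ₀ *
            (∫⁻ r in Ioi (1 : ℝ), W r * ‖E1 a (σ * r) t‖ₑ ^ 2) ^ θ₂ *
            (∫⁻ x, ‖E1 a x t‖ₑ ^ P) ^ κ) ^ s := by
          have g1 : ∫⁻ r in Ioi (1 : ℝ), ‖E1 a (σ * r) t‖ₑ ^ 2 ≤ 2 := by
            refine (setLIntegral_le_lintegral _ _).trans ?_
            rw [hsign fun r => ‖E1 a r t‖ₑ ^ 2]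
            exact Pool.Agent.TH277.HT.E1_planch ha t
          have g2 : ∫⁻ r in Ioi (1 : ℝ), ‖E1 a (σ * r) t‖ₑ ^ P ≤ ∫⁻ x, ‖E1 a x t‖ₑ ^ P := by
            refine (setLIntegral_le_lintegral _ _).trans ?_
            rw [hsign fun r => ‖E1 a r t‖ₑ ^ P]
          gcongr
      _ = 2 ^ (θ₀ * s) * ((∫⁻ r in Ioi (1 : ℝ), W r * ‖E1 a (σ * r) t‖ₑ ^ 2) ^ (θ₂ * s) *
            (∫⁻ x, ‖E1 a x t‖ₑ ^ P) ^ (κ * s)) := by
          rw [ENNReal.mul_rpow_of_nonneg _ _ hs0.le, ENNReal.mul_rpow_of_nonneg _ _ hs0.le,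
            ← ENNReal.rpow_mul, ← ENNReal.rpow_mul, ← ENNReal.rpow_mul, mul_assoc]
      _ ≤ _ := by
          gcongr
          apply young _ _ (by positivity) (by positivity)
          rw [← add_mul, hθ₂, sub_add_cancel, mul_comm]
          exact hs1
  calc ∫⁻ t : ℝ, (∫⁻ r in Ioi (1 : ℝ), ENNReal.ofReal (r ^ (-(((k : ℝ) + 1) * b))) *
        ‖E1 a (σ * r) t‖ₑ ^ q) ^ s
      ≤ ∫⁻ t : ℝ, 2 ^ (θ₀ * s) *
        ((∫⁻ r in Ioi (1 : ℝ), W r * ‖E1 a (σ * r) t‖ₑ ^ 2) + ∫⁻ x, ‖E1 a x t‖ₑ ^ P) :=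
        lintegral_mono h1
    _ = 2 ^ (θ₀ * s) * ((∫⁻ t : ℝ, ∫⁻ r in Ioi (1 : ℝ), W r * ‖E1 a (σ * r) t‖ₑ ^ 2) +
          ∫⁻ t : ℝ, ∫⁻ x, ‖E1 a x t‖ₑ ^ P) := by
        rw [lintegral_const_mul' _ _ (ENNReal.rpow_ne_top_of_nonneg (by positivity) (by norm_num)),
          lintegral_add_right]
        have h2 := (Pool.Agent.TH277.HT.E1_meas ha).enorm.pow_const P
        exact Measurable.lintegral_prod_left' (f := fun p : ℝ × ℝ => ‖E1 a p.1 p.2‖ₑ ^ P) h2
    _ ≤ 2 ^ (θ₀ * s) * (ENNReal.ofReal (1 / (w₁ - 1)) + C) := by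
        gcongr
        · rw [lintegral_lintegral_swap]
          · calc ∫⁻ r in Ioi (1 : ℝ), ∫⁻ t : ℝ, W r * ‖E1 a (σ * r) t‖ₑ ^ 2
                = ∫⁻ r in Ioi (1 : ℝ), W r * ∫⁻ t : ℝ, ‖E1 a (σ * r) t‖ₑ ^ 2 := by
                  apply lintegral_congr
                  intro r
                  rw [lintegral_const_mul' _ _ ENNReal.ofReal_ne_top]
              _ ≤ ∫⁻ r in Ioi (1 : ℝ), W r * 1 := by
                  gcongr with r
                  exact E1_time ha hsj _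
              _ = ∫⁻ r in Ioi (1 : ℝ), ENNReal.ofReal (r ^ (-(1 + (w₁ - 1)))) := by
                  apply lintegral_congr
                  intro r
                  rw [mul_one, hW]
                  simp only
                  congr 3
                  ring
              _ ≤ ENNReal.ofReal (1 / (w₁ - 1)) := by
                  rw [Pool.Agent.TH277.HT.rpow_int (by linarith) zero_lt_one, Real.one_rpow]
          · apply Measurable.aemeasurable
            simp only [Function.uncurry_def]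
            exact (hWm.comp measurable_snd).mul
              ((hσm.comp (by fun_prop : Measurable fun p : ℝ × ℝ => ((p.2, p.1) : ℝ × ℝ))).pow_const 2)
        · exact hC H a ha
    _ = _ := by
        push_cast
        rw [ENNReal.coe_rpow_of_nonneg _ (by positivity)]
        rfl

/-- the far part -/
theorem FF_farR (n : ℝ) (k : ℕ) (hk : (k : ℝ) + 2 ≤ n) (q : ℝ) (hq : 2 * (n + 1) / n < q) :
    ∃ C : ℝ≥0, ∀ (H : Type) [NormedAddCommGroup H] [InnerProductSpace ℂ H] [CompleteSpace H]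
    (a : ℝ → H), Adm a → SJ a →
    ∫⁻ t : ℝ, (∫⁻ r in Ioi (1 : ℝ), ENNReal.ofReal (r ^ (k + 1)) *
      ‖FF k a r t‖ₑ ^ q) ^ (n / ((k : ℝ) + 2)) ≤ C := by
  obtain ⟨C₁, hC₁0, hC₁⟩ := FF_le k
  obtain ⟨C₂, hC₂⟩ := wtR n k hk q hq
  have hk0 : (0 : ℝ) ≤ k := Nat.cast_nonneg k
  have hkn : (k : ℝ) + 2 ≤ n := by exact hk
  have hn0 : (0 : ℝ) < n := by linarith
  have hq2 : 2 < q := by
    rw [div_lt_iff₀ hn0] at hq
    by_contra h
    have h1 : q * n ≤ 2 * n := by gcongr; exact not_lt.1 h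
    linarith
  have hq1 : 1 ≤ q := by linarith
  have hq0 : 0 ≤ q := by linarith
  set s : ℝ := n / ((k : ℝ) + 2) with hs
  have hs1 : 1 ≤ s := by
    rw [hs, one_le_div (by linarith)]
    exact hkn
  have hs0 : 0 ≤ s := by linarith
  set w : ℝ → ℝ≥0∞ := fun r => ENNReal.ofReal (r ^ (-(((k : ℝ) + 1) * (q / 2 - 1)))) with hw
  have hwm : Measurable w := by
    have h1 : Measurable fun r : ℝ => r := measurable_id
    exact (h1.pow_const _).ennreal_ofReal
  set K : ℝ≥0∞ := 2 ^ ((q - 1) * s) * 2 ^ (s - 1) with hK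
  have hKt : K ≠ ⊤ := ENNReal.mul_ne_top
    (ENNReal.rpow_ne_top_of_nonneg (mul_nonneg (by linarith) hs0) (by norm_num))
    (ENNReal.rpow_ne_top_of_nonneg (by linarith) (by norm_num))
  set K₂ : ℝ≥0∞ := ENNReal.ofReal (C₁ ^ q) ^ s with hK₂
  have hK₂t : K₂ ≠ ⊤ := ENNReal.rpow_ne_top_of_nonneg hs0 ENNReal.ofReal_ne_top
  refine ⟨(K₂ * (K * (K * (C₂ + C₂) + K * (C₂ + C₂)))).toNNReal, ?_⟩
  have hfin : K₂ * (K * (K * (C₂ + C₂) + K * (C₂ + C₂))) ≠ ⊤ := by
    refine ENNReal.mul_ne_top hK₂t (ENNReal.mul_ne_top hKt (ENNReal.add_ne_top.2 ⟨?_, ?_⟩)) <;>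
    exact ENNReal.mul_ne_top hKt (ENNReal.add_ne_top.2 ⟨ENNReal.coe_ne_top, ENNReal.coe_ne_top⟩)
  rw [ENNReal.coe_toNNReal hfin]
  intro H _ _ _ a ha hsj
  have hE : ∀ (b : ℝ → H), Adm b → SJ b → ∀ σ : ℝ, (σ = 1 ∨ σ = -1) →
      NN w q s (fun r t => ‖E1 b (σ * r) t‖ₑ) ≤ C₂ := fun b hb hbs σ hσ =>
    hC₂ H b hb hbs σ hσ
  -- the half of DD
  have hhalf : ∀ σ : ℝ, (σ = 1 ∨ σ = -1) →
      NN w q s (fun r t => ‖E1 a (σ * r) t‖ₑ + ∫⁻ u in JJ, ‖E1 (cut a u) (σ * r) t‖ₑ) ≤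
        K * (C₂ + C₂) := by
    intro σ hσ
    refine (NN_add hwm hq1 hs1 (E1s_meas ha σ)
      (Measurable.lintegral_prod_left' (f := fun p : ℝ × (ℝ × ℝ) =>
        ‖E1 (cut a p.1) (σ * p.2.1) p.2.2‖ₑ) (cut_meas ha σ))).trans ?_
    rw [← hK]
    gcongr
    · exact hE a ha hsj σ hσ
    · exact NN_int hwm hq1 hs1 (cut_meas ha σ) C₂ fun u => hE _ (cut_adm ha u) (cut_SJ hsj u) σ hσ
  have hDD : NN w q s (fun r t => DD a r t) ≤ K * (K * (C₂ + C₂) + K * (C₂ + C₂)) := by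
    have e1 : (fun r t => DD a r t) = fun r t =>
        (‖E1 a (1 * r) t‖ₑ + ∫⁻ u in JJ, ‖E1 (cut a u) (1 * r) t‖ₑ) +
        (‖E1 a (-1 * r) t‖ₑ + ∫⁻ u in JJ, ‖E1 (cut a u) (-1 * r) t‖ₑ) := by
      ext r t
      simp only [one_mul, neg_one_mul]
      rfl
    rw [e1]
    have hm : ∀ σ : ℝ, Measurable fun p : ℝ × ℝ =>
        ‖E1 a (σ * p.1) p.2‖ₑ + ∫⁻ u in JJ, ‖E1 (cut a u) (σ * p.1) p.2‖ₑ := fun σ =>
      (E1s_meas ha σ).add (Measurable.lintegral_prod_left' (f := fun p : ℝ × (ℝ × ℝ) =>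
        ‖E1 (cut a p.1) (σ * p.2.1) p.2.2‖ₑ) (cut_meas ha σ))
    refine (NN_add hwm hq1 hs1 (hm 1) (hm (-1))).trans ?_
    rw [← hK]
    gcongr
    · exact hhalf 1 (Or.inl rfl)
    · exact hhalf (-1) (Or.inr rfl)
  calc ∫⁻ t : ℝ, (∫⁻ r in Ioi (1 : ℝ), ENNReal.ofReal (r ^ (k + 1)) * ‖FF k a r t‖ₑ ^ q) ^ s
      ≤ ∫⁻ t : ℝ, (∫⁻ r in Ioi (1 : ℝ), ENNReal.ofReal (C₁ ^ q) * (w r * DD a r t ^ q)) ^ s := by
        gcongr ∫⁻ t : ℝ, ?_ ^ s with t
        apply setLIntegral_mono' measurableSet_Ioi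
        intro r hr
        have hr1 : (1 : ℝ) < r := hr
        have hr0 : (0 : ℝ) < r := by linarith
        calc ENNReal.ofReal (r ^ (k + 1)) * ‖FF k a r t‖ₑ ^ q
            ≤ ENNReal.ofReal (r ^ (k + 1)) *
                (ENNReal.ofReal (C₁ * r ^ (-pe k)) * DD a r t) ^ q := by
              gcongr
              exact hC₁ H a ha hsj r t hr1.le
          _ = ENNReal.ofReal (C₁ ^ q) * (w r * DD a r t ^ q) := by
              rw [ENNReal.mul_rpow_of_nonneg _ _ hq0, ENNReal.ofReal_rpow_of_nonneg (by positivity) hq0,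
                Real.mul_rpow hC₁0 (by positivity), ← Real.rpow_mul hr0.le,
                ENNReal.ofReal_mul (by positivity)]
              have e2 : w r = ENNReal.ofReal (r ^ (k + 1)) * ENNReal.ofReal (r ^ (-pe k * q)) := by
                rw [← ENNReal.ofReal_mul (by positivity), hw]
                simp only
                congr 1
                rw [← Real.rpow_natCast, ← Real.rpow_add hr0]
                congr 1
                unfold pe
                push_cast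
                ring
              rw [e2]
              ring
    _ = K₂ * NN w q s (fun r t => DD a r t) := by
        unfold NN
        rw [← lintegral_const_mul' _ _ hK₂t]
        apply lintegral_congr
        intro t
        rw [lintegral_const_mul' _ _ ENNReal.ofReal_ne_top, ENNReal.mul_rpow_of_nonneg _ _ hs0]
    _ ≤ _ := by gcongr

/-- the annulus estimate -/
theorem FF_allR (n : ℝ) (k : ℕ) (hk : (k : ℝ) + 2 ≤ n) (q : ℝ) (hq : 2 * (n + 1) / n < q) :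
    ∃ C : ℝ≥0, ∀ (H : Type) [NormedAddCommGroup H] [InnerProductSpace ℂ H] [CompleteSpace H]
    (a : ℝ → H), Adm a → SJ a →
    ∫⁻ t : ℝ, (∫⁻ r in Ioi (0 : ℝ), ENNReal.ofReal (r ^ (k + 1)) *
      ‖FF k a r t‖ₑ ^ q) ^ (n / ((k : ℝ) + 2)) ≤ C := by
  obtain ⟨C₁, hC₁⟩ := FF_farR n k hk q hq
  have hk0 : (0 : ℝ) ≤ k := Nat.cast_nonneg k
  have hkn : (k : ℝ) + 2 ≤ n := by exact hk
  have hn0 : (0 : ℝ) < n := by linarith
  have hq2 : 2 < q := by
    rw [div_lt_iff₀ hn0] at hq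
    by_contra h
    have h1 : q * n ≤ 2 * n := by gcongr; exact not_lt.1 h
    linarith
  set s : ℝ := n / ((k : ℝ) + 2) with hs
  have hs1 : 1 ≤ s := by
    rw [hs, one_le_div (by linarith)]
    exact hkn
  have hs0 : 0 ≤ s := by linarith
  set L : ℝ≥0∞ := 4 ^ (q - 2) with hL
  have hLt : L ≠ ⊤ := ENNReal.rpow_ne_top_of_nonneg (by linarith) (by norm_num)
  set C₂ : ℝ≥0∞ := L ^ s * (16 ^ (s - 1) * 16) with hC₂
  have hC₂t : C₂ ≠ ⊤ := ENNReal.mul_ne_top (ENNReal.rpow_ne_top_of_nonneg hs0 hLt)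
    (ENNReal.mul_ne_top (ENNReal.rpow_ne_top_of_nonneg (by linarith) (by norm_num)) (by norm_num))
  refine ⟨(2 ^ (s - 1) * (C₂ + C₁)).toNNReal, ?_⟩
  have hfin : 2 ^ (s - 1) * (C₂ + C₁) ≠ ⊤ := ENNReal.mul_ne_top
    (ENNReal.rpow_ne_top_of_nonneg (by linarith) (by norm_num))
    (ENNReal.add_ne_top.2 ⟨hC₂t, ENNReal.coe_ne_top⟩)
  rw [ENNReal.coe_toNNReal hfin]
  intro H _ _ _ a ha hsj
  have hm2 : Measurable fun p : ℝ × ℝ => ‖FF k a p.1 p.2‖ₑ := (FF_meas k ha).enorm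
  -- near part
  have hnear : ∫⁻ t : ℝ, (∫⁻ r in Ioc (0 : ℝ) 1, ENNReal.ofReal (r ^ (k + 1)) *
      ‖FF k a r t‖ₑ ^ q) ^ s ≤ C₂ := by
    set U : ℝ → ℝ≥0∞ := fun t => ∫⁻ r in Ioc (0 : ℝ) 1, ‖FF k a r t‖ₑ ^ 2 with hU
    have hU16 : ∀ t, U t ≤ 16 := by
      intro t
      calc U t ≤ ∫⁻ _ in Ioc (0 : ℝ) 1, 16 := by
            rw [hU]
            simp only
            gcongr with r
            calc ‖FF k a r t‖ₑ ^ 2 ≤ 4 ^ 2 := by
                  gcongr
                  exact FF_bd k ha hsj r t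
              _ = 16 := by norm_num
        _ = 16 := by
            rw [setLIntegral_const, Real.volume_Ioc]
            norm_num
    have h1 : ∀ t, (∫⁻ r in Ioc (0 : ℝ) 1, ENNReal.ofReal (r ^ (k + 1)) *
        ‖FF k a r t‖ₑ ^ q) ^ s ≤ L ^ s * (16 ^ (s - 1) * U t) := by
      intro t
      have h2 : ∫⁻ r in Ioc (0 : ℝ) 1, ENNReal.ofReal (r ^ (k + 1)) * ‖FF k a r t‖ₑ ^ q ≤
          L * U t := by
        rw [hU]
        simp only
        rw [← lintegral_const_mul' _ _ hLt]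
        apply setLIntegral_mono' measurableSet_Ioc
        intro r hr
        calc ENNReal.ofReal (r ^ (k + 1)) * ‖FF k a r t‖ₑ ^ q
            ≤ 1 * (‖FF k a r t‖ₑ ^ (q - 2) * ‖FF k a r t‖ₑ ^ 2) := by
              gcongr
              · rw [ENNReal.ofReal_le_one]
                exact pow_le_one₀ hr.1.le hr.2
              · rw [← ENNReal.rpow_natCast, ← ENNReal.rpow_add_of_nonneg _ _ (by linarith)
                  (by norm_num)]
                apply le_of_eq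
                congr 1
                push_cast
                ring
          _ ≤ L * ‖FF k a r t‖ₑ ^ 2 := by
              rw [one_mul]
              gcongr
              rw [hL]
              gcongr
              exact FF_bd k ha hsj r t
      calc (∫⁻ r in Ioc (0 : ℝ) 1, ENNReal.ofReal (r ^ (k + 1)) * ‖FF k a r t‖ₑ ^ q) ^ s
          ≤ (L * U t) ^ s := by gcongr
        _ = L ^ s * (U t ^ (s - 1) * U t) := by
            rw [ENNReal.mul_rpow_of_nonneg _ _ hs0]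
            congr 1
            conv_lhs => rw [show s = (s - 1) + 1 by ring,
              ENNReal.rpow_add_of_nonneg _ _ (by linarith) zero_le_one, ENNReal.rpow_one]
        _ ≤ L ^ s * (16 ^ (s - 1) * U t) := by
            gcongr
            exact hU16 t
    calc ∫⁻ t : ℝ, (∫⁻ r in Ioc (0 : ℝ) 1, ENNReal.ofReal (r ^ (k + 1)) * ‖FF k a r t‖ₑ ^ q) ^ s
        ≤ ∫⁻ t : ℝ, L ^ s * (16 ^ (s - 1) * U t) := lintegral_mono h1
      _ = L ^ s * (16 ^ (s - 1) * ∫⁻ t : ℝ, U t) := by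
          rw [lintegral_const_mul' _ _ (ENNReal.rpow_ne_top_of_nonneg hs0 hLt),
            lintegral_const_mul' _ _ (ENNReal.rpow_ne_top_of_nonneg (by linarith) (by norm_num))]
      _ ≤ L ^ s * (16 ^ (s - 1) * 16) := by
          gcongr
          rw [hU]
          simp only
          rw [lintegral_lintegral_swap]
          · calc ∫⁻ r in Ioc (0 : ℝ) 1, ∫⁻ t : ℝ, ‖FF k a r t‖ₑ ^ 2
                ≤ ∫⁻ _ in Ioc (0 : ℝ) 1, 16 := by
                  gcongr with r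
                  exact FF_time k ha hsj r
              _ = 16 := by
                  rw [setLIntegral_const, Real.volume_Ioc]
                  norm_num
          · exact ((hm2.comp (by fun_prop :
              Measurable fun p : ℝ × ℝ => ((p.2, p.1) : ℝ × ℝ))).pow_const 2).aemeasurable
  have hmt : Measurable fun t : ℝ => (∫⁻ r in Ioc (0 : ℝ) 1, ENNReal.ofReal (r ^ (k + 1)) *
      ‖FF k a r t‖ₑ ^ q) ^ s := by
    apply Measurable.pow_const
    refine Measurable.lintegral_prod_left' (f := fun p : ℝ × ℝ =>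
      ENNReal.ofReal (p.1 ^ (k + 1)) * ‖FF k a p.1 p.2‖ₑ ^ q) ?_
    exact ((by fun_prop : Measurable fun p : ℝ × ℝ => p.1 ^ (k + 1)).ennreal_ofReal).mul
      (hm2.pow_const q)
  calc ∫⁻ t : ℝ, (∫⁻ r in Ioi (0 : ℝ), ENNReal.ofReal (r ^ (k + 1)) * ‖FF k a r t‖ₑ ^ q) ^ s
      ≤ ∫⁻ t : ℝ, 2 ^ (s - 1) *
          ((∫⁻ r in Ioc (0 : ℝ) 1, ENNReal.ofReal (r ^ (k + 1)) * ‖FF k a r t‖ₑ ^ q) ^ s +
          (∫⁻ r in Ioi (1 : ℝ), ENNReal.ofReal (r ^ (k + 1)) * ‖FF k a r t‖ₑ ^ q) ^ s) := by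
        gcongr with t
        refine le_trans ?_ (ENNReal.rpow_add_le_mul_rpow_add_rpow _ _ hs1)
        gcongr
        rw [← Ioc_union_Ioi_eq_Ioi (show (0 : ℝ) ≤ 1 by norm_num)]
        exact lintegral_union_le _ _ _
    _ = 2 ^ (s - 1) * ((∫⁻ t : ℝ, (∫⁻ r in Ioc (0 : ℝ) 1, ENNReal.ofReal (r ^ (k + 1)) *
          ‖FF k a r t‖ₑ ^ q) ^ s) + ∫⁻ t : ℝ, (∫⁻ r in Ioi (1 : ℝ),
          ENNReal.ofReal (r ^ (k + 1)) * ‖FF k a r t‖ₑ ^ q) ^ s) := by
        rw [lintegral_const_mul' _ _ (ENNReal.rpow_ne_top_of_nonneg (by linarith) (by norm_num)),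
          lintegral_add_left hmt]
    _ ≤ _ := by
        gcongr
        exact hC₁ H a ha hsj

/-- the bound for functions vanishing near zero -/
theorem TT_truncR (n : ℝ) (k : ℕ) (hk : (k : ℝ) + 2 ≤ n) (q : ℝ) (hq : 2 * (n + 1) / n < q) :
    ∃ C : ℝ≥0, ∀ (L : ℕ) (H : Type) [NormedAddCommGroup H] [InnerProductSpace ℂ H]
    [CompleteSpace H] (a : ℝ → H), Rad a → (∀ ρ, 0 < ρ → ρ < (2 : ℝ)⁻¹ ^ L → a ρ = 0) →
    TT k q (n / ((k : ℝ) + 2)) a ≤ C := by
  obtain ⟨C₀, hC₀⟩ := FF_allR n k hk q hq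
  have hk0 : (0 : ℝ) ≤ k := Nat.cast_nonneg k
  have hkn : (k : ℝ) + 2 ≤ n := by exact hk
  have hn0 : (0 : ℝ) < n := by linarith
  have hqn : 2 * (n + 1) < q * n := by
    rwa [div_lt_iff₀ hn0] at hq
  have hq2 : 2 < q := by
    by_contra h
    have h1 : q * n ≤ 2 * n := by gcongr; exact not_lt.1 h
    linarith
  set s : ℝ := n / ((k : ℝ) + 2) with hs
  have hs1 : 1 ≤ s := by
    rw [hs, one_le_div (by linarith)]
    exact hkn
  have hs0 : 0 ≤ s := by linarith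
  have hsk : ((k : ℝ) + 2) * s = n := by
    rw [hs]
    field_simp
  have hs2 : s ≤ n / 2 := by
    rw [hs]
    gcongr
    linarith
  -- the contraction factor
  set θ : ℝ := (2 : ℝ) ^ ((q - 1) * s) * 2 ^ (s - 1) *
    (((2 : ℝ)⁻¹ ^ (((k : ℝ) + 2) * (q - 1))) ^ s * 4) with hθ
  have hθ0 : 0 < θ := by positivity
  have hθ1 : θ < 1 := by
    have e1 : θ = (2 : ℝ) ^ (q * s + 1 - n * (q - 1)) := by
      rw [hθ, Real.inv_rpow (by norm_num), Real.inv_rpow (by positivity),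
        ← Real.rpow_neg (by positivity), ← Real.rpow_mul (by norm_num),
        show (4 : ℝ) = (2 : ℝ) ^ (2 : ℝ) by norm_num, ← Real.rpow_add (by norm_num),
        ← Real.rpow_add (by norm_num), ← Real.rpow_add (by norm_num)]
      congr 1
      have e2 : ((k : ℝ) + 2) * (q - 1) * -s = -(n * (q - 1)) := by
        rw [← hsk]
        ring
      rw [e2]
      ring
    rw [e1]
    apply Real.rpow_lt_one_of_one_lt_of_neg (by norm_num)
    have h1 : q * s ≤ q * (n / 2) := by gcongr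
    linarith
  set A : ℝ≥0 := Real.toNNReal ((2 : ℝ) ^ ((q - 1) * s) * 2 ^ (s - 1)) with hA
  set C : ℝ≥0 := (A * C₀) * Real.toNNReal (1 / (1 - θ)) with hC
  have hAe : (2 : ℝ≥0∞) ^ ((q - 1) * s) * 2 ^ (s - 1) = (A : ℝ≥0∞) := by
    rw [hA]
    show _ = ENNReal.ofReal _
    rw [ENNReal.ofReal_mul (by positivity), ← ENNReal.ofReal_rpow_of_pos two_pos,
      ← ENNReal.ofReal_rpow_of_pos two_pos]
    norm_num
  have hCeq : (A * C₀ : ℝ≥0) + Real.toNNReal θ * C = C := by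
    rw [← NNReal.coe_inj]
    have h1 : 0 < 1 - θ := by linarith
    rw [hC]
    simp only [NNReal.coe_add, NNReal.coe_mul]
    have h6 : 0 ≤ 1 / (1 - θ) := by positivity
    rw [Real.coe_toNNReal θ hθ0.le, Real.coe_toNNReal (1 / (1 - θ)) h6]
    generalize (A : ℝ) = A'
    field_simp
    ring
  have hC₀C : (C₀ : ℝ≥0∞) ≤ C := by
    have h2 : (1 : ℝ) ≤ (2 : ℝ) ^ ((q - 1) * s) * 2 ^ (s - 1) := by
      have h3 : (1 : ℝ) ≤ (2 : ℝ) ^ ((q - 1) * s) :=
        Real.one_le_rpow (by norm_num) (mul_nonneg (by linarith) hs0)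
      have h4 : (1 : ℝ) ≤ (2 : ℝ) ^ (s - 1) := Real.one_le_rpow (by norm_num) (by linarith)
      calc (1 : ℝ) = 1 * 1 := by norm_num
        _ ≤ _ := by gcongr
    have h1 : (1 : ℝ≥0) ≤ A := by
      rw [hA, ← Real.toNNReal_one]
      exact Real.toNNReal_le_toNNReal h2
    have h5 : C₀ ≤ C := by
      calc C₀ = 1 * C₀ := (one_mul _).symm
        _ ≤ A * C₀ := by gcongr
        _ ≤ (A * C₀ : ℝ≥0) + Real.toNNReal θ * C := le_self_add
        _ = C := hCeq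
    exact_mod_cast h5
  refine ⟨C, ?_⟩
  intro L
  induction L with
  | zero =>
    intro H _ _ _ a ha h0
    -- the function vanishes off the point one
    have hsj : SJ ((Ici (1 : ℝ)).indicator a) := by
      intro u hu
      by_cases h : u ∈ Ici (1 : ℝ)
      · rw [indicator_of_mem h]
        apply ha.supp
        by_contra h'
        exact hu ⟨by linarith [show (1 : ℝ) ≤ u from h], not_lt.1 h'⟩
      · exact indicator_of_notMem h _
    have h1 := hC₀ H _ (ha.ind measurableSet_Ici).adm hsj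
    refine le_trans (le_of_eq ?_) (h1.trans hC₀C)
    unfold TT
    apply lintegral_congr
    intro t
    congr 1
    apply lintegral_congr
    intro r
    congr 3
    rw [FF_fi, FF_fi]
    apply setIntegral_congr_fun measurableSet_Ioi
    intro ρ hρ
    simp only [fi]
    by_cases h : ρ ∈ Ici (1 : ℝ)
    · rw [indicator_of_mem h]
    · rw [indicator_of_notMem h, h0 ρ hρ (by
        rw [pow_zero]
        exact not_le.1 h)]
  | succ L ih =>
    intro H _ _ _ a ha h0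
    set a₀ : ℝ → H := (Ici (1 / 2 : ℝ)).indicator a with ha₀
    set a₁ : ℝ → H := (Iio (1 / 2 : ℝ)).indicator a with ha₁
    set b : ℝ → H := fun ρ => (Iio (1 : ℝ)).indicator (fun ρ => a (ρ / 2)) ρ with hb
    have hsum : ∀ ρ, a ρ = a₀ ρ + a₁ ρ := by
      intro ρ
      by_cases h : (1 / 2 : ℝ) ≤ ρ
      · rw [ha₀, ha₁, indicator_of_mem (show ρ ∈ Ici (1 / 2 : ℝ) from h),
          indicator_of_notMem (show ρ ∉ Iio (1 / 2 : ℝ) from not_lt.2 h), add_zero]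
      · rw [ha₀, ha₁, indicator_of_notMem (show ρ ∉ Ici (1 / 2 : ℝ) from h),
          indicator_of_mem (show ρ ∈ Iio (1 / 2 : ℝ) from not_le.1 h), zero_add]
    have hsj : SJ a₀ := by
      intro u hu
      by_cases h : u ∈ Ici (1 / 2 : ℝ)
      · rw [ha₀, indicator_of_mem h]
        apply ha.supp
        by_contra h'
        exact hu ⟨h, not_lt.1 h'⟩
      · exact indicator_of_notMem h _
    have h1 : TT k q s a₀ ≤ C₀ := hC₀ H a₀ (ha.ind measurableSet_Ici).adm hsj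
    have hab : ∀ ρ, 0 < ρ → a₁ ρ = b (2 * ρ) := by
      intro ρ _
      by_cases h : ρ < 1 / 2
      · rw [ha₁, hb, indicator_of_mem (show ρ ∈ Iio (1 / 2 : ℝ) from h)]
        simp only
        rw [indicator_of_mem (show 2 * ρ ∈ Iio (1 : ℝ) from by
          show 2 * ρ < 1
          linarith)]
        congr 1
        ring
      · rw [ha₁, hb, indicator_of_notMem (show ρ ∉ Iio (1 / 2 : ℝ) from h)]
        simp only
        rw [indicator_of_notMem (show 2 * ρ ∉ Iio (1 : ℝ) from by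
          show ¬ 2 * ρ < 1
          linarith)]
    have h2 : TT k q s b ≤ C := by
      apply ih H b ha.comp
      intro ρ hρ hρL
      rw [hb]
      simp only
      by_cases h : ρ ∈ Iio (1 : ℝ)
      · rw [indicator_of_mem h]
        apply h0 _ (by positivity)
        rw [pow_succ]
        linarith
      · exact indicator_of_notMem h _
    have h3 := TT_scale k (by linarith : 0 ≤ q) hs0 hab
    have h4 := TT_add k (by linarith : 1 ≤ q) hs1 (ha.ind (measurableSet_Ici (a := (1 / 2 : ℝ))))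
      (ha.ind (measurableSet_Iio (a := (1 / 2 : ℝ)))) hsum
    calc TT k q s a ≤ A * (TT k q s a₀ + TT k q s a₁) := by
          rw [← hAe]
          exact h4
      _ ≤ A * (C₀ + ENNReal.ofReal (((2 : ℝ)⁻¹ ^ (((k : ℝ) + 2) * (q - 1))) ^ s * 4) * C) := by
          rw [h3]
          gcongr
      _ = ((A * C₀ : ℝ≥0) + Real.toNNReal θ * C : ℝ≥0) := by
          rw [mul_add, ← mul_assoc]
          have e3 : (A : ℝ≥0∞) * ENNReal.ofReal (((2 : ℝ)⁻¹ ^ (((k : ℝ) + 2) * (q - 1))) ^ s * 4) =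
              ENNReal.ofReal θ := by
            rw [hθ, ENNReal.ofReal_mul (p := (2 : ℝ) ^ ((q - 1) * s) * 2 ^ (s - 1)) (by positivity)]
            rfl
          rw [e3]
          push_cast
          rfl
      _ = C := by rw [hCeq]

/-- the bound for all radial functions -/
theorem TT_allR (n : ℝ) (k : ℕ) (hk : (k : ℝ) + 2 ≤ n) (q : ℝ) (hq : 2 * (n + 1) / n < q) :
    ∃ C : ℝ≥0, ∀ (H : Type) [NormedAddCommGroup H] [InnerProductSpace ℂ H]
    [CompleteSpace H] (a : ℝ → H), Rad a → TT k q (n / ((k : ℝ) + 2)) a ≤ C := by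
  obtain ⟨C, hC⟩ := TT_truncR n k hk q hq
  refine ⟨C, ?_⟩
  intro H _ _ _ a ha
  have hk0 : (0 : ℝ) ≤ k := Nat.cast_nonneg k
  have hkn : (k : ℝ) + 2 ≤ n := by exact hk
  have hn0 : (0 : ℝ) < n := by linarith
  have hq0 : 0 < q := lt_trans (by positivity) hq
  set b : ℕ → ℝ → H := fun L => (Ici ((2 : ℝ)⁻¹ ^ L)).indicator a with hb
  have hbr : ∀ L, Rad (b L) := fun L => ha.ind measurableSet_Ici
  apply TT_fatou k hq0 (by positivity) a b (fun L => (hbr L).adm) _ _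
    (fun L => hC L H (b L) (hbr L) fun ρ _ hρ =>
      indicator_of_notMem (show ρ ∉ Ici ((2 : ℝ)⁻¹ ^ L) from not_le.2 hρ) _)
  intro r t
  simp only [FF_fi]
  apply tendsto_integral_of_dominated_convergence
    ((Ioc (0 : ℝ) 1).indicator (fun _ => (4 : ℝ)))
  · intro L
    exact (fi_meas k (hbr L).adm r t).aestronglyMeasurable
  · exact ind4_int
  · intro L
    exact (ae_restrict_iff' measurableSet_Ioi).2 (ae_of_all _ fun ρ hρ => fi_le k (hbr L) r t hρ)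
  · refine (ae_restrict_iff' measurableSet_Ioi).2 (ae_of_all _ fun ρ hρ => ?_)
    apply tendsto_const_nhds.congr'
    have h1 : Tendsto (fun L : ℕ => (2 : ℝ)⁻¹ ^ L) atTop (𝓝 0) :=
      tendsto_pow_atTop_nhds_zero_of_lt_one (by norm_num) (by norm_num)
    filter_upwards [h1.eventually (gt_mem_nhds (show (0 : ℝ) < ρ from hρ))] with L hL
    simp only [fi, hb]
    rw [indicator_of_mem (show ρ ∈ Ici ((2 : ℝ)⁻¹ ^ L) from le_of_lt hL)]

/-- The mixed norm estimate on the Euclidean space, for radial functions about any centre. -/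
theorem blockR (n : ℝ) (k : ℕ) (hk : (k : ℝ) + 2 ≤ n) (q : ℝ) (hq : 2 * (n + 1) / n < q) :
    ∃ C : ℝ≥0, ∀ (H : Type) [NormedAddCommGroup H] [InnerProductSpace ℂ H]
    [CompleteSpace H] (a : ℝ → H) (c : VV (k + 2)), Rad a →
    ∫⁻ t : ℝ, (∫⁻ x : VV (k + 2), ‖EM (fun η => a ‖η - c‖) x t‖ₑ ^ q) ^
      (n / ((k : ℝ) + 2)) ≤ C := by
  obtain ⟨C, hC⟩ := TT_allR n k hk q hq
  have hk0 : (0 : ℝ) ≤ k := Nat.cast_nonneg k
  have hkn : (k : ℝ) + 2 ≤ n := by exact hk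
  have hn0 : (0 : ℝ) < n := by linarith
  have hq0 : 0 < q := lt_trans (by positivity) hq
  set s : ℝ := n / ((k : ℝ) + 2) with hs
  have hs0 : 0 ≤ s := by positivity
  set S : ℝ≥0∞ := (volume : Measure (VV (k + 2))).toSphere univ with hS
  have hSt : S ≠ ⊤ := measure_ne_top _ _
  set K : ℝ≥0∞ := (‖cc k‖ₑ ^ q * S) ^ s with hK
  have hKt : K ≠ ⊤ := ENNReal.rpow_ne_top_of_nonneg hs0
    (ENNReal.mul_ne_top (ENNReal.rpow_ne_top_of_nonneg hq0.le enorm_ne_top) hSt)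
  refine ⟨(K * C).toNNReal, ?_⟩
  rw [ENNReal.coe_toNNReal (ENNReal.mul_ne_top hKt ENNReal.coe_ne_top)]
  intro H _ _ _ a c ha
  -- the Galilean transformation
  have hgal : ∀ (x : VV (k + 2)) (t : ℝ), ‖EM (fun η => a ‖η - c‖) x t‖ₑ =
      ‖EM (fun η : VV (k + 2) => a ‖η‖) (x + (2 * t) • c) t‖ₑ := by
    intro x t
    have e1 : EM (fun η => a ‖η - c‖) x t = ch (⟪c, x⟫ + ‖c‖ ^ 2 * t) •
        EM (fun η : VV (k + 2) => a ‖η‖) (x + (2 * t) • c) t := by
      unfold EM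
      rw [← integral_smul, ← integral_add_right_eq_self
        (fun η : VV (k + 2) => ch (⟪η, x⟫ + ‖η‖ ^ 2 * t) • a ‖η - c‖) c]
      apply integral_congr_ae
      refine ae_of_all _ fun ζ => ?_
      simp only
      rw [add_sub_cancel_right, smul_smul, ← Pool.Agent.TH277.HT.ch_add]
      congr 2
      rw [inner_add_left, inner_add_right, inner_smul_right, norm_add_sq_real]
      ring
    rw [e1, enorm_smul, Pool.Agent.TH277.HT.ch_enorm, one_mul]
  have h1 : ∀ t : ℝ, ∫⁻ x : VV (k + 2), ‖EM (fun η => a ‖η - c‖) x t‖ₑ ^ q =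
      ‖cc k‖ₑ ^ q * S * ∫⁻ r in Ioi (0 : ℝ), ENNReal.ofReal (r ^ (k + 1)) * ‖FF k a r t‖ₑ ^ q := by
    intro t
    simp only [hgal]
    rw [lintegral_add_right_eq_self
      (fun x : VV (k + 2) => ‖EM (fun η : VV (k + 2) => a ‖η‖) x t‖ₑ ^ q) ((2 * t) • c)]
    have h2 : ∀ x : VV (k + 2), ‖EM (fun η : VV (k + 2) => a ‖η‖) x t‖ₑ ^ q =
        ‖cc k‖ₑ ^ q * (fun r => ‖FF k a r t‖ₑ ^ q) ‖x‖ := by
      intro x
      rw [EM_rad k (VV (k + 2)) (by rw [finrank_euclideanSpace, Fintype.card_fin]) ha x t,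
        enorm_smul, ENNReal.mul_rpow_of_nonneg _ _ hq0.le]
    simp only [h2]
    have h3 : Measurable fun r : ℝ => ‖FF k a r t‖ₑ ^ q :=
      ((FF_meas k ha.adm).enorm.comp
        (by fun_prop : Measurable fun r : ℝ => ((r, t) : ℝ × ℝ))).pow_const q
    rw [lintegral_const_mul' _ _ (ENNReal.rpow_ne_top_of_nonneg hq0.le enorm_ne_top),
      lint_rad k (fun r => ‖FF k a r t‖ₑ ^ q) h3, ← hS, mul_assoc]
  simp only [h1]
  calc ∫⁻ t : ℝ, (‖cc k‖ₑ ^ q * S *
        ∫⁻ r in Ioi (0 : ℝ), ENNReal.ofReal (r ^ (k + 1)) * ‖FF k a r t‖ₑ ^ q) ^ s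
      = K * TT k q s a := by
        unfold TT
        rw [← lintegral_const_mul' _ _ hKt]
        apply lintegral_congr
        intro t
        rw [ENNReal.mul_rpow_of_nonneg _ _ hs0]
    _ ≤ K * C := by
        gcongr
        exact hC H a ha

end Run7.h303.RB
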