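import Mathlib
import Pool.Agent.Run7.h303.RB.D2
set_option autoImplicit false
set_option linter.unusedSectionVars false

/-! The Stein-Tomas estimate for Hilbert space valued functions on the paraboloid: the pairing. -/

namespace Run7.h303.RB

open MeasureTheory Set Filter Topology Module
open scoped ENNReal NNReal RealInnerProductSpace
open Pool.Agent.TH277.HT (ch E1 Adm tr planch1 ch_norm ch_cont lint_mul ch_add ch_sum ch_conj ch_enorm)

/-- the Gaussian weight -/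
noncomputable def gw {m : ℕ} (ξ : VV m) : ℝ := Real.exp (-Real.pi * ‖ξ‖ ^ 2)

lemma gw_pos {m : ℕ} (ξ : VV m) : 0 < gw ξ := Real.exp_pos _

lemma gw_le {m : ℕ} (ξ : VV m) : gw ξ ≤ 1 := by
  unfold gw
  rw [Real.exp_le_one_iff]
  have := Real.pi_pos
  have h2 := sq_nonneg ‖ξ‖
  nlinarith

lemma gw_cont {m : ℕ} : Continuous (gw : VV m → ℝ) := by
  unfold gw
  fun_prop

/-- the kernel -/
noncomputable def KK (m : ℕ) (x : VV m) (t : ℝ) : ℂ :=
  ∫ ξ : VV m, (gw ξ : ℂ) * ch (⟪ξ, x⟫ + ‖ξ‖ ^ 2 * t)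

lemma gw_int (m : ℕ) : Integrable (gw : VV m → ℝ) := by
  have h1 := GaussianFourier.integral_rexp_neg_mul_sq_norm (V := VV m) Real.pi_pos
  by_contra h
  have h2 : ∫ v : VV m, Real.exp (-Real.pi * ‖v‖ ^ 2) = 0 := by
    apply integral_undef
    exact h
  rw [h2] at h1
  have : 0 < (Real.pi / Real.pi) ^ ((finrank ℝ (VV m) : ℝ) / 2) := by
    have := Real.pi_pos
    positivity
  linarith

lemma KK_le (m : ℕ) (x : VV m) {t : ℝ} (ht : t ≠ 0) :
    ‖KK m x t‖ ≤ (2 * |t|) ^ (-((m : ℝ) / 2)) := by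
  have hpi := Real.pi_pos
  set b : ℂ := (Real.pi : ℂ) - 2 * Real.pi * t * Complex.I with hb
  have hbre : b.re = Real.pi := by simp [hb]
  have hb0 : 0 < b.re := by rw [hbre]; exact hpi
  have hbim : b.im = -(2 * Real.pi * t) := by simp [hb]
  have h1 := GaussianFourier.integral_cexp_neg_mul_sq_norm_add (V := VV m) hb0 (2 * Real.pi * Complex.I) x
  have h2 : KK m x t = ∫ v : VV m, Complex.exp (-b * ‖v‖ ^ 2 + 2 * Real.pi * Complex.I * ⟪x, v⟫) := by
    unfold KK
    apply integral_congr_ae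
    refine ae_of_all _ fun v => ?_
    simp only
    unfold gw ch
    rw [Complex.ofReal_exp, ← Complex.exp_add]
    congr 1
    rw [hb, real_inner_comm]
    push_cast
    ring
  rw [h2, h1, norm_mul]
  have hbn : 2 * Real.pi * |t| ≤ ‖b‖ := by
    have h3 := Complex.abs_im_le_norm b
    rw [hbim, abs_neg, abs_mul, abs_of_pos (by positivity : 0 < 2 * Real.pi)] at h3
    exact h3
  have ht0 : 0 < |t| := abs_pos.2 ht
  have hbpos : 0 < ‖b‖ := lt_of_lt_of_le (by positivity) hbn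
  have e1 : ‖Complex.exp ((2 * Real.pi * Complex.I) ^ 2 * ‖x‖ ^ 2 / (4 * b))‖ ≤ 1 := by
    rw [Complex.norm_exp, Real.exp_le_one_iff]
    have e2 : (2 * (Real.pi : ℂ) * Complex.I) ^ 2 * ‖x‖ ^ 2 / (4 * b) =
        ((-(Real.pi ^ 2 * ‖x‖ ^ 2) : ℝ) : ℂ) * b⁻¹ := by
      rw [mul_pow, Complex.I_sq, div_eq_mul_inv, mul_inv]
      push_cast
      ring
    rw [e2, Complex.re_ofReal_mul, Complex.inv_re, hbre]
    have h3 : 0 ≤ Real.pi / Complex.normSq b := div_nonneg hpi.le (Complex.normSq_nonneg b)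
    have h4 : 0 ≤ Real.pi ^ 2 * ‖x‖ ^ 2 := by positivity
    nlinarith
  have e3 : ‖((Real.pi : ℂ) / b) ^ ((finrank ℝ (VV m) : ℂ) / 2)‖ ≤ (2 * |t|) ^ (-((m : ℝ) / 2)) := by
    have e4 : ((finrank ℝ (VV m) : ℂ) / 2) = (((m : ℝ) / 2 : ℝ) : ℂ) := by
      rw [finrank_euclideanSpace, Fintype.card_fin]
      push_cast
      rfl
    rw [e4, Complex.norm_cpow_real, norm_div, Complex.norm_real, Real.norm_of_nonneg hpi.le,
      Real.rpow_neg (by positivity), ← Real.inv_rpow (by positivity)]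
    apply Real.rpow_le_rpow (by positivity) _ (by positivity)
    rw [div_le_iff₀ hbpos]
    calc Real.pi = (2 * |t|)⁻¹ * (2 * Real.pi * |t|) := by
          field_simp
      _ ≤ (2 * |t|)⁻¹ * ‖b‖ := by gcongr
  calc _ ≤ (2 * |t|) ^ (-((m : ℝ) / 2)) * 1 := by gcongr
    _ = _ := mul_one _

variable {H : Type} [NormedAddCommGroup H] [InnerProductSpace ℂ H] [CompleteSpace H]

lemma int_box {Ω F : Type*} [MeasurableSpace Ω] {μ : Measure Ω} [NormedAddCommGroup F] {f : Ω → F}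
    (hf : AEStronglyMeasurable f μ) {S : Set Ω} (hμ : μ S < ⊤) (C : ℝ)
    (hb : ∀ ω, ‖f ω‖ ≤ C) (h0 : ∀ ω, ω ∉ S → f ω = 0) : Integrable f μ := by
  have h1 : IntegrableOn f S μ := IntegrableOn.of_bound hμ hf.restrict C (ae_of_all _ hb)
  rwa [integrableOn_iff_integrable_of_support_subset] at h1
  intro ω hω
  by_contra hc
  exact hω (h0 ω hc)

lemma int_inner_left {Ω : Type*} [MeasurableSpace Ω] {μ : Measure Ω} {f : Ω → H}
    (hf : Integrable f μ) (c : H) : ∫ x, inner ℂ (f x) c ∂μ = inner ℂ (∫ x, f x ∂μ) c := by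
  have h1 := integral_inner (𝕜 := ℂ) hf c
  rw [← inner_conj_symm, ← h1, ← integral_conj]
  apply integral_congr_ae
  refine ae_of_all _ fun x => ?_
  simp only
  rw [inner_conj_symm]

lemma inner_int_int {Ω Ω' : Type*} [MeasurableSpace Ω] [MeasurableSpace Ω'] {μ : Measure Ω}
    {ν : Measure Ω'} [SFinite μ] [SFinite ν] {f : Ω → H} {g : Ω' → H} (hf : Integrable f μ)
    (hg : Integrable g ν) : inner ℂ (∫ x, f x ∂μ) (∫ y, g y ∂ν) =
      ∫ p : Ω × Ω', inner ℂ (f p.1) (g p.2) ∂(μ.prod ν) := by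
  have hi : Integrable (fun p : Ω × Ω' => inner ℂ (f p.1) (g p.2)) (μ.prod ν) := by
    have h1 := hf.norm.mul_prod hg.norm
    refine h1.mono' (hf.1.comp_fst.inner hg.1.comp_snd) (ae_of_all _ fun p => ?_)
    exact norm_inner_le_norm _ _
  rw [integral_prod _ hi, ← int_inner_left hf]
  apply integral_congr_ae
  refine ae_of_all _ fun x => ?_
  simp only
  rw [integral_inner hg]

end Run7.h303.RB
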