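import Mathlib
import Pool.Agent.Run7.h303.RB.S1
set_option autoImplicit false
set_option linter.unusedSectionVars false

/-! The Stein-Tomas estimate for Hilbert space valued functions on the paraboloid: the fields. -/

namespace Run7.h303.RB

open MeasureTheory Set Filter Topology Module
open scoped ENNReal NNReal RealInnerProductSpace
open Pool.Agent.TH277.HT (ch E1 Adm tr planch1 ch_norm ch_cont lint_mul ch_add ch_sum ch_conj ch_enorm)

variable {H : Type} [NormedAddCommGroup H] [InnerProductSpace ℂ H] [CompleteSpace H]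

/-- test fields -/
structure Fld {m : ℕ} (v : VV m → ℝ → H) (A : Set (VV m × ℝ)) (R : ℝ) : Prop where
  meas : StronglyMeasurable fun p : VV m × ℝ => v p.1 p.2
  bd : ∀ x t, ‖v x t‖ ≤ 1
  supp : ∀ x t, (x, t) ∉ A → v x t = 0
  Ameas : MeasurableSet A
  box : ∀ x t, (x, t) ∈ A → ‖x‖ ≤ R ∧ |t| ≤ R

/-- the measure of the time slices -/
noncomputable def sl {m : ℕ} (A : Set (VV m × ℝ)) (t : ℝ) : ℝ≥0∞ := volume {x | (x, t) ∈ A}

lemma sl_meas {m : ℕ} {A : Set (VV m × ℝ)} (hA : MeasurableSet A) : Measurable (sl A) := by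
  unfold sl
  exact measurable_measure_prodMk_right hA

lemma sl_int {m : ℕ} {A : Set (VV m × ℝ)} (hA : MeasurableSet A) :
    ∫⁻ t, sl A t = volume A := by
  rw [Measure.volume_eq_prod, Measure.prod_apply_symm hA]
  rfl

/-- the spatial Fourier transform -/
noncomputable def UU {m : ℕ} (v : VV m → ℝ → H) (t : ℝ) (ξ : VV m) : H :=
  ∫ x, ch (-⟪ξ, x⟫) • v x t

section

variable {m : ℕ} {v : VV m → ℝ → H} {A : Set (VV m × ℝ)} {R : ℝ}

lemma Fld.le_ind (h : Fld v A R) (x : VV m) (t : ℝ) :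
    ‖v x t‖ₑ ≤ ({x | (x, t) ∈ A}).indicator (fun _ => (1 : ℝ≥0∞)) x := by
  by_cases hx : (x, t) ∈ A
  · rw [indicator_of_mem (show x ∈ {x | (x, t) ∈ A} from hx), ← ofReal_norm, ENNReal.ofReal_le_one]
    exact h.bd x t
  · rw [indicator_of_notMem (show x ∉ {x | (x, t) ∈ A} from hx), h.supp x t hx, enorm_zero]

lemma Fld.slm (h : Fld v A R) (t : ℝ) : MeasurableSet {x | (x, t) ∈ A} :=
  h.Ameas.preimage (by fun_prop : Measurable fun x : VV m => ((x, t) : VV m × ℝ))

lemma Fld.L1 (h : Fld v A R) (t : ℝ) : ∫⁻ x, ‖v x t‖ₑ ≤ sl A t := by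
  refine (lintegral_mono fun x => h.le_ind x t).trans ?_
  rw [lintegral_indicator_const (h.slm t), one_mul]
  exact le_rfl

lemma Fld.L2 (h : Fld v A R) (t : ℝ) : ∫⁻ x, ‖v x t‖ₑ ^ 2 ≤ sl A t := by
  have h1 : ∀ x, ‖v x t‖ₑ ^ 2 ≤ ({x | (x, t) ∈ A}).indicator (fun _ => (1 : ℝ≥0∞)) x := by
    intro x
    have h2 := h.le_ind x t
    by_cases hx : (x, t) ∈ A
    · rw [indicator_of_mem (show x ∈ {x | (x, t) ∈ A} from hx)] at h2 ⊢
      calc ‖v x t‖ₑ ^ 2 ≤ 1 ^ 2 := by gcongr
        _ = 1 := one_pow 2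
    · rw [h.supp x t hx, enorm_zero]
      simp
  refine (lintegral_mono h1).trans ?_
  rw [lintegral_indicator_const (h.slm t), one_mul]
  exact le_rfl

lemma Fld.tmeas (h : Fld v A R) (t : ℝ) : StronglyMeasurable fun x => v x t :=
  h.meas.comp_measurable (by fun_prop : Measurable fun x : VV m => ((x, t) : VV m × ℝ))

lemma Fld.int (h : Fld v A R) (t : ℝ) : Integrable fun x => v x t := by
  apply int_box (h.tmeas t).aestronglyMeasurable (S := Metric.closedBall (0 : VV m) R)
    measure_closedBall_lt_top 1 (fun x => h.bd x t)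
  intro x hx
  apply h.supp
  intro hA
  exact hx (mem_closedBall_zero_iff.2 (h.box x t hA).1)

lemma Fld.UU_meas (h : Fld v A R) : StronglyMeasurable fun p : ℝ × VV m => UU v p.1 p.2 := by
  have h1 : StronglyMeasurable (Function.uncurry fun (p : ℝ × VV m) (x : VV m) =>
      ch (-⟪p.2, x⟫) • v x p.1) := by
    refine StronglyMeasurable.smul (f := fun q : (ℝ × VV m) × VV m => ch (-⟪q.1.2, q.2⟫))
      (g := fun q : (ℝ × VV m) × VV m => v q.2 q.1.1) ?_ ?_
    · exact (ch_cont.comp (by fun_prop : Continuous fun q : (ℝ × VV m) × VV m =>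
        -⟪q.1.2, q.2⟫)).stronglyMeasurable
    · exact h.meas.comp_measurable
        (by fun_prop : Measurable fun q : (ℝ × VV m) × VV m => ((q.2, q.1.1) : VV m × ℝ))
  exact h1.integral_prod_right (ν := (volume : Measure (VV m)))

lemma Fld.UU_le (h : Fld v A R) (t : ℝ) (ξ : VV m) :
    ‖UU v t ξ‖ ≤ ((volume : Measure (VV m)) (Metric.closedBall 0 R)).toReal := by
  unfold UU
  have h1 : ∫ x, ch (-⟪ξ, x⟫) • v x t = ∫ x in Metric.closedBall (0 : VV m) R,
      ch (-⟪ξ, x⟫) • v x t := by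
    symm
    apply setIntegral_eq_integral_of_forall_compl_eq_zero
    intro x hx
    rw [h.supp x t, smul_zero]
    intro hA
    exact hx (mem_closedBall_zero_iff.2 (h.box x t hA).1)
  rw [h1]
  calc _ ≤ 1 * ((volume : Measure (VV m)) (Metric.closedBall 0 R)).toReal := by
        apply norm_setIntegral_le_of_norm_le_const measure_closedBall_lt_top
        intro x _
        rw [norm_smul, ch_norm, one_mul]
        exact h.bd x t
    _ = _ := one_mul _

lemma Fld.UU_zero (h : Fld v A R) {t : ℝ} (ht : R < |t|) (ξ : VV m) : UU v t ξ = 0 := by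
  unfold UU
  rw [← integral_zero (VV m) H]
  apply integral_congr_ae
  refine ae_of_all _ fun x => ?_
  simp only
  rw [h.supp x t, smul_zero]
  intro hA
  exact absurd (h.box x t hA).2 (not_le.2 ht)

/-- Plancherel's theorem in space. -/
lemma Fld.UU_planch (h : Fld v A R) (t : ℝ) : ∫⁻ ξ, ‖UU v t ξ‖ₑ ^ 2 ≤ sl A t := by
  have h1 : MemLp (fun x => v x t) 2 := by
    refine ⟨(h.tmeas t).aestronglyMeasurable, ?_⟩
    rw [eLpNorm_lt_top_iff_lintegral_rpow_enorm_lt_top (by norm_num) (by norm_num)]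
    have h2 : ((2 : ℝ≥0∞)).toReal = ((2 : ℕ) : ℝ) := by norm_num
    rw [h2]
    simp only [ENNReal.rpow_natCast]
    refine lt_of_le_of_lt (h.L2 t) ?_
    unfold sl
    refine lt_of_le_of_lt (measure_mono ?_) (measure_closedBall_lt_top (x := (0 : VV m)) (r := R))
    intro x hx
    exact mem_closedBall_zero_iff.2 (h.box x t hx).1
  have h3 := Pool.Agent.TH277.HT.plancherel (fun x => v x t) (h.int t) h1
  refine le_trans (le_of_eq ?_) (h.L2 t)
  rw [← h3]
  apply lintegral_congr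
  intro ξ
  congr 2
  rw [Real.fourier_eq]
  unfold UU
  apply integral_congr_ae
  refine ae_of_all _ fun x => ?_
  simp only
  rw [Circle.smul_def, Real.fourierChar_apply]
  congr 1
  unfold ch
  congr 1
  rw [real_inner_comm]
  push_cast
  ring

/-- the full transform -/
noncomputable def Wf (v : VV m → ℝ → H) (ξ : VV m) : H := ∫ t, ch (-(‖ξ‖ ^ 2 * t)) • UU v t ξ

/-- the pairing of two time slices -/
noncomputable def II (v : VV m → ℝ → H) (t s : ℝ) : ℂ :=
  ∫ ξ, (gw ξ : ℂ) * (ch (‖ξ‖ ^ 2 * (t - s)) * inner ℂ (UU v t ξ) (UU v s ξ))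

end

end Run7.h303.RB
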