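import Mathlib
import Pool.Agent.Run7.h303.RB.S2
set_option autoImplicit false
set_option linter.unusedSectionVars false

/-! The Stein-Tomas estimate for Hilbert space valued functions on the paraboloid: the bounds of the pairing. -/

namespace Run7.h303.RB

open MeasureTheory Set Filter Topology Module
open scoped ENNReal NNReal RealInnerProductSpace
open Pool.Agent.TH277.HT (ch E1 Adm tr planch1 ch_norm ch_cont lint_mul ch_add ch_sum ch_conj ch_enorm)

variable {H : Type} [NormedAddCommGroup H] [InnerProductSpace ℂ H] [CompleteSpace H]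

section

variable {m : ℕ} {v : VV m → ℝ → H} {A : Set (VV m × ℝ)} {R : ℝ}

lemma UU_def (v : VV m → ℝ → H) (t : ℝ) (ξ : VV m) : UU v t ξ = ∫ x, ch (-⟪ξ, x⟫) • v x t := rfl

lemma II_def (v : VV m → ℝ → H) (t s : ℝ) : II v t s =
  ∫ ξ, (gw ξ : ℂ) * (ch (‖ξ‖ ^ 2 * (t - s)) * inner ℂ (UU v t ξ) (UU v s ξ)) := rfl

lemma KK_def (x : VV m) (t : ℝ) : KK m x t =
  ∫ ξ : VV m, (gw ξ : ℂ) * ch (⟪ξ, x⟫ + ‖ξ‖ ^ 2 * t) := rfl

attribute [local irreducible] UU II KK

lemma Fld.UUt_meas (h : Fld v A R) (t : ℝ) : StronglyMeasurable fun ξ : VV m => UU v t ξ :=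
  h.UU_meas.comp_measurable (by fun_prop : Measurable fun ξ : VV m => ((t, ξ) : ℝ × VV m))

lemma Fld.II_one (h : Fld v A R) (t s : ℝ) : ‖II v t s‖ₑ ≤ sl A t + sl A s := by
  rw [II_def]
  refine (enorm_integral_le_lintegral_enorm _).trans ?_
  have hm : Measurable fun ξ : VV m => ‖UU v t ξ‖ₑ ^ 2 := (h.UUt_meas t).enorm.pow_const 2
  calc ∫⁻ ξ, ‖(gw ξ : ℂ) * (ch (‖ξ‖ ^ 2 * (t - s)) * inner ℂ (UU v t ξ) (UU v s ξ))‖ₑ
      ≤ ∫⁻ ξ, (‖UU v t ξ‖ₑ ^ 2 + ‖UU v s ξ‖ₑ ^ 2) := by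
        apply lintegral_mono
        intro ξ
        simp only
        have h1 : ‖(gw ξ : ℂ) * (ch (‖ξ‖ ^ 2 * (t - s)) * inner ℂ (UU v t ξ) (UU v s ξ))‖ ≤
            ‖UU v t ξ‖ ^ 2 + ‖UU v s ξ‖ ^ 2 := by
          rw [norm_mul, norm_mul, ch_norm, one_mul, Complex.norm_real,
            Real.norm_of_nonneg (gw_pos ξ).le]
          calc gw ξ * ‖inner ℂ (UU v t ξ) (UU v s ξ)‖ ≤ 1 * (‖UU v t ξ‖ * ‖UU v s ξ‖) := by
                gcongr
                · exact gw_le ξ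
                · exact norm_inner_le_norm _ _
            _ ≤ ‖UU v t ξ‖ ^ 2 + ‖UU v s ξ‖ ^ 2 := by
                nlinarith [sq_nonneg (‖UU v t ξ‖ - ‖UU v s ξ‖), norm_nonneg (UU v t ξ),
                  norm_nonneg (UU v s ξ), mul_nonneg (norm_nonneg (UU v t ξ))
                  (norm_nonneg (UU v s ξ))]
        rw [← ofReal_norm]
        refine (ENNReal.ofReal_le_ofReal h1).trans (le_of_eq ?_)
        rw [ENNReal.ofReal_add (by positivity) (by positivity), ENNReal.ofReal_pow (norm_nonneg _),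
          ENNReal.ofReal_pow (norm_nonneg _), ofReal_norm, ofReal_norm]
    _ = (∫⁻ ξ, ‖UU v t ξ‖ₑ ^ 2) + ∫⁻ ξ, ‖UU v s ξ‖ₑ ^ 2 :=
        lintegral_add_left hm _
    _ ≤ _ := add_le_add (h.UU_planch t) (h.UU_planch s)

lemma Fld.ph_int (h : Fld v A R) (t : ℝ) (ξ : VV m) : Integrable fun x => ch (-⟪ξ, x⟫) • v x t := by
  refine (h.int t).norm.mono' ?_ (ae_of_all _ fun x => ?_)
  · exact ((ch_cont.comp (by fun_prop : Continuous fun x : VV m =>
      -⟪ξ, x⟫)).stronglyMeasurable.smul (h.tmeas t)).aestronglyMeasurable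
  · rw [norm_smul, ch_norm, one_mul]

/-- the pairing as a double integral -/
lemma Fld.pair (h : Fld v A R) (t s : ℝ) (ξ : VV m) :
    (gw ξ : ℂ) * (ch (‖ξ‖ ^ 2 * (t - s)) * inner ℂ (UU v t ξ) (UU v s ξ)) =
      ∫ p : VV m × VV m, inner ℂ (v p.1 t) (v p.2 s) *
        ((gw ξ : ℂ) * ch (⟪ξ, p.1 - p.2⟫ + ‖ξ‖ ^ 2 * (t - s))) := by
  rw [UU_def, UU_def, inner_int_int (h.ph_int t ξ) (h.ph_int s ξ), ← integral_const_mul,
    ← integral_const_mul, ← Measure.volume_eq_prod]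
  apply integral_congr_ae
  refine ae_of_all _ fun p => ?_
  simp only
  have e1 : ch (⟪ξ, p.1 - p.2⟫ + ‖ξ‖ ^ 2 * (t - s)) =
      ch (‖ξ‖ ^ 2 * (t - s)) * (ch ⟪ξ, p.1⟫ * ch (-⟪ξ, p.2⟫)) := by
    rw [← ch_add, ← ch_add, inner_sub_right]
    congr 1
    ring
  rw [inner_smul_left, inner_smul_right, ch_conj, neg_neg, e1]
  ring

lemma Fld.in_meas (h : Fld v A R) (t s : ℝ) :
    StronglyMeasurable fun p : VV m × VV m => inner ℂ (v p.1 t) (v p.2 s) :=
  ((h.tmeas t).comp_measurable measurable_fst).inner ((h.tmeas s).comp_measurable measurable_snd)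

lemma Fld.swap_int (h : Fld v A R) (t s : ℝ) : Integrable (Function.uncurry
    fun (ξ : VV m) (p : VV m × VV m) => inner ℂ (v p.1 t) (v p.2 s) *
      ((gw ξ : ℂ) * ch (⟪ξ, p.1 - p.2⟫ + ‖ξ‖ ^ 2 * (t - s))))
      ((volume : Measure (VV m)).prod (volume : Measure (VV m × VV m))) := by
  have h2 : Integrable (fun p : VV m × VV m => ‖v p.1 t‖ * ‖v p.2 s‖)
      (volume : Measure (VV m × VV m)) := by
    rw [Measure.volume_eq_prod]
    exact (h.int t).norm.mul_prod (h.int s).norm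
  have h3 := (gw_int m).mul_prod h2
  refine h3.mono' ?_ (ae_of_all _ fun q => ?_)
  · apply StronglyMeasurable.aestronglyMeasurable
    refine StronglyMeasurable.mul (f := fun q : VV m × (VV m × VV m) =>
      inner ℂ (v q.2.1 t) (v q.2.2 s)) (g := fun q : VV m × (VV m × VV m) =>
        (gw q.1 : ℂ) * ch (⟪q.1, q.2.1 - q.2.2⟫ + ‖q.1‖ ^ 2 * (t - s))) ?_ ?_
    · exact (h.in_meas t s).comp_measurable measurable_snd
    · apply Continuous.stronglyMeasurable
      apply Continuous.mul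
      · exact Complex.continuous_ofReal.comp (gw_cont.comp continuous_fst)
      · exact ch_cont.comp (by fun_prop)
  · simp only [Function.uncurry]
    rw [norm_mul, norm_mul, ch_norm, mul_one, Complex.norm_real,
      Real.norm_of_nonneg (gw_pos _).le, mul_comm]
    gcongr
    · exact (gw_pos _).le
    · exact norm_inner_le_norm _ _

lemma Fld.II_eq (h : Fld v A R) (t s : ℝ) : II v t s =
    ∫ p : VV m × VV m, inner ℂ (v p.1 t) (v p.2 s) * KK m (p.1 - p.2) (t - s) := by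
  rw [II_def]
  simp only [h.pair]
  rw [integral_integral_swap (h.swap_int t s)]
  apply integral_congr_ae
  refine ae_of_all _ fun p => ?_
  simp only
  rw [integral_const_mul, KK_def]

lemma Fld.II_two (h : Fld v A R) {t s : ℝ} (hts : t ≠ s) :
    ‖II v t s‖ₑ ≤ ENNReal.ofReal ((2 * |t - s|) ^ (-((m : ℝ) / 2))) * (sl A t * sl A s) := by
  have hts' : t - s ≠ 0 := sub_ne_zero.2 hts
  rw [h.II_eq]
  refine (enorm_integral_le_lintegral_enorm _).trans ?_
  have hm : ∀ t, Measurable fun x : VV m => ‖v x t‖ₑ := fun t => (h.tmeas t).enorm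
  calc ∫⁻ p : VV m × VV m, ‖inner ℂ (v p.1 t) (v p.2 s) * KK m (p.1 - p.2) (t - s)‖ₑ
      ≤ ∫⁻ p : VV m × VV m, ENNReal.ofReal ((2 * |t - s|) ^ (-((m : ℝ) / 2))) *
          (‖v p.1 t‖ₑ * ‖v p.2 s‖ₑ) := by
        apply lintegral_mono
        intro p
        simp only
        rw [enorm_mul, mul_comm]
        gcongr
        · rw [← ofReal_norm]
          exact ENNReal.ofReal_le_ofReal (KK_le m _ hts')
        · rw [← ofReal_norm, ← ofReal_norm, ← ofReal_norm, ← ENNReal.ofReal_mul (norm_nonneg _)]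
          exact ENNReal.ofReal_le_ofReal (norm_inner_le_norm _ _)
    _ = ENNReal.ofReal ((2 * |t - s|) ^ (-((m : ℝ) / 2))) *
          ((∫⁻ x, ‖v x t‖ₑ) * ∫⁻ x, ‖v x s‖ₑ) := by
        rw [lintegral_const_mul' _ _ ENNReal.ofReal_ne_top, Measure.volume_eq_prod,
          lintegral_prod_mul (hm t).aemeasurable (hm s).aemeasurable]
    _ ≤ _ := by
        gcongr
        · exact h.L1 t
        · exact h.L1 s

end

end Run7.h303.RB
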