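import Mathlib
import Pool.Agent.Run7.h303.RB.S3
set_option autoImplicit false
set_option linter.unusedSectionVars false

/-! The Stein-Tomas estimate for Hilbert space valued functions on the paraboloid: the `L²` bound
of the transform of a field. -/

namespace Run7.h303.RB

open MeasureTheory Set Filter Topology Module
open scoped ENNReal NNReal RealInnerProductSpace
open Pool.Agent.TH277.HT (ch E1 Adm tr planch1 ch_norm ch_cont lint_mul ch_add ch_sum ch_conj ch_enorm)

variable {H : Type} [NormedAddCommGroup H] [InnerProductSpace ℂ H] [CompleteSpace H]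

section

variable {m : ℕ} {v : VV m → ℝ → H} {A : Set (VV m × ℝ)} {R : ℝ}

attribute [local irreducible] UU II KK

lemma Wf_def (v : VV m → ℝ → H) (ξ : VV m) : Wf v ξ = ∫ t, ch (-(‖ξ‖ ^ 2 * t)) • UU v t ξ := rfl

attribute [local irreducible] Wf

lemma Fld.UUx_meas (h : Fld v A R) (ξ : VV m) : StronglyMeasurable fun t : ℝ => UU v t ξ :=
  h.UU_meas.comp_measurable (by fun_prop : Measurable fun t : ℝ => ((t, ξ) : ℝ × VV m))

lemma Fld.ut_int (h : Fld v A R) (ξ : VV m) :
    Integrable fun t : ℝ => ch (-(‖ξ‖ ^ 2 * t)) • UU v t ξ := by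
  apply int_box (S := Icc (-R) R) _ _ ((volume : Measure (VV m)) (Metric.closedBall 0 R)).toReal
  · intro t
    rw [norm_smul, ch_norm, one_mul]
    exact h.UU_le t ξ
  · intro t ht
    rw [h.UU_zero _ ξ, smul_zero]
    by_contra hc
    exact ht (abs_le.1 (not_lt.1 hc))
  · exact ((ch_cont.comp (by fun_prop : Continuous fun t : ℝ =>
      -(‖ξ‖ ^ 2 * t))).stronglyMeasurable.smul (h.UUx_meas ξ)).aestronglyMeasurable
  · rw [Real.volume_Icc]
    exact ENNReal.ofReal_lt_top

lemma Fld.Wf_meas (h : Fld v A R) : StronglyMeasurable fun ξ : VV m => Wf v ξ := by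
  have h1 : StronglyMeasurable (Function.uncurry fun (ξ : VV m) (t : ℝ) =>
      ch (-(‖ξ‖ ^ 2 * t)) • UU v t ξ) := by
    refine StronglyMeasurable.smul (f := fun q : VV m × ℝ => ch (-(‖q.1‖ ^ 2 * q.2)))
      (g := fun q : VV m × ℝ => UU v q.2 q.1) ?_ ?_
    · exact (ch_cont.comp (by fun_prop : Continuous fun q : VV m × ℝ =>
        -(‖q.1‖ ^ 2 * q.2))).stronglyMeasurable
    · exact h.UU_meas.comp_measurable
        (by fun_prop : Measurable fun q : VV m × ℝ => ((q.2, q.1) : ℝ × VV m))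
  have h2 := h1.integral_prod_right (ν := (volume : Measure ℝ))
  have h3 : (fun ξ : VV m => Wf v ξ) = fun ξ => ∫ t, ch (-(‖ξ‖ ^ 2 * t)) • UU v t ξ :=
    funext fun ξ => Wf_def v ξ
  rw [h3]
  exact h2

lemma Fld.Wf_le (h : Fld v A R) (hR : 0 ≤ R) (ξ : VV m) :
    ‖Wf v ξ‖ ≤ ((volume : Measure (VV m)) (Metric.closedBall 0 R)).toReal * (2 * R) := by
  rw [Wf_def]
  have h1 : ∫ t, ch (-(‖ξ‖ ^ 2 * t)) • UU v t ξ = ∫ t in Icc (-R) R,
      ch (-(‖ξ‖ ^ 2 * t)) • UU v t ξ := by
    symm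
    apply setIntegral_eq_integral_of_forall_compl_eq_zero
    intro t ht
    rw [h.UU_zero _ ξ, smul_zero]
    by_contra hc
    exact ht (abs_le.1 (not_lt.1 hc))
  rw [h1]
  refine (norm_setIntegral_le_of_norm_le_const
    (C := ((volume : Measure (VV m)) (Metric.closedBall 0 R)).toReal) ?_ ?_).trans ?_
  · rw [Real.volume_Icc]
    exact ENNReal.ofReal_lt_top
  · intro t _
    rw [norm_smul, ch_norm, one_mul]
    exact h.UU_le t ξ
  · apply le_of_eq
    congr 1
    rw [measureReal_def, Real.volume_Icc, ENNReal.toReal_ofReal (by linarith)]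
    ring

lemma Fld.Wf_sq (h : Fld v A R) (ξ : VV m) : (gw ξ : ℂ) * ((‖Wf v ξ‖ ^ 2 : ℝ) : ℂ) =
    ∫ p : ℝ × ℝ, (gw ξ : ℂ) * (ch (‖ξ‖ ^ 2 * (p.1 - p.2)) * inner ℂ (UU v p.1 ξ) (UU v p.2 ξ)) := by
  rw [integral_const_mul]
  congr 1
  have h2 : ((‖Wf v ξ‖ ^ 2 : ℝ) : ℂ) = inner ℂ (Wf v ξ) (Wf v ξ) := by
    rw [inner_self_eq_norm_sq_to_K]
    norm_cast
  rw [h2, Wf_def, inner_int_int (h.ut_int ξ) (h.ut_int ξ), ← Measure.volume_eq_prod]
  apply integral_congr_ae
  refine ae_of_all _ fun p => ?_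
  simp only
  have e1 : ch (‖ξ‖ ^ 2 * (p.1 - p.2)) = ch (‖ξ‖ ^ 2 * p.1) * ch (-(‖ξ‖ ^ 2 * p.2)) := by
    rw [← ch_add]
    congr 1
    ring
  rw [inner_smul_left, inner_smul_right, ch_conj, neg_neg, e1]
  ring

lemma Fld.F_int (h : Fld v A R) : Integrable (Function.uncurry fun (ξ : VV m) (p : ℝ × ℝ) =>
    (gw ξ : ℂ) * (ch (‖ξ‖ ^ 2 * (p.1 - p.2)) * inner ℂ (UU v p.1 ξ) (UU v p.2 ξ)))
      ((volume : Measure (VV m)).prod (volume : Measure (ℝ × ℝ))) := by
  set V := ((volume : Measure (VV m)) (Metric.closedBall 0 R)).toReal with hV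
  set S : Set (ℝ × ℝ) := Icc (-R) R ×ˢ Icc (-R) R with hS
  have hSm : MeasurableSet S := measurableSet_Icc.prod measurableSet_Icc
  have h2 : Integrable (S.indicator fun _ => V * V) (volume : Measure (ℝ × ℝ)) := by
    rw [integrable_indicator_iff hSm]
    apply integrableOn_const
    · rw [hS, Measure.volume_eq_prod, Measure.prod_prod, Real.volume_Icc]
      exact (ENNReal.mul_lt_top ENNReal.ofReal_lt_top ENNReal.ofReal_lt_top).ne
    · exact enorm_ne_top
  have h3 := (gw_int m).mul_prod h2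
  refine h3.mono' ?_ (ae_of_all _ fun q => ?_)
  · apply StronglyMeasurable.aestronglyMeasurable
    refine StronglyMeasurable.mul (f := fun q : VV m × (ℝ × ℝ) => (gw q.1 : ℂ))
      (g := fun q : VV m × (ℝ × ℝ) => ch (‖q.1‖ ^ 2 * (q.2.1 - q.2.2)) *
        inner ℂ (UU v q.2.1 q.1) (UU v q.2.2 q.1)) ?_ ?_
    · exact (Complex.continuous_ofReal.comp (gw_cont.comp continuous_fst)).stronglyMeasurable
    refine StronglyMeasurable.mul (f := fun q : VV m × (ℝ × ℝ) =>
      ch (‖q.1‖ ^ 2 * (q.2.1 - q.2.2)))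
      (g := fun q : VV m × (ℝ × ℝ) => inner ℂ (UU v q.2.1 q.1) (UU v q.2.2 q.1)) ?_ ?_
    · exact (ch_cont.comp (by fun_prop)).stronglyMeasurable
    · exact (h.UU_meas.comp_measurable
        (by fun_prop : Measurable fun q : VV m × (ℝ × ℝ) => ((q.2.1, q.1) : ℝ × VV m))).inner
        (h.UU_meas.comp_measurable
        (by fun_prop : Measurable fun q : VV m × (ℝ × ℝ) => ((q.2.2, q.1) : ℝ × VV m)))
  · simp only [Function.uncurry]
    rw [norm_mul, norm_mul, ch_norm, one_mul, Complex.norm_real,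
      Real.norm_of_nonneg (gw_pos _).le]
    apply mul_le_mul_of_nonneg_left _ (gw_pos _).le
    by_cases hq : q.2 ∈ S
    · rw [indicator_of_mem hq]
      refine (norm_inner_le_norm _ _).trans ?_
      exact mul_le_mul (h.UU_le _ _) (h.UU_le _ _) (norm_nonneg _) ENNReal.toReal_nonneg
    · rw [indicator_of_notMem hq]
      have h4 : R < |q.2.1| ∨ R < |q.2.2| := by
        by_contra hc
        push Not at hc
        exact hq ⟨abs_le.1 hc.1, abs_le.1 hc.2⟩
      rcases h4 with h4 | h4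
      · rw [h.UU_zero h4, inner_zero_left, norm_zero]
      · rw [h.UU_zero h4, inner_zero_right, norm_zero]

lemma Fld.Wf_int (h : Fld v A R) (hR : 0 ≤ R) :
    ∫⁻ ξ : VV m, ENNReal.ofReal (gw ξ) * ‖Wf v ξ‖ₑ ^ 2 ≤ ∫⁻ p : ℝ × ℝ, ‖II v p.1 p.2‖ₑ := by
  set V := ((volume : Measure (VV m)) (Metric.closedBall 0 R)).toReal * (2 * R) with hV
  have hi : Integrable fun ξ : VV m => gw ξ * ‖Wf v ξ‖ ^ 2 := by
    refine ((gw_int m).mul_const (V ^ 2)).mono' ?_ (ae_of_all _ fun ξ => ?_)
    · exact (gw_cont.stronglyMeasurable.mul (h.Wf_meas.norm.pow 2)).aestronglyMeasurable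
    · rw [norm_mul, Real.norm_of_nonneg (gw_pos ξ).le, Real.norm_of_nonneg (by positivity)]
      apply mul_le_mul_of_nonneg_left _ (gw_pos ξ).le
      gcongr
      exact h.Wf_le hR ξ
  have h1 : ∫⁻ ξ : VV m, ENNReal.ofReal (gw ξ) * ‖Wf v ξ‖ₑ ^ 2 =
      ENNReal.ofReal (∫ ξ : VV m, gw ξ * ‖Wf v ξ‖ ^ 2) := by
    rw [ofReal_integral_eq_lintegral_ofReal hi
      (ae_of_all _ fun ξ => mul_nonneg (gw_pos ξ).le (by positivity))]
    apply lintegral_congr
    intro ξ
    rw [ENNReal.ofReal_mul (gw_pos ξ).le, ENNReal.ofReal_pow (norm_nonneg _), ofReal_norm]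
  have h2 : ((∫ ξ : VV m, gw ξ * ‖Wf v ξ‖ ^ 2 : ℝ) : ℂ) = ∫ p : ℝ × ℝ, II v p.1 p.2 := by
    rw [← integral_complex_ofReal]
    have e1 : ∀ ξ : VV m, ((gw ξ * ‖Wf v ξ‖ ^ 2 : ℝ) : ℂ) =
        ∫ p : ℝ × ℝ, (gw ξ : ℂ) * (ch (‖ξ‖ ^ 2 * (p.1 - p.2)) *
          inner ℂ (UU v p.1 ξ) (UU v p.2 ξ)) := by
      intro ξ
      rw [← h.Wf_sq ξ]
      push_cast
      rfl
    simp only [e1]
    rw [integral_integral_swap h.F_int]
    apply integral_congr_ae
    refine ae_of_all _ fun p => ?_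
    simp only
    rw [II_def]
  have h3 : 0 ≤ ∫ ξ : VV m, gw ξ * ‖Wf v ξ‖ ^ 2 :=
    integral_nonneg fun ξ => mul_nonneg (gw_pos ξ).le (by positivity)
  rw [h1]
  calc ENNReal.ofReal (∫ ξ : VV m, gw ξ * ‖Wf v ξ‖ ^ 2)
      = ‖((∫ ξ : VV m, gw ξ * ‖Wf v ξ‖ ^ 2 : ℝ) : ℂ)‖ₑ := by
        rw [← ofReal_norm, Complex.norm_real, Real.norm_of_nonneg h3]
    _ = ‖∫ p : ℝ × ℝ, II v p.1 p.2‖ₑ := by rw [h2]
    _ ≤ _ := enorm_integral_le_lintegral_enorm _

/-- the near and the far parts -/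
lemma Fld.near_far (h : Fld v A R) {T : ℝ} (hT : 0 < T) :
    ∫⁻ p : ℝ × ℝ, ‖II v p.1 p.2‖ₑ ≤
      ENNReal.ofReal (4 * T) * volume A + ENNReal.ofReal ((2 * T) ^ (-((m : ℝ) / 2))) *
        (volume A * volume A) := by
  set S : Set (ℝ × ℝ) := {p | |p.1 - p.2| ≤ T} with hS
  have hSm : MeasurableSet S := measurableSet_le (by fun_prop) measurable_const
  have hsl := sl_meas h.Ameas
  have h1 : ∀ p : ℝ × ℝ, ‖II v p.1 p.2‖ₑ ≤
      (S.indicator (fun p => sl A p.1) p + S.indicator (fun p => sl A p.2) p) +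
        ENNReal.ofReal ((2 * T) ^ (-((m : ℝ) / 2))) * (sl A p.1 * sl A p.2) := by
    intro p
    by_cases hp : p ∈ S
    · rw [indicator_of_mem hp, indicator_of_mem hp]
      exact (h.II_one p.1 p.2).trans le_self_add
    · have hp' : T < |p.1 - p.2| := not_le.1 hp
      have hne : p.1 ≠ p.2 := by
        intro he
        rw [he, sub_self, abs_zero] at hp'
        linarith
      refine (h.II_two hne).trans (le_trans ?_ le_add_self)
      gcongr ENNReal.ofReal ?_ * _
      apply Real.rpow_le_rpow_of_nonpos (by positivity) (by linarith)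
      have : (0 : ℝ) ≤ m := Nat.cast_nonneg m
      linarith
  have hm1 : Measurable fun p : ℝ × ℝ => S.indicator (fun p => sl A p.1) p :=
    (hsl.comp measurable_fst).indicator hSm
  have hm2 : Measurable fun p : ℝ × ℝ => S.indicator (fun p => sl A p.2) p :=
    (hsl.comp measurable_snd).indicator hSm
  have hvol : ∀ t : ℝ, volume (Icc (t - T) (t + T)) = ENNReal.ofReal (2 * T) := by
    intro t
    rw [Real.volume_Icc]
    congr 1
    ring
  have e1 : ∫⁻ p : ℝ × ℝ, S.indicator (fun p => sl A p.1) p = ENNReal.ofReal (2 * T) * volume A := by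
    rw [Measure.volume_eq_prod, lintegral_prod _ hm1.aemeasurable]
    have e2 : ∀ t : ℝ, ∫⁻ s : ℝ, S.indicator (fun p : ℝ × ℝ => sl A p.1) (t, s) =
        sl A t * ENNReal.ofReal (2 * T) := by
      intro t
      have e3 : ∀ s : ℝ, S.indicator (fun p : ℝ × ℝ => sl A p.1) (t, s) =
          (Icc (t - T) (t + T)).indicator (fun _ => sl A t) s := by
        intro s
        by_cases hs : s ∈ Icc (t - T) (t + T)
        · rw [indicator_of_mem hs, indicator_of_mem]
          show |t - s| ≤ T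
          rw [abs_le]
          constructor <;> linarith [hs.1, hs.2]
        · rw [indicator_of_notMem hs, indicator_of_notMem]
          intro hc
          apply hs
          have hc' : |t - s| ≤ T := hc
          rw [abs_le] at hc'
          constructor <;> linarith [hc'.1, hc'.2]
      simp only [e3]
      rw [lintegral_indicator_const measurableSet_Icc, hvol]
    simp only [e2]
    rw [lintegral_mul_const _ hsl, sl_int h.Ameas, mul_comm]
  have e1' : ∫⁻ p : ℝ × ℝ, S.indicator (fun p => sl A p.2) p = ENNReal.ofReal (2 * T) * volume A := by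
    rw [Measure.volume_eq_prod, lintegral_prod_symm _ hm2.aemeasurable]
    have e2 : ∀ t : ℝ, ∫⁻ s : ℝ, S.indicator (fun p : ℝ × ℝ => sl A p.2) (s, t) =
        sl A t * ENNReal.ofReal (2 * T) := by
      intro t
      have e3 : ∀ s : ℝ, S.indicator (fun p : ℝ × ℝ => sl A p.2) (s, t) =
          (Icc (t - T) (t + T)).indicator (fun _ => sl A t) s := by
        intro s
        by_cases hs : s ∈ Icc (t - T) (t + T)
        · rw [indicator_of_mem hs, indicator_of_mem]
          show |s - t| ≤ T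
          rw [abs_le]
          constructor <;> linarith [hs.1, hs.2]
        · rw [indicator_of_notMem hs, indicator_of_notMem]
          intro hc
          apply hs
          have hc' : |s - t| ≤ T := hc
          rw [abs_le] at hc'
          constructor <;> linarith [hc'.1, hc'.2]
      simp only [e3]
      rw [lintegral_indicator_const measurableSet_Icc, hvol]
    simp only [e2]
    rw [lintegral_mul_const _ hsl, sl_int h.Ameas, mul_comm]
  have hm12 : Measurable fun p : ℝ × ℝ =>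
      S.indicator (fun p => sl A p.1) p + S.indicator (fun p => sl A p.2) p := hm1.add hm2
  refine (lintegral_mono h1).trans ?_
  rw [lintegral_add_left hm12, lintegral_add_left hm1, e1, e1',
    lintegral_const_mul' _ _ ENNReal.ofReal_ne_top]
  gcongr
  · rw [← add_mul, ← ENNReal.ofReal_add (by positivity) (by positivity)]
    gcongr
    linarith
  · rw [Measure.volume_eq_prod, lintegral_prod_mul hsl.aemeasurable hsl.aemeasurable,
      sl_int h.Ameas, Measure.volume_eq_prod]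

end

end Run7.h303.RB
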