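import Mathlib
import Pool.Agent.Run7.h303.RB.S4
set_option autoImplicit false
set_option linter.unusedSectionVars false

/-! The extension operator on arbitrary bounded functions of a block of coordinates. -/

namespace Run7.h303.RB

open MeasureTheory Set Filter Topology Module
open scoped ENNReal NNReal RealInnerProductSpace
open Pool.Agent.TH277.HT (ch E1 Adm tr planch1 ch_norm ch_cont lint_mul ch_add ch_sum ch_conj ch_enorm)

variable {H : Type} [NormedAddCommGroup H] [InnerProductSpace ℂ H] [CompleteSpace H]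

/-- bounded functions supported in a ball -/
structure Rg {m : ℕ} (g : VV m → H) : Prop where
  meas : StronglyMeasurable g
  bd : ∀ η, ‖g η‖ ≤ 1
  supp : ∀ η, (m : ℝ) < ‖η‖ ^ 2 → g η = 0

/-- the ball -/
def ball2 (m : ℕ) : Set (VV m) := Metric.closedBall 0 (√m)

lemma mem_ball2 {m : ℕ} {η : VV m} : η ∈ ball2 m ↔ ‖η‖ ^ 2 ≤ m := by
  unfold ball2
  rw [mem_closedBall_zero_iff]
  constructor
  · intro h
    calc ‖η‖ ^ 2 ≤ (√(m : ℝ)) ^ 2 := by gcongr
      _ = (m : ℝ) := Real.sq_sqrt (Nat.cast_nonneg m)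
  · intro h
    exact Real.le_sqrt_of_sq_le h

lemma ball2_meas (m : ℕ) : MeasurableSet (ball2 m) := measurableSet_closedBall

lemma ball2_lt (m : ℕ) : (volume : Measure (VV m)) (ball2 m) < ⊤ := measure_closedBall_lt_top

/-- the volume of the ball -/
noncomputable def bv (m : ℕ) : ℝ := ((volume : Measure (VV m)) (ball2 m)).toReal

lemma bv_eq (m : ℕ) : ENNReal.ofReal (bv m) = (volume : Measure (VV m)) (ball2 m) := by
  unfold bv
  exact ENNReal.ofReal_toReal (ball2_lt m).ne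

section

variable {m : ℕ} {g : VV m → H}

lemma Rg.zero (hg : Rg g) {η : VV m} (h : η ∉ ball2 m) : g η = 0 := by
  apply hg.supp
  by_contra hc
  exact h (mem_ball2.2 (not_lt.1 hc))

lemma Rg.int (hg : Rg g) : Integrable g :=
  int_box hg.meas.aestronglyMeasurable (ball2_lt m) 1 hg.bd fun _ h => hg.zero h

lemma Rg.le_ind (hg : Rg g) (η : VV m) :
    ‖g η‖ₑ ≤ (ball2 m).indicator (fun _ => (1 : ℝ≥0∞)) η := by
  by_cases h : η ∈ ball2 m
  · rw [indicator_of_mem h, ← ofReal_norm, ENNReal.ofReal_le_one]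
    exact hg.bd η
  · rw [indicator_of_notMem h, hg.zero h, enorm_zero]

lemma Rg.L2 (hg : Rg g) : ∫⁻ η, ‖g η‖ₑ ^ 2 ≤ ENNReal.ofReal (bv m) := by
  have h1 : ∀ x, ‖g x‖ₑ ^ 2 ≤ (ball2 m).indicator (fun _ => (1 : ℝ≥0∞)) x := by
    intro x
    have h2 := hg.le_ind x
    by_cases hx : x ∈ ball2 m
    · rw [indicator_of_mem hx] at h2 ⊢
      calc ‖g x‖ₑ ^ 2 ≤ 1 ^ 2 := by gcongr
        _ = 1 := one_pow 2
    · rw [hg.zero hx, enorm_zero]
      simp
  refine (lintegral_mono h1).trans ?_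
  rw [lintegral_indicator_const (ball2_meas m), one_mul, bv_eq]

lemma EM_meas' (hg : StronglyMeasurable g) :
    StronglyMeasurable fun p : VV m × ℝ => EM g p.1 p.2 := by
  have h1 : StronglyMeasurable (Function.uncurry fun (p : VV m × ℝ) (η : VV m) =>
      ch (⟪η, p.1⟫ + ‖η‖ ^ 2 * p.2) • g η) := by
    refine StronglyMeasurable.smul (f := fun q : (VV m × ℝ) × VV m =>
      ch (⟪q.2, q.1.1⟫ + ‖q.2‖ ^ 2 * q.1.2)) (g := fun q : (VV m × ℝ) × VV m => g q.2) ?_ ?_
    · exact (ch_cont.comp (by fun_prop : Continuous fun q : (VV m × ℝ) × VV m =>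
        ⟪q.2, q.1.1⟫ + ‖q.2‖ ^ 2 * q.1.2)).stronglyMeasurable
    · exact hg.comp_measurable measurable_snd
  exact h1.integral_prod_right (ν := (volume : Measure (VV m)))

lemma EM_le (hg : Rg g) (x : VV m) (t : ℝ) : ‖EM g x t‖ ≤ bv m := by
  unfold EM
  have h1 : ∫ η, ch (⟪η, x⟫ + ‖η‖ ^ 2 * t) • g η = ∫ η in ball2 m,
      ch (⟪η, x⟫ + ‖η‖ ^ 2 * t) • g η := by
    symm
    apply setIntegral_eq_integral_of_forall_compl_eq_zero
    intro η hη
    rw [hg.zero hη, smul_zero]
  rw [h1]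
  calc _ ≤ 1 * ((volume : Measure (VV m)) (ball2 m)).toReal := by
        apply norm_setIntegral_le_of_norm_le_const (ball2_lt m)
        intro x _
        rw [norm_smul, ch_norm, one_mul]
        exact hg.bd _
    _ = _ := one_mul _

/-- Plancherel's theorem in space for the extension operator. -/
lemma EM_planch (hg : Rg g) (t : ℝ) : ∫⁻ x, ‖EM g x t‖ₑ ^ 2 ≤ ENNReal.ofReal (bv m) := by
  set φ : VV m → H := fun η => ch (‖η‖ ^ 2 * t) • g η with hφ
  have hφm : StronglyMeasurable φ :=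
    (ch_cont.comp (by fun_prop : Continuous fun η : VV m => ‖η‖ ^ 2 * t)).stronglyMeasurable.smul
      hg.meas
  have hφn : ∀ η, ‖φ η‖ = ‖g η‖ := by
    intro η
    simp only [hφ]
    rw [norm_smul, ch_norm, one_mul]
  have hφe : ∀ η, ‖φ η‖ₑ = ‖g η‖ₑ := by
    intro η
    rw [← ofReal_norm, hφn, ofReal_norm]
  have hφi : Integrable φ := hg.int.norm.mono' hφm.aestronglyMeasurable
    (ae_of_all _ fun η => (hφn η).le)
  have hφ2 : MemLp φ 2 := by
    refine ⟨hφm.aestronglyMeasurable, ?_⟩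
    rw [eLpNorm_lt_top_iff_lintegral_rpow_enorm_lt_top (by norm_num) (by norm_num)]
    have h2 : ((2 : ℝ≥0∞)).toReal = ((2 : ℕ) : ℝ) := by norm_num
    rw [h2]
    simp only [ENNReal.rpow_natCast, hφe]
    exact lt_of_le_of_lt hg.L2 ENNReal.ofReal_lt_top
  have h3 := Pool.Agent.TH277.HT.plancherel φ hφi hφ2
  simp only [hφe] at h3
  refine le_trans (le_of_eq ?_) hg.L2
  rw [← h3, ← lintegral_neg_eq_self (μ := (volume : Measure (VV m)))]
  apply lintegral_congr
  intro ξ
  congr 2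
  rw [Real.fourier_eq]
  unfold EM
  apply integral_congr_ae
  refine ae_of_all _ fun x => ?_
  simp only [hφ]
  rw [Circle.smul_def, Real.fourierChar_apply, smul_smul]
  congr 1
  rw [ch_add]
  congr 1
  unfold ch
  congr 1
  rw [inner_neg_right]
  push_cast
  ring

end

end Run7.h303.RB
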