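import Mathlib
import Pool.Agent.Run7.h303.RB.S5
set_option autoImplicit false
set_option linter.unusedSectionVars false

/-! The Stein-Tomas estimate for Hilbert space valued functions on the paraboloid: duality and the
level sets. -/

namespace Run7.h303.RB

open MeasureTheory Set Filter Topology Module
open scoped ENNReal NNReal RealInnerProductSpace
open Pool.Agent.TH277.HT (ch E1 Adm tr planch1 ch_norm ch_cont lint_mul ch_add ch_sum ch_conj ch_enorm)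

variable {H : Type} [NormedAddCommGroup H] [InnerProductSpace ℂ H] [CompleteSpace H]

section

variable {m : ℕ} {v : VV m → ℝ → H} {A : Set (VV m × ℝ)} {R : ℝ} {g : VV m → H}

lemma EM_def (g : VV m → H) (x : VV m) (t : ℝ) :
    EM g x t = ∫ η, ch (⟪η, x⟫ + ‖η‖ ^ 2 * t) • g η := rfl

attribute [local irreducible] UU II KK Wf EM

lemma Fld.int2 (h : Fld v A R) : Integrable fun p : VV m × ℝ => v p.1 p.2 := by
  have hfin : (volume : Measure (VV m × ℝ)) (Metric.closedBall (0 : VV m) R ×ˢ Icc (-R) R) < ⊤ := by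
    rw [Measure.volume_eq_prod, Measure.prod_prod, Real.volume_Icc]
    exact ENNReal.mul_lt_top measure_closedBall_lt_top ENNReal.ofReal_lt_top
  apply int_box h.meas.aestronglyMeasurable hfin 1 (fun p => h.bd p.1 p.2)
  intro p hp
  apply h.supp
  intro hA
  have h1 := h.box p.1 p.2 hA
  exact hp ⟨mem_closedBall_zero_iff.2 h1.1, abs_le.1 h1.2⟩

lemma Fld.A_lt (h : Fld v A R) : volume A < ⊤ := by
  have hfin : (volume : Measure (VV m × ℝ)) (Metric.closedBall (0 : VV m) R ×ˢ Icc (-R) R) < ⊤ := by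
    rw [Measure.volume_eq_prod, Measure.prod_prod, Real.volume_Icc]
    exact ENNReal.mul_lt_top measure_closedBall_lt_top ENNReal.ofReal_lt_top
  refine lt_of_le_of_lt (measure_mono ?_) hfin
  intro p hp
  have h1 := h.box p.1 p.2 hp
  exact ⟨mem_closedBall_zero_iff.2 h1.1, abs_le.1 h1.2⟩

lemma Fld.ph_meas (h : Fld v A R) (ξ : VV m) : StronglyMeasurable fun p : VV m × ℝ =>
    ch (-(⟪ξ, p.1⟫ + ‖ξ‖ ^ 2 * p.2)) • v p.1 p.2 :=
  (ch_cont.comp (by fun_prop : Continuous fun p : VV m × ℝ =>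
    -(⟪ξ, p.1⟫ + ‖ξ‖ ^ 2 * p.2))).stronglyMeasurable.smul h.meas

lemma Fld.ph_int2 (h : Fld v A R) (ξ : VV m) : Integrable fun p : VV m × ℝ =>
    ch (-(⟪ξ, p.1⟫ + ‖ξ‖ ^ 2 * p.2)) • v p.1 p.2 := by
  refine h.int2.norm.mono' (h.ph_meas ξ).aestronglyMeasurable (ae_of_all _ fun p => ?_)
  rw [norm_smul, ch_norm, one_mul]

lemma Fld.Wf_eq (h : Fld v A R) (ξ : VV m) :
    Wf v ξ = ∫ p : VV m × ℝ, ch (-(⟪ξ, p.1⟫ + ‖ξ‖ ^ 2 * p.2)) • v p.1 p.2 := by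
  have h1 := h.ph_int2 ξ
  rw [Measure.volume_eq_prod] at h1 ⊢
  rw [integral_prod_symm _ h1, Wf_def]
  apply integral_congr_ae
  refine ae_of_all _ fun t => ?_
  simp only
  rw [UU_def, ← integral_smul]
  apply integral_congr_ae
  refine ae_of_all _ fun x => ?_
  simp only
  rw [smul_smul, ← ch_add]
  congr 2
  ring

/-- duality -/
lemma Fld.dual (h : Fld v A R) (hg : Rg g) :
    ‖∫ p : VV m × ℝ, inner ℂ (v p.1 p.2) (EM g p.1 p.2)‖ₑ ≤ ∫⁻ ξ : VV m, ‖Wf v ξ‖ₑ * ‖g ξ‖ₑ := by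
  have hphi : ∀ p : VV m × ℝ, Integrable fun ξ : VV m => ch (⟪ξ, p.1⟫ + ‖ξ‖ ^ 2 * p.2) • g ξ := by
    intro p
    refine hg.int.norm.mono' ?_ (ae_of_all _ fun ξ => ?_)
    · exact ((ch_cont.comp (by fun_prop : Continuous fun ξ : VV m =>
        ⟪ξ, p.1⟫ + ‖ξ‖ ^ 2 * p.2)).stronglyMeasurable.smul hg.meas).aestronglyMeasurable
    · rw [norm_smul, ch_norm, one_mul]
  have h1 : ∀ p : VV m × ℝ, inner ℂ (v p.1 p.2) (EM g p.1 p.2) =
      ∫ ξ : VV m, ch (⟪ξ, p.1⟫ + ‖ξ‖ ^ 2 * p.2) * inner ℂ (v p.1 p.2) (g ξ) := by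
    intro p
    rw [EM_def, ← integral_inner (hphi p)]
    apply integral_congr_ae
    refine ae_of_all _ fun ξ => ?_
    simp only
    rw [inner_smul_right]
  have hint : Integrable (Function.uncurry fun (p : VV m × ℝ) (ξ : VV m) =>
      ch (⟪ξ, p.1⟫ + ‖ξ‖ ^ 2 * p.2) * inner ℂ (v p.1 p.2) (g ξ))
      ((volume : Measure (VV m × ℝ)).prod (volume : Measure (VV m))) := by
    refine (h.int2.norm.mul_prod hg.int.norm).mono' ?_ (ae_of_all _ fun q => ?_)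
    · apply StronglyMeasurable.aestronglyMeasurable
      refine StronglyMeasurable.mul (f := fun q : (VV m × ℝ) × VV m =>
        ch (⟪q.2, q.1.1⟫ + ‖q.2‖ ^ 2 * q.1.2)) (g := fun q : (VV m × ℝ) × VV m =>
          inner ℂ (v q.1.1 q.1.2) (g q.2)) ?_ ?_
      · exact (ch_cont.comp (by fun_prop)).stronglyMeasurable
      · exact (h.meas.comp_measurable measurable_fst).inner (hg.meas.comp_measurable measurable_snd)
    · simp only [Function.uncurry]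
      rw [norm_mul, ch_norm, one_mul]
      exact norm_inner_le_norm _ _
  have h2 : ∫ p : VV m × ℝ, inner ℂ (v p.1 p.2) (EM g p.1 p.2) =
      ∫ ξ : VV m, inner ℂ (Wf v ξ) (g ξ) := by
    simp only [h1]
    rw [integral_integral_swap hint]
    apply integral_congr_ae
    refine ae_of_all _ fun ξ => ?_
    simp only
    rw [h.Wf_eq ξ, ← int_inner_left (h.ph_int2 ξ)]
    apply integral_congr_ae
    refine ae_of_all _ fun p => ?_
    simp only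
    rw [inner_smul_left, ch_conj, neg_neg]
  rw [h2]
  refine (enorm_integral_le_lintegral_enorm _).trans ?_
  apply lintegral_mono
  intro ξ
  simp only
  rw [← ofReal_norm, ← ofReal_norm, ← ofReal_norm, ← ENNReal.ofReal_mul (norm_nonneg _)]
  exact ENNReal.ofReal_le_ofReal (norm_inner_le_norm _ _)

/-- the weighted norm of the density -/
noncomputable def Gm (m : ℕ) : ℝ := Real.exp (Real.pi * m) * bv m

lemma Rg.wL2 (hg : Rg g) : ∫⁻ ξ : VV m, (ENNReal.ofReal (gw ξ))⁻¹ * ‖g ξ‖ₑ ^ 2 ≤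
    ENNReal.ofReal (Gm m) := by
  have hb0 : 0 ≤ bv m := ENNReal.toReal_nonneg
  calc ∫⁻ ξ : VV m, (ENNReal.ofReal (gw ξ))⁻¹ * ‖g ξ‖ₑ ^ 2
      ≤ ∫⁻ ξ : VV m, ENNReal.ofReal (Real.exp (Real.pi * m)) * ‖g ξ‖ₑ ^ 2 := by
        apply lintegral_mono
        intro ξ
        simp only
        by_cases h : ξ ∈ ball2 m
        · gcongr
          rw [← ENNReal.ofReal_inv_of_pos (gw_pos ξ)]
          apply ENNReal.ofReal_le_ofReal
          unfold gw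
          rw [← Real.exp_neg, Real.exp_le_exp]
          have := Real.pi_pos
          have h2 := mem_ball2.1 h
          nlinarith
        · rw [hg.zero h, enorm_zero]
          simp
    _ ≤ ENNReal.ofReal (Real.exp (Real.pi * m)) * ENNReal.ofReal (bv m) := by
        rw [lintegral_const_mul' _ _ ENNReal.ofReal_ne_top]
        gcongr
        exact hg.L2
    _ = ENNReal.ofReal (Gm m) := by
        unfold Gm
        rw [ENNReal.ofReal_mul (Real.exp_pos _).le]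

/-- Cauchy-Schwarz -/
lemma Fld.cs (h : Fld v A R) (hR : 0 ≤ R) (hg : Rg g) {T : ℝ} (hT : 0 < T) :
    ‖∫ p : VV m × ℝ, inner ℂ (v p.1 p.2) (EM g p.1 p.2)‖ₑ ^ 2 ≤ ENNReal.ofReal (Gm m) *
      (ENNReal.ofReal (4 * T) * volume A + ENNReal.ofReal ((2 * T) ^ (-((m : ℝ) / 2))) *
        (volume A * volume A)) := by
  have hwm : Measurable fun ξ : VV m => ENNReal.ofReal (gw ξ) := gw_cont.measurable.ennreal_ofReal
  have hWm : Measurable fun ξ : VV m => ‖Wf v ξ‖ₑ := h.Wf_meas.enorm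
  have hgm : Measurable fun ξ : VV m => ‖g ξ‖ₑ := hg.meas.enorm
  have hsq : ∀ a : ℝ≥0∞, (a ^ (1 / 2 : ℝ)) ^ (2 : ℝ) = a := by
    intro a
    rw [← ENNReal.rpow_mul]
    norm_num
  have hw0 : ∀ ξ : VV m, ENNReal.ofReal (gw ξ) ≠ 0 := by
    intro ξ
    rw [Ne, ENNReal.ofReal_eq_zero, not_le]
    exact gw_pos ξ
  have h1 : ∫⁻ ξ : VV m, ‖Wf v ξ‖ₑ * ‖g ξ‖ₑ ≤
      (∫⁻ ξ : VV m, ENNReal.ofReal (gw ξ) * ‖Wf v ξ‖ₑ ^ 2) ^ (1 / 2 : ℝ) *
      (∫⁻ ξ : VV m, (ENNReal.ofReal (gw ξ))⁻¹ * ‖g ξ‖ₑ ^ 2) ^ (1 / 2 : ℝ) := by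
    have h2 := ENNReal.lintegral_mul_norm_pow_le (μ := (volume : Measure (VV m)))
      (f := fun ξ => ENNReal.ofReal (gw ξ) * ‖Wf v ξ‖ₑ ^ 2)
      (g := fun ξ => (ENNReal.ofReal (gw ξ))⁻¹ * ‖g ξ‖ₑ ^ 2)
      (hwm.mul (hWm.pow_const 2)).aemeasurable (hwm.inv.mul (hgm.pow_const 2)).aemeasurable
      (p := 1 / 2) (q := 1 / 2) (by norm_num) (by norm_num) (by norm_num)
    refine le_trans (le_of_eq ?_) h2
    apply lintegral_congr
    intro ξ
    rw [← ENNReal.mul_rpow_of_nonneg _ _ (by norm_num)]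
    have e1 : ENNReal.ofReal (gw ξ) * ‖Wf v ξ‖ₑ ^ 2 *
        ((ENNReal.ofReal (gw ξ))⁻¹ * ‖g ξ‖ₑ ^ 2) = (‖Wf v ξ‖ₑ * ‖g ξ‖ₑ) ^ 2 := by
      calc _ = (ENNReal.ofReal (gw ξ) * (ENNReal.ofReal (gw ξ))⁻¹) *
            (‖Wf v ξ‖ₑ * ‖g ξ‖ₑ) ^ 2 := by ring
        _ = _ := by
            rw [ENNReal.mul_inv_cancel (hw0 ξ) ENNReal.ofReal_ne_top, one_mul]
    rw [e1, ← ENNReal.rpow_natCast, ← ENNReal.rpow_mul]
    norm_num
  calc ‖∫ p : VV m × ℝ, inner ℂ (v p.1 p.2) (EM g p.1 p.2)‖ₑ ^ 2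
      ≤ ((∫⁻ ξ : VV m, ENNReal.ofReal (gw ξ) * ‖Wf v ξ‖ₑ ^ 2) ^ (1 / 2 : ℝ) *
      (∫⁻ ξ : VV m, (ENNReal.ofReal (gw ξ))⁻¹ * ‖g ξ‖ₑ ^ 2) ^ (1 / 2 : ℝ)) ^ 2 := by
        gcongr
        exact (h.dual hg).trans h1
    _ = (∫⁻ ξ : VV m, ENNReal.ofReal (gw ξ) * ‖Wf v ξ‖ₑ ^ 2) *
      (∫⁻ ξ : VV m, (ENNReal.ofReal (gw ξ))⁻¹ * ‖g ξ‖ₑ ^ 2) := by
        rw [mul_pow, ← ENNReal.rpow_natCast, ← ENNReal.rpow_natCast]
        simp only [Nat.cast_ofNat]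
        rw [hsq, hsq]
    _ ≤ (∫⁻ p : ℝ × ℝ, ‖II v p.1 p.2‖ₑ) * ENNReal.ofReal (Gm m) := by
        gcongr
        · exact h.Wf_int hR
        · exact hg.wL2
    _ ≤ _ := by
        rw [mul_comm]
        gcongr
        exact h.near_far hT

end

end Run7.h303.RB
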