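import Mathlib
import Pool.Agent.Run7.h303.RB.S6
set_option autoImplicit false
set_option linter.unusedSectionVars false

/-! The Stein-Tomas estimate for Hilbert space valued functions on the paraboloid. -/

namespace Run7.h303.RB

open MeasureTheory Set Filter Topology Module
open scoped ENNReal NNReal RealInnerProductSpace
open Pool.Agent.TH277.HT (ch E1 Adm tr planch1 ch_norm ch_cont lint_mul ch_add ch_sum ch_conj ch_enorm)

lemma lev_alg {G l a m : ℝ} (hG : 0 < G) (hl : 0 < l) (ha : 0 ≤ a) (hm : 0 < m)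
    (h : ∀ T, 0 < T → (l * a) ^ 2 ≤ G * (4 * T * a + (2 * T) ^ (-(m / 2)) * (a * a))) :
    a ≤ 4 * G * (2 * G) ^ (2 / m) * l ^ (-2 - 4 / m) := by
  rcases ha.eq_or_lt with h0 | h0
  · rw [← h0]
    positivity
  set T : ℝ := (l ^ 2 / (2 * G)) ^ (-(2 / m)) / 2 with hT
  have hT0 : 0 < T := by positivity
  have h1 := h T hT0
  have e1 : (2 * T) ^ (-(m / 2)) = l ^ 2 / (2 * G) := by
    rw [hT, mul_div_cancel₀ _ two_ne_zero, ← Real.rpow_mul (by positivity)]
    rw [show -(2 / m) * -(m / 2) = 1 by field_simp, Real.rpow_one]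
  rw [e1] at h1
  have e2 : G * (4 * T * a + l ^ 2 / (2 * G) * (a * a)) = a * (4 * G * T + l ^ 2 * a / 2) := by
    field_simp
  have h2 : l ^ 2 * a ≤ 4 * G * T + l ^ 2 * a / 2 := by
    have h3 : a * (l ^ 2 * a) ≤ a * (4 * G * T + l ^ 2 * a / 2) := by
      rw [← e2]
      refine le_trans (le_of_eq ?_) h1
      ring
    exact le_of_mul_le_mul_left h3 h0
  have h4 : l ^ 2 * a ≤ 4 * G * (2 * T) := by linarith
  have e3 : 2 * T = (2 * G) ^ (2 / m) * l ^ (-(4 / m)) := by
    rw [hT, mul_div_cancel₀ _ two_ne_zero, Real.div_rpow (by positivity) (by positivity),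
      Real.rpow_neg (by positivity : (0 : ℝ) ≤ 2 * G), div_inv_eq_mul, mul_comm,
      ← Real.rpow_natCast, ← Real.rpow_mul hl.le]
    congr 2
    push_cast
    ring
  have e4 : l ^ (-2 - 4 / m) = (l ^ 2)⁻¹ * l ^ (-(4 / m)) := by
    rw [sub_eq_add_neg, Real.rpow_add hl, Real.rpow_neg hl.le 2, Real.rpow_two]
  have hl2 : 0 < l ^ 2 := by positivity
  calc a = (l ^ 2)⁻¹ * (l ^ 2 * a) := by field_simp
    _ ≤ (l ^ 2)⁻¹ * (4 * G * (2 * T)) := by gcongr
    _ = _ := by
        rw [e3, e4]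
        ring

lemma bv_pos {m : ℕ} (hm : 0 < m) : 0 < bv m := by
  unfold bv
  apply ENNReal.toReal_pos _ (ball2_lt m).ne
  apply (Metric.measure_closedBall_pos _ _ _).ne'
  have : (0 : ℝ) < m := by exact_mod_cast hm
  positivity

lemma Gm_pos {m : ℕ} (hm : 0 < m) : 0 < Gm m := mul_pos (Real.exp_pos _) (bv_pos hm)

variable {H : Type} [NormedAddCommGroup H] [InnerProductSpace ℂ H] [CompleteSpace H]

section

variable {m : ℕ} {R : ℝ} {g : VV m → H}

attribute [local irreducible] UU II KK Wf EM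

/-- the level set in a box -/
def LA (g : VV m → H) (l R : ℝ) : Set (VV m × ℝ) :=
  {p | l < ‖EM g p.1 p.2‖} ∩ {p | ‖p.1‖ ≤ R ∧ |p.2| ≤ R}

lemma LA_meas (hg : Rg g) (l R : ℝ) : MeasurableSet (LA g l R) := by
  apply MeasurableSet.inter
  · exact measurableSet_lt measurable_const (EM_meas' hg.meas).norm.measurable
  · have h1 : MeasurableSet {p : VV m × ℝ | ‖p.1‖ ≤ R} :=
      measurableSet_le (by fun_prop) measurable_const
    have h2 : MeasurableSet {p : VV m × ℝ | |p.2| ≤ R} :=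
      measurableSet_le (by fun_prop) measurable_const
    exact h1.inter h2

/-- the extremal field -/
noncomputable def vf (g : VV m → H) (l R : ℝ) (x : VV m) (t : ℝ) : H :=
  (LA g l R).indicator (fun p => ((‖EM g p.1 p.2‖⁻¹ : ℝ) : ℂ) • EM g p.1 p.2) (x, t)

lemma vf_fld (hg : Rg g) {l : ℝ} (hl : 0 < l) (R : ℝ) : Fld (vf g l R) (LA g l R) R := by
  refine ⟨?_, ?_, ?_, LA_meas hg l R, ?_⟩
  · have h1 : StronglyMeasurable fun p : VV m × ℝ =>
        ((‖EM g p.1 p.2‖⁻¹ : ℝ) : ℂ) • EM g p.1 p.2 := by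
      apply StronglyMeasurable.smul
      · exact (Complex.measurable_ofReal.comp
          (EM_meas' hg.meas).norm.measurable.inv).stronglyMeasurable
      · exact EM_meas' hg.meas
    exact h1.indicator (LA_meas hg l R)
  · intro x t
    unfold vf
    by_cases h : (x, t) ∈ LA g l R
    · rw [indicator_of_mem h, norm_smul, Complex.norm_real, norm_inv, norm_norm]
      have h2 : l < ‖EM g x t‖ := h.1
      rw [inv_mul_cancel₀ (hl.trans h2).ne']
    · rw [indicator_of_notMem h, norm_zero]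
      exact zero_le_one
  · intro x t h
    exact indicator_of_notMem h _
  · intro x t h
    exact h.2

lemma lev_box (hm : 0 < m) (hg : Rg g) {l : ℝ} (hl : 0 < l) (hR : 0 ≤ R) :
    volume (LA g l R) ≤ ENNReal.ofReal (4 * Gm m * (2 * Gm m) ^ (2 / (m : ℝ)) *
      l ^ (-2 - 4 / (m : ℝ))) := by
  have hm0 : (0 : ℝ) < m := by exact_mod_cast hm
  have hF := vf_fld hg hl R
  have hG := Gm_pos hm
  have hAlt : volume (LA g l R) < ⊤ := hF.A_lt
  set a : ℝ := (volume (LA g l R)).toReal with ha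
  have ha0 : 0 ≤ a := ENNReal.toReal_nonneg
  have haA : volume (LA g l R) = ENNReal.ofReal a := (ENNReal.ofReal_toReal hAlt.ne).symm
  -- the pairing
  have e1 : ∀ p : VV m × ℝ, inner ℂ (vf g l R p.1 p.2) (EM g p.1 p.2) =
      (((LA g l R).indicator (fun p => ‖EM g p.1 p.2‖) p : ℝ) : ℂ) := by
    intro p
    unfold vf
    by_cases h : p ∈ LA g l R
    · rw [indicator_of_mem h, indicator_of_mem (show (p.1, p.2) ∈ LA g l R from h)]
      have h2 : l < ‖EM g p.1 p.2‖ := h.1
      have h3 : (‖EM g p.1 p.2‖ : ℂ) ≠ 0 := by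
        exact_mod_cast (hl.trans h2).ne'
      rw [inner_smul_left, inner_self_eq_norm_sq_to_K]
      simp only [Complex.conj_ofReal, Complex.coe_algebraMap]
      push_cast
      field_simp
    · rw [indicator_of_notMem h, indicator_of_notMem (show (p.1, p.2) ∉ LA g l R from h),
        inner_zero_left]
      norm_num
  have hindm : StronglyMeasurable ((LA g l R).indicator fun p => ‖EM g p.1 p.2‖) :=
    ((EM_meas' hg.meas).norm).indicator (LA_meas hg l R)
  have hindi : Integrable ((LA g l R).indicator fun p => ‖EM g p.1 p.2‖) := by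
    apply int_box hindm.aestronglyMeasurable hAlt (bv m)
    · intro p
      by_cases h : p ∈ LA g l R
      · rw [indicator_of_mem h, norm_norm]
        exact EM_le hg _ _
      · rw [indicator_of_notMem h, norm_zero]
        exact (bv_pos hm).le
    · intro p hp
      exact indicator_of_notMem hp _
  have hind0 : ∀ p : VV m × ℝ, 0 ≤ (LA g l R).indicator (fun p => ‖EM g p.1 p.2‖) p := fun p =>
    indicator_nonneg (fun p _ => norm_nonneg _) p
  have h1 : ENNReal.ofReal (l * a) ≤
      ‖∫ p : VV m × ℝ, inner ℂ (vf g l R p.1 p.2) (EM g p.1 p.2)‖ₑ := by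
    simp only [e1]
    rw [integral_complex_ofReal, ← ofReal_norm, Complex.norm_real,
      Real.norm_of_nonneg (integral_nonneg hind0)]
    rw [ofReal_integral_eq_lintegral_ofReal hindi (ae_of_all _ hind0),
      ENNReal.ofReal_mul hl.le, ← haA]
    calc ENNReal.ofReal l * volume (LA g l R)
        = ∫⁻ p, (LA g l R).indicator (fun _ => ENNReal.ofReal l) p := by
          rw [lintegral_indicator_const (LA_meas hg l R)]
      _ ≤ _ := by
          apply lintegral_mono
          intro p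
          simp only
          by_cases h : p ∈ LA g l R
          · rw [indicator_of_mem h, indicator_of_mem h]
            exact ENNReal.ofReal_le_ofReal (le_of_lt h.1)
          · rw [indicator_of_notMem h]
            exact bot_le
  rw [haA]
  apply ENNReal.ofReal_le_ofReal
  apply lev_alg hG hl ha0 hm0
  intro T hT
  have h2 := hF.cs hR hg hT
  rw [haA] at h2
  have h3 : ENNReal.ofReal ((l * a) ^ 2) ≤
      ENNReal.ofReal (Gm m * (4 * T * a + (2 * T) ^ (-((m : ℝ) / 2)) * (a * a))) := by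
    rw [ENNReal.ofReal_pow (by positivity)]
    calc ENNReal.ofReal (l * a) ^ 2
        ≤ ‖∫ p : VV m × ℝ, inner ℂ (vf g l R p.1 p.2) (EM g p.1 p.2)‖ₑ ^ 2 := by gcongr
      _ ≤ _ := h2
      _ = _ := by
          rw [ENNReal.ofReal_mul hG.le, ENNReal.ofReal_add (by positivity) (by positivity),
            ENNReal.ofReal_mul (p := 4 * T) (by positivity),
            ENNReal.ofReal_mul (p := (2 * T) ^ (-((m : ℝ) / 2))) (by positivity),
            ENNReal.ofReal_mul (p := a) ha0]
  rwa [ENNReal.ofReal_le_ofReal_iff (by positivity)] at h3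

/-- the level sets -/
lemma lev_all (hm : 0 < m) (hg : Rg g) {l : ℝ} (hl : 0 < l) :
    volume {p : VV m × ℝ | l < ‖EM g p.1 p.2‖} ≤
      ENNReal.ofReal (4 * Gm m * (2 * Gm m) ^ (2 / (m : ℝ)) * l ^ (-2 - 4 / (m : ℝ))) := by
  have h1 : {p : VV m × ℝ | l < ‖EM g p.1 p.2‖} = ⋃ N : ℕ, LA g l N := by
    ext p
    simp only [mem_ofPred_eq, mem_iUnion]
    constructor
    · intro h
      obtain ⟨N, hN⟩ := exists_nat_ge (max ‖p.1‖ |p.2|)
      exact ⟨N, h, (le_max_left _ _).trans hN, (le_max_right _ _).trans hN⟩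
    · rintro ⟨N, h⟩
      exact h.1
  have hmono : Monotone fun N : ℕ => LA g l N := by
    intro N N' hN p hp
    have hN' : (N : ℝ) ≤ N' := by exact_mod_cast hN
    exact ⟨hp.1, hp.2.1.trans hN', hp.2.2.trans hN'⟩
  rw [h1, hmono.measure_iUnion]
  exact iSup_le fun N => lev_box hm hg hl (Nat.cast_nonneg N)

end

/-- The Stein-Tomas estimate off the endpoint. -/
theorem ST (m : ℕ) (hm : 0 < m) (P : ℝ) (hP : 2 + 4 / (m : ℝ) < P) :
    ∃ C : ℝ≥0, ∀ (H : Type) [NormedAddCommGroup H] [InnerProductSpace ℂ H] [CompleteSpace H]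
    (g : VV m → H), Rg g → ∫⁻ p : VV m × ℝ, ‖EM g p.1 p.2‖ₑ ^ P ≤ C := by
  have hm0 : (0 : ℝ) < m := by exact_mod_cast hm
  have h4 : 0 < 4 / (m : ℝ) := by positivity
  have hG := Gm_pos hm
  have hb := bv_pos hm
  set K : ℝ := 4 * Gm m * (2 * Gm m) ^ (2 / (m : ℝ)) with hK
  have hK0 : 0 < K := by positivity
  set e : ℝ := P - 3 - 4 / (m : ℝ) with he
  have hfin : ∫⁻ l in Ioc (0 : ℝ) (bv m), ENNReal.ofReal (K * l ^ e) < ⊤ := by
    have h1 : IntervalIntegrable (fun l : ℝ => K * l ^ e) volume 0 (bv m) :=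
      (intervalIntegral.intervalIntegrable_rpow' (by linarith)).const_mul K
    rw [intervalIntegrable_iff_integrableOn_Ioc_of_le hb.le] at h1
    exact h1.lintegral_lt_top
  refine ⟨(ENNReal.ofReal P * ∫⁻ l in Ioc (0 : ℝ) (bv m), ENNReal.ofReal (K * l ^ e)).toNNReal,
    ?_⟩
  intro H _ _ _ g hg
  rw [ENNReal.coe_toNNReal (ENNReal.mul_lt_top ENNReal.ofReal_lt_top hfin).ne]
  have hmeas : Measurable fun p : VV m × ℝ => ‖EM g p.1 p.2‖ := (EM_meas' hg.meas).norm.measurable
  have e1 : ∀ p : VV m × ℝ, ‖EM g p.1 p.2‖ₑ ^ P = ENNReal.ofReal (‖EM g p.1 p.2‖ ^ P) := by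
    intro p
    rw [← ofReal_norm, ENNReal.ofReal_rpow_of_nonneg (norm_nonneg _) (by linarith)]
  simp only [e1]
  rw [lintegral_rpow_eq_lintegral_meas_lt_mul volume (ae_of_all _ fun p => norm_nonneg _)
    hmeas.aemeasurable (by linarith)]
  gcongr ENNReal.ofReal P * ?_
  rw [← Ioc_union_Ioi_eq_Ioi hb.le]
  refine (lintegral_union_le _ _ _).trans ?_
  have h2 : ∫⁻ l in Ioi (bv m), volume {p : VV m × ℝ | l < ‖EM g p.1 p.2‖} *
      ENNReal.ofReal (l ^ (P - 1)) = 0 := by
    rw [setLIntegral_congr_fun (g := fun _ => 0) measurableSet_Ioi, lintegral_zero]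
    intro l hl
    simp only
    have h3 : {p : VV m × ℝ | l < ‖EM g p.1 p.2‖} = ∅ := by
      ext p
      simp only [mem_ofPred_eq, mem_empty_iff_false, iff_false, not_lt]
      exact (EM_le hg _ _).trans (le_of_lt hl)
    rw [h3, measure_empty, zero_mul]
  rw [h2, add_zero]
  apply setLIntegral_mono' measurableSet_Ioc
  intro l hl
  calc volume {p : VV m × ℝ | l < ‖EM g p.1 p.2‖} * ENNReal.ofReal (l ^ (P - 1))
      ≤ ENNReal.ofReal (K * l ^ (-2 - 4 / (m : ℝ))) * ENNReal.ofReal (l ^ (P - 1)) := by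
        gcongr
        exact lev_all hm hg hl.1
    _ = ENNReal.ofReal (K * l ^ e) := by
        rw [← ENNReal.ofReal_mul (mul_nonneg hK0.le (Real.rpow_nonneg hl.1.le _)), mul_assoc,
          ← Real.rpow_add hl.1]
        congr 3
        rw [he]
        ring

end Run7.h303.RB
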