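import Mathlib
import Pool.Agent.Run7.h303.RB.S7
import Pool.Agent.Run7.h303.RB.R1
set_option autoImplicit false
set_option linter.unusedSectionVars false

/-! Mixed norm estimates for the blocks: arbitrary functions, one coordinate, radial functions. -/

namespace Run7.h303.RB

open MeasureTheory Set Filter Topology Module
open scoped ENNReal NNReal RealInnerProductSpace
open Pool.Agent.TH277.HT (ch E1 Adm tr planch1 ch_norm ch_cont lint_mul ch_add ch_sum)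

/-- Hölder's inequality between the energy and a space time norm. -/
lemma mixG {X : Type*} [MeasurableSpace X] {μ : Measure X} [SFinite μ] (F : X × ℝ → ℝ≥0∞)
    (hF : Measurable F) {s P q : ℝ} (hs : 1 ≤ s) (hP : 2 ≤ P) (hq : q = 2 + (P - 2) / s)
    (B C : ℝ≥0) (hB : ∀ t, ∫⁻ x, F (x, t) ^ 2 ∂μ ≤ B)
    (hC : ∫⁻ p, F p ^ P ∂(μ.prod volume) ≤ C) :
    ∫⁻ t : ℝ, (∫⁻ x, F (x, t) ^ q ∂μ) ^ s ≤ (B ^ (s - 1) * C : ℝ≥0) := by
  have hs0 : 0 < s := by linarith
  set w : ℝ := 1 / s with hw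
  have hw0 : 0 < w := by positivity
  have hw1 : w ≤ 1 := by
    rw [hw, div_le_one hs0]
    exact hs
  have hws : w * s = 1 := by
    rw [hw]
    field_simp
  have hFt : ∀ t, Measurable fun x => F (x, t) := fun t => hF.comp (by fun_prop)
  have h1 : ∀ t : ℝ, (∫⁻ x, F (x, t) ^ q ∂μ) ^ s ≤
      (B : ℝ≥0∞) ^ (s - 1) * ∫⁻ x, F (x, t) ^ P ∂μ := by
    intro t
    have h2 : ∀ x, F (x, t) ^ q = (F (x, t) ^ 2) ^ (1 - w) * (F (x, t) ^ P) ^ w := by
      intro x
      rw [← ENNReal.rpow_natCast, ← ENNReal.rpow_mul, ← ENNReal.rpow_mul,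
        ← ENNReal.rpow_add_of_nonneg _ _ (by
          have : 0 ≤ 1 - w := by linarith
          positivity) (by positivity)]
      congr 1
      rw [hq, hw]
      push_cast
      field_simp
      ring
    have h3 : ∫⁻ x, F (x, t) ^ q ∂μ ≤
        (∫⁻ x, F (x, t) ^ 2 ∂μ) ^ (1 - w) * (∫⁻ x, F (x, t) ^ P ∂μ) ^ w := by
      simp only [h2]
      exact ENNReal.lintegral_mul_norm_pow_le ((hFt t).pow_const 2).aemeasurable
        ((hFt t).pow_const P).aemeasurable (by linarith) hw0.le (by ring)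
    calc (∫⁻ x, F (x, t) ^ q ∂μ) ^ s
        ≤ ((B : ℝ≥0∞) ^ (1 - w) * (∫⁻ x, F (x, t) ^ P ∂μ) ^ w) ^ s := by
          apply ENNReal.rpow_le_rpow _ hs0.le
          refine h3.trans ?_
          gcongr
          exact hB t
      _ = (B : ℝ≥0∞) ^ (s - 1) * ∫⁻ x, F (x, t) ^ P ∂μ := by
          rw [ENNReal.mul_rpow_of_nonneg _ _ hs0.le, ← ENNReal.rpow_mul, ← ENNReal.rpow_mul, hws,
            ENNReal.rpow_one, sub_mul, hws, one_mul]
  calc ∫⁻ t : ℝ, (∫⁻ x, F (x, t) ^ q ∂μ) ^ s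
      ≤ ∫⁻ t : ℝ, (B : ℝ≥0∞) ^ (s - 1) * ∫⁻ x, F (x, t) ^ P ∂μ := lintegral_mono h1
    _ = (B : ℝ≥0∞) ^ (s - 1) * ∫⁻ t : ℝ, ∫⁻ x, F (x, t) ^ P ∂μ := by
        rw [lintegral_const_mul' _ _ (ENNReal.rpow_ne_top_of_nonneg (by linarith)
          ENNReal.coe_ne_top)]
    _ = (B : ℝ≥0∞) ^ (s - 1) * ∫⁻ p, F p ^ P ∂(μ.prod volume) := by
        rw [lintegral_prod_symm _ (hF.pow_const P).aemeasurable]
    _ ≤ (B : ℝ≥0∞) ^ (s - 1) * C := by gcongr
    _ = _ := by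
        rw [ENNReal.coe_mul, ENNReal.coe_rpow_of_nonneg _ (by linarith)]

/-- The estimate for arbitrary bounded functions of a block. -/
theorem rough (m : ℕ) (hm : 0 < m) (n : ℝ) (hn : (m : ℝ) / 2 ≤ n) (q : ℝ)
    (hq : 2 * (n + 1) / n < q) :
    ∃ C : ℝ≥0, ∀ (H : Type) [NormedAddCommGroup H] [InnerProductSpace ℂ H] [CompleteSpace H]
    (g : VV m → H), Rg g →
    ∫⁻ t : ℝ, (∫⁻ x : VV m, ‖EM g x t‖ₑ ^ q) ^ (n / ((m : ℝ) / 2)) ≤ C := by
  have hm0 : (0 : ℝ) < m := by exact_mod_cast hm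
  have hn0 : 0 < n := by linarith [half_pos hm0]
  set s : ℝ := n / ((m : ℝ) / 2) with hs
  have hs1 : 1 ≤ s := by
    rw [hs, one_le_div (by positivity)]
    exact hn
  have hs0 : 0 < s := by linarith
  set P : ℝ := 2 + s * (q - 2) with hP
  have hqn : 2 < n * (q - 2) := by
    rw [div_lt_iff₀ hn0] at hq
    linarith
  have hP2 : 2 + 4 / (m : ℝ) < P := by
    have e1 : s * (q - 2) = 2 / m * (n * (q - 2)) := by
      rw [hs]
      field_simp
    have e2 : 4 / (m : ℝ) < 2 / m * (n * (q - 2)) := by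
      calc 4 / (m : ℝ) = 2 / m * 2 := by ring
        _ < _ := by gcongr
    rw [hP, e1]
    linarith
  have h4 : 0 < 4 / (m : ℝ) := by positivity
  obtain ⟨C, hC⟩ := ST m hm P hP2
  refine ⟨(Real.toNNReal (bv m)) ^ (s - 1) * C, ?_⟩
  intro H _ _ _ g hg
  exact mixG (fun p : VV m × ℝ => ‖EM g p.1 p.2‖ₑ) (EM_meas' hg.meas).enorm hs1 (by linarith)
    (by rw [hP]; field_simp; ring) _ C (fun t => EM_planch hg t) (hC H g hg)

/-- The estimate for one coordinate, with a real parameter. -/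
theorem mixR (n : ℝ) (hn : 1 ≤ n) (q : ℝ) (hq : 2 * (n + 1) / n < q) :
    ∃ C : ℝ≥0, ∀ (H : Type) [NormedAddCommGroup H]
    [InnerProductSpace ℂ H] [CompleteSpace H] (a : ℝ → H), Adm a →
    ∫⁻ t : ℝ, (∫⁻ x : ℝ, ‖E1 a x t‖ₑ ^ q) ^ n ≤ C := by
  have hn0 : 0 < n := by linarith
  have hqn : 2 < n * (q - 2) := by
    rw [div_lt_iff₀ hn0] at hq
    linarith
  obtain ⟨C, hC⟩ := zyg4 (2 + n * (q - 2)) (by linarith)
  refine ⟨2 ^ (n - 1) * C, ?_⟩
  intro H _ _ _ a ha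
  have hm : Measurable fun p : ℝ × ℝ => ‖E1 a p.1 p.2‖ₑ := (Pool.Agent.TH277.HT.E1_meas ha).enorm
  refine mixG (fun p : ℝ × ℝ => ‖E1 a p.1 p.2‖ₑ) hm hn (P := 2 + n * (q - 2)) (by linarith)
    (by field_simp; ring) 2 C (fun t => ?_) ?_
  · exact Pool.Agent.TH277.HT.E1_planch ha t
  · rw [lintegral_prod_symm _ (hm.pow_const _).aemeasurable]
    exact hC H a ha

/-- The estimate for a block of at least two coordinates. -/
lemma block_iotaR (n : ℝ) (k : ℕ) (hk : (k : ℝ) + 2 ≤ n) (q : ℝ) (hq : 2 * (n + 1) / n < q) :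
    ∃ C : ℝ≥0, ∀ (ι : Type) [Fintype ι], Fintype.card ι = k + 2 →
    ∀ (H : Type) [NormedAddCommGroup H] [InnerProductSpace ℂ H] [CompleteSpace H] (a : ℝ → H)
      (c : ι → ℝ), Rad a →
    ∫⁻ t : ℝ, (∫⁻ y : ι → ℝ, ‖Eb (fun η => a (√(∑ j, (η j - c j) ^ 2))) y t‖ₑ ^ q) ^
      (n / Fintype.card ι) ≤ C := by
  obtain ⟨C, hC⟩ := blockR n k hk q hq
  refine ⟨C, ?_⟩
  intro ι _ hι H _ _ _ a c ha
  set e : ι ≃ Fin (k + 2) := Fintype.equivFinOfCardEq hι with he
  obtain ⟨hmp, hemb⟩ := toV_mp e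
  have h1 : ∀ (y : ι → ℝ) (t : ℝ), Eb (fun η => a (√(∑ j, (η j - c j) ^ 2))) y t =
      EM (fun η => a ‖η - toV e c‖) (toV e y) t := by
    intro y t
    unfold Eb EM
    rw [← hmp.integral_comp hemb]
    apply integral_congr_ae
    refine ae_of_all _ fun η => ?_
    simp only
    rw [toV_inner, toV_norm, toV_sub]
  have h2 : (n / Fintype.card ι) = n / ((k : ℝ) + 2) := by
    rw [hι]
    push_cast
    rfl
  rw [h2]
  refine le_trans (le_of_eq ?_) (hC H a (toV e c) ha)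
  apply lintegral_congr
  intro t
  congr 1
  simp only [h1]
  exact hmp.lintegral_comp_emb hemb fun x => ‖EM (fun η => a ‖η - toV e c‖) x t‖ₑ ^ q

/-- The estimate for a block of one coordinate. -/
lemma block_oneR (n : ℝ) (hn : 1 ≤ n) (q : ℝ) (hq : 2 * (n + 1) / n < q) :
    ∃ C : ℝ≥0, ∀ (ι : Type) [Fintype ι] (j₀ : ι), (∀ i, i = j₀) →
    ∀ (H : Type) [NormedAddCommGroup H] [InnerProductSpace ℂ H] [CompleteSpace H] (a : ℝ → H),
      Adm a →
    ∫⁻ t : ℝ, (∫⁻ y : ι → ℝ, ‖Eb (fun η => tr a (η j₀)) y t‖ₑ ^ q) ^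
      (n / Fintype.card ι) ≤ C := by
  obtain ⟨C, hC⟩ := mixR n hn q hq
  refine ⟨C, ?_⟩
  intro ι inst j₀ hj H _ _ _ a ha
  letI : Unique ι := ⟨⟨j₀⟩, hj⟩
  have hF : inst = Unique.fintype := Subsingleton.elim _ _
  subst hF
  have hmp := volume_preserving_funUnique ι ℝ
  have hemb := (MeasurableEquiv.funUnique ι ℝ).measurableEmbedding
  have hap : ∀ y : ι → ℝ, MeasurableEquiv.funUnique ι ℝ y = y j₀ := fun y => rfl
  have hsum : ∀ f : ι → ℝ, ∑ j, f j = f j₀ := fun f => Fintype.sum_unique f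
  have h1 : ∀ (y : ι → ℝ) (t : ℝ), Eb (fun η => tr a (η j₀)) y t =
      E1 a (MeasurableEquiv.funUnique ι ℝ y) t := by
    intro y t
    rw [Pool.Agent.TH277.HT.E1_eq, ← hmp.integral_comp hemb]
    unfold Eb
    apply integral_congr_ae
    refine ae_of_all _ fun η => ?_
    simp only [hap, hsum]
  have hcard : Fintype.card ι = 1 := Fintype.card_unique
  have h2 : (n / Fintype.card ι) = n := by
    rw [hcard]
    simp
  rw [h2]
  refine le_trans (le_of_eq ?_) (hC H a ha)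
  apply lintegral_congr
  intro t
  congr 1
  simp only [h1]
  exact hmp.lintegral_comp_emb hemb fun x => ‖E1 a x t‖ₑ ^ q

/-- The estimate for arbitrary functions of a block. -/
lemma block_rough (m : ℕ) (hm : 0 < m) (n : ℝ) (hn : (m : ℝ) / 2 ≤ n) (q : ℝ)
    (hq : 2 * (n + 1) / n < q) :
    ∃ C : ℝ≥0, ∀ (ι : Type) [Fintype ι], Fintype.card ι = m →
    ∀ (H : Type) [NormedAddCommGroup H] [InnerProductSpace ℂ H] [CompleteSpace H]
      (g : (ι → ℝ) → H), StronglyMeasurable g → (∀ η, ‖g η‖ ≤ 1) →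
      (∀ η, (∃ j, η j ∉ Icc (-1 : ℝ) 1) → g η = 0) →
    ∫⁻ t : ℝ, (∫⁻ y : ι → ℝ, ‖Eb g y t‖ₑ ^ q) ^ (n / ((Fintype.card ι : ℝ) / 2)) ≤ C := by
  obtain ⟨C, hC⟩ := rough m hm n hn q hq
  refine ⟨C, ?_⟩
  intro ι _ hι H _ _ _ g hgm hg1 hg0
  set e : ι ≃ Fin m := Fintype.equivFinOfCardEq hι with he
  obtain ⟨hmp, hemb⟩ := toV_mp e
  set g' : VV m → H := fun v => g fun j => v (e j) with hg'
  have hgg : ∀ y : ι → ℝ, g' (toV e y) = g y := by
    intro y
    simp only [hg']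
    congr 1
    ext j
    simp [toV]
  have hRg : Rg g' := by
    refine ⟨?_, fun η => hg1 _, fun η hη => ?_⟩
    · apply hgm.comp_measurable
      refine measurable_pi_iff.2 fun j => ?_
      fun_prop
    · apply hg0
      by_contra hc
      push Not at hc
      have h1 : ‖η‖ ^ 2 ≤ m := by
        rw [EuclideanSpace.norm_sq_eq]
        calc ∑ i, ‖η i‖ ^ 2 ≤ ∑ _i : Fin m, (1 : ℝ) := by
              apply Finset.sum_le_sum
              intro i _
              have h2 := hc (e.symm i)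
              rw [Equiv.apply_symm_apply] at h2
              have h3 : ‖η i‖ ≤ 1 := by
                rw [Real.norm_eq_abs]
                exact abs_le.2 h2
              calc ‖η i‖ ^ 2 ≤ 1 ^ 2 := by gcongr
                _ = 1 := one_pow 2
          _ = m := by simp
      linarith
  have h1 : ∀ (y : ι → ℝ) (t : ℝ), Eb g y t = EM g' (toV e y) t := by
    intro y t
    unfold Eb EM
    rw [← hmp.integral_comp hemb]
    apply integral_congr_ae
    refine ae_of_all _ fun η => ?_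
    simp only
    rw [toV_inner, toV_norm, hgg]
  rw [hι]
  refine le_trans (le_of_eq ?_) (hC H g' hRg)
  apply lintegral_congr
  intro t
  congr 1
  simp only [h1]
  exact hmp.lintegral_comp_emb hemb fun x => ‖EM g' x t‖ₑ ^ q

end Run7.h303.RB
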