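import Mathlib
import Pool.Agent.Run7.h303.RB.R2
set_option autoImplicit false
set_option linter.unusedSectionVars false

/-! The product of the blocks with general exponents. -/

namespace Run7.h303.RB

open MeasureTheory Set Filter Topology Module
open scoped ENNReal NNReal RealInnerProductSpace
open Pool.Agent.TH277.HT (ch E1 Adm tr planch1 ch_norm ch_cont lint_mul ch_add ch_sum)

variable {H : Type} [NormedAddCommGroup H] [InnerProductSpace ℂ H] [CompleteSpace H]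

attribute [local irreducible] Eb

/-- The product of the blocks. -/
theorem blocksG {n N : ℕ} (β : Fin n → Fin N) (e : Fin N → ℝ) (he : ∀ κ, 0 < e κ) (ν : ℝ)
    (hν : 0 < ν) (heν : ∑ κ, e κ = ν) (q : ℝ) (hq : 0 < q) (C : ℝ≥0) (M : ContinuousMultilinearMap ℂ (fun _ : Fin N => H) ℂ)
    (hM : ∀ x, ‖M x‖ ≤ ∏ κ, ‖x κ‖) (g : (κ : Fin N) → (Bl β κ → ℝ) → H)
    (hm : ∀ κ, StronglyMeasurable (g κ)) (hi : ∀ κ, Integrable (g κ))
    (hg : ∀ κ, ∫⁻ t : ℝ, (∫⁻ y : Bl β κ → ℝ, ‖Eb (g κ) y t‖ₑ ^ q) ^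
      (ν / e κ) ≤ C) :
    ∫⁻ y : (Fin n → ℝ) × ℝ, ‖∫ ξ : Fin n → ℝ, ch (∑ j, ξ j * y.1 j + (∑ j, ξ j ^ 2) * y.2) *
      M (fun κ => g κ fun j => ξ j.1)‖ₑ ^ q ≤ C := by
  have hmp := blEquiv_mp β
  have hemb := (blEquiv β).measurableEmbedding
  have hap : ∀ ξ : Fin n → ℝ, ∀ κ, blEquiv β ξ κ = fun j : Bl β κ => ξ j.1 := fun ξ κ => rfl
  -- the extension operator
  have h1 : ∀ y : (Fin n → ℝ) × ℝ,
      ∫ ξ : Fin n → ℝ, ch (∑ j, ξ j * y.1 j + (∑ j, ξ j ^ 2) * y.2) *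
        M (fun κ => g κ fun j => ξ j.1) = M (fun κ => Eb (g κ) (blEquiv β y.1 κ) y.2) := by
    intro y
    have e1 : ∀ ξ : Fin n → ℝ, ch (∑ j, ξ j * y.1 j + (∑ j, ξ j ^ 2) * y.2) *
        M (fun κ => g κ fun j => ξ j.1) =
        (fun z : (κ : Fin N) → Bl β κ → ℝ => M (fun κ => ch (∑ j, z κ j * y.1 j.1 +
          (∑ j, z κ j ^ 2) * y.2) • g κ (z κ))) (blEquiv β ξ) := by
      intro ξ
      simp only
      rw [ContinuousMultilinearMap.map_smul_univ, smul_eq_mul, ← ch_sum]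
      congr 2
      rw [Finset.sum_add_distrib, ← Finset.sum_mul]
      congr 1
      · exact (Fintype.sum_fiberwise β fun j => ξ j * y.1 j).symm
      · congr 1
        exact (Fintype.sum_fiberwise β fun j => ξ j ^ 2).symm
    simp only [e1]
    rw [hmp.integral_comp hemb (fun z : (κ : Fin N) → Bl β κ → ℝ => M (fun κ =>
      ch (∑ j, z κ j * y.1 j.1 + (∑ j, z κ j ^ 2) * y.2) • g κ (z κ)))]
    have hphase : ∀ κ, Continuous fun η : Bl β κ → ℝ =>
        ch (∑ j, η j * y.1 j.1 + (∑ j, η j ^ 2) * y.2) := fun κ => ch_cont.comp (by fun_prop)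
    refine (mult_int' (fun κ => Bl β κ → ℝ) M (fun κ η => ch (∑ j, η j * y.1 j.1 +
      (∑ j, η j ^ 2) * y.2) • g κ η) ?_ ?_).trans ?_
    · intro κ
      exact (hphase κ).stronglyMeasurable.smul (hm κ)
    · intro κ
      refine (hi κ).norm.mono' ((hphase κ).stronglyMeasurable.smul (hm κ)).aestronglyMeasurable
        (ae_of_all _ fun η => ?_)
      rw [norm_smul, ch_norm, one_mul]
    · congr 1
      ext κ
      exact (Eb_def _ _ _).symm
  simp only [h1]
  -- the time slices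
  obtain ⟨F, hF⟩ : ∃ F : (κ : Fin N) → ((Bl β κ → ℝ) × ℝ) → ℝ≥0∞,
      ∀ κ p, F κ p = ‖Eb (g κ) p.1 p.2‖ₑ ^ q := ⟨_, fun _ _ => rfl⟩
  have hFm : ∀ κ, Measurable (F κ) := by
    intro κ
    have e1 : F κ = fun p => ‖Eb (g κ) p.1 p.2‖ₑ ^ q := funext (hF κ)
    rw [e1]
    exact (Eb_meas (hm κ)).enorm.pow_const q
  have hFg : ∀ κ, ∫⁻ t : ℝ, (∫⁻ y : Bl β κ → ℝ, F κ (y, t)) ^
      (ν / e κ) ≤ C := by
    intro κ
    simp only [hF]
    exact hg κ
  set Mt : (κ : Fin N) → ℝ → ℝ≥0∞ := fun κ t => ∫⁻ y : Bl β κ → ℝ, F κ (y, t) with hMt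
  have hMtm : ∀ κ, Measurable (Mt κ) := fun κ => Measurable.lintegral_prod_left' (hFm κ)
  have h2 : ∀ y : (Fin n → ℝ) × ℝ, ‖M (fun κ => Eb (g κ) (blEquiv β y.1 κ) y.2)‖ₑ ^ q ≤
      ∏ κ, F κ (blEquiv β y.1 κ, y.2) := by
    intro y
    simp only [hF]
    rw [ENNReal.prod_rpow_of_nonneg hq.le]
    gcongr
    rw [← ofReal_norm]
    refine (ENNReal.ofReal_le_ofReal (hM _)).trans (le_of_eq ?_)
    rw [ENNReal.ofReal_prod_of_nonneg fun i _ => norm_nonneg _]
    exact Finset.prod_congr rfl fun κ _ => ofReal_norm _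
  have hmeasP : Measurable fun y : (Fin n → ℝ) × ℝ =>
      ∏ κ, F κ (blEquiv β y.1 κ, y.2) := by
    apply Finset.measurable_prod
    intro κ _
    have e1 : Measurable fun y : (Fin n → ℝ) × ℝ =>
        ((blEquiv β y.1 κ, y.2) : (Bl β κ → ℝ) × ℝ) := by
      apply Measurable.prodMk _ measurable_snd
      exact (measurable_pi_apply κ).comp ((blEquiv β).measurable.comp measurable_fst)
    exact (hFm κ).comp e1
  have hen : ∀ κ, 0 ≤ e κ / ν := fun κ => (div_pos (he κ) hν).le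
  have hsum : ∑ κ, e κ / ν = 1 := by
    rw [← Finset.sum_div, heν, div_self hν.ne']
  calc ∫⁻ y : (Fin n → ℝ) × ℝ, ‖M (fun κ => Eb (g κ) (blEquiv β y.1 κ) y.2)‖ₑ ^ q
      ≤ ∫⁻ y : (Fin n → ℝ) × ℝ, ∏ κ, F κ (blEquiv β y.1 κ, y.2) := lintegral_mono h2
    _ = ∫⁻ t : ℝ, ∫⁻ x : Fin n → ℝ, ∏ κ, F κ (blEquiv β x κ, t) := by
        rw [Measure.volume_eq_prod, lintegral_prod_symm _ hmeasP.aemeasurable]
    _ = ∫⁻ t : ℝ, ∏ κ, Mt κ t := by
        apply lintegral_congr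
        intro t
        rw [hmp.lintegral_comp_emb hemb (fun z : (κ : Fin N) → Bl β κ → ℝ => ∏ κ, F κ (z κ, t))]
        exact lint_pi' (fun κ => Bl β κ → ℝ) (fun κ y => F κ (y, t)) fun κ =>
          (hFm κ).comp (by fun_prop : Measurable fun y : Bl β κ → ℝ => ((y, t) : (Bl β κ → ℝ) × ℝ))
    _ = ∫⁻ t : ℝ, ∏ κ, (Mt κ t ^ (ν / e κ)) ^
          (e κ / ν) := by
        apply lintegral_congr
        intro t
        refine Finset.prod_congr rfl fun κ _ => ?_
        rw [← ENNReal.rpow_mul]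
        have := he κ
        rw [show ν / e κ * (e κ / ν) = 1 by
          field_simp, ENNReal.rpow_one]
    _ ≤ ∏ κ, (∫⁻ t : ℝ, Mt κ t ^ (ν / e κ)) ^
          (e κ / ν) := by
        apply ENNReal.lintegral_prod_norm_pow_le Finset.univ
        · intro κ _
          exact ((hMtm κ).pow_const _).aemeasurable
        · exact hsum
        · intro κ _
          exact hen κ
    _ ≤ ∏ κ, (C : ℝ≥0∞) ^ (e κ / ν) := by
        apply Finset.prod_le_prod'
        intro κ _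
        exact ENNReal.rpow_le_rpow (hFg κ) (hen κ)
    _ = C := by
        have e3 : ∀ s : Finset (Fin N), ∏ κ ∈ s, (C : ℝ≥0∞) ^ (e κ / ν) =
            (C : ℝ≥0∞) ^ (∑ κ ∈ s, e κ / ν) := by
          intro s
          classical
          induction s using Finset.induction with
          | empty => simp
          | insert i s hi ih =>
            rw [Finset.prod_insert hi, Finset.sum_insert hi, ih,
              ENNReal.rpow_add_of_nonneg _ _ (hen i)
                (Finset.sum_nonneg fun i _ => hen i)]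
        rw [e3, hsum, ENNReal.rpow_one]

end Run7.h303.RB
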