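import Mathlib
import Pool.Agent.Run7.h303.RB.R3
import Pool.Agent.Run7.h303.RB.E
set_option autoImplicit false
set_option linter.unusedSectionVars false

/-! Blocks with arbitrary functions: the data of the blocks. -/

namespace Run7.h303.RB

open MeasureTheory Set Filter Topology Module
open scoped ENNReal NNReal RealInnerProductSpace
open Pool.Agent.TH277.HT (ch E1 Adm tr planch1 ch_norm ch_cont lint_mul ch_add ch_sum)

/-- arbitrary bounded functions of the coordinates of a block -/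
def Rough {n N : ℕ} {H : Type} [NormedAddCommGroup H] (β : Fin n → Fin N) (k : Fin N)
    (g : (Fin n → ℝ) → H) : Prop :=
  StronglyMeasurable g ∧ (∀ ξ ∈ Icc (-1 : Fin n → ℝ) 1, ‖g ξ‖ ≤ 1) ∧
    ∀ ξ η : Fin n → ℝ, (∀ j, β j = k → ξ j = η j) → g ξ = g η

/-- the data of a block of the first two kinds -/
lemma dataA (n : ℕ) (ν : ℝ) (hν : 1 ≤ ν) (q : ℝ) (hq : 2 * (ν + 1) / ν < q) :
    ∃ C : ℝ≥0, ∀ (N : ℕ) (β : Fin n → Fin N) (κ : Fin N) (_ : 0 < Fintype.card (Bl β κ))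
    (_ : (Fintype.card (Bl β κ) : ℝ) ≤ ν)
    (H : Type) [NormedAddCommGroup H] [InnerProductSpace ℂ H] [CompleteSpace H]
    (g : (Fin n → ℝ) → H), (Single β κ g ∨ Radial β κ g) →
    ∃ b : (Bl β κ → ℝ) → H, StronglyMeasurable b ∧ Integrable b ∧
      (∫⁻ t : ℝ, (∫⁻ y : Bl β κ → ℝ, ‖Eb b y t‖ₑ ^ q) ^ (ν / Fintype.card (Bl β κ)) ≤ C) ∧
      (∀ ξ ∈ Icc (-1 : Fin n → ℝ) 1, g ξ = b fun j => ξ j.1) ∧
      (∀ ξ : Fin n → ℝ, (∃ j, β j = κ ∧ ξ j ∉ Icc (-1 : ℝ) 1) → (b fun j => ξ j.1) = 0) := by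
  obtain ⟨C₁, hC₁⟩ := block_oneR ν hν q hq
  have hex : ∀ k : ℕ, ∃ C : ℝ≥0, (k : ℝ) + 2 ≤ ν → ∀ (ι : Type) [Fintype ι], Fintype.card ι = k + 2 →
      ∀ (H : Type) [NormedAddCommGroup H] [InnerProductSpace ℂ H] [CompleteSpace H] (a : ℝ → H)
        (c : ι → ℝ), Rad a →
      ∫⁻ t : ℝ, (∫⁻ y : ι → ℝ, ‖Eb (fun η => a (√(∑ j, (η j - c j) ^ 2))) y t‖ₑ ^ q) ^
        (ν / Fintype.card ι) ≤ C := by
    intro k
    by_cases hk : (k : ℝ) + 2 ≤ ν
    · obtain ⟨C, hC⟩ := block_iotaR ν k hk q hq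
      exact ⟨C, fun _ => hC⟩
    · exact ⟨0, fun h => absurd h hk⟩
  choose C₂ hC₂ using hex
  refine ⟨C₁ + ∑ k ∈ Finset.range n, C₂ k, ?_⟩
  intro N β κ hcard hcν H _ _ _ g hg
  -- integrability
  have hint : ∀ b : (Bl β κ → ℝ) → H, StronglyMeasurable b → (∀ η, ‖b η‖ ≤ 1) →
      (∀ η, (∃ j, η j ∉ Icc (-1 : ℝ) 1) → b η = 0) → Integrable b := by
    intro b hb hb1 hb0
    have h1 : IntegrableOn b (Icc (-1 : Bl β κ → ℝ) 1) := by
      apply IntegrableOn.of_bound _ hb.aestronglyMeasurable 1 (ae_of_all _ hb1)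
      exact isCompact_Icc.measure_lt_top
    rwa [integrableOn_iff_integrable_of_support_subset] at h1
    intro η hη
    by_contra hc
    apply hη
    apply hb0
    by_contra h2
    push Not at h2
    exact hc ⟨fun j => (h2 j).1, fun j => (h2 j).2⟩
  have hsingle : Single β κ g → ∃ b : (Bl β κ → ℝ) → H, StronglyMeasurable b ∧ Integrable b ∧
      (∫⁻ t : ℝ, (∫⁻ y : Bl β κ → ℝ, ‖Eb b y t‖ₑ ^ q) ^ (ν / Fintype.card (Bl β κ)) ≤
        (C₁ + ∑ k ∈ Finset.range n, C₂ k : ℝ≥0)) ∧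
      (∀ ξ ∈ Icc (-1 : Fin n → ℝ) 1, g ξ = b fun j => ξ j.1) ∧
      (∀ ξ : Fin n → ℝ, (∃ j, β j = κ ∧ ξ j ∉ Icc (-1 : ℝ) 1) → (b fun j => ξ j.1) = 0) := by
    rintro ⟨j, hj, b, hbm, hb1, hgb⟩
    set b' : ℝ → H := (Icc (-1 : ℝ) 1).indicator b with hb'
    have hadm : Adm b' := by
      refine ⟨hbm.indicator measurableSet_Icc, fun u => ?_⟩
      by_cases h : u ∈ Icc (-1 : ℝ) 1
      · rw [hb', indicator_of_mem h]
        exact hb1 u h
      · rw [hb', indicator_of_notMem h, norm_zero]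
        exact zero_le_one
    set j₀ : Bl β κ := ⟨j, (hj j).2 rfl⟩ with hj₀
    have huniq : ∀ i : Bl β κ, i = j₀ := fun i => Subtype.ext ((hj i.1).1 i.2)
    have hmeas : StronglyMeasurable fun η : Bl β κ → ℝ => tr b' (η j₀) :=
      (Pool.Agent.TH277.HT.tr_meas hadm).comp_measurable (measurable_pi_apply j₀)
    have hzero : ∀ η : Bl β κ → ℝ, (∃ i, η i ∉ Icc (-1 : ℝ) 1) → tr b' (η j₀) = 0 := by
      rintro η ⟨i, hi⟩
      rw [huniq i] at hi
      exact Pool.Agent.TH277.HT.tr_zero b' hi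
    refine ⟨fun η => tr b' (η j₀), hmeas, hint _ hmeas
      (fun η => Pool.Agent.TH277.HT.tr_bd hadm _) hzero, ?_, ?_, ?_⟩
    · refine (hC₁ (Bl β κ) j₀ huniq H b' hadm).trans ?_
      exact_mod_cast le_self_add
    · intro ξ hξ
      have h1 : ξ j ∈ Icc (-1 : ℝ) 1 := ⟨hξ.1 j, hξ.2 j⟩
      simp only [tr, hj₀]
      rw [indicator_of_mem h1, hb', indicator_of_mem h1, hgb]
    · rintro ξ ⟨i, hi, hξi⟩
      exact hzero (fun j => ξ j.1) ⟨⟨i, hi⟩, hξi⟩
  rcases hg with hg | hg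
  · exact hsingle hg
  · by_cases hc1 : Fintype.card (Bl β κ) = 1
    · exact hsingle (hg.single hc1)
    · obtain ⟨c, R, a, ham, ha1, haR, hcR, hga⟩ := hg
      obtain ⟨⟨j₁, hj₁⟩⟩ := Fintype.card_pos_iff.1 hcard
      have hR1 : R ≤ 1 := by linarith [hcR j₁ hj₁, abs_nonneg (c j₁)]
      have hrad : Rad a := ⟨⟨ham, ha1⟩, fun ρ hρ => haR ρ (by linarith)⟩
      set k : ℕ := Fintype.card (Bl β κ) - 2 with hk
      have hk2 : Fintype.card (Bl β κ) = k + 2 := by omega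
      have hcn : Fintype.card (Bl β κ) ≤ n := by
        have := Fintype.card_subtype_le (fun j : Fin n => β j = κ)
        rwa [Fintype.card_fin] at this
      have hkn : (k : ℝ) + 2 ≤ ν := by
        refine le_trans (le_of_eq ?_) hcν
        rw [hk2]
        push_cast
        rfl
      have hmeas : StronglyMeasurable fun η : Bl β κ → ℝ => a (√(∑ j, (η j - c j.1) ^ 2)) :=
        ham.comp_measurable (by fun_prop)
      have hzero : ∀ η : Bl β κ → ℝ, (∃ i, η i ∉ Icc (-1 : ℝ) 1) →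
          a (√(∑ j, (η j - c j.1) ^ 2)) = 0 := by
        rintro η ⟨i, hi⟩
        apply haR
        have h1 : R < |η i - c i.1| := by
          have h2 := hcR i.1 i.2
          have h3 : 1 < |η i| := by
            by_contra h4
            exact hi (abs_le.1 (not_lt.1 h4))
          have h5 : |η i| ≤ |η i - c i.1| + |c i.1| := by
            calc |η i| = |(η i - c i.1) + c i.1| := by ring_nf
              _ ≤ _ := abs_add_le _ _
          linarith
        refine lt_of_lt_of_le h1 (Real.le_sqrt_of_sq_le ?_)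
        rw [sq_abs]
        exact Finset.single_le_sum (f := fun j : Bl β κ => (η j - c j.1) ^ 2)
          (fun j _ => sq_nonneg _) (Finset.mem_univ i)
      refine ⟨fun η => a (√(∑ j, (η j - c j.1) ^ 2)), hmeas, hint _ hmeas (fun η => ha1 _) hzero,
        ?_, ?_, ?_⟩
      · refine (hC₂ k hkn (Bl β κ) hk2 H a (fun j => c j.1) hrad).trans ?_
        have h1 : C₂ k ≤ ∑ k ∈ Finset.range n, C₂ k :=
          Finset.single_le_sum (fun _ _ => bot_le) (Finset.mem_range.2 (by omega))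
        exact_mod_cast h1.trans le_add_self
      · intro ξ _
        rw [hga]
        congr 2
        exact Finset.sum_subtype (Finset.univ.filter fun j => β j = κ) (by simp)
          (fun j => (ξ j - c j) ^ 2)
      · rintro ξ ⟨i, hi, hξi⟩
        exact hzero (fun j => ξ j.1) ⟨⟨i, hi⟩, hξi⟩

/-- the data of a block of the third kind -/
lemma dataB (n : ℕ) (ν : ℝ) (hν : 1 ≤ ν) (hnν : (n : ℝ) / 2 ≤ ν) (q : ℝ)
    (hq : 2 * (ν + 1) / ν < q) :
    ∃ C : ℝ≥0, ∀ (N : ℕ) (β : Fin n → Fin N) (κ : Fin N) (_ : 0 < Fintype.card (Bl β κ))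
    (H : Type) [NormedAddCommGroup H] [InnerProductSpace ℂ H] [CompleteSpace H]
    (g : (Fin n → ℝ) → H), Rough β κ g →
    ∃ b : (Bl β κ → ℝ) → H, StronglyMeasurable b ∧ Integrable b ∧
      (∫⁻ t : ℝ, (∫⁻ y : Bl β κ → ℝ, ‖Eb b y t‖ₑ ^ q) ^
        (ν / ((Fintype.card (Bl β κ) : ℝ) / 2)) ≤ C) ∧
      (∀ ξ ∈ Icc (-1 : Fin n → ℝ) 1, g ξ = b fun j => ξ j.1) ∧
      (∀ ξ : Fin n → ℝ, (∃ j, β j = κ ∧ ξ j ∉ Icc (-1 : ℝ) 1) → (b fun j => ξ j.1) = 0) := by
  have hex : ∀ m : ℕ, ∃ C : ℝ≥0, 0 < m → m ≤ n → ∀ (ι : Type) [Fintype ι], Fintype.card ι = m →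
      ∀ (H : Type) [NormedAddCommGroup H] [InnerProductSpace ℂ H] [CompleteSpace H]
        (g : (ι → ℝ) → H), StronglyMeasurable g → (∀ η, ‖g η‖ ≤ 1) →
        (∀ η, (∃ j, η j ∉ Icc (-1 : ℝ) 1) → g η = 0) →
      ∫⁻ t : ℝ, (∫⁻ y : ι → ℝ, ‖Eb g y t‖ₑ ^ q) ^ (ν / ((Fintype.card ι : ℝ) / 2)) ≤ C := by
    intro m
    by_cases hm : 0 < m ∧ m ≤ n
    · have h1 : (m : ℝ) / 2 ≤ ν := by
        refine le_trans ?_ hnν
        have : (m : ℝ) ≤ n := by exact_mod_cast hm.2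
        linarith
      obtain ⟨C, hC⟩ := block_rough m hm.1 ν h1 q hq
      exact ⟨C, fun _ _ => hC⟩
    · exact ⟨0, fun h1 h2 => absurd ⟨h1, h2⟩ hm⟩
  choose C₂ hC₂ using hex
  refine ⟨∑ m ∈ Finset.range (n + 1), C₂ m, ?_⟩
  rintro N β κ hcard H _ _ _ g ⟨hgm, hg1, hgβ⟩
  have hcn : Fintype.card (Bl β κ) ≤ n := by
    have := Fintype.card_subtype_le (fun j : Fin n => β j = κ)
    rwa [Fintype.card_fin] at this
  -- extension by zero
  set ex : (Bl β κ → ℝ) → (Fin n → ℝ) := fun η j => if h : β j = κ then η ⟨j, h⟩ else 0 with hex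
  have hexm : Measurable ex := by
    refine measurable_pi_iff.2 fun j => ?_
    by_cases h : β j = κ
    · have : (fun η : Bl β κ → ℝ => ex η j) = fun η => η ⟨j, h⟩ := by
        ext η
        simp only [hex]
        rw [dif_pos h]
      rw [this]
      exact measurable_pi_apply _
    · have : (fun η : Bl β κ → ℝ => ex η j) = fun _ => 0 := by
        ext η
        simp only [hex]
        rw [dif_neg h]
      rw [this]
      exact measurable_const
  set b : (Bl β κ → ℝ) → H := (Icc (-1 : Bl β κ → ℝ) 1).indicator fun η => g (ex η) with hb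
  have hbm : StronglyMeasurable b := (hgm.comp_measurable hexm).indicator measurableSet_Icc
  have hexI : ∀ η ∈ Icc (-1 : Bl β κ → ℝ) 1, ex η ∈ Icc (-1 : Fin n → ℝ) 1 := by
    intro η hη
    constructor
    · intro j
      simp only [hex]
      by_cases h : β j = κ
      · rw [dif_pos h]
        exact hη.1 _
      · rw [dif_neg h]
        simp
    · intro j
      simp only [hex]
      by_cases h : β j = κ
      · rw [dif_pos h]
        exact hη.2 _
      · rw [dif_neg h]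
        simp
  have hb1 : ∀ η, ‖b η‖ ≤ 1 := by
    intro η
    by_cases h : η ∈ Icc (-1 : Bl β κ → ℝ) 1
    · rw [hb, indicator_of_mem h]
      exact hg1 _ (hexI η h)
    · rw [hb, indicator_of_notMem h, norm_zero]
      exact zero_le_one
  have hb0 : ∀ η, (∃ j, η j ∉ Icc (-1 : ℝ) 1) → b η = 0 := by
    rintro η ⟨j, hj⟩
    rw [hb, indicator_of_notMem]
    intro h
    exact hj ⟨h.1 j, h.2 j⟩
  have hbi : Integrable b := by
    apply int_box hbm.aestronglyMeasurable (S := Icc (-1 : Bl β κ → ℝ) 1)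
      isCompact_Icc.measure_lt_top 1 hb1
    intro η hη
    exact indicator_of_notMem hη _
  refine ⟨b, hbm, hbi, ?_, ?_, ?_⟩
  · refine (hC₂ _ hcard hcn (Bl β κ) rfl H b hbm hb1 hb0).trans ?_
    have h1 : C₂ (Fintype.card (Bl β κ)) ≤ ∑ m ∈ Finset.range (n + 1), C₂ m :=
      Finset.single_le_sum (fun _ _ => bot_le) (Finset.mem_range.2 (by omega))
    exact_mod_cast h1
  · intro ξ hξ
    have h1 : (fun j : Bl β κ => ξ j.1) ∈ Icc (-1 : Bl β κ → ℝ) 1 :=
      ⟨fun j => hξ.1 j.1, fun j => hξ.2 j.1⟩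
    rw [hb, indicator_of_mem h1]
    apply hgβ
    intro j hj
    simp only [hex]
    rw [dif_pos hj]
  · rintro ξ ⟨i, hi, hξi⟩
    exact hb0 (fun j => ξ j.1) ⟨⟨i, hi⟩, hξi⟩

end Run7.h303.RB
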