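import Mathlib
import Pool.Agent.Run7.h303.RB.R4
set_option autoImplicit false
set_option linter.unusedSectionVars false

/-! Blocks with arbitrary functions: the main estimate and superpositions. -/

namespace Run7.h303.RB

open MeasureTheory Set Filter Topology Module
open scoped ENNReal NNReal RealInnerProductSpace
open Pool.Agent.TH277.HT (ch E1 Adm tr planch1 ch_norm ch_cont lint_mul ch_add ch_sum)

/-- multilinear forms of block functions, at most `p` coordinates in the blocks with arbitrary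
functions -/
def RBlocks (n p : ℕ) (f : (Fin n → ℝ) → ℂ) : Prop :=
  ∃ (N : ℕ) (β : Fin n → Fin N) (S : Finset (Fin N)) (H : Type) (_ : NormedAddCommGroup H)
    (_ : InnerProductSpace ℂ H) (_ : CompleteSpace H)
    (M : ContinuousMultilinearMap ℂ (fun _ : Fin N => H) ℂ) (g : Fin N → (Fin n → ℝ) → H),
    Function.Surjective β ∧ (∀ x, ‖M x‖ ≤ ∏ k, ‖x k‖) ∧
    (∀ k, k ∉ S → Single β k (g k) ∨ Radial β k (g k)) ∧ (∀ k ∈ S, Rough β k (g k)) ∧
    (Finset.univ.filter fun j => β j ∈ S).card ≤ p ∧ ∀ ξ, f ξ = M fun k => g k ξ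

lemma RBlocks.meas {n p : ℕ} {f : (Fin n → ℝ) → ℂ} (h : RBlocks n p f) : StronglyMeasurable f := by
  obtain ⟨N, β, S, H, _, _, _, M, g, _, _, hg, hgS, _, hf⟩ := h
  have h1 : f = fun ξ => M fun k => g k ξ := funext hf
  rw [h1]
  apply M.cont.comp_stronglyMeasurable
  refine Pool.Agent.TH277.HT.tuple_meas g fun k => ?_
  by_cases hk : k ∈ S
  · exact (hgS k hk).1
  · exact (hg k hk).elim Single.meas Radial.meas

lemma RBlocks.bd {n p : ℕ} {f : (Fin n → ℝ) → ℂ} (h : RBlocks n p f) {ξ : Fin n → ℝ}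
    (hξ : ξ ∈ Icc (-1 : Fin n → ℝ) 1) : ‖f ξ‖ ≤ 1 := by
  obtain ⟨N, β, S, H, _, _, _, M, g, _, hM, hg, hgS, _, hf⟩ := h
  rw [hf]
  refine (hM _).trans ?_
  apply Finset.prod_le_one fun k _ => norm_nonneg _
  intro k _
  by_cases hk : k ∈ S
  · exact (hgS k hk).2.1 ξ hξ
  · exact (hg k hk).elim (fun h => h.bd hξ) (fun h => h.bd)

/-- The estimate for a given number of coordinates in the blocks with arbitrary functions. -/
lemma main_p (n : ℕ) (hn : 2 ≤ n) (p' : ℕ) (hp : p' ≤ n) (q : ℝ)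
    (hq : 2 * (((n : ℝ) - p' / 2) + 1) / ((n : ℝ) - p' / 2) < q) :
    ∃ C : ℝ≥0, ∀ (N : ℕ) (β : Fin n → Fin N) (S : Finset (Fin N)) (H : Type)
    [NormedAddCommGroup H] [InnerProductSpace ℂ H] [CompleteSpace H]
    (M : ContinuousMultilinearMap ℂ (fun _ : Fin N => H) ℂ) (g : Fin N → (Fin n → ℝ) → H),
    Function.Surjective β → (∀ x, ‖M x‖ ≤ ∏ k, ‖x k‖) →
    (∀ k, k ∉ S → Single β k (g k) ∨ Radial β k (g k)) → (∀ k ∈ S, Rough β k (g k)) →
    (Finset.univ.filter fun j => β j ∈ S).card = p' →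
      ∫⁻ y : (Fin n → ℝ) × ℝ, ‖ext (fun ξ => M fun k => g k ξ) y‖ₑ ^ q ≤ C := by
  have hn2 : (2 : ℝ) ≤ n := by exact_mod_cast hn
  have hpn : (p' : ℝ) ≤ n := by exact_mod_cast hp
  set ν : ℝ := (n : ℝ) - p' / 2 with hν
  have hν1 : 1 ≤ ν := by rw [hν]; linarith
  have hν0 : 0 < ν := by linarith
  have hnν : (n : ℝ) / 2 ≤ ν := by rw [hν]; linarith
  have hq0 : 0 < q := lt_trans (by positivity) hq
  obtain ⟨C₁, hC₁⟩ := dataA n ν hν1 q hq
  obtain ⟨C₂, hC₂⟩ := dataB n ν hν1 hnν q hq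
  refine ⟨C₁ + C₂, ?_⟩
  intro N β S H _ _ _ M g hβ hM hg hgS hcardS
  have hcard : ∀ κ, 0 < Fintype.card (Bl β κ) := by
    intro κ
    obtain ⟨j, hj⟩ := hβ κ
    exact Fintype.card_pos_iff.2 ⟨⟨j, hj⟩⟩
  have htot : ∑ κ, Fintype.card (Bl β κ) = n := by
    have e2 := Fintype.sum_fiberwise β fun _ : Fin n => (1 : ℕ)
    simp only [Finset.sum_const, Finset.card_univ, smul_eq_mul, mul_one, Fintype.card_fin] at e2
    exact e2
  have hS : ∑ κ ∈ S, Fintype.card (Bl β κ) = p' := by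
    rw [← hcardS, Finset.card_eq_sum_card_fiberwise (f := β) (t := S)]
    · apply Finset.sum_congr rfl
      intro κ hκ
      rw [Fintype.card_subtype, Finset.filter_filter]
      congr 1
      ext j
      simp only [Finset.mem_filter, Finset.mem_univ, true_and]
      constructor
      · intro h
        exact ⟨by rw [h]; exact hκ, h⟩
      · exact fun h => h.2
    · intro j hj
      simpa using hj
  classical
  set e : Fin N → ℝ := fun κ =>
    if κ ∈ S then (Fintype.card (Bl β κ) : ℝ) / 2 else Fintype.card (Bl β κ) with he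
  have he0 : ∀ κ, 0 < e κ := by
    intro κ
    have h1 : (0 : ℝ) < Fintype.card (Bl β κ) := by exact_mod_cast hcard κ
    simp only [he]
    split_ifs <;> positivity
  have hsum : ∑ κ, e κ = ν := by
    have e1 : ∀ κ, e κ = (Fintype.card (Bl β κ) : ℝ) -
        (if κ ∈ S then (Fintype.card (Bl β κ) : ℝ) / 2 else 0) := by
      intro κ
      simp only [he]
      split_ifs <;> ring
    simp only [e1]
    rw [Finset.sum_sub_distrib, Finset.sum_ite_mem, Finset.univ_inter, ← Finset.sum_div, hν]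
    congr 1
    · exact_mod_cast htot
    · congr 1
      exact_mod_cast hS
  have hex : ∀ κ, ∃ b : (Bl β κ → ℝ) → H, StronglyMeasurable b ∧ Integrable b ∧
      (∫⁻ t : ℝ, (∫⁻ y : Bl β κ → ℝ, ‖Eb b y t‖ₑ ^ q) ^ (ν / e κ) ≤ (C₁ + C₂ : ℝ≥0)) ∧
      (∀ ξ ∈ Icc (-1 : Fin n → ℝ) 1, g κ ξ = b fun j => ξ j.1) ∧
      (∀ ξ : Fin n → ℝ, (∃ j, β j = κ ∧ ξ j ∉ Icc (-1 : ℝ) 1) → (b fun j => ξ j.1) = 0) := by
    intro κ
    by_cases hκ : κ ∈ S
    · obtain ⟨b, h1, h2, h3, h4, h5⟩ := hC₂ N β κ (hcard κ) H (g κ) (hgS κ hκ)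
      refine ⟨b, h1, h2, ?_, h4, h5⟩
      simp only [he]
      rw [if_pos hκ]
      refine h3.trans ?_
      exact_mod_cast (le_add_self : C₂ ≤ C₁ + C₂)
    · have hle : (Fintype.card (Bl β κ) : ℝ) ≤ ν := by
        have h6 : Fintype.card (Bl β κ) + ∑ κ' ∈ S, Fintype.card (Bl β κ') ≤ n := by
          rw [← Finset.sum_insert (f := fun κ' => Fintype.card (Bl β κ')) hκ]
          exact (Finset.sum_le_sum_of_subset (Finset.subset_univ _)).trans htot.le
        rw [hS] at h6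
        have h7 : (Fintype.card (Bl β κ) : ℝ) + p' ≤ n := by exact_mod_cast h6
        have h8 : (0 : ℝ) ≤ p' := Nat.cast_nonneg _
        rw [hν]
        linarith
      obtain ⟨b, h1, h2, h3, h4, h5⟩ := hC₁ N β κ (hcard κ) hle H (g κ) (hg κ hκ)
      refine ⟨b, h1, h2, ?_, h4, h5⟩
      simp only [he]
      rw [if_neg hκ]
      refine h3.trans ?_
      exact_mod_cast (le_self_add : C₁ ≤ C₁ + C₂)
  choose b hbm hbi hbC hbg hb0 using hex
  refine le_trans (le_of_eq ?_) (blocksG β e he0 ν hν0 hsum q hq0 (C₁ + C₂) M hM b hbm hbi hbC)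
  apply lintegral_congr
  intro y
  congr 2
  unfold ext
  rw [← integral_indicator measurableSet_Icc]
  apply integral_congr_ae
  refine ae_of_all _ fun ξ => ?_
  simp only
  by_cases h : ξ ∈ Icc (-1 : Fin n → ℝ) 1
  · rw [indicator_of_mem h]
    congr 2
    ext κ
    exact hbg κ ξ h
  · rw [indicator_of_notMem h]
    have h2 : ∃ j, ξ j ∉ Icc (-1 : ℝ) 1 := by
      by_contra hc
      push Not at hc
      exact h ⟨fun j => (hc j).1, fun j => (hc j).2⟩
    obtain ⟨j, hj⟩ := h2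
    rw [M.map_coord_zero (β j) (hb0 (β j) ξ ⟨j, rfl, hj⟩), mul_zero]

theorem mainR (n : ℕ) (hn : 2 ≤ n) (p : ℕ) (hp : p ≤ n) (q : ℝ)
    (hq : 2 + 4 / (2 * (n : ℝ) - p) < q) :
    ∃ C : ℝ≥0, ∀ f : (Fin n → ℝ) → ℂ, RBlocks n p f →
      ∫⁻ y : (Fin n → ℝ) × ℝ, ‖ext f y‖ₑ ^ q ≤ C := by
  have hn2 : (2 : ℝ) ≤ n := by exact_mod_cast hn
  have hpn : (p : ℝ) ≤ n := by exact_mod_cast hp
  have hex : ∀ p' : ℕ, ∃ C : ℝ≥0, p' ≤ p → ∀ (N : ℕ) (β : Fin n → Fin N) (S : Finset (Fin N))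
    (H : Type) [NormedAddCommGroup H] [InnerProductSpace ℂ H] [CompleteSpace H]
    (M : ContinuousMultilinearMap ℂ (fun _ : Fin N => H) ℂ) (g : Fin N → (Fin n → ℝ) → H),
    Function.Surjective β → (∀ x, ‖M x‖ ≤ ∏ k, ‖x k‖) →
    (∀ k, k ∉ S → Single β k (g k) ∨ Radial β k (g k)) → (∀ k ∈ S, Rough β k (g k)) →
    (Finset.univ.filter fun j => β j ∈ S).card = p' →
      ∫⁻ y : (Fin n → ℝ) × ℝ, ‖ext (fun ξ => M fun k => g k ξ) y‖ₑ ^ q ≤ C := by
    intro p'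
    by_cases h : p' ≤ p
    · have h1 : (p' : ℝ) ≤ p := by exact_mod_cast h
      have h2 : 2 * (((n : ℝ) - p' / 2) + 1) / ((n : ℝ) - p' / 2) < q := by
        refine lt_of_le_of_lt ?_ hq
        have e1 : 2 * (((n : ℝ) - p' / 2) + 1) / ((n : ℝ) - p' / 2) = 2 + 4 / (2 * (n : ℝ) - p') := by
          have h3 : (n : ℝ) - p' / 2 ≠ 0 := by
            have : 0 < (n : ℝ) - p' / 2 := by linarith
            exact this.ne'
          have h4 : 2 * (n : ℝ) - p' ≠ 0 := by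
            have : 0 < 2 * (n : ℝ) - p' := by linarith
            exact this.ne'
          field_simp
          ring
        rw [e1]
        have h5 : 0 < 2 * (n : ℝ) - p := by linarith
        gcongr
      obtain ⟨C, hC⟩ := main_p n hn p' (h.trans hp) q h2
      exact ⟨C, fun _ => hC⟩
    · exact ⟨0, fun h' => absurd h' h⟩
  choose C hC using hex
  refine ⟨∑ p' ∈ Finset.range (p + 1), C p', ?_⟩
  rintro f ⟨N, β, S, H, _, _, _, M, g, hβ, hM, hg, hgS, hcardS, hf⟩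
  have h1 : f = fun ξ => M fun k => g k ξ := funext hf
  rw [h1]
  refine (hC _ hcardS N β S H M g hβ hM hg hgS rfl).trans ?_
  have h2 : C (Finset.univ.filter fun j => β j ∈ S).card ≤ ∑ p' ∈ Finset.range (p + 1), C p' :=
    Finset.single_le_sum (fun _ _ => bot_le) (Finset.mem_range.2 (by omega))
  exact_mod_cast h2

/-- superpositions -/
theorem superR (n : ℕ) (hn : 2 ≤ n) (p : ℕ) (hp : p ≤ n) (q : ℝ)
    (hq : 2 + 4 / (2 * (n : ℝ) - p) < q) :
    ∃ C : ℝ≥0, ∀ (l : ℕ → ℂ) (z : ℕ → (Fin n → ℝ) × ℝ) (f : ℕ → (Fin n → ℝ) → ℂ),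
      ∑' i, ‖l i‖ₑ ≤ 1 → (∀ i, RBlocks n p (f i)) →
      ∫⁻ y : (Fin n → ℝ) × ℝ, ‖ext (fun ξ => ∑' i, l i *
        (ch (∑ j, ξ j * (z i).1 j + (∑ j, ξ j ^ 2) * (z i).2) * f i ξ)) y‖ₑ ^ q ≤ C := by
  obtain ⟨C, hC⟩ := mainR n hn p hp q hq
  refine ⟨C, ?_⟩
  intro l z f hl hf
  have hn0 : (0 : ℝ) < n := by
    have : (2 : ℝ) ≤ n := by exact_mod_cast hn
    linarith
  have hpn : (p : ℝ) ≤ n := by exact_mod_cast hp
  have h5 : 0 < 4 / (2 * (n : ℝ) - p) := div_pos (by norm_num) (by linarith)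
  have hq0 : 0 < q := by linarith
  have hq1 : 1 ≤ q := by linarith
  -- the sum of the extensions
  have hvol : (volume : Measure (Fin n → ℝ)) (Icc (-1 : Fin n → ℝ) 1) < ⊤ :=
    isCompact_Icc.measure_lt_top
  have h1 : ∀ y : (Fin n → ℝ) × ℝ, ext (fun ξ => ∑' i, l i *
      (ch (∑ j, ξ j * (z i).1 j + (∑ j, ξ j ^ 2) * (z i).2) * f i ξ)) y =
        ∑' i, l i * ext (f i) (y + z i) := by
    intro y
    have e1 : ∀ ξ : Fin n → ℝ, ch (∑ j, ξ j * y.1 j + (∑ j, ξ j ^ 2) * y.2) * (∑' i, l i *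
        (ch (∑ j, ξ j * (z i).1 j + (∑ j, ξ j ^ 2) * (z i).2) * f i ξ)) =
        ∑' i, l i * (ch (∑ j, ξ j * (y + z i).1 j + (∑ j, ξ j ^ 2) * (y + z i).2) * f i ξ) := by
      intro ξ
      rw [← tsum_mul_left]
      apply tsum_congr
      intro i
      have e2 : ∑ j, ξ j * (y + z i).1 j + (∑ j, ξ j ^ 2) * (y + z i).2 =
          (∑ j, ξ j * y.1 j + (∑ j, ξ j ^ 2) * y.2) +
            (∑ j, ξ j * (z i).1 j + (∑ j, ξ j ^ 2) * (z i).2) := by
        simp only [Prod.fst_add, Prod.snd_add, Pi.add_apply, mul_add, Finset.sum_add_distrib]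
        ring
      rw [e2, ch_add (∑ j, ξ j * y.1 j + (∑ j, ξ j ^ 2) * y.2)]
      ring
    unfold ext
    simp only [e1]
    rw [integral_tsum]
    · apply tsum_congr
      intro i
      rw [integral_const_mul]
    · intro i
      apply StronglyMeasurable.aestronglyMeasurable
      apply StronglyMeasurable.const_mul
      exact ((ch_cont.comp (by fun_prop : Continuous fun ξ : Fin n → ℝ =>
        ∑ j, ξ j * (y + z i).1 j + (∑ j, ξ j ^ 2) * (y + z i).2)).stronglyMeasurable).mul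
          (hf i).meas
    · have e3 : ∀ i, ∫⁻ ξ in Icc (-1 : Fin n → ℝ) 1, ‖l i * (ch (∑ j, ξ j * (y + z i).1 j +
          (∑ j, ξ j ^ 2) * (y + z i).2) * f i ξ)‖ₑ ≤ ‖l i‖ₑ * volume (Icc (-1 : Fin n → ℝ) 1) := by
        intro i
        rw [← setLIntegral_const]
        apply setLIntegral_mono' measurableSet_Icc
        intro ξ hξ
        rw [enorm_mul, enorm_mul, Pool.Agent.TH277.HT.ch_enorm, one_mul]
        calc ‖l i‖ₑ * ‖f i ξ‖ₑ ≤ ‖l i‖ₑ * 1 := by
              gcongr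
              rw [← ofReal_norm, ENNReal.ofReal_le_one]
              exact (hf i).bd hξ
          _ = ‖l i‖ₑ := mul_one _
      refine ne_top_of_le_ne_top ?_ (ENNReal.tsum_le_tsum e3)
      rw [ENNReal.tsum_mul_right]
      exact ENNReal.mul_ne_top (ne_top_of_le_ne_top ENNReal.one_ne_top hl) hvol.ne
  simp only [h1]
  -- Jensen's inequality
  set μ : Measure ℕ := Measure.sum fun i => ‖l i‖ₑ • Measure.dirac i with hμ
  have hμi : ∀ X : ℕ → ℝ≥0∞, ∫⁻ i, X i ∂μ = ∑' i, ‖l i‖ₑ * X i := by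
    intro X
    rw [hμ, lintegral_sum_measure]
    apply tsum_congr
    intro i
    rw [lintegral_smul_measure, lintegral_dirac, smul_eq_mul]
  have hμ1 : μ univ ≤ 1 := by
    rw [← lintegral_one, hμi]
    simpa using hl
  have h2 : ∀ y : (Fin n → ℝ) × ℝ, ‖∑' i, l i * ext (f i) (y + z i)‖ₑ ^ q ≤
      ∑' i, ‖l i‖ₑ * ‖ext (f i) (y + z i)‖ₑ ^ q := by
    intro y
    calc ‖∑' i, l i * ext (f i) (y + z i)‖ₑ ^ q
        ≤ (∑' i, ‖l i‖ₑ * ‖ext (f i) (y + z i)‖ₑ) ^ q := by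
          gcongr
          refine enorm_tsum_le_tsum_enorm.trans (le_of_eq ?_)
          apply tsum_congr
          intro i
          rw [enorm_mul]
      _ ≤ _ := by
          rw [← hμi, ← hμi]
          exact jensen hμ1 hq1 (measurable_of_countable _).aemeasurable
  have hmeas : ∀ i, Measurable fun y : (Fin n → ℝ) × ℝ => ‖ext (f i) (y + z i)‖ₑ ^ q := by
    intro i
    exact (((ext_meas (hf i).meas).enorm).comp (by fun_prop : Measurable
      fun y : (Fin n → ℝ) × ℝ => y + z i)).pow_const q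
  haveI : (volume : Measure ((Fin n → ℝ) × ℝ)).IsAddHaarMeasure :=
    Measure.prod.instIsAddHaarMeasure _ _
  calc ∫⁻ y : (Fin n → ℝ) × ℝ, ‖∑' i, l i * ext (f i) (y + z i)‖ₑ ^ q
      ≤ ∫⁻ y : (Fin n → ℝ) × ℝ, ∑' i, ‖l i‖ₑ * ‖ext (f i) (y + z i)‖ₑ ^ q := lintegral_mono h2
    _ = ∑' i, ‖l i‖ₑ * ∫⁻ y : (Fin n → ℝ) × ℝ, ‖ext (f i) (y + z i)‖ₑ ^ q := by
        rw [lintegral_tsum fun i => ((hmeas i).const_mul _).aemeasurable]
        apply tsum_congr
        intro i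
        rw [lintegral_const_mul _ (hmeas i)]
    _ ≤ ∑' i, ‖l i‖ₑ * C := by
        apply ENNReal.tsum_le_tsum
        intro i
        gcongr
        rw [lintegral_add_right_eq_self (fun y : (Fin n → ℝ) × ℝ => ‖ext (f i) y‖ₑ ^ q) (z i)]
        exact hC (f i) (hf i)
    _ ≤ C := by
        rw [ENNReal.tsum_mul_right]
        calc (∑' i, ‖l i‖ₑ) * (C : ℝ≥0∞) ≤ 1 * C := by gcongr
          _ = C := one_mul _


end Run7.h303.RB
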